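import Mathlib

/-!
# Cubic toroids and the degrees of their groups: definitions
-/

set_option autoImplicit false

namespace Pool.Agent.Tor

/-- The degrees of the faithful transitive permutation representations of a group `G`: all
`d > 0` such that there is an injective homomorphism from `G` to the symmetric group on `d` points
with transitive image. -/
def Degrees (G : Type) [Group G] : Set ℕ :=
  {d | 0 < d ∧ ∃ φ : G →* Equiv.Perm (Fin d), Function.Injective φ ∧ ∀ i j, ∃ g, φ g i = j}

/-- The symmetry group of the cubic tessellation of `E^n` with vertex set `ℤ^n`: all bijections of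
`ℤ^n` which preserve (squared) Euclidean distances. -/
def cubicGroup (n : ℕ) : Subgroup (Equiv.Perm (Fin n → ℤ)) where
  carrier := {f | ∀ x y, ∑ i, (f x i - f y i) ^ 2 = ∑ i, (x i - y i) ^ 2}
  mul_mem' {f g} hf hg x y := by
    rw [Equiv.Perm.mul_apply, Equiv.Perm.mul_apply, hf, hg]
  one_mem' x y := rfl
  inv_mem' {f} hf x y := by
    rw [← hf]
    simp

/-- The vector `(s^k, 0^{n-k})`. -/
def seed (n k : ℕ) (s : ℤ) : Fin n → ℤ := fun i => if i.val < k then s else 0

/-- The lattice generated by the images of `(s^k, 0^{n-k})` under the symmetries of the cubic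
tessellation which fix the origin. -/
def lattice (n k : ℕ) (s : ℤ) : AddSubgroup (Fin n → ℤ) :=
  AddSubgroup.closure {v | ∃ f ∈ cubicGroup n, f 0 = 0 ∧ f (seed n k s) = v}

/-- The translations of the cubic tessellation by the vectors of the lattice. -/
def translations (n k : ℕ) (s : ℤ) : Subgroup (cubicGroup n) where
  carrier := {f | ∃ v ∈ lattice n k s, ∀ x, f.1 x = x + v}
  mul_mem' {f g} := by
    rintro ⟨v, hv, hf⟩ ⟨w, hw, hg⟩
    refine ⟨w + v, add_mem hw hv, fun x => ?_⟩
    show f.1 (g.1 x) = _
    rw [hf, hg, add_assoc]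
  one_mem' := ⟨0, zero_mem _, fun x => (add_zero x).symm⟩
  inv_mem' {f} := by
    rintro ⟨v, hv, hf⟩
    refine ⟨-v, neg_mem hv, fun x => ?_⟩
    show f.1.symm x = _
    rw [Equiv.symm_apply_eq, hf]
    abel

end Pool.Agent.Tor
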