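import Mathlib

/-!
# Sequences of subgroups with repetitions: definitions
-/

set_option autoImplicit false

namespace Pool.Agent.Tor

/-- For the list `(G_1, a_1), .., (G_r, a_r)`, the term with number `j = 0, 1, ..` of the sequence
`G_1, .., G_1, G_2, .., G_2, .., G_r, .., G_r, T, T, ..` in which each `G_i` is repeated `a_i`
times. -/
def layerAt {T : Type} [AddCommGroup T] : List (AddSubgroup T × ℕ) → ℕ → AddSubgroup T
  | [], _ => ⊤
  | x :: L, j => if j < x.2 then x.1 else layerAt L (j - x.2)

/-- For the list `(G_1, a_1), .., (G_r, a_r)`, the sum of the `a_i`. -/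
def tot {T : Type} [AddCommGroup T] (L : List (AddSubgroup T × ℕ)) : ℕ := (L.map Prod.snd).sum

/-- The list `(G_1, min a_1 R), .., (G_r, min a_r R)`. -/
def cut {T : Type} [AddCommGroup T] (R : ℕ) (L : List (AddSubgroup T × ℕ)) :
    List (AddSubgroup T × ℕ) :=
  L.map fun x => (x.1, min x.2 R)

end Pool.Agent.Tor
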