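import Mathlib
import Pool.Agent.Tor.Defs

/-!
# Signed permutations and the isometries of `ℤ^n`
-/

set_option autoImplicit false

namespace Pool.Agent.Tor

/-- The group of signed permutations. -/
abbrev W (n : ℕ) : Type := (Fin n → ℤˣ) ⋊[mulAutArrow] Equiv.Perm (Fin n)

instance finiteW (n : ℕ) : Finite (W n) :=
  Finite.of_equiv _ (SemidirectProduct.equivProd (φ := mulAutArrow)
    (N := Fin n → ℤˣ) (G := Equiv.Perm (Fin n))).symm

/-- The lattice `ℤ^n`. -/
abbrev Z (n : ℕ) : Type := Fin n → ℤ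

instance instActW (n : ℕ) : DistribMulAction (W n) (Z n) where
  smul w x := fun i => (w.left i : ℤ) * x (w.right⁻¹ i)
  one_smul x := by
    funext i
    show (((1 : W n).left i : ℤˣ) : ℤ) * x ((1 : W n).right⁻¹ i) = x i
    simp
  mul_smul w w' x := by
    funext i
    show (((w * w').left i : ℤˣ) : ℤ) * x ((w * w').right⁻¹ i) =
      (w.left i : ℤ) * ((w'.left (w.right⁻¹ i) : ℤ) * x (w'.right⁻¹ (w.right⁻¹ i)))
    have h1 : (w * w').left i = w.left i * w'.left (w.right⁻¹ i) := rfl
    have h2 : (w * w').right⁻¹ i = w'.right⁻¹ (w.right⁻¹ i) := by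
      rw [SemidirectProduct.mul_right, mul_inv_rev]
      rfl
    rw [h1, h2]
    push_cast
    ring
  smul_zero w := by
    funext i
    show (w.left i : ℤ) * 0 = 0
    simp
  smul_add w x y := by
    funext i
    show (w.left i : ℤ) * (x + y) (w.right⁻¹ i) = (w.left i : ℤ) * x (w.right⁻¹ i) +
      (w.left i : ℤ) * y (w.right⁻¹ i)
    rw [Pi.add_apply]
    ring

theorem smul_apply {n : ℕ} (w : W n) (x : Z n) (i : Fin n) :
    (w • x) i = (w.left i : ℤ) * x (w.right⁻¹ i) := rfl

theorem sq_unit (u : ℤˣ) : (u : ℤ) ^ 2 = 1 := by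
  rcases Int.units_eq_one_or u with h | h <;> rw [h] <;> norm_num

theorem mul_self_unit (u : ℤˣ) : (u : ℤ) * (u : ℤ) = 1 := by
  rcases Int.units_eq_one_or u with h | h <;> rw [h] <;> norm_num

theorem sum_sq_smul {n : ℕ} (w : W n) (x : Z n) : ∑ i, (w • x) i ^ 2 = ∑ i, x i ^ 2 := by
  have : ∀ i, (w • x) i ^ 2 = x (w.right⁻¹ i) ^ 2 := fun i => by
    rw [smul_apply, mul_pow, sq_unit, one_mul]
  simp_rw [this]
  exact Equiv.sum_comp (w.right⁻¹ : Equiv.Perm (Fin n)) (fun i => x i ^ 2)

/-- The linear isometry given by a signed permutation. -/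
def lin (n : ℕ) : W n →* cubicGroup n where
  toFun w := ⟨MulAction.toPerm w, fun x y => by
    have h := sum_sq_smul w (x - y)
    rw [smul_sub] at h
    exact h⟩
  map_one' := by
    ext1
    ext x
    simp
  map_mul' a b := by
    ext1
    ext1 x
    show (a * b) • x = a • b • x
    exact mul_smul a b x

/-- The translations of `ℤ^n`. -/
def tr (n : ℕ) : Multiplicative (Z n) →* cubicGroup n where
  toFun v := ⟨Equiv.addRight v.toAdd, fun x y => by
    refine Finset.sum_congr rfl fun i _ => ?_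
    show ((x + v.toAdd) i - (y + v.toAdd) i) ^ 2 = _
    rw [Pi.add_apply, Pi.add_apply]
    ring⟩
  map_one' := by
    ext1
    ext1 x
    exact add_zero x
  map_mul' a b := by
    ext1
    ext1 x
    show x + (a.toAdd + b.toAdd) = (x + b.toAdd) + a.toAdd
    abel

theorem lin_apply {n : ℕ} (w : W n) (x : Z n) : (lin n w).1 x = w • x := rfl

theorem tr_apply {n : ℕ} (v : Multiplicative (Z n)) (x : Z n) : (tr n v).1 x = x + v.toAdd := rfl

/-- A vector of `ℤ^n` of norm one is plus or minus a unit vector. -/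
theorem unit_vec {n : ℕ} (v : Z n) (h : ∑ i, v i ^ 2 = 1) :
    ∃ j, ∃ u : ℤˣ, v = Pi.single j (u : ℤ) := by
  obtain ⟨j, hj⟩ : ∃ j, v j ≠ 0 := by
    by_contra hc
    push Not at hc
    simp [hc] at h
  have h1 : ∑ i ∈ Finset.univ.erase j, v i ^ 2 = 1 - v j ^ 2 := by
    rw [← h, ← Finset.sum_erase_add Finset.univ _ (Finset.mem_univ j)]
    ring
  have h2 : 0 < v j ^ 2 := by positivity
  have h0 : 0 ≤ ∑ i ∈ Finset.univ.erase j, v i ^ 2 := Finset.sum_nonneg fun i _ => sq_nonneg _
  have h3 : v j ^ 2 = 1 := by omega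
  have h4 : ∑ i ∈ Finset.univ.erase j, v i ^ 2 = 0 := by omega
  have h5 : ∀ i, i ≠ j → v i = 0 := by
    intro i hi
    have := (Finset.sum_eq_zero_iff_of_nonneg (fun i _ => sq_nonneg (v i))).mp h4 i
      (Finset.mem_erase.mpr ⟨hi, Finset.mem_univ _⟩)
    exact pow_eq_zero_iff (two_ne_zero) |>.mp this
  have h6 : IsUnit (v j) := by
    rw [Int.isUnit_iff]
    exact sq_eq_one_iff_of_ne_zero' (v j) h3
  refine ⟨j, h6.unit, ?_⟩
  funext i
  by_cases hi : i = j
  · subst hi
    simp
  · rw [h5 i hi, Pi.single_eq_of_ne hi]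
where
  sq_eq_one_iff_of_ne_zero' (a : ℤ) (h : a ^ 2 = 1) : a = 1 ∨ a = -1 := by
    exact sq_eq_one_iff_of_ne_zero'' a h
  sq_eq_one_iff_of_ne_zero'' (a : ℤ) (h : a ^ 2 = 1) : a = 1 ∨ a = -1 := by
    have : (a - 1) * (a + 1) = 0 := by ring_nf; omega
    rcases mul_eq_zero.mp this with h | h
    · left; omega
    · right; omega

/-- The isometries of `ℤ^n`: signed permutations followed by translations. -/
theorem exists_lin {n : ℕ} (f : cubicGroup n) : ∃ w : W n, ∀ x, f.1 x = w • x + f.1 0 := by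
  obtain ⟨f, hf⟩ := f
  have hf' : ∀ x y, ∑ i, (f x i - f y i) ^ 2 = ∑ i, (x i - y i) ^ 2 := hf
  obtain ⟨g, hg⟩ : ∃ g : Z n → Z n, g = fun x => f x - f 0 := ⟨_, rfl⟩
  have hgx : ∀ x i, g x i = f x i - f 0 i := fun x i => by rw [hg]; rfl
  have hd : ∀ x y, ∑ i, (g x i - g y i) ^ 2 = ∑ i, (x i - y i) ^ 2 := by
    intro x y
    rw [← hf' x y]
    refine Finset.sum_congr rfl fun i _ => ?_
    rw [hgx, hgx]
    ring
  have hn : ∀ x, ∑ i, g x i ^ 2 = ∑ i, x i ^ 2 := by
    intro x
    have := hf' x 0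
    simp only [Pi.zero_apply, sub_zero] at this
    rw [← this]
    exact Finset.sum_congr rfl fun i _ => by rw [hgx]
  have hin : ∀ x y, ∑ i, g x i * g y i = ∑ i, x i * y i := by
    intro x y
    have h1 := hd x y
    have e1 : ∀ a b : Z n, ∑ i, (a i - b i) ^ 2 =
        ∑ i, a i ^ 2 + ∑ i, b i ^ 2 - 2 * ∑ i, a i * b i := by
      intro a b
      rw [Finset.mul_sum, ← Finset.sum_add_distrib, ← Finset.sum_sub_distrib]
      exact Finset.sum_congr rfl fun i _ => by ring
    rw [e1, e1, hn, hn] at h1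
    omega
  have hu : ∀ j, ∃ k, ∃ u : ℤˣ, g (Pi.single j 1) = Pi.single k (u : ℤ) := by
    intro j
    apply unit_vec
    rw [hn]
    rw [Finset.sum_eq_single j]
    · simp
    · intro b _ hb
      rw [Pi.single_eq_of_ne hb]
      norm_num
    · simp
  choose σ u hσ using hu
  have hinj : Function.Injective σ := by
    intro a b hab
    by_contra hne
    have h1 := hin (Pi.single a 1) (Pi.single b 1)
    rw [hσ, hσ, hab] at h1
    rw [Finset.sum_eq_single (σ b), Finset.sum_eq_single a] at h1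
    · rw [Pi.single_eq_same, Pi.single_eq_same, Pi.single_eq_same,
        Pi.single_eq_of_ne hne] at h1
      rcases Int.units_eq_one_or (u a) with h | h <;> rcases Int.units_eq_one_or (u b) with h' | h'
        <;> rw [h, h'] at h1 <;> norm_num at h1
    · intro c _ hc
      rw [Pi.single_eq_of_ne hc, zero_mul]
    · simp
    · intro c _ hc
      rw [Pi.single_eq_of_ne hc, zero_mul]
    · simp
  obtain ⟨τ, hτ⟩ : ∃ τ : Equiv.Perm (Fin n), ∀ i, τ i = σ i :=
    ⟨Equiv.ofBijective σ (Finite.injective_iff_bijective.mp hinj), fun i => rfl⟩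
  refine ⟨⟨fun i => u (τ⁻¹ i), τ⟩, fun x => ?_⟩
  have key : g x = (⟨fun i => u (τ⁻¹ i), τ⟩ : W n) • x := by
    funext i
    rw [smul_apply]
    show g x i = (u (τ⁻¹ i) : ℤ) * x (τ⁻¹ i)
    have h1 := hin x (Pi.single (τ⁻¹ i) 1)
    have h2 : σ (τ⁻¹ i) = i := by rw [← hτ]; simp
    rw [hσ, h2] at h1
    rw [Finset.sum_eq_single i, Finset.sum_eq_single (τ⁻¹ i)] at h1
    · rw [Pi.single_eq_same, Pi.single_eq_same, mul_one] at h1
      rw [← h1, mul_comm, mul_assoc, mul_self_unit, mul_one]
    · intro c _ hc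
      rw [Pi.single_eq_of_ne hc, mul_zero]
    · simp
    · intro c _ hc
      rw [Pi.single_eq_of_ne hc, mul_zero]
    · simp
  rw [← key]
  funext i
  show f x i = g x i + f 0 i
  rw [hgx]
  ring

theorem smul_single {n : ℕ} (w : W n) (j : Fin n) (a : ℤ) :
    w • (Pi.single j a : Z n) = Pi.single (w.right j) ((w.left (w.right j) : ℤ) * a) := by
  funext i
  rw [smul_apply]
  by_cases h : i = w.right j
  · subst h
    simp
  · rw [Pi.single_eq_of_ne h, Pi.single_eq_of_ne, mul_zero]
    intro hc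
    apply h
    rw [← hc]
    simp

/-- The action of the signed permutations is faithful. -/
theorem smul_faithful {n : ℕ} {w w' : W n} (h : ∀ x : Z n, w • x = w' • x) : w = w' := by
  have h1 : ∀ j, w.right j = w'.right j ∧ w.left (w.right j) = w'.left (w'.right j) := by
    intro j
    have := h (Pi.single j 1)
    rw [smul_single, smul_single, mul_one, mul_one] at this
    have h2 := congrFun this (w.right j)
    rw [Pi.single_eq_same] at h2
    by_cases hc : w.right j = w'.right j
    · refine ⟨hc, ?_⟩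
      rw [hc, Pi.single_eq_same] at h2
      rw [hc]
      exact Units.ext h2
    · rw [Pi.single_eq_of_ne hc] at h2
      exact absurd h2 (Units.ne_zero _)
  have h2 : w.right = w'.right := Equiv.ext fun j => (h1 j).1
  ext1
  · funext i
    have := (h1 (w.right⁻¹ i)).2
    rw [← h2] at this
    simpa using this
  · exact h2

theorem lin_part_unique {n : ℕ} {f : cubicGroup n} {w w' : W n} (h : ∀ x, f.1 x = w • x + f.1 0)
    (h' : ∀ x, f.1 x = w' • x + f.1 0) : w = w' :=
  smul_faithful fun x => add_right_cancel ((h x).symm.trans (h' x))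

theorem lin_part_mul {n : ℕ} {f g : cubicGroup n} {w w' : W n} (h : ∀ x, f.1 x = w • x + f.1 0)
    (h' : ∀ x, g.1 x = w' • x + g.1 0) (x : Z n) :
    (f * g).1 x = (w * w') • x + (f * g).1 0 := by
  have h4 : (f * g).1 x = f.1 (g.1 x) := rfl
  have h4' : (f * g).1 0 = f.1 (g.1 0) := rfl
  rw [h4, h4', h (g.1 x), h (g.1 0), h' x, smul_add, mul_smul]
  abel

/-- The linear part of an isometry. -/
noncomputable def pr (n : ℕ) : cubicGroup n →* W n where
  toFun f := (exists_lin f).choose
  map_one' := by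
    refine lin_part_unique (exists_lin (1 : cubicGroup n)).choose_spec fun x => ?_
    rw [one_smul]
    exact (add_zero x).symm
  map_mul' f g := lin_part_unique (exists_lin (f * g)).choose_spec
    (lin_part_mul (exists_lin f).choose_spec (exists_lin g).choose_spec)

theorem pr_spec {n : ℕ} (f : cubicGroup n) (x : Z n) : f.1 x = pr n f • x + f.1 0 :=
  (exists_lin f).choose_spec x

theorem pr_lin {n : ℕ} (w : W n) : pr n (lin n w) = w := by
  apply smul_faithful
  intro x
  have := pr_spec (lin n w) x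
  rw [lin_apply, lin_apply, smul_zero, add_zero] at this
  exact this.symm

theorem tr_inj (n : ℕ) : Function.Injective (tr n) := by
  intro a b h
  have := congrArg (fun f : cubicGroup n => f.1 0) h
  simp only [tr_apply, zero_add] at this
  exact this

theorem ker_pr (n : ℕ) : (pr n).ker = (tr n).range := by
  ext f
  rw [MonoidHom.mem_ker, MonoidHom.mem_range]
  constructor
  · intro h
    refine ⟨Multiplicative.ofAdd (f.1 0), ?_⟩
    ext1
    ext1 x
    rw [tr_apply, pr_spec f x, h, one_smul]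
    rfl
  · rintro ⟨v, rfl⟩
    apply smul_faithful
    intro x
    have := pr_spec (tr n v) x
    rw [tr_apply, tr_apply, zero_add] at this
    rw [one_smul]
    exact (add_right_cancel this).symm

theorem conj_tr {n : ℕ} (w : W n) (v : Z n) :
    lin n w * tr n (Multiplicative.ofAdd v) * (lin n w)⁻¹ =
      tr n (Multiplicative.ofAdd (w • v)) := by
  rw [mul_inv_eq_iff_eq_mul]
  ext1
  ext1 x
  show w • (x + v) = w • x + w • v
  exact smul_add w x v

end Pool.Agent.Tor
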