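import Mathlib
import Pool.Agent.Tor.Defs

/-!
# Degrees and subgroups
-/

set_option autoImplicit false

namespace Pool.Agent.Tor

/-- A group has a faithful transitive permutation representation of degree `d > 0` iff it has a
subgroup of index `d` with trivial core. -/
theorem mem_degrees_iff {G : Type} [Group G] {d : ℕ} :
    d ∈ Degrees G ↔ 0 < d ∧ ∃ H : Subgroup G, H.normalCore = ⊥ ∧ H.index = d := by
  constructor
  · rintro ⟨hd, φ, hinj, htr⟩
    refine ⟨hd, ?_⟩
    let i0 : Fin d := ⟨0, hd⟩
    let S : Subgroup (Equiv.Perm (Fin d)) := MulAction.stabilizer (Equiv.Perm (Fin d)) i0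
    refine ⟨S.comap φ, ?_, ?_⟩
    · rw [eq_bot_iff]
      intro g hg
      rw [Subgroup.mem_bot]
      apply hinj
      rw [map_one]
      ext j
      obtain ⟨k, hk⟩ := htr i0 j
      have h1 : k⁻¹ * g * k⁻¹⁻¹ ∈ S.comap φ := hg k⁻¹
      have h2 : φ (k⁻¹ * g * k⁻¹⁻¹) i0 = i0 := h1
      rw [inv_inv, map_mul, map_mul, Equiv.Perm.mul_apply, Equiv.Perm.mul_apply, hk, map_inv] at h2
      have h3 : φ g j = φ k i0 := by
        rw [Equiv.Perm.inv_eq_iff_eq] at h2
        exact h2
      rw [h3, hk]
      rfl
    · letI : MulAction G (Fin d) := MulAction.compHom (Fin d) φ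
      have hs : S.comap φ = MulAction.stabilizer G i0 := by
        ext g
        exact Iff.rfl
      have : MulAction.IsPretransitive G (Fin d) := ⟨htr⟩
      rw [hs, MulAction.index_stabilizer, MulAction.orbit_eq_univ, Set.ncard_univ,
        Nat.card_eq_fintype_card, Fintype.card_fin]
  · rintro ⟨hd, H, hcore, hidx⟩
    refine ⟨hd, ?_⟩
    have hfin : Finite (G ⧸ H) := by
      rw [← Subgroup.index_ne_zero_iff_finite]
      omega
    have hcard : Nat.card (G ⧸ H) = d := by rw [← Subgroup.index_eq_card, hidx]
    obtain ⟨e⟩ : Nonempty ((G ⧸ H) ≃ Fin d) := ⟨Finite.equivFinOfCardEq hcard⟩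
    refine ⟨(e.permCongrHom.toMonoidHom).comp (MulAction.toPermHom G (G ⧸ H)), ?_, ?_⟩
    · rw [MonoidHom.coe_comp]
      refine (MulEquiv.injective e.permCongrHom).comp ?_
      rw [← MonoidHom.ker_eq_bot_iff, ← Subgroup.normalCore_eq_ker, hcore]
    · intro i j
      obtain ⟨g, hg⟩ := MulAction.exists_smul_eq G (e.symm i) (e.symm j)
      refine ⟨g, ?_⟩
      show e (g • e.symm i) = j
      rw [hg, Equiv.apply_symm_apply]

theorem degrees_congr {G G' : Type} [Group G] [Group G'] (e : G ≃* G') :
    Degrees G = Degrees G' := by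
  have key : ∀ {G G' : Type} [Group G] [Group G'], (G ≃* G') → Degrees G ⊆ Degrees G' := by
    intro G G' _ _ e d hd
    obtain ⟨h0, φ, h1, h2⟩ := hd
    refine ⟨h0, φ.comp e.symm.toMonoidHom, h1.comp e.symm.injective, fun i j => ?_⟩
    obtain ⟨g, hg⟩ := h2 i j
    exact ⟨e g, by simpa using hg⟩
  exact Set.Subset.antisymm (key e) (key e.symm)

/-- The degrees of a quotient group in terms of the subgroups with core equal to the kernel. -/
theorem mem_degrees_quotient_iff {G : Type} [Group G] (N : Subgroup G) [N.Normal] {d : ℕ} :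
    d ∈ Degrees (G ⧸ N) ↔ 0 < d ∧ ∃ H : Subgroup G, H.normalCore = N ∧ H.index = d := by
  rw [mem_degrees_iff]
  refine and_congr_right fun _ => ?_
  constructor
  · rintro ⟨H, hcore, hidx⟩
    refine ⟨H.comap (QuotientGroup.mk' N), ?_, ?_⟩
    · apply le_antisymm
      · intro g hg
        have h1 : (QuotientGroup.mk' N g) ∈ H.normalCore := by
          intro b
          obtain ⟨b, rfl⟩ := QuotientGroup.mk'_surjective N b
          have := hg b
          rw [Subgroup.mem_comap] at this
          simpa using this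
        rw [hcore, Subgroup.mem_bot] at h1
        exact (QuotientGroup.eq_one_iff g).mp h1
      · rw [Subgroup.normal_le_normalCore]
        intro g hg
        rw [Subgroup.mem_comap]
        have : QuotientGroup.mk' N g = 1 := (QuotientGroup.eq_one_iff g).mpr hg
        rw [this]
        exact one_mem _
    · rw [Subgroup.index_comap_of_surjective _ (QuotientGroup.mk'_surjective N), hidx]
  · rintro ⟨H, hcore, hidx⟩
    have hNH : N ≤ H := by
      rw [← hcore]
      exact H.normalCore_le
    refine ⟨H.map (QuotientGroup.mk' N), ?_, ?_⟩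
    · rw [eq_bot_iff]
      intro g hg
      obtain ⟨g, rfl⟩ := QuotientGroup.mk'_surjective N g
      have h1 : g ∈ H.normalCore := by
        intro b
        have h2 := hg (QuotientGroup.mk' N b)
        rw [← map_mul, ← map_inv, ← map_mul] at h2
        obtain ⟨h, hh, hEq⟩ := h2
        have h3 : h⁻¹ * (b * g * b⁻¹) ∈ N := by
          rw [← QuotientGroup.eq]
          exact hEq
        have h4 := mul_mem hh (hNH h3)
        simpa using h4
      rw [hcore] at h1
      rw [Subgroup.mem_bot]
      exact (QuotientGroup.eq_one_iff g).mpr h1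
    · rw [Subgroup.index_map_eq _ (QuotientGroup.mk'_surjective N), hidx]
      rw [QuotientGroup.ker_mk']
      exact hNH

end Pool.Agent.Tor
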