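import Mathlib
import Pool.Agent.Tor.Act
import Pool.Agent.Tor.Deg

/-!
# The reduction to lattices
-/

set_option autoImplicit false

namespace Pool.Agent.Tor

theorem index_ker_map {G V : Type} [Group G] [Group V] [Finite V] (π : G →* V)
    (hπ : Function.Surjective π) (H : Subgroup G) :
    H.index = H.relIndex π.ker * (H.map π).index := by
  have hfin : π.ker.index ≠ 0 := by
    rw [Subgroup.index_ker]
    have : Nonempty π.range := ⟨1⟩
    exact Nat.card_pos.ne'
  have h1 : (H.map π).index = (H ⊔ π.ker).index := by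
    rw [Subgroup.index_map, MonoidHom.range_eq_top_of_surjective π hπ, Subgroup.index_top, mul_one]
  rw [h1, ← Subgroup.relIndex_mul_index (le_sup_left : H ≤ H ⊔ π.ker)]
  congr 1
  have h2 := Subgroup.relIndex_mul_relIndex (H ⊓ π.ker) H (H ⊔ π.ker) inf_le_left le_sup_left
  have h3 := Subgroup.relIndex_mul_relIndex (H ⊓ π.ker) π.ker (H ⊔ π.ker) inf_le_right le_sup_right
  rw [Subgroup.inf_relIndex_right, Subgroup.relIndex_sup_right] at h3
  rw [Subgroup.inf_relIndex_left] at h2
  have h4 : π.ker.relIndex H ≠ 0 := by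
    intro h
    apply hfin
    have := Subgroup.relIndex_dvd_index_of_normal π.ker H
    rw [h] at this
    exact zero_dvd_iff.mp this
  have h5 : π.ker.relIndex H * H.relIndex (H ⊔ π.ker) =
      π.ker.relIndex H * H.relIndex π.ker := by
    rw [h2, ← h3, mul_comm]
  exact Nat.eq_of_mul_eq_mul_left (Nat.pos_of_ne_zero h4) h5

/-- The lattice `M` has core `L` under the group `V`. -/
def HasCore {T V : Type} [AddCommGroup T] [Group V] [DistribMulAction V T]
    (M L : AddSubgroup T) : Prop := ∀ x, (∀ w : V, w • x ∈ M) ↔ x ∈ L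

/-- The subgroup `Q` stabilises the lattice `M`. -/
def Stable {T V : Type} [AddCommGroup T] [Group V] [DistribMulAction V T]
    (Q : Subgroup V) (M : AddSubgroup T) : Prop := ∀ q ∈ Q, ∀ x ∈ M, q • x ∈ M

/-- The abstract form of the reduction. -/
theorem degrees_abstract {G V T : Type} [Group G] [Group V] [Finite V] [AddCommGroup T]
    [DistribMulAction V T] (τ : Multiplicative T →* G) (ℓ : V →* G) (π : G →* V)
    (hinj : Function.Injective τ) (hπ : ∀ w, π (ℓ w) = w) (hker : π.ker = τ.range)
    (hconj : ∀ w v, ℓ w * τ (Multiplicative.ofAdd v) * (ℓ w)⁻¹ =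
      τ (Multiplicative.ofAdd (w • v)))
    (L : AddSubgroup T) (N : Subgroup G) [N.Normal]
    (hN : ∀ g, g ∈ N ↔ ∃ v ∈ L, τ (Multiplicative.ofAdd v) = g)
    (hf : ∀ w : V, (∀ x : T, x - w • x ∈ L) → w = 1) (d : ℕ) :
    d ∈ Degrees (G ⧸ N) ↔ 0 < d ∧ ∃ (M : AddSubgroup T) (Q : Subgroup V),
      HasCore (V := V) M L ∧ Stable Q M ∧ M.index * Q.index = d := by
  rw [mem_degrees_quotient_iff]
  refine and_congr_right fun _ => ?_
  have hsurj : Function.Surjective π := fun w => ⟨ℓ w, hπ w⟩
  have hdec : ∀ g : G, ∃ v : T, g = τ (Multiplicative.ofAdd v) * ℓ (π g) := by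
    intro g
    have : g * (ℓ (π g))⁻¹ ∈ π.ker := by
      rw [MonoidHom.mem_ker, map_mul, map_inv, hπ, mul_inv_cancel]
    rw [hker] at this
    obtain ⟨v, hv⟩ := this
    refine ⟨v.toAdd, ?_⟩
    rw [ofAdd_toAdd, hv]
    group
  have hπτ : ∀ v, π (τ v) = 1 := by
    intro v
    have : τ v ∈ π.ker := by rw [hker]; exact ⟨v, rfl⟩
    exact this
  have hcj : ∀ g : G, ∀ v : T, g * τ (Multiplicative.ofAdd v) * g⁻¹ =
      τ (Multiplicative.ofAdd (π g • v)) := by
    intro g v
    obtain ⟨u, hu⟩ := hdec g
    have h1 : g * τ (Multiplicative.ofAdd v) * g⁻¹ = τ (Multiplicative.ofAdd u) *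
        (ℓ (π g) * τ (Multiplicative.ofAdd v) * (ℓ (π g))⁻¹) *
          (τ (Multiplicative.ofAdd u))⁻¹ := by
      conv_lhs => rw [hu]
      group
    rw [h1, hconj, ← map_inv, ← map_mul, ← map_mul]
    congr 1
    rw [mul_comm (Multiplicative.ofAdd u), mul_assoc, mul_inv_cancel, mul_one]
  have hNN : N ≤ τ.range := by
    intro g hg
    obtain ⟨v, _, hv⟩ := (hN g).mp hg
    exact ⟨_, hv⟩
  have hτN : ∀ v : T, τ (Multiplicative.ofAdd v) ∈ N ↔ v ∈ L := by
    intro v
    rw [hN]
    constructor
    · rintro ⟨u, hu, he⟩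
      have := hinj he
      rw [Multiplicative.ofAdd.injective.eq_iff] at this
      rwa [← this]
    · intro hv
      exact ⟨v, hv, rfl⟩
  constructor
  · rintro ⟨H, hcore, hidx⟩
    obtain ⟨M, hM⟩ : ∃ M : AddSubgroup T, ∀ x, x ∈ M ↔ τ (Multiplicative.ofAdd x) ∈ H :=
      ⟨AddSubgroup.toSubgroup.symm (H.comap τ), fun x => Iff.rfl⟩
    have hMi : M.index = H.relIndex π.ker := by
      rw [hker, ← Subgroup.index_comap]
      have : M = AddSubgroup.toSubgroup.symm (H.comap τ) := by
        ext x
        exact hM x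
      rw [this]
      rfl
    refine ⟨M, H.map π, ?_, ?_, ?_⟩
    · intro x
      rw [← hτN, ← hcore]
      constructor
      · intro h g
        rw [hcj, ← hM]
        exact h _
      · intro h w
        have := h (ℓ w)
        rw [hcj, hπ, ← hM] at this
        exact this
    · rintro q ⟨h, hh, rfl⟩ x hx
      rw [hM] at hx ⊢
      rw [← hcj]
      exact mul_mem (mul_mem hh hx) (inv_mem hh)
    · rw [hMi, ← index_ker_map π hsurj H, hidx]
  · rintro ⟨M, Q, hcore, hst, hidx⟩
    let H : Subgroup G :=
      { carrier := {g | π g ∈ Q ∧ ∃ v ∈ M, g = τ (Multiplicative.ofAdd v) * ℓ (π g)}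
        mul_mem' := by
          rintro a b ⟨ha, va, hva, ea⟩ ⟨hb, vb, hvb, eb⟩
          refine ⟨by rw [map_mul]; exact mul_mem ha hb, va + π a • vb,
            add_mem hva (hst _ ha _ hvb), ?_⟩
          rw [map_mul π, map_mul ℓ, ofAdd_add, map_mul τ, ← hconj]
          conv_lhs => rw [ea, eb]
          group
        one_mem' := by
          refine ⟨by rw [map_one]; exact one_mem _, 0, zero_mem _, ?_⟩
          rw [map_one, map_one, ofAdd_zero, map_one, one_mul]
        inv_mem' := by
          rintro a ⟨ha, va, hva, ea⟩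
          refine ⟨by rw [map_inv]; exact inv_mem ha, -((π a)⁻¹ • va),
            neg_mem (hst _ (inv_mem ha) _ hva), ?_⟩
          rw [map_inv π, ofAdd_neg, map_inv τ, ← hconj, map_inv ℓ]
          conv_lhs => rw [ea]
          group }
    have hHmem : ∀ g, g ∈ H ↔ π g ∈ Q ∧ ∃ v ∈ M, g = τ (Multiplicative.ofAdd v) * ℓ (π g) :=
      fun g => Iff.rfl
    have hτH : ∀ v : T, τ (Multiplicative.ofAdd v) ∈ H ↔ v ∈ M := by
      intro v
      rw [hHmem, hπτ, map_one]
      constructor
      · rintro ⟨_, u, hu, he⟩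
        rw [mul_one] at he
        have := hinj he
        rw [Multiplicative.ofAdd.injective.eq_iff] at this
        rwa [this]
      · intro hv
        exact ⟨one_mem _, v, hv, (mul_one _).symm⟩
    refine ⟨H, ?_, ?_⟩
    · have hC : ∀ v : T, τ (Multiplicative.ofAdd v) ∈ H.normalCore ↔ v ∈ L := by
        intro v
        rw [← hcore v]
        constructor
        · intro h w
          have := h (ℓ w)
          rw [hcj, hπ, hτH] at this
          exact this
        · intro h g
          rw [hcj, hτH]
          exact h _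
      have hCT : H.normalCore ≤ τ.range := by
        intro c hc
        rw [← hker, MonoidHom.mem_ker]
        apply hf
        intro x
        rw [← hC]
        have h1 : τ (Multiplicative.ofAdd x) * c * (τ (Multiplicative.ofAdd x))⁻¹ ∈
            H.normalCore := H.normalCore_normal.conj_mem c hc _
        have h2 := mul_mem h1 (inv_mem hc)
        have h3 : τ (Multiplicative.ofAdd x) * c * (τ (Multiplicative.ofAdd x))⁻¹ * c⁻¹ =
            τ (Multiplicative.ofAdd (x - π c • x)) := by
          have h4 : τ (Multiplicative.ofAdd x) * c * (τ (Multiplicative.ofAdd x))⁻¹ * c⁻¹ =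
            τ (Multiplicative.ofAdd x) * (c * τ (Multiplicative.ofAdd x) * c⁻¹)⁻¹ := by group
          rw [h4, hcj, ← map_inv, ← map_mul, ← ofAdd_neg, ← ofAdd_add, sub_eq_add_neg]
        rw [← h3]
        exact h2
      apply le_antisymm
      · intro c hc
        obtain ⟨v, rfl⟩ := hCT hc
        rw [hN]
        exact ⟨v.toAdd, (hC v.toAdd).mp hc, rfl⟩
      · intro c hc
        obtain ⟨v, hv, rfl⟩ := (hN c).mp hc
        exact (hC v).mpr hv
    · rw [index_ker_map π hsurj H, hker, ← Subgroup.index_comap, ← hidx]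
      have h1 : H.comap τ = AddSubgroup.toSubgroup M := by
        ext x
        exact hτH x.toAdd
      have h2 : H.map π = Q := by
        ext q
        constructor
        · rintro ⟨g, hg, rfl⟩
          exact hg.1
        · intro hq
          refine ⟨ℓ q, ?_, hπ q⟩
          refine ⟨by rw [hπ]; exact hq, 0, zero_mem _, ?_⟩
          rw [hπ, ofAdd_zero, map_one, one_mul]
      rw [h1, h2]
      rfl

end Pool.Agent.Tor
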