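import Mathlib
import Pool.Agent.Tor.Red

/-!
# The lattice and the translations
-/

set_option autoImplicit false

namespace Pool.Agent.Tor

theorem lin_zero {n : ℕ} (w : W n) : (lin n w).1 0 = 0 := smul_zero w

theorem eq_lin_of_zero {n : ℕ} {f : cubicGroup n} (h : f.1 0 = 0) : f = lin n (pr n f) := by
  ext1
  ext1 x
  rw [pr_spec f x, h, add_zero]
  rfl

/-- The lattice is generated by the orbit of the seed vector. -/
theorem lattice_eq (n k : ℕ) (s : ℤ) :
    lattice n k s = AddSubgroup.closure {v | ∃ w : W n, w • seed n k s = v} := by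
  unfold lattice
  congr 1
  ext v
  constructor
  · rintro ⟨f, hf, h0, h1⟩
    refine ⟨pr n ⟨f, hf⟩, ?_⟩
    rw [← h1]
    have := pr_spec ⟨f, hf⟩ (seed n k s)
    have h2 : f (seed n k s) = pr n ⟨f, hf⟩ • seed n k s + f 0 := this
    rw [h2, h0, add_zero]
  · rintro ⟨w, hw⟩
    exact ⟨(lin n w).1, (lin n w).2, lin_zero w, hw⟩

theorem smul_mem_lattice {n k : ℕ} {s : ℤ} (w : W n) {x : Z n} (hx : x ∈ lattice n k s) :
    w • x ∈ lattice n k s := by
  rw [lattice_eq] at hx ⊢
  induction hx using AddSubgroup.closure_induction with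
  | mem x hx =>
    obtain ⟨w', rfl⟩ := hx
    exact AddSubgroup.subset_closure ⟨w * w', mul_smul w w' _⟩
  | zero => rw [smul_zero]; exact zero_mem _
  | add x y _ _ hx hy => rw [smul_add]; exact add_mem hx hy
  | neg x _ hx => rw [smul_neg]; exact neg_mem hx

theorem mem_translations {n k : ℕ} {s : ℤ} (g : cubicGroup n) :
    g ∈ translations n k s ↔ ∃ v ∈ lattice n k s, tr n (Multiplicative.ofAdd v) = g := by
  constructor
  · rintro ⟨v, hv, h⟩
    refine ⟨v, hv, ?_⟩
    ext1
    ext1 x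
    rw [tr_apply, h x]
    rfl
  · rintro ⟨v, hv, rfl⟩
    exact ⟨v, hv, fun x => rfl⟩

theorem conj_tr' {n : ℕ} (g : cubicGroup n) (v : Z n) :
    g * tr n (Multiplicative.ofAdd v) * g⁻¹ = tr n (Multiplicative.ofAdd (pr n g • v)) := by
  rw [mul_inv_eq_iff_eq_mul]
  ext1
  ext1 x
  show g.1 (x + v) = g.1 x + pr n g • v
  rw [pr_spec g (x + v), pr_spec g x, smul_add]
  abel

theorem conj_mem_translations {n k : ℕ} {s : ℤ} (g : cubicGroup n)
    (hg : g ∈ translations n k s) (h : cubicGroup n) : h * g * h⁻¹ ∈ translations n k s := by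
  obtain ⟨v, hv, rfl⟩ := (mem_translations g).mp hg
  rw [conj_tr', mem_translations]
  exact ⟨_, smul_mem_lattice _ hv, rfl⟩

end Pool.Agent.Tor
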