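import Mathlib
import Pool.Agent.Tor.Lat0

/-!
# The group of a cubic toroid
-/

set_option autoImplicit false

namespace Pool.Agent.Tor

instance translations_normal (n k : ℕ) (s : ℤ) : (translations n k s).Normal where
  conj_mem := conj_mem_translations

/-- The group of the cubic toroid `{4, 3^(n-2), 4}_(s^k, 0^(n-k))`: the symmetry group of the
cubic tessellation modulo the translations by the vectors of the lattice. -/
abbrev ToroidGroup (n k : ℕ) (s : ℤ) : Type := cubicGroup n ⧸ translations n k s

end Pool.Agent.Tor
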