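import Mathlib
import Pool.Agent.Tor.Toroid

/-!
# The reduction to lattices
-/

set_option autoImplicit false

namespace Pool.Agent.Tor

/-- The reduction for the cubic toroids. -/
theorem degrees_toroid {n k : ℕ} {s : ℤ}
    (hf : ∀ w : W n, (∀ x : Z n, x - w • x ∈ lattice n k s) → w = 1) (d : ℕ) :
    d ∈ Degrees (ToroidGroup n k s) ↔ 0 < d ∧ ∃ (M : AddSubgroup (Z n)) (Q : Subgroup (W n)),
      HasCore (V := W n) M (lattice n k s) ∧ Stable Q M ∧ M.index * Q.index = d :=
  degrees_abstract (tr n) (lin n) (pr n) (tr_inj n) pr_lin (ker_pr n) conj_tr (lattice n k s)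
    (translations n k s) mem_translations hf d

/-- The action is faithful modulo every lattice of vectors with coordinates divisible by `s ≥ 2`
which does not contain twice a unit vector. -/
theorem faithful_of {n : ℕ} (L : AddSubgroup (Z n)) (s : ℤ) (hs : 2 ≤ s)
    (h1 : ∀ x ∈ L, ∀ i, s ∣ x i) (h2 : ∀ i, (Pi.single i 2 : Z n) ∉ L) (w : W n)
    (h : ∀ x : Z n, x - w • x ∈ L) : w = 1 := by
  have hr : ∀ i, w.right i = i := by
    intro i
    by_contra hc
    have h3 := h1 _ (h (Pi.single i 1)) i
    rw [smul_single, Pi.sub_apply, Pi.single_eq_same, Pi.single_eq_of_ne (Ne.symm hc),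
      sub_zero] at h3
    have := Int.le_of_dvd one_pos h3
    omega
  have hl : ∀ i, w.left i = 1 := by
    intro i
    rcases Int.units_eq_one_or (w.left i) with h3 | h3
    · exact h3
    · exfalso
      apply h2 i
      have h4 := h (Pi.single i 1)
      rw [smul_single, hr, h3] at h4
      have h5 : (Pi.single i 2 : Z n) = Pi.single i 1 - Pi.single i (((-1 : ℤˣ) : ℤ) * 1) := by
        rw [← Pi.single_sub]
        norm_num
      rw [h5]
      exact h4
  ext1
  · funext i
    exact hl i
  · exact Equiv.ext hr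

/-- A signed permutation of `ℤ^n` acts on the sum of the coordinates modulo two trivially. -/
theorem two_dvd_sub_unit (u : ℤˣ) (a : ℤ) : (2 : ℤ) ∣ (u : ℤ) * a - a := by
  rcases Int.units_eq_one_or u with h | h <;> rw [h]
  · simp
  · exact ⟨-a, by push_cast; ring⟩

end Pool.Agent.Tor
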