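import Mathlib
import Pool.Agent.Tor.Lat

/-!
# Explicit description of the lattices
-/

set_option autoImplicit false

namespace Pool.Agent.Tor

/-- The vectors with all coordinates divisible by `s`. -/
def L1 (n : ℕ) (s : ℤ) : AddSubgroup (Z n) where
  carrier := {x | ∀ i, s ∣ x i}
  add_mem' ha hb i := dvd_add (ha i) (hb i)
  zero_mem' _ := dvd_zero s
  neg_mem' ha i := (dvd_neg).mpr (ha i)

/-- The vectors `s y` where `y` has even coordinate sum. -/
def L2 (n : ℕ) (s : ℤ) : AddSubgroup (Z n) where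
  carrier := {x | (∀ i, s ∣ x i) ∧ 2 * s ∣ ∑ i, x i}
  add_mem' {a b} ha hb := by
    refine ⟨fun i => dvd_add (ha.1 i) (hb.1 i), ?_⟩
    have : ∑ i, (a + b) i = ∑ i, a i + ∑ i, b i := Finset.sum_add_distrib
    rw [this]
    exact dvd_add ha.2 hb.2
  zero_mem' := ⟨fun i => dvd_zero s, by simp⟩
  neg_mem' {a} ha := by
    refine ⟨fun i => (dvd_neg).mpr (ha.1 i), ?_⟩
    have : ∑ i, (-a) i = - ∑ i, a i := Finset.sum_neg_distrib ..
    rw [this]
    exact (dvd_neg).mpr ha.2

/-- The vectors `s y` where all coordinates of `y` have the same parity. -/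
def L3 (n : ℕ) (s : ℤ) : AddSubgroup (Z n) where
  carrier := {x | (∀ i, s ∣ x i) ∧ ∀ i j, 2 * s ∣ x i - x j}
  add_mem' {a b} ha hb := by
    refine ⟨fun i => dvd_add (ha.1 i) (hb.1 i), fun i j => ?_⟩
    have : (a + b) i - (a + b) j = (a i - a j) + (b i - b j) := by
      rw [Pi.add_apply, Pi.add_apply]
      ring
    rw [this]
    exact dvd_add (ha.2 i j) (hb.2 i j)
  zero_mem' := ⟨fun i => dvd_zero s, fun i j => by simp⟩
  neg_mem' {a} ha := by
    refine ⟨fun i => (dvd_neg).mpr (ha.1 i), fun i j => ?_⟩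
    have : (-a) i - (-a) j = - (a i - a j) := by
      rw [Pi.neg_apply, Pi.neg_apply]
      ring
    rw [this]
    exact (dvd_neg).mpr (ha.2 i j)

theorem mem_L1 {n : ℕ} {s : ℤ} {x : Z n} : x ∈ L1 n s ↔ ∀ i, s ∣ x i := Iff.rfl

theorem mem_L2 {n : ℕ} {s : ℤ} {x : Z n} :
    x ∈ L2 n s ↔ (∀ i, s ∣ x i) ∧ 2 * s ∣ ∑ i, x i := Iff.rfl

theorem mem_L3 {n : ℕ} {s : ℤ} {x : Z n} :
    x ∈ L3 n s ↔ (∀ i, s ∣ x i) ∧ ∀ i j, 2 * s ∣ x i - x j := Iff.rfl

theorem two_mul_dvd_sub_unit {s : ℤ} (u : ℤˣ) {a : ℤ} (h : s ∣ a) : 2 * s ∣ (u : ℤ) * a - a := by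
  obtain ⟨b, rfl⟩ := h
  rcases Int.units_eq_one_or u with h | h <;> rw [h]
  · simp
  · exact ⟨-b, by push_cast; ring⟩

theorem smul_mem_L1 {n : ℕ} {s : ℤ} (w : W n) {x : Z n} (hx : x ∈ L1 n s) : w • x ∈ L1 n s :=
  fun i => Dvd.dvd.mul_left (hx _) _

theorem smul_mem_L2 {n : ℕ} {s : ℤ} (w : W n) {x : Z n} (hx : x ∈ L2 n s) : w • x ∈ L2 n s := by
  refine ⟨smul_mem_L1 w hx.1, ?_⟩
  have h1 : ∑ i, (w • x) i = ∑ i, ((w.left i : ℤ) * x (w.right⁻¹ i) - x (w.right⁻¹ i)) +
      ∑ i, x (w.right⁻¹ i) := by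
    rw [← Finset.sum_add_distrib]
    exact Finset.sum_congr rfl fun i _ => by rw [smul_apply]; ring
  rw [h1, Equiv.sum_comp (w.right⁻¹ : Equiv.Perm (Fin n)) (fun i => x i)]
  exact dvd_add (Finset.dvd_sum fun i _ => two_mul_dvd_sub_unit _ (hx.1 _)) hx.2

theorem smul_mem_L3 {n : ℕ} {s : ℤ} (w : W n) {x : Z n} (hx : x ∈ L3 n s) : w • x ∈ L3 n s := by
  refine ⟨smul_mem_L1 w hx.1, fun i j => ?_⟩
  have h1 : (w • x) i - (w • x) j = ((w.left i : ℤ) * x (w.right⁻¹ i) - x (w.right⁻¹ i)) -
      ((w.left j : ℤ) * x (w.right⁻¹ j) - x (w.right⁻¹ j)) +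
      (x (w.right⁻¹ i) - x (w.right⁻¹ j)) := by
    rw [smul_apply, smul_apply]
    ring
  rw [h1]
  exact dvd_add (dvd_sub (two_mul_dvd_sub_unit _ (hx.1 _)) (two_mul_dvd_sub_unit _ (hx.1 _)))
    (hx.2 _ _)

theorem exists_perm {n : ℕ} (i j : Fin (n + 2)) (hij : i ≠ j) :
    ∃ σ : Equiv.Perm (Fin (n + 2)), σ 0 = i ∧ σ 1 = j := by
  refine ⟨Equiv.swap 0 i * Equiv.swap 1 (Equiv.swap 0 i j), ?_, ?_⟩
  · rw [Equiv.Perm.mul_apply, Equiv.swap_apply_of_ne_of_ne (a := 1) (x := 0)]
    · rw [Equiv.swap_apply_left]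
    · exact Fin.zero_ne_one
    · intro h
      apply hij
      have := congrArg (Equiv.swap 0 i) h
      rw [Equiv.swap_apply_self, Equiv.swap_apply_left] at this
      exact this
  · rw [Equiv.Perm.mul_apply, Equiv.swap_apply_left, Equiv.swap_apply_self]

theorem sum_single_mul {n : ℕ} (x : Z n) : x = ∑ i, x i • (Pi.single i 1 : Z n) := by
  funext j
  rw [Finset.sum_apply]
  simp [Pi.single_apply]

theorem seed_one (n : ℕ) (s : ℤ) : seed (n + 1) 1 s = Pi.single 0 s := by
  funext i
  unfold seed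
  by_cases h : i = 0
  · subst h
    simp
  · rw [Pi.single_eq_of_ne h, if_neg]
    intro hc
    apply h
    exact Fin.ext (by simpa using hc)

theorem seed_two (n : ℕ) (s : ℤ) :
    seed (n + 2) 2 s = Pi.single 0 s + Pi.single 1 s := by
  funext i
  unfold seed
  rw [Pi.add_apply]
  by_cases h : i = 0
  · subst h
    simp
  · by_cases h1 : i = 1
    · subst h1
      simp
    · rw [Pi.single_eq_of_ne h, Pi.single_eq_of_ne h1, if_neg, add_zero]
      intro hc
      have h2 : i.val = 0 ∨ i.val = 1 := by omega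
      rcases h2 with h2 | h2
      · exact h (Fin.ext (by simpa using h2))
      · exact h1 (Fin.ext (by simpa using h2))

theorem seed_all (n : ℕ) (s : ℤ) : seed n n s = fun _ => s := by
  funext i
  unfold seed
  rw [if_pos i.2]

theorem lattice_one (n : ℕ) (s : ℤ) : lattice (n + 1) 1 s = L1 (n + 1) s := by
  rw [lattice_eq, seed_one]
  apply le_antisymm
  · rw [AddSubgroup.closure_le]
    rintro v ⟨w, rfl⟩
    apply smul_mem_L1
    intro i
    by_cases h : i = 0
    · subst h
      simp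
    · rw [Pi.single_eq_of_ne h]
      exact dvd_zero s
  · intro x hx
    rw [sum_single_mul x]
    refine sum_mem fun i _ => ?_
    obtain ⟨y, hy⟩ := hx i
    rw [hy, mul_comm, mul_smul]
    refine zsmul_mem ?_ y
    apply AddSubgroup.subset_closure
    refine ⟨SemidirectProduct.inr (Equiv.swap 0 i), ?_⟩
    rw [smul_single]
    show (Pi.single (Equiv.swap 0 i 0) ((((1 : Fin (n + 1) → ℤˣ)) _ : ℤˣ) * s) : Z (n + 1)) = _
    rw [Equiv.swap_apply_left, Pi.one_apply, Units.val_one, one_mul]
    funext j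
    rw [Pi.smul_apply, smul_eq_mul]
    by_cases h : j = i
    · subst h
      simp
    · rw [Pi.single_eq_of_ne h, Pi.single_eq_of_ne h, mul_zero]

theorem lattice_two (n : ℕ) (s : ℤ) : lattice (n + 2) 2 s = L2 (n + 2) s := by
  rw [lattice_eq, seed_two]
  have h01 : (0 : Fin (n + 2)) ≠ 1 := Fin.zero_ne_one
  apply le_antisymm
  · rw [AddSubgroup.closure_le]
    rintro v ⟨w, rfl⟩
    apply smul_mem_L2
    constructor
    · intro i
      rw [Pi.add_apply, Pi.single_apply, Pi.single_apply]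
      split_ifs
      · exact ⟨2, by ring⟩
      · simp
      · simp
      · simp
    · have : ∑ i, (Pi.single (0 : Fin (n + 2)) s + Pi.single 1 s : Z (n + 2)) i = 2 * s := by
        simp only [Pi.add_apply, Finset.sum_add_distrib, Finset.sum_pi_single', Finset.mem_univ,
          if_true]
        ring
      rw [this]
  · intro x hx
    have key : ∀ i j : Fin (n + 2), i ≠ j → ∀ u v : ℤˣ,
        (Pi.single i ((u : ℤ) * s) + Pi.single j ((v : ℤ) * s) : Z (n + 2)) ∈
          AddSubgroup.closure {v | ∃ w : W (n + 2),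
            w • (Pi.single 0 s + Pi.single 1 s : Z (n + 2)) = v} := by
      intro i j hij u v
      obtain ⟨σ, h0, h1⟩ := exists_perm i j hij
      refine AddSubgroup.subset_closure ⟨⟨fun k => if k = i then u else v, σ⟩, ?_⟩
      rw [smul_add, smul_single, smul_single]
      show (Pi.single (σ 0) (((if σ 0 = i then u else v : ℤˣ) : ℤ) * s) : Z (n + 2)) +
        (Pi.single (σ 1) (((if σ 1 = i then u else v : ℤˣ) : ℤ) * s) : Z (n + 2)) = _
      rw [h0, h1, if_pos rfl, if_neg (Ne.symm hij)]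
    choose y hy using hx.1
    have hsum : 2 * s ∣ s * ∑ i, y i := by
      have h1 := hx.2
      have h2 : ∑ i, x i = s * ∑ i, y i := by
        rw [Finset.mul_sum]
        exact Finset.sum_congr rfl fun i _ => hy i
      rwa [h2] at h1
    have hpair : ∀ i : Fin (n + 2), (Pi.single i s - Pi.single 0 s : Z (n + 2)) ∈
          AddSubgroup.closure {v | ∃ w : W (n + 2),
            w • (Pi.single 0 s + Pi.single 1 s : Z (n + 2)) = v} := by
      intro i
      by_cases hi : i = 0
      · subst hi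
        rw [sub_self]
        exact zero_mem _
      · have := key i 0 hi 1 (-1)
        have h3 : (Pi.single i s - Pi.single 0 s : Z (n + 2)) =
            Pi.single i (((1 : ℤˣ) : ℤ) * s) + Pi.single 0 (((-1 : ℤˣ) : ℤ) * s) := by
          rw [Units.val_one, one_mul, Units.val_neg, Units.val_one, neg_one_mul, Pi.single_neg]
          abel
        rw [h3]
        exact this
    have htwo : (Pi.single 0 (2 * s) : Z (n + 2)) ∈
          AddSubgroup.closure {v | ∃ w : W (n + 2),
            w • (Pi.single 0 s + Pi.single 1 s : Z (n + 2)) = v} := by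
      have h3 := add_mem (key 0 1 h01 1 1) (key 0 1 h01 1 (-1))
      have h4 : (Pi.single 0 (2 * s) : Z (n + 2)) =
        (Pi.single 0 (((1 : ℤˣ) : ℤ) * s) + Pi.single 1 (((1 : ℤˣ) : ℤ) * s)) +
          (Pi.single 0 (((1 : ℤˣ) : ℤ) * s) + Pi.single 1 (((-1 : ℤˣ) : ℤ) * s)) := by
        rw [Units.val_one, one_mul, Units.val_neg, Units.val_one, neg_one_mul, Pi.single_neg,
          two_mul, Pi.single_add]
        abel
      rw [h4]
      exact h3
    have hx' : x = ∑ i, y i • (Pi.single i s - Pi.single 0 s : Z (n + 2)) +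
        Pi.single 0 (s * ∑ i, y i) := by
      funext j
      rw [Pi.add_apply, Finset.sum_apply]
      by_cases hj : j = 0
      · subst hj
        have : ∀ i : Fin (n + 2), (y i • (Pi.single i s - Pi.single 0 s : Z (n + 2))) 0 =
            (if i = 0 then y i * s else 0) - y i * s := by
          intro i
          rw [Pi.smul_apply, Pi.sub_apply, Pi.single_eq_same, smul_eq_mul]
          by_cases hi : i = 0
          · subst hi
            rw [Pi.single_eq_same]
            simp
          · rw [Pi.single_eq_of_ne (Ne.symm hi), if_neg hi]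
            ring
        rw [Finset.sum_congr rfl fun i _ => this i, Finset.sum_sub_distrib,
          Finset.sum_ite_eq' Finset.univ 0 (fun i => y i * s), if_pos (Finset.mem_univ _),
          Pi.single_eq_same, hy, Finset.mul_sum]
        have h5 : ∑ i, s * y i = ∑ i, y i * s := Finset.sum_congr rfl fun i _ => mul_comm _ _
        rw [h5]
        ring
      · have : ∀ i : Fin (n + 2), (y i • (Pi.single i s - Pi.single 0 s : Z (n + 2))) j =
            (if i = j then y i * s else 0) := by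
          intro i
          rw [Pi.smul_apply, Pi.sub_apply, Pi.single_eq_of_ne hj, sub_zero, smul_eq_mul]
          by_cases hi : i = j
          · subst hi
            rw [Pi.single_eq_same, if_pos rfl]
          · rw [Pi.single_eq_of_ne (Ne.symm hi), if_neg hi, mul_zero]
        rw [Finset.sum_congr rfl fun i _ => this i,
          Finset.sum_ite_eq' Finset.univ j (fun i => y i * s), if_pos (Finset.mem_univ _),
          Pi.single_eq_of_ne hj, hy]
        ring
    rw [hx']
    refine add_mem (sum_mem fun i _ => zsmul_mem (hpair i) _) ?_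
    obtain ⟨t, ht⟩ := hsum
    rw [ht]
    have h6 : (Pi.single 0 (2 * s * t) : Z (n + 2)) = t • (Pi.single 0 (2 * s) : Z (n + 2)) := by
      rw [← Pi.single_smul, smul_eq_mul, mul_comm]
    rw [h6]
    exact zsmul_mem htwo t

theorem lattice_all (n : ℕ) (s : ℤ) : lattice (n + 1) (n + 1) s = L3 (n + 1) s := by
  rw [lattice_eq, seed_all]
  apply le_antisymm
  · rw [AddSubgroup.closure_le]
    rintro v ⟨w, rfl⟩
    apply smul_mem_L3
    exact ⟨fun i => dvd_refl s, fun i j => by rw [sub_self]; exact dvd_zero _⟩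
  · intro x hx
    have key : ∀ ε : Fin (n + 1) → ℤˣ, (fun i => (ε i : ℤ) * s : Z (n + 1)) ∈
          AddSubgroup.closure {v | ∃ w : W (n + 1), w • (fun _ => s : Z (n + 1)) = v} := by
      intro ε
      exact AddSubgroup.subset_closure ⟨⟨ε, 1⟩, rfl⟩
    have htwo : ∀ i : Fin (n + 1), (Pi.single i (2 * s) : Z (n + 1)) ∈
          AddSubgroup.closure {v | ∃ w : W (n + 1), w • (fun _ => s : Z (n + 1)) = v} := by
      intro i
      have h1 := sub_mem (key 1) (key (fun j => if j = i then -1 else 1))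
      have h2 : (Pi.single i (2 * s) : Z (n + 1)) =
          (fun j => (((1 : Fin (n + 1) → ℤˣ) j : ℤˣ) : ℤ) * s : Z (n + 1)) -
            (fun j => ((if j = i then (-1 : ℤˣ) else 1 : ℤˣ) : ℤ) * s : Z (n + 1)) := by
        funext j
        rw [Pi.sub_apply]
        show _ = (((1 : Fin (n + 1) → ℤˣ) j : ℤˣ) : ℤ) * s -
          ((if j = i then (-1 : ℤˣ) else 1 : ℤˣ) : ℤ) * s
        by_cases hj : j = i
        · subst hj
          simp
          ring
        · rw [Pi.single_eq_of_ne hj, if_neg hj]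
          simp
      rw [h2]
      exact h1
    choose y hy using hx.1
    have hd : ∀ i, ∃ t, x i = x 0 + 2 * s * t := by
      intro i
      obtain ⟨t, ht⟩ := hx.2 i 0
      exact ⟨t, by rw [← ht]; ring⟩
    choose t ht using hd
    have hx' : x = y 0 • (fun i => (((1 : Fin (n + 1) → ℤˣ) i : ℤˣ) : ℤ) * s : Z (n + 1)) +
        ∑ i, t i • (Pi.single i (2 * s) : Z (n + 1)) := by
      funext j
      rw [Pi.add_apply, Finset.sum_apply, Pi.smul_apply, smul_eq_mul]
      have : ∀ i : Fin (n + 1), (t i • (Pi.single i (2 * s) : Z (n + 1))) j =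
          (if i = j then t i * (2 * s) else 0) := by
        intro i
        rw [Pi.smul_apply, smul_eq_mul]
        by_cases hi : i = j
        · subst hi
          rw [Pi.single_eq_same, if_pos rfl]
        · rw [Pi.single_eq_of_ne (Ne.symm hi), if_neg hi, mul_zero]
      rw [Finset.sum_congr rfl fun i _ => this i,
        Finset.sum_ite_eq' Finset.univ j (fun i => t i * (2 * s)), if_pos (Finset.mem_univ _), ht j,
        hy 0]
      simp
      ring
    rw [hx']
    exact add_mem (zsmul_mem (key 1) _) (sum_mem fun i _ => zsmul_mem (htwo i) _)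

theorem lattice31 (s : ℤ) : lattice 3 1 s = L1 3 s := lattice_one 2 s
theorem lattice32 (s : ℤ) : lattice 3 2 s = L2 3 s := lattice_two 1 s
theorem lattice33 (s : ℤ) : lattice 3 3 s = L3 3 s := lattice_all 2 s

theorem faithful1 {n : ℕ} {s : ℤ} (hs : 3 ≤ s) (w : W (n + 1))
    (h : ∀ x : Z (n + 1), x - w • x ∈ lattice (n + 1) 1 s) : w = 1 := by
  rw [lattice_one] at h
  refine faithful_of (L1 (n + 1) s) s (by omega) (fun x hx => hx) (fun i hi => ?_) w h
  have := hi i
  rw [Pi.single_eq_same] at this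
  have := Int.le_of_dvd two_pos this
  omega

theorem faithful2 {n : ℕ} {s : ℤ} (hs : 2 ≤ s) (w : W (n + 2))
    (h : ∀ x : Z (n + 2), x - w • x ∈ lattice (n + 2) 2 s) : w = 1 := by
  rw [lattice_two] at h
  refine faithful_of (L2 (n + 2) s) s (by omega) (fun x hx => hx.1) (fun i hi => ?_) w h
  have h1 := hi.2
  rw [Finset.sum_pi_single', if_pos (Finset.mem_univ _)] at h1
  have := Int.le_of_dvd two_pos h1
  omega

theorem faithful3 {n : ℕ} {s : ℤ} (hs : 2 ≤ s) (w : W (n + 2))
    (h : ∀ x : Z (n + 2), x - w • x ∈ lattice (n + 2) (n + 2) s) : w = 1 := by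
  rw [lattice_all (n + 1)] at h
  refine faithful_of (L3 (n + 2) s) s (by omega) (fun x hx => hx.1) (fun i hi => ?_) w h
  obtain ⟨j, hj⟩ : ∃ j : Fin (n + 2), j ≠ i := exists_ne i
  have h1 := hi.2 i j
  rw [Pi.single_eq_same, Pi.single_eq_of_ne hj, sub_zero] at h1
  have := Int.le_of_dvd two_pos h1
  omega

end Pool.Agent.Tor
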