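import Mathlib
import Pool.Agent.Tor.Lat2

/-!
# Localisation and index computations
-/

set_option autoImplicit false

namespace Pool.Agent.Tor

/-- The vectors whose multiple by `u` lies in the lattice. -/
def loc {A : Type} [AddCommGroup A] (M : AddSubgroup A) (u : ℕ) : AddSubgroup A :=
  M.comap (nsmulAddMonoidHom u)

theorem mem_loc {A : Type} [AddCommGroup A] {M : AddSubgroup A} {u : ℕ} {x : A} :
    x ∈ loc M u ↔ u • x ∈ M := Iff.rfl

theorem le_loc {A : Type} [AddCommGroup A] (M : AddSubgroup A) (u : ℕ) : M ≤ loc M u :=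
  fun _ hx => AddSubgroup.nsmul_mem _ hx u

theorem smul_index_mem {A : Type} [AddCommGroup A] (M : AddSubgroup A) (x : A) :
    M.index • x ∈ M := AddSubgroup.nsmul_index_mem M x

theorem mem_of_coprime {A : Type} [AddCommGroup A] {M : AddSubgroup A} {x : A} {a b : ℕ}
    (hab : a.Coprime b) (ha : a • x ∈ M) (hb : b • x ∈ M) : x ∈ M := by
  have h := Int.gcd_eq_gcd_ab (a : ℤ) (b : ℤ)
  rw [Int.gcd_natCast_natCast, hab] at h
  have h1 : x = (Int.gcdA (a : ℤ) b) • (a • x) + (Int.gcdB (a : ℤ) b) • (b • x) := by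
    rw [← natCast_zsmul x a, ← natCast_zsmul x b, smul_smul, smul_smul, ← add_smul]
    have : (Int.gcdA (a : ℤ) b) * a + (Int.gcdB (a : ℤ) b) * b = 1 := by
      rw [mul_comm _ (a : ℤ), mul_comm _ (b : ℤ), ← h]
      norm_num
    rw [this, one_smul]
  rw [h1]
  exact add_mem (zsmul_mem ha _) (zsmul_mem hb _)

theorem coprime_index {A : Type} [AddCommGroup A] (H : AddSubgroup A) (h0 : H.index ≠ 0)
    {u r : ℕ} (hc : u.Coprime r) (hu : ∀ x, u • x ∈ H) : H.index.Coprime r := by
  apply Nat.coprime_of_dvd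
  intro q hq hqi hqr
  have hfin : Finite (A ⧸ H) := by
    rw [← AddSubgroup.index_ne_zero_iff_finite]
    exact h0
  have hqp : Fact q.Prime := ⟨hq⟩
  obtain ⟨y, hy⟩ := exists_prime_addOrderOf_dvd_card' (G := A ⧸ H) q (by
    rw [← AddSubgroup.index_eq_card]
    exact hqi)
  obtain ⟨x, rfl⟩ := QuotientAddGroup.mk_surjective y
  have h1 : q • (x : A ⧸ H) = 0 := by
    rw [← hy]
    exact addOrderOf_nsmul_eq_zero _
  have h2 : q • x ∈ H := by
    rw [← QuotientAddGroup.eq_zero_iff]
    exact h1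
  have h3 : x ∈ H := mem_of_coprime (Nat.Coprime.coprime_dvd_left hqr hc.symm) h2 (hu x)
  have h4 : (x : A ⧸ H) = 0 := (QuotientAddGroup.eq_zero_iff x).mpr h3
  rw [h4, addOrderOf_zero] at hy
  exact hq.one_lt.ne hy

theorem index_loc {A : Type} [AddCommGroup A] (M : AddSubgroup A) {r u : ℕ} (hr : r ≠ 0)
    (hu : u ≠ 0) (hc : r.Coprime u) (hi : M.index = r * u) : (loc M u).index = r := by
  have h1 := AddSubgroup.relIndex_mul_index (le_loc M u)
  have hM0 : M.index ≠ 0 := by rw [hi]; exact mul_ne_zero hr hu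
  have hN0 : (loc M u).index ≠ 0 := by
    intro h
    rw [h, mul_zero] at h1
    exact hM0 h1.symm
  have hR0 : M.relIndex (loc M u) ≠ 0 := by
    intro h
    rw [h, zero_mul] at h1
    exact hM0 h1.symm
  have h2 : (loc M u).index.Coprime u := by
    refine coprime_index (loc M u) hN0 hc (fun x => ?_)
    rw [mem_loc, ← mul_smul, mul_comm, ← hi]
    exact smul_index_mem M x
  have h3 : (M.relIndex (loc M u)).Coprime r := by
    refine coprime_index (M.addSubgroupOf (loc M u)) hR0 hc.symm (fun x => ?_)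
    rw [AddSubgroup.mem_addSubgroupOf]
    exact x.2
  rw [hi] at h1
  apply Nat.dvd_antisymm
  · refine h2.dvd_of_dvd_mul_right ?_
    rw [← h1]
    exact dvd_mul_left _ _
  · refine h3.symm.dvd_of_dvd_mul_left ?_
    rw [h1]
    exact dvd_mul_right _ _

theorem stable_loc {A V : Type} [AddCommGroup A] [Group V] [DistribMulAction V A]
    {Q : Subgroup V} {M : AddSubgroup A} (h : Stable Q M) (u : ℕ) : Stable Q (loc M u) := by
  intro q hq x hx
  rw [mem_loc] at hx ⊢
  have : u • q • x = q • u • x := (smul_comm q u x).symm ▸ rfl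
  rw [this]
  exact h q hq _ hx

theorem core_loc {A V : Type} [AddCommGroup A] [Group V] [DistribMulAction V A]
    {M L : AddSubgroup A} (h : HasCore (V := V) M L) (u : ℕ) :
    HasCore (V := V) (loc M u) (loc L u) := by
  intro x
  rw [mem_loc, ← h]
  refine forall_congr' fun w => ?_
  rw [mem_loc]
  have : u • w • x = w • u • x := (smul_comm w u x).symm ▸ rfl
  rw [this]

theorem index_inf_coprime {A : Type} [AddCommGroup A] (M N : AddSubgroup A)
    (hc : M.index.Coprime N.index) (hM : M.index ≠ 0) (hN : N.index ≠ 0) :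
    (M ⊓ N).index = M.index * N.index := by
  apply le_antisymm
  · exact AddSubgroup.index_inf_le
  · apply Nat.le_of_dvd (Nat.pos_of_ne_zero (AddSubgroup.index_inf_ne_zero hM hN))
    exact hc.mul_dvd_of_dvd_of_dvd (AddSubgroup.index_dvd_of_le inf_le_left)
      (AddSubgroup.index_dvd_of_le inf_le_right)

/-- The diagonal lattice `∏ a_i ℤ`. -/
def diag {n : ℕ} (a : Fin n → ℕ) : AddSubgroup (Z n) where
  carrier := {x | ∀ i, (a i : ℤ) ∣ x i}
  add_mem' hx hy i := dvd_add (hx i) (hy i)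
  zero_mem' _ := dvd_zero _
  neg_mem' hx i := (dvd_neg).mpr (hx i)

theorem mem_diag {n : ℕ} {a : Fin n → ℕ} {x : Z n} : x ∈ diag a ↔ ∀ i, (a i : ℤ) ∣ x i := Iff.rfl

theorem index_diag {n : ℕ} (a : Fin n → ℕ) : (diag a).index = ∏ i, a i := by
  have h : diag a = AddSubgroup.pi Set.univ (fun i => AddSubgroup.zmultiples (a i : ℤ)) := by
    ext x
    rw [mem_diag, AddSubgroup.mem_pi]
    refine ⟨fun h i _ => Int.mem_zmultiples_iff.mpr (h i),
      fun h i => Int.mem_zmultiples_iff.mp (h i (Set.mem_univ i))⟩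
  rw [h, AddSubgroup.index_pi]
  refine Finset.prod_congr rfl fun i _ => ?_
  rw [Int.index_zmultiples, Int.natAbs_natCast]

theorem index_comap_diag {n : ℕ} (F : Z n →+ Z n) (a : Fin n → ℕ)
    (h : ∀ y : Z n, ∃ x, ∀ i, (a i : ℤ) ∣ F x i - y i) :
    ((diag a).comap F).index = ∏ i, a i := by
  rw [AddSubgroup.index_comap, ← index_diag, ← AddSubgroup.relIndex_sup_right]
  have : F.range ⊔ diag a = ⊤ := by
    rw [eq_top_iff]
    intro y _
    obtain ⟨x, hx⟩ := h y
    have h1 : y = F x + (y - F x) := by abel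
    rw [h1]
    refine AddSubgroup.add_mem_sup ⟨x, rfl⟩ ?_
    intro i
    have h2 : (y - F x) i = - (F x i - y i) := by
      rw [Pi.sub_apply]
      ring
    rw [h2]
    exact (dvd_neg).mpr (hx i)
  rw [this, AddSubgroup.relIndex_top_right]

/-- The lattice `d M`. -/
def scale {n : ℕ} (d : ℕ) (M : AddSubgroup (Z n)) : AddSubgroup (Z n) :=
  M.map (nsmulAddMonoidHom d)

theorem mem_scale {n : ℕ} {d : ℕ} {M : AddSubgroup (Z n)} {x : Z n} :
    x ∈ scale d M ↔ ∃ y ∈ M, d • y = x := Iff.rfl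

theorem index_scale {n : ℕ} (d : ℕ) (hd : d ≠ 0) (M : AddSubgroup (Z n)) :
    (scale d M).index = M.index * d ^ n := by
  unfold scale
  rw [AddSubgroup.index_map]
  have h1 : (nsmulAddMonoidHom d : Z n →+ Z n).ker = ⊥ := by
    rw [eq_bot_iff]
    intro x hx
    rw [AddSubgroup.mem_bot]
    funext i
    have h2 : d • x = 0 := hx
    have h3 := congrFun h2 i
    rw [Pi.smul_apply, Pi.zero_apply, nsmul_eq_mul] at h3
    rcases mul_eq_zero.mp h3 with h4 | h4
    · exact absurd (by exact_mod_cast h4) hd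
    · exact h4
  have h2 : (nsmulAddMonoidHom d : Z n →+ Z n).range = diag (fun _ => d) := by
    ext x
    rw [mem_diag]
    constructor
    · rintro ⟨y, rfl⟩ i
      exact ⟨y i, by rw [nsmulAddMonoidHom_apply, Pi.smul_apply, nsmul_eq_mul]⟩
    · intro h
      choose y hy using h
      exact ⟨y, funext fun i => by
        rw [nsmulAddMonoidHom_apply, Pi.smul_apply, nsmul_eq_mul, hy]⟩
  rw [h1, h2, sup_bot_eq, index_diag]
  simp

end Pool.Agent.Tor
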