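import Mathlib
import Pool.Agent.Tor.Loc

/-!
# A relative form of Maschke's theorem for abelian groups
-/

set_option autoImplicit false

namespace Pool.Agent.Tor

/-- The endomorphism given by a group element. -/
def act {A V : Type} [AddCommGroup A] [Group V] [DistribMulAction V A] (g : V) : A →+ A :=
  DistribSMul.toAddMonoidHom A g

theorem act_apply {A V : Type} [AddCommGroup A] [Group V] [DistribMulAction V A] (g : V) (a : A) :
    act g a = g • a := rfl

/-- Additive projections for vector spaces over a prime field. -/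
theorem exists_proj' {E : Type} [AddCommGroup E] {p : ℕ} [Fact p.Prime] [Module (ZMod p) E]
    (B : AddSubgroup E) : ∃ φ : E →+ E, (∀ x, φ x ∈ B) ∧ ∀ x ∈ B, φ x = x := by
  obtain ⟨C, hC⟩ := Submodule.exists_isCompl (AddSubgroup.toZModSubmodule p B)
  have h1 : ∀ x : E, ∃ b ∈ B, x - b ∈ C := by
    intro x
    have : x ∈ (AddSubgroup.toZModSubmodule p B) ⊔ C := by
      rw [hC.sup_eq_top]
      exact Submodule.mem_top
    obtain ⟨b, hb, c, hc, rfl⟩ := Submodule.mem_sup.mp this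
    exact ⟨b, hb, by rw [add_sub_cancel_left]; exact hc⟩
  have h2 : ∀ x, x ∈ B → x ∈ C → x = 0 := by
    intro x hb hc
    have : x ∈ (AddSubgroup.toZModSubmodule p B) ⊓ C := ⟨hb, hc⟩
    rw [hC.inf_eq_bot] at this
    exact (Submodule.mem_bot _).mp this
  choose f hf1 hf2 using h1
  refine ⟨⟨⟨f, ?_⟩, ?_⟩, hf1, ?_⟩
  · refine h2 _ (hf1 0) ?_
    have := hf2 0
    rw [zero_sub] at this
    exact (Submodule.neg_mem_iff C).mp this
  · intro x y
    have h3 : f (x + y) - (f x + f y) = 0 := by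
      apply h2
      · exact sub_mem (hf1 _) (add_mem (hf1 _) (hf1 _))
      · have h4 := Submodule.sub_mem C (Submodule.add_mem C (hf2 x) (hf2 y)) (hf2 (x + y))
        have h5 : x - f x + (y - f y) - (x + y - f (x + y)) = f (x + y) - (f x + f y) := by abel
        rwa [h5] at h4
    exact sub_eq_zero.mp h3
  · intro x hx
    show f x = x
    have h3 : x - f x = 0 := h2 _ (sub_mem hx (hf1 x)) (hf2 x)
    exact (sub_eq_zero.mp h3).symm

/-- In an elementary abelian group there are additive projections onto subgroups. -/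
theorem exists_proj {E : Type} [AddCommGroup E] {p : ℕ} (hp : p.Prime) (hE : ∀ x : E, p • x = 0)
    (B : AddSubgroup E) : ∃ φ : E →+ E, (∀ x, φ x ∈ B) ∧ ∀ x ∈ B, φ x = x := by
  have hpf : Fact p.Prime := ⟨hp⟩
  let inst : Module (ZMod p) E := AddCommGroup.zmodModule hE
  exact exists_proj' (p := p) B

/-- Maschke's theorem: for `K ≤ B` stable with `A / K` elementary abelian and the order of the
group prime to `p` there is a stable complement. -/
theorem maschke {A V : Type} [AddCommGroup A] [Group V] [Fintype V] [DistribMulAction V A]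
    {p : ℕ} (hp : p.Prime) (hV : ¬ p ∣ Fintype.card V) (K B : AddSubgroup A)
    (hpA : ∀ a : A, p • a ∈ K) (hK : ∀ (g : V), ∀ x ∈ K, g • x ∈ K)
    (hB : ∀ (g : V), ∀ x ∈ B, g • x ∈ B) :
    ∃ M : AddSubgroup A, K ≤ M ∧ (∀ x ∈ M, x ∈ B → x ∈ K) ∧ (∀ x, ∃ b ∈ B, x - b ∈ M) ∧
      ∀ (g : V), ∀ x ∈ M, g • x ∈ M := by
  obtain ⟨φ, hφ1, hφ2⟩ := exists_proj hp (E := A ⧸ K) (by
    intro x
    obtain ⟨a, rfl⟩ := QuotientAddGroup.mk_surjective x
    have h1 : p • (a : A ⧸ K) = ((p • a : A) : A ⧸ K) := rfl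
    rw [h1, QuotientAddGroup.eq_zero_iff]
    exact hpA a) (B.map (QuotientAddGroup.mk' K))
  obtain ⟨α, hα⟩ : ∃ α : V → (A ⧸ K) →+ (A ⧸ K), ∀ g (a : A), α g (a : A ⧸ K) =
      ((g • a : A) : A ⧸ K) :=
    ⟨fun g => QuotientAddGroup.map K K (act g) (fun x hx => hK g x hx), fun g a => rfl⟩
  have hα1 : ∀ g h x, α (g * h) x = α g (α h x) := by
    intro g h x
    obtain ⟨a, rfl⟩ := QuotientAddGroup.mk_surjective x
    rw [hα, hα, hα, mul_smul]
  have hα0 : ∀ x, α 1 x = x := by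
    intro x
    obtain ⟨a, rfl⟩ := QuotientAddGroup.mk_surjective x
    rw [hα, one_smul]
  have hαB : ∀ g, ∀ x ∈ B.map (QuotientAddGroup.mk' K), α g x ∈ B.map (QuotientAddGroup.mk' K) := by
    rintro g x ⟨a, ha, rfl⟩
    exact ⟨g • a, hB g a ha, (hα g a).symm⟩
  obtain ⟨ψ, hψ⟩ : ∃ ψ : (A ⧸ K) →+ (A ⧸ K), ∀ x, ψ x = ∑ g : V, α g (φ (α g⁻¹ x)) :=
    ⟨∑ g : V, ((α g).comp φ).comp (α g⁻¹), fun x => by
      rw [AddMonoidHom.finsetSum_apply]
      rfl⟩
  have hψB : ∀ x, ψ x ∈ B.map (QuotientAddGroup.mk' K) := by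
    intro x
    rw [hψ]
    exact sum_mem fun g _ => hαB g _ (hφ1 _)
  have hψe : ∀ g x, ψ (α g x) = α g (ψ x) := by
    intro g x
    rw [hψ, hψ, map_sum]
    rw [← Equiv.sum_comp (Equiv.mulLeft g) (fun h => α h (φ (α h⁻¹ (α g x))))]
    refine Finset.sum_congr rfl fun h _ => ?_
    show α (g * h) (φ (α (g * h)⁻¹ (α g x))) = α g (α h (φ (α h⁻¹ x)))
    rw [hα1, ← hα1 (g * h)⁻¹ g x]
    congr 4
    group
  have hψb : ∀ x ∈ B.map (QuotientAddGroup.mk' K), ψ x = Fintype.card V • x := by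
    intro x hx
    rw [hψ]
    have : ∀ g ∈ (Finset.univ : Finset V), α g (φ (α g⁻¹ x)) = x := by
      intro g _
      rw [hφ2 _ (hαB _ x hx), ← hα1, mul_inv_cancel, hα0]
    rw [Finset.sum_congr rfl this, Finset.sum_const]
    rfl
  have hcop : Nat.Coprime (Fintype.card V) p := (Nat.Coprime.symm
    ((Nat.Prime.coprime_iff_not_dvd hp).mpr hV))
  have hp0 : ∀ x : A ⧸ K, p • x = 0 := by
    intro x
    obtain ⟨a, rfl⟩ := QuotientAddGroup.mk_surjective x
    have h1 : p • (a : A ⧸ K) = ((p • a : A) : A ⧸ K) := rfl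
    rw [h1, QuotientAddGroup.eq_zero_iff]
    exact hpA a
  refine ⟨(ψ.ker).comap (QuotientAddGroup.mk' K), ?_, ?_, ?_, ?_⟩
  · intro x hx
    show ψ (x : A ⧸ K) = 0
    rw [(QuotientAddGroup.eq_zero_iff x).mpr hx, map_zero]
  · intro x hx hxB
    have h1 : ψ (x : A ⧸ K) = 0 := hx
    have h3 : ψ (x : A ⧸ K) = Fintype.card V • (x : A ⧸ K) := hψb _ ⟨x, hxB, rfl⟩
    rw [h3] at h1
    have h2 : (x : A ⧸ K) ∈ (⊥ : AddSubgroup (A ⧸ K)) :=
      mem_of_coprime hcop (by rw [h1]; exact zero_mem _) (by rw [hp0]; exact zero_mem _)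
    exact (QuotientAddGroup.eq_zero_iff x).mp h2
  · intro x
    obtain ⟨b, hb, hbx⟩ := hψB (x : A ⧸ K)
    have hbx' : (b : A ⧸ K) = ψ (x : A ⧸ K) := hbx
    obtain ⟨u, v, huv⟩ := exists_inv hcop
    refine ⟨u • b, zsmul_mem hb u, ?_⟩
    show ψ ((x - u • b : A) : A ⧸ K) = 0
    have h1 : ((x - u • b : A) : A ⧸ K) = (x : A ⧸ K) - u • (b : A ⧸ K) := rfl
    have h3 : ψ (b : A ⧸ K) = Fintype.card V • (b : A ⧸ K) := hψb _ ⟨b, hb, rfl⟩
    rw [h1, map_sub, map_zsmul, h3, ← hbx', ← natCast_zsmul, smul_smul,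
      mul_comm u, huv, add_smul, one_smul, mul_comm (p : ℤ), mul_smul, natCast_zsmul, hp0,
      smul_zero, add_zero, sub_self]
  · intro g x hx
    have h1 : ψ (x : A ⧸ K) = 0 := hx
    show ψ ((g • x : A) : A ⧸ K) = 0
    rw [← hα, hψe, h1, map_zero]
where
  exists_inv {a b : ℕ} (h : Nat.Coprime a b) : ∃ t u : ℤ, a * t = 1 + b * u := by
    have h1 := Int.gcd_eq_gcd_ab (a : ℤ) (b : ℤ)
    rw [Int.gcd_natCast_natCast, h] at h1
    refine ⟨Int.gcdA a b, -Int.gcdB a b, ?_⟩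
    push_cast at h1
    linear_combination -h1

end Pool.Agent.Tor
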