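import Mathlib
import Pool.Agent.Tor.Maschke

/-!
# Stable lattices of prime power index and chains of submodules
-/

set_option autoImplicit false

namespace Pool.Agent.Tor

variable {T V : Type} [AddCommGroup T] [Group V] [DistribMulAction V T]

/-- The multiples of `n`. -/
def mulT (T : Type) [AddCommGroup T] (n : ℕ) : AddSubgroup T := (nsmulAddMonoidHom n).range

theorem mem_mulT {n : ℕ} {x : T} : x ∈ mulT T n ↔ ∃ y, n • y = x := Iff.rfl

/-- A chain of stable proper subgroups containing the multiples of `p`. -/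
def Chain (Q : Subgroup V) (p e : ℕ) (F : ℕ → AddSubgroup T) : Prop :=
  (∀ j < e, Stable Q (F j) ∧ (∀ x : T, p • x ∈ F j) ∧ F j ≠ ⊤) ∧
    ∀ j, j + 1 < e → F j ≤ F (j + 1)

/-- The layers of a subgroup. -/
def lay (p : ℕ) (M : AddSubgroup T) (j : ℕ) : AddSubgroup T := loc M (p ^ j) ⊔ mulT T p

theorem loc_loc (M : AddSubgroup T) (a b : ℕ) : loc (loc M a) b = loc M (a * b) := by
  ext x
  rw [mem_loc, mem_loc, mem_loc, mul_smul]

theorem index_step (M : AddSubgroup T) (p : ℕ) :
    M.index = (M ⊔ mulT T p).index * (loc M p).index := by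
  rw [← AddSubgroup.relIndex_mul_index (le_sup_left : M ≤ M ⊔ mulT T p), mul_comm]
  congr 1
  have h1 : M.relIndex (M ⊔ mulT T p) = M.relIndex (mulT T p) :=
    AddSubgroup.relIndex_sup_left (mulT T p) M
  rw [h1]
  unfold mulT loc
  rw [AddSubgroup.index_comap]

theorem loc_one (M : AddSubgroup T) : loc M 1 = M := by
  ext x
  rw [mem_loc, one_smul]

/-- The index is the product of the indices of the layers. -/
theorem index_lay (p : ℕ) : ∀ (e : ℕ) (M : AddSubgroup T), (∀ x : T, p ^ e • x ∈ M) →
    M.index = ∏ j ∈ Finset.range e, (lay p M j).index := by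
  intro e
  induction e with
  | zero =>
    intro M hM
    have h1 : M = ⊤ := by
      rw [eq_top_iff]
      intro x _
      have := hM x
      rwa [pow_zero, one_smul] at this
    rw [h1]
    simp
  | succ e ih =>
    intro M hM
    rw [index_step M p, ih (loc M p) (fun x => by
      rw [mem_loc, ← mul_smul, ← pow_succ']
      exact hM x), Finset.prod_range_succ']
    have h1 : lay p M 0 = M ⊔ mulT T p := by
      unfold lay
      rw [pow_zero, loc_one]
    have h2 : ∀ j, lay p (loc M p) j = lay p M (j + 1) := by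
      intro j
      unfold lay
      rw [loc_loc, ← pow_succ']
    rw [h1, mul_comm]
    congr 1
    exact Finset.prod_congr rfl fun j _ => by rw [h2]

/-- If a layer is everything then the subgroup contains the corresponding multiples. -/
theorem lay_top {p e j : ℕ} {M : AddSubgroup T} (hM : ∀ x : T, p ^ e • x ∈ M) (hj : j ≤ e)
    (h : lay p M j = ⊤) (x : T) : p ^ j • x ∈ M := by
  have key : ∀ i, ∀ y : T, p ^ (j + (e - j - i)) • y ∈ M := by
    intro i
    induction i with
    | zero =>
      intro y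
      have : j + (e - j - 0) = e := by omega
      rw [this]
      exact hM y
    | succ i ih =>
      intro y
      by_cases hi : e - j - i = 0
      · have : e - j - (i + 1) = e - j - i := by omega
        rw [this]
        exact ih y
      · have hy : y ∈ lay p M j := by
          rw [h]
          exact AddSubgroup.mem_top y
        obtain ⟨a, ha, b, hb, rfl⟩ := AddSubgroup.mem_sup.mp hy
        obtain ⟨z, rfl⟩ := hb
        rw [smul_add]
        refine add_mem ?_ ?_
        · have h1 : p ^ (j + (e - j - (i + 1))) • a = p ^ (e - j - (i + 1)) • (p ^ j • a) := by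
            rw [← mul_smul, ← pow_add, add_comm]
          rw [h1]
          exact nsmul_mem (mem_loc.mp ha) _
        · have h1 : p ^ (j + (e - j - (i + 1))) • (nsmulAddMonoidHom p z : T) =
              p ^ (j + (e - j - i)) • z := by
            rw [nsmulAddMonoidHom_apply, ← mul_smul, ← pow_succ]
            congr 2
            omega
          rw [h1]
          exact ih z
  have h1 := key (e - j) x
  have h2 : j + (e - j - (e - j)) = j := by omega
  rwa [h2] at h1

theorem stable_sup {Q : Subgroup V} {A B : AddSubgroup T} (hA : Stable Q A) (hB : Stable Q B) :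
    Stable Q (A ⊔ B) := by
  intro q hq x hx
  obtain ⟨a, ha, b, hb, rfl⟩ := AddSubgroup.mem_sup.mp hx
  rw [smul_add]
  exact AddSubgroup.add_mem_sup (hA q hq a ha) (hB q hq b hb)

theorem stable_mulT (Q : Subgroup V) (n : ℕ) : Stable Q (mulT T n) := by
  rintro q _ x ⟨y, rfl⟩
  refine ⟨q • y, ?_⟩
  rw [nsmulAddMonoidHom_apply, nsmulAddMonoidHom_apply]
  exact (smul_comm q n y).symm

/-- The layers form a chain. -/
theorem chain_lay {Q : Subgroup V} {p e : ℕ} {M : AddSubgroup T} (hQ : Stable Q M)
    (hM : ∀ x : T, p ^ e • x ∈ M) (hne : 1 ≤ e → ∃ x : T, p ^ (e - 1) • x ∉ M) :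
    Chain Q p e (lay p M) := by
  refine ⟨fun j hj => ⟨stable_sup (stable_loc hQ _) (stable_mulT Q p), fun x => ?_, fun h => ?_⟩,
    fun j _ => ?_⟩
  · exact AddSubgroup.mem_sup_right ⟨x, rfl⟩
  · obtain ⟨x, hx⟩ := hne (by omega)
    apply hx
    have h1 := lay_top hM (by omega) h x
    have h2 : p ^ (e - 1) • x = p ^ (e - 1 - j) • (p ^ j • x) := by
      rw [← mul_smul, ← pow_add]
      congr 2
      omega
    rw [h2]
    exact nsmul_mem h1 _
  · refine sup_le_sup_right ?_ _
    intro x hx
    rw [mem_loc] at hx ⊢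
    rw [pow_succ', mul_smul]
    exact nsmul_mem hx _

/-- Every chain is the chain of layers of a stable subgroup, up to the indices. -/
theorem exists_of_chain (Q : Subgroup V) [Finite Q] {p : ℕ} (hp : p.Prime)
    (hpQ : ¬ p ∣ Nat.card Q) (htf : ∀ x y : T, p • x = p • y → x = y) :
    ∀ (e : ℕ) (F : ℕ → AddSubgroup T), Chain Q p e F → ∃ M : AddSubgroup T, Stable Q M ∧
      (∀ x : T, p ^ e • x ∈ M) ∧ M.index = ∏ j ∈ Finset.range e, (F j).index ∧
      (1 ≤ e → M ⊔ mulT T p = F 0) ∧ (1 ≤ e → ∃ x : T, p ^ (e - 1) • x ∉ M) ∧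
      ∀ j < e, lay p M j = F j := by
  intro e
  induction e with
  | zero =>
    intro F _
    exact ⟨⊤, fun q _ x _ => AddSubgroup.mem_top _, fun x => AddSubgroup.mem_top _, by simp,
      fun h => by omega, fun h => by omega, fun j hj => by omega⟩
  | succ e ih =>
    intro F hF
    obtain ⟨N, hN1, hN2, hN3, hN4, hN5, hN6⟩ := ih (fun j => F (j + 1))
      ⟨fun j hj => hF.1 (j + 1) (by omega), fun j hj => hF.2 (j + 1) (by omega)⟩
    obtain ⟨hF1, hF2, hF3⟩ := hF.1 0 (by omega)
    have hcover : ∀ x ∈ F 0, ∃ a ∈ N, ∃ z, a + p • z = x := by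
      intro x hx
      by_cases he : 1 ≤ e
      · have h1 : x ∈ N ⊔ mulT T p := by
          rw [hN4 he]
          exact hF.2 0 (by omega) hx
        obtain ⟨a, ha, b, hb, rfl⟩ := AddSubgroup.mem_sup.mp h1
        obtain ⟨z, rfl⟩ := hb
        exact ⟨a, ha, z, rfl⟩
      · have he0 : e = 0 := by omega
        subst he0
        have h1 := hN2 x
        rw [pow_zero, one_smul] at h1
        exact ⟨x, h1, 0, by rw [smul_zero, add_zero]⟩
    -- the group in which we take a complement
    obtain ⟨A, hA⟩ : ∃ A : AddSubgroup T, A = N ⊓ F 0 := ⟨_, rfl⟩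
    have hAN : ∀ a ∈ A, a ∈ N := fun a ha => by rw [hA] at ha; exact ha.1
    have hAF : ∀ a ∈ A, a ∈ F 0 := fun a ha => by rw [hA] at ha; exact ha.2
    have hAs : ∀ q : Q, ∀ a ∈ A, (q : V) • a ∈ A := by
      intro q a ha
      rw [hA]
      exact ⟨hN1 q q.2 a (hAN a ha), hF1 q q.2 a (hAF a ha)⟩
    let instA : DistribMulAction Q A :=
      { smul := fun q a => ⟨(q : V) • (a : T), hAs q a a.2⟩
        one_smul := fun a => Subtype.ext (one_smul V (a : T))
        mul_smul := fun q r a => Subtype.ext (mul_smul (q : V) (r : V) (a : T))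
        smul_zero := fun q => Subtype.ext (smul_zero (q : V))
        smul_add := fun q a b => Subtype.ext (smul_add (q : V) (a : T) (b : T)) }
    have hsm : ∀ (q : Q) (a : A), ((q • a : A) : T) = (q : V) • (a : T) := fun q a => rfl
    let instF : Fintype Q := Fintype.ofFinite Q
    obtain ⟨K, hK⟩ : ∃ K : AddSubgroup A, ∀ a : A, a ∈ K ↔ ∃ z ∈ N, p • z = (a : T) :=
      ⟨(N.map (nsmulAddMonoidHom p)).comap A.subtype, fun a => Iff.rfl⟩
    obtain ⟨B, hB⟩ : ∃ B : AddSubgroup A, ∀ a : A, a ∈ B ↔ ∃ z, p • z = (a : T) :=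
      ⟨(mulT T p).comap A.subtype, fun a => Iff.rfl⟩
    obtain ⟨M, hM1, hM2, hM3, hM4⟩ := maschke (A := A) (V := Q) hp
      (by rwa [← Nat.card_eq_fintype_card]) K B
      (fun a => (hK _).mpr ⟨a, hAN a a.2, rfl⟩)
      (fun q a ha => by
        rw [hK] at ha ⊢
        obtain ⟨z, hz, hza⟩ := ha
        refine ⟨(q : V) • z, hN1 q q.2 z hz, ?_⟩
        rw [hsm, ← hza]
        exact (smul_comm (q : V) p z).symm)
      (fun q a ha => by
        rw [hB] at ha ⊢
        obtain ⟨z, hza⟩ := ha
        refine ⟨(q : V) • z, ?_⟩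
        rw [hsm, ← hza]
        exact (smul_comm (q : V) p z).symm)
    obtain ⟨M', hM'⟩ : ∃ M' : AddSubgroup T, ∀ x, x ∈ M' ↔ ∃ h : x ∈ A, (⟨x, h⟩ : A) ∈ M :=
      ⟨M.map A.subtype, fun x => ⟨by
        rintro ⟨a, ha, rfl⟩
        exact ⟨a.2, ha⟩, by
        rintro ⟨h, hx⟩
        exact ⟨⟨x, h⟩, hx, rfl⟩⟩⟩
    have hloc : loc M' p = N := by
      ext z
      rw [mem_loc, hM']
      constructor
      · rintro ⟨h, hz⟩
        obtain ⟨y, hy, hyz⟩ := (hK _).mp (hM2 _ hz ((hB _).mpr ⟨z, rfl⟩))
        rwa [← htf y z hyz]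
      · intro hz
        have h : p • z ∈ A := by
          rw [hA]
          exact ⟨nsmul_mem hz p, hF2 z⟩
        exact ⟨h, hM1 ((hK _).mpr ⟨z, hz, rfl⟩)⟩
    have hsup : M' ⊔ mulT T p = F 0 := by
      apply le_antisymm
      · refine sup_le ?_ ?_
        · intro x hx
          obtain ⟨h, _⟩ := (hM' x).mp hx
          exact hAF x h
        · rintro x ⟨z, rfl⟩
          exact hF2 z
      · intro x hx
        obtain ⟨a, ha, z, rfl⟩ := hcover x hx
        have haF : a ∈ F 0 := by
          have := sub_mem hx (hF2 z)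
          rwa [add_sub_cancel_right] at this
        have haA : a ∈ A := by
          rw [hA]
          exact ⟨ha, haF⟩
        obtain ⟨b, hb, hab⟩ := hM3 ⟨a, haA⟩
        obtain ⟨y, hy⟩ := (hB b).mp hb
        have h1 : a - (b : T) ∈ M' := by
          rw [hM']
          exact ⟨(⟨a, haA⟩ - b : A).2, hab⟩
        have h2 : a + p • z = (a - (b : T)) + (p • y + p • z) := by
          rw [hy]
          abel
        rw [h2, ← smul_add]
        exact AddSubgroup.add_mem_sup h1 ⟨y + z, rfl⟩
    refine ⟨M', ?_, ?_, ?_, fun _ => hsup, fun _ => ?_, ?_⟩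
    · intro q hq x hx
      rw [hM'] at hx ⊢
      obtain ⟨h, hx⟩ := hx
      exact ⟨hAs ⟨q, hq⟩ x h, hM4 ⟨q, hq⟩ _ hx⟩
    · intro x
      have h1 : p ^ e • x ∈ loc M' p := by
        rw [hloc]
        exact hN2 x
      rw [mem_loc, ← mul_smul, ← pow_succ'] at h1
      exact h1
    · rw [index_step M' p, hsup, hloc, hN3, Finset.prod_range_succ', mul_comm]
    · by_cases he : 1 ≤ e
      · obtain ⟨x, hx⟩ := hN5 he
        refine ⟨x, fun h => hx ?_⟩
        rw [← hloc, mem_loc, ← mul_smul, ← pow_succ']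
        have h2 : e - 1 + 1 = e + 1 - 1 := by omega
        rw [h2]
        exact h
      · have he0 : e = 0 := by omega
        subst he0
        by_contra hc
        push Not at hc
        apply hF3
        rw [← hsup, eq_top_iff]
        intro x _
        have h1 := hc x
        rw [show 0 + 1 - 1 = 0 from rfl, pow_zero, one_smul] at h1
        exact AddSubgroup.mem_sup_left h1
    · intro j hj
      rcases j with _ | j
      · unfold lay
        rw [pow_zero, loc_one]
        exact hsup
      · rw [← hN6 j (by omega), ← hloc]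
        unfold lay
        rw [loc_loc, ← pow_succ']

end Pool.Agent.Tor
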