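import Mathlib
import Pool.Agent.Tor.Chain

/-!
# The local-global description of the indices of stable subgroups
-/

set_option autoImplicit false

namespace Pool.Agent.Tor

variable {T V : Type} [AddCommGroup T] [Group V] [DistribMulAction V T]

/-- Properties of a prime. -/
structure Good (T V : Type) [AddCommGroup T] [Group V] [DistribMulAction V T] (p : ℕ) :
    Prop where
  htf : ∀ x y : T, p • x = p • y → x = y
  hne : ∃ x : T, ∀ y : T, p • y ≠ x
  hirr : ∀ K : AddSubgroup T, (∀ (w : V), ∀ x ∈ K, w • x ∈ K) → (∀ x : T, p • x ∈ K) →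
    K = ⊤ ∨ ∀ x ∈ K, ∃ y, p • y = x

theorem core_le' {M L : AddSubgroup T} (h : HasCore (V := V) M L) : L ≤ M := by
  intro x hx
  have := (h x).mpr hx 1
  rwa [one_smul] at this

/-- The core of a subgroup. -/
def coreOf (V : Type) {T : Type} [AddCommGroup T] [Group V] [DistribMulAction V T]
    (M : AddSubgroup T) : AddSubgroup T where
  carrier := {x | ∀ w : V, w • x ∈ M}
  add_mem' ha hb w := by rw [smul_add]; exact add_mem (ha w) (hb w)
  zero_mem' w := by rw [smul_zero]; exact zero_mem _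
  neg_mem' ha w := by rw [smul_neg]; exact neg_mem (ha w)

theorem mem_coreOf {M : AddSubgroup T} {x : T} : x ∈ coreOf V M ↔ ∀ w : V, w • x ∈ M := Iff.rfl

theorem coreOf_smul {M : AddSubgroup T} (w : V) {x : T} (hx : x ∈ coreOf V M) :
    w • x ∈ coreOf V M := by
  intro v
  rw [← mul_smul]
  exact hx _

theorem core_prime {p e : ℕ} (hG : Good T V p) {M : AddSubgroup T}
    (hM : ∀ x : T, p ^ e • x ∈ M) (hne : 1 ≤ e → ∃ x : T, p ^ (e - 1) • x ∉ M) :
    HasCore (V := V) M (mulT T (p ^ e)) := by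
  have hcomm : ∀ (w : V) (n : ℕ) (x : T), w • n • x = n • w • x := fun w n x => smul_comm w n x
  have hK : ∀ x : T, p ^ e • x ∈ coreOf V M := by
    intro x w
    rw [hcomm]
    exact hM _
  intro x
  constructor
  · intro hx
    have key : ∀ j ≤ e, ∀ x ∈ coreOf V M, ∃ y, p ^ j • y = x := by
      intro j
      induction j with
      | zero =>
        intro _ x _
        exact ⟨x, by rw [pow_zero, one_smul]⟩
      | succ j ih =>
        intro hj x hx
        rcases hG.hirr (lay p (coreOf V M) j) (by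
          intro w y hy
          obtain ⟨a, ha, b, hb, rfl⟩ := AddSubgroup.mem_sup.mp hy
          obtain ⟨z, rfl⟩ := hb
          rw [smul_add]
          refine AddSubgroup.add_mem_sup ?_ ⟨w • z, ?_⟩
          · rw [mem_loc] at ha ⊢
            rw [← hcomm]
            exact coreOf_smul w ha
          · rw [nsmulAddMonoidHom_apply, nsmulAddMonoidHom_apply, hcomm])
          (fun y => AddSubgroup.mem_sup_right ⟨y, rfl⟩) with h1 | h1
        · exfalso
          obtain ⟨y, hy⟩ := hne (by omega)
          apply hy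
          have h2 := lay_top hK (by omega) h1 y
          have h3 : p ^ (e - 1) • y = p ^ (e - 1 - j) • (p ^ j • y) := by
            rw [← mul_smul, ← pow_add]
            congr 2
            omega
          rw [h3]
          apply nsmul_mem
          have := h2 1
          rwa [one_smul] at this
        · obtain ⟨y, rfl⟩ := ih (by omega) x hx
          obtain ⟨z, rfl⟩ := h1 y (AddSubgroup.mem_sup_left (mem_loc.mpr hx))
          exact ⟨z, by rw [← mul_smul, ← pow_succ]⟩
    exact key e le_rfl x hx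
  · rintro ⟨y, rfl⟩ w
    rw [nsmulAddMonoidHom_apply, hcomm]
    exact hM _

theorem pow_tf {p : ℕ} (hG : Good T V p) : ∀ (n : ℕ) (x y : T), p ^ n • x = p ^ n • y → x = y := by
  intro n
  induction n with
  | zero =>
    intro x y h
    rwa [pow_zero, one_smul, one_smul] at h
  | succ n ih =>
    intro x y h
    rw [pow_succ', mul_smul, mul_smul] at h
    exact ih x y (hG.htf _ _ h)

theorem core_prime_conv {p e : ℕ} (hG : Good T V p) {M : AddSubgroup T}
    (hc : HasCore (V := V) M (mulT T (p ^ e))) :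
    (∀ x : T, p ^ e • x ∈ M) ∧ (1 ≤ e → ∃ x : T, p ^ (e - 1) • x ∉ M) := by
  refine ⟨fun x => core_le' hc ⟨x, rfl⟩, fun he => ?_⟩
  by_contra hcon
  push Not at hcon
  obtain ⟨x, hx⟩ := hG.hne
  have h1 : p ^ (e - 1) • x ∈ mulT T (p ^ e) := by
    rw [← hc]
    intro w
    have : w • p ^ (e - 1) • x = p ^ (e - 1) • w • x := smul_comm w _ x
    rw [this]
    exact hcon _
  obtain ⟨y, hy⟩ := h1
  apply hx y
  apply pow_tf hG (e - 1)
  rw [← hy, nsmulAddMonoidHom_apply, ← mul_smul, ← pow_succ]
  congr 2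
  omega

/-- The index `m` is realised by a `Q`-stable subgroup with core `L`. -/
def RelQ (Q : Subgroup V) (L : AddSubgroup T) (m : ℕ) : Prop :=
  ∃ M : AddSubgroup T, Stable Q M ∧ HasCore (V := V) M L ∧ M.index = m

/-- The indices for a power of a prime. -/
theorem rel_prime (Q : Subgroup V) [Finite Q] {p : ℕ} (hp : p.Prime) (hG : Good T V p)
    (hpQ : ¬ p ∣ Nat.card Q) (e m : ℕ) :
    RelQ Q (mulT T (p ^ e)) m ↔ ∃ F : ℕ → AddSubgroup T, Chain Q p e F ∧
      m = ∏ j ∈ Finset.range e, (F j).index := by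
  constructor
  · rintro ⟨M, hQ, hc, rfl⟩
    obtain ⟨h1, h2⟩ := core_prime_conv hG hc
    exact ⟨lay p M, chain_lay hQ h1 h2, index_lay p e M h1⟩
  · rintro ⟨F, hF, rfl⟩
    obtain ⟨P, hP1, hP2, hP3, _, hP5, _⟩ := exists_of_chain Q hp hpQ hG.htf e F hF
    exact ⟨P, hP1, core_prime hG hP2 hP5, hP3⟩

/-- Splitting the core into two parts of coprime index. -/
theorem rel_split (Q : Subgroup V) {L₁ L₂ : AddSubgroup T} (h1 : L₁.index ≠ 0)
    (h2 : L₂.index ≠ 0) (hcop : Nat.Coprime L₁.index L₂.index) (m : ℕ) :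
    RelQ Q (L₁ ⊓ L₂) m ↔ ∃ m₁ m₂ : ℕ, RelQ Q L₁ m₁ ∧ RelQ Q L₂ m₂ ∧ m = m₁ * m₂ := by
  have hcomm : ∀ (w : V) (n : ℕ) (x : T), w • n • x = n • w • x := fun w n x => smul_comm w n x
  constructor
  · rintro ⟨M, hQ, hc, rfl⟩
    have hdvd : M.index ∣ L₁.index * L₂.index := by
      rw [← index_inf_coprime _ _ hcop h1 h2]
      exact AddSubgroup.index_dvd_of_le (core_le' hc)
    obtain ⟨a, b, ha, hb, hab⟩ : ∃ a b, a ∣ L₁.index ∧ b ∣ L₂.index ∧ a * b = M.index := by
      obtain ⟨y, z, hy, hz, hyz⟩ := Nat.dvd_mul.mp hdvd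
      exact ⟨y, z, hy, hz, hyz⟩
    have ha0 : a ≠ 0 := fun h => h1 (zero_dvd_iff.mp (h ▸ ha))
    have hb0 : b ≠ 0 := fun h => h2 (zero_dvd_iff.mp (h ▸ hb))
    have hab' : Nat.Coprime a b := Nat.Coprime.coprime_dvd_left ha
      (Nat.Coprime.coprime_dvd_right hb hcop)
    have hmul : ∀ x : T, (a * b) • x ∈ L₁ ⊓ L₂ := by
      intro x
      rw [← hc, hab]
      intro w
      rw [hcomm]
      exact smul_index_mem M _
    have hc1 : Nat.Coprime b L₁.index := Nat.Coprime.coprime_dvd_left hb hcop.symm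
    have hc2 : Nat.Coprime a L₂.index := Nat.Coprime.coprime_dvd_left ha hcop
    have hM1 : HasCore (V := V) (loc M b) L₁ := by
      have h3 := core_loc hc b
      have h4 : loc (L₁ ⊓ L₂) b = L₁ := by
        ext x
        rw [mem_loc]
        constructor
        · rintro ⟨h5, _⟩
          exact mem_of_coprime hc1 h5 (smul_index_mem L₁ x)
        · intro h5
          refine ⟨nsmul_mem h5 _, ?_⟩
          refine mem_of_coprime hc2 ?_ (smul_index_mem L₂ _)
          rw [← mul_smul]
          exact (hmul x).2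
      rwa [h4] at h3
    have hM2 : HasCore (V := V) (loc M a) L₂ := by
      have h3 := core_loc hc a
      have h4 : loc (L₁ ⊓ L₂) a = L₂ := by
        ext x
        rw [mem_loc]
        constructor
        · rintro ⟨_, h5⟩
          exact mem_of_coprime hc2 h5 (smul_index_mem L₂ x)
        · intro h5
          refine ⟨?_, nsmul_mem h5 _⟩
          refine mem_of_coprime hc1 ?_ (smul_index_mem L₁ _)
          rw [← mul_smul, mul_comm]
          exact (hmul x).1
      rwa [h4] at h3
    exact ⟨a, b, ⟨_, stable_loc hQ _, hM1, index_loc M ha0 hb0 hab' hab.symm⟩,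
      ⟨_, stable_loc hQ _, hM2, index_loc M hb0 ha0 hab'.symm (by rw [← hab, mul_comm])⟩,
      hab.symm⟩
  · rintro ⟨_, _, ⟨M₁, hQ1, hc1, rfl⟩, ⟨M₂, hQ2, hc2, rfl⟩, rfl⟩
    have hd1 := AddSubgroup.index_dvd_of_le (core_le' hc1)
    have hd2 := AddSubgroup.index_dvd_of_le (core_le' hc2)
    refine ⟨M₁ ⊓ M₂, ?_, ?_, ?_⟩
    · intro q hq x hx
      exact ⟨hQ1 q hq x hx.1, hQ2 q hq x hx.2⟩
    · intro x
      rw [AddSubgroup.mem_inf, ← hc1, ← hc2]
      simp only [AddSubgroup.mem_inf]
      exact forall_and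
    · exact index_inf_coprime M₁ M₂ (Nat.Coprime.coprime_dvd_left hd1
        (Nat.Coprime.coprime_dvd_right hd2 hcop)) (fun h => h1 (zero_dvd_iff.mp (h ▸ hd1)))
        (fun h => h2 (zero_dvd_iff.mp (h ▸ hd2)))

theorem mulT_inf {a b : ℕ} (h : Nat.Coprime a b) : mulT T a ⊓ mulT T b = mulT T (a * b) := by
  ext x
  constructor
  · rintro ⟨⟨y, hy⟩, ⟨z, hz⟩⟩
    rw [nsmulAddMonoidHom_apply] at hy hz
    refine mem_of_coprime h ?_ ?_
    · exact ⟨z, by rw [nsmulAddMonoidHom_apply, mul_smul, hz]⟩
    · exact ⟨y, by rw [nsmulAddMonoidHom_apply, mul_comm, mul_smul, hy]⟩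
  · rintro ⟨y, rfl⟩
    refine ⟨⟨b • y, ?_⟩, ⟨a • y, ?_⟩⟩
    · rw [nsmulAddMonoidHom_apply, nsmulAddMonoidHom_apply, mul_smul]
    · rw [nsmulAddMonoidHom_apply, nsmulAddMonoidHom_apply, mul_comm, mul_smul]

theorem mulT_one : mulT T 1 = ⊤ := by
  rw [eq_top_iff]
  intro x _
  exact ⟨x, by rw [nsmulAddMonoidHom_apply, one_smul]⟩

theorem coprime_mulT (hfin : ∀ n : ℕ, n ≠ 0 → (mulT T n).index ≠ 0) {a b : ℕ} (ha : a ≠ 0)
    (hab : Nat.Coprime a b) : Nat.Coprime (mulT T a).index b :=
  coprime_index _ (hfin a ha) hab (fun x => ⟨x, rfl⟩)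

/-- The local-global description. -/
theorem rel_glob (Q : Subgroup V) (hfin : ∀ n : ℕ, n ≠ 0 → (mulT T n).index ≠ 0)
    {L : AddSubgroup T} (hL0 : L.index ≠ 0) : ∀ (s : ℕ), s ≠ 0 → Nat.Coprime s L.index →
      ∀ m : ℕ, RelQ Q (L ⊓ mulT T s) m ↔ ∃ (m' : ℕ) (f : ℕ → ℕ), RelQ Q L m' ∧
        (∀ p ∈ s.primeFactors, RelQ Q (mulT T (p ^ s.factorization p)) (f p)) ∧
          m = m' * ∏ p ∈ s.primeFactors, f p := by
  intro s
  induction s using Nat.strong_induction_on with
  | _ s ih =>
    intro hs hcop m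
    by_cases hs1 : s = 1
    · subst hs1
      rw [mulT_one, inf_top_eq, Nat.primeFactors_one]
      constructor
      · intro h
        exact ⟨m, fun _ => 0, h, by simp, by simp⟩
      · rintro ⟨m', f, h1, _, rfl⟩
        simpa using h1
    · obtain ⟨p, hp, hps⟩ := Nat.exists_prime_and_dvd hs1
      obtain ⟨e, he⟩ : ∃ e, e = s.factorization p := ⟨_, rfl⟩
      obtain ⟨s', hs', hps'⟩ : ∃ s', s = p ^ e * s' ∧ Nat.Coprime p s' :=
        ⟨_, by rw [he]; exact (Nat.ordProj_mul_ordCompl_eq_self _ p).symm,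
          Nat.coprime_ordCompl hp hs⟩
      have hs'0 : s' ≠ 0 := by
        rintro rfl
        exact hs (by rw [hs', mul_zero])
      have hpe0 : p ^ e ≠ 0 := pow_ne_zero _ hp.ne_zero
      have he1 : 1 ≤ e := by
        rw [he]
        exact hp.factorization_pos_of_dvd hs hps
      have hlt : s' < s := by
        conv_rhs => rw [hs']
        have : 1 < p ^ e := Nat.one_lt_pow (by omega) hp.one_lt
        exact (Nat.lt_mul_iff_one_lt_left (Nat.pos_of_ne_zero hs'0)).mpr this
      have hpf : s.primeFactors = insert p s'.primeFactors := by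
        conv_lhs => rw [hs']
        rw [Nat.primeFactors_mul (pow_ne_zero _ hp.ne_zero) hs'0,
          Nat.primeFactors_prime_pow (by omega) hp]
        rfl
      have hpn : p ∉ s'.primeFactors := by
        intro h
        exact hp.one_lt.ne' (Nat.Coprime.eq_one_of_dvd hps' (Nat.dvd_of_mem_primeFactors h))
      have hfac : ∀ q ∈ s'.primeFactors, s.factorization q = s'.factorization q := by
        intro q hq
        have hqp : q ≠ p := fun h => hpn (h ▸ hq)
        conv_lhs => rw [hs']
        rw [Nat.factorization_mul (pow_ne_zero _ hp.ne_zero) hs'0, Finsupp.add_apply,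
          Nat.factorization_pow, Finsupp.smul_apply, Nat.Prime.factorization hp,
          Finsupp.single_eq_of_ne hqp, smul_zero, zero_add]
      have hs'd : s' ∣ s := ⟨p ^ e, by rw [hs', mul_comm]⟩
      have hped : p ^ e ∣ s := ⟨s', hs'⟩
      have hIH := ih s' hlt hs'0 (Nat.Coprime.coprime_dvd_left hs'd hcop)
      have hL : L ⊓ mulT T s = (L ⊓ mulT T s') ⊓ mulT T (p ^ e) := by
        rw [inf_assoc, mulT_inf (Nat.Coprime.pow_right e hps'.symm)]
        congr 2
        rw [hs', mul_comm]
      have hc1 : Nat.Coprime L.index (mulT T s').index :=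
        ((coprime_mulT hfin hs'0 (Nat.Coprime.coprime_dvd_left hs'd hcop))).symm
      have hi : (L ⊓ mulT T s').index = L.index * (mulT T s').index :=
        index_inf_coprime _ _ hc1 hL0 (hfin _ hs'0)
      have hL'0 : (L ⊓ mulT T s').index ≠ 0 := by
        rw [hi]
        exact mul_ne_zero hL0 (hfin _ hs'0)
      have hL'c : Nat.Coprime (L ⊓ mulT T s').index (mulT T (p ^ e)).index := by
        apply Nat.Coprime.symm
        apply coprime_mulT hfin hpe0
        rw [hi]
        apply Nat.Coprime.mul_right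
        · exact Nat.Coprime.coprime_dvd_left hped hcop
        · exact (coprime_mulT hfin hs'0 (Nat.Coprime.pow_right e hps'.symm)).symm
      rw [hL, rel_split Q hL'0 (hfin _ hpe0) hL'c]
      constructor
      · rintro ⟨m', m₂, h1, h2, rfl⟩
        obtain ⟨m₀, f, h3, h4, rfl⟩ := (hIH m').mp h1
        refine ⟨m₀, Function.update f p m₂, h3, ?_, ?_⟩
        · intro q hq
          rw [hpf, Finset.mem_insert] at hq
          rcases hq with rfl | hq
          · rw [Function.update_self, ← he]
            exact h2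
          · have hqp : q ≠ p := fun h => hpn (h ▸ hq)
            rw [Function.update_of_ne hqp, hfac q hq]
            exact h4 q hq
        · rw [hpf, Finset.prod_insert hpn, Function.update_self]
          have h5 : ∏ q ∈ s'.primeFactors, Function.update f p m₂ q =
              ∏ q ∈ s'.primeFactors, f q := by
            refine Finset.prod_congr rfl fun q hq => ?_
            have hqp : q ≠ p := fun h => hpn (h ▸ hq)
            rw [Function.update_of_ne hqp]
          rw [h5]
          ring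
      · rintro ⟨m₀, f, h3, h4, rfl⟩
        refine ⟨_, f p, (hIH _).mpr ⟨m₀, f, h3, fun q hq => ?_, rfl⟩, ?_, ?_⟩
        · rw [← hfac q hq]
          exact h4 q (by rw [hpf]; exact Finset.mem_insert_of_mem hq)
        · rw [he]
          exact h4 p (by rw [hpf]; exact Finset.mem_insert_self _ _)
        · rw [hpf, Finset.prod_insert hpn]
          ring

end Pool.Agent.Tor
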