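import Mathlib
import Pool.Agent.Tor.Chain

/-!
# Adapted projections
-/

set_option autoImplicit false

namespace Pool.Agent.Tor

variable {T : Type} [AddCommGroup T]

open Module

/-- A basis for which a given subgroup is diagonal. -/
theorem exists_diag [Module.Free ℤ T] [Module.Finite ℤ T] (M : AddSubgroup T) :
    ∃ (ι : Type) (_ : Fintype ι) (b : Basis ι ℤ T),
      ∀ x : T, x ∈ M ↔ ∀ j, b.repr x j • b j ∈ M := by
  obtain ⟨n, snf⟩ := (AddSubgroup.toIntSubmodule M).smithNormalForm (Module.Free.chooseBasis ℤ T)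
  refine ⟨Module.Free.ChooseBasisIndex ℤ T, inferInstance, snf.bM, fun x => ?_⟩
  constructor
  · intro hx j
    by_cases hj : j ∈ Set.range snf.f
    · obtain ⟨i, rfl⟩ := hj
      have h1 := snf.repr_apply_embedding_eq_repr_smul ⟨x, hx⟩ (i := i)
      have h2 : snf.bM.repr x (snf.f i) = (snf.bN.repr ⟨x, hx⟩ i) * snf.a i := by
        rw [map_smul, Finsupp.smul_apply, smul_eq_mul] at h1
        rw [mul_comm]
        exact h1
      rw [h2, mul_smul, ← snf.snf]
      exact zsmul_mem (snf.bN i).2 _
    · have h1 := snf.repr_eq_zero_of_notMem_range ⟨x, hx⟩ hj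
      have h2 : snf.bM.repr x j = 0 := h1
      rw [h2, zero_smul]
      exact zero_mem _
  · intro h
    rw [← snf.bM.sum_repr x]
    exact sum_mem fun j _ => h j

/-- The adapted projection. -/
theorem exists_adapted [Module.Free ℤ T] [Module.Finite ℤ T] {p : ℕ} (hp : p.Prime)
    (M : AddSubgroup T) {e a d : ℕ} (hM : ∀ x : T, p ^ e • x ∈ M)
    (hrun : lay p M (a + d) ≤ lay p M a) :
    ∃ θ : T →+ T, (∀ x, θ x ∈ loc M (p ^ a)) ∧ (∀ x ∈ M, θ x ∈ M) ∧
      ∀ x ∈ M, ∃ y, x - θ x = p ^ (a + d + 1) • y := by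
  classical
  obtain ⟨ι, _, b, hb⟩ := exists_diag M
  obtain ⟨J, hJ⟩ : ∃ J : Finset ι, ∀ j, j ∈ J ↔ p ^ a • b j ∈ M :=
    ⟨Finset.univ.filter (fun j => p ^ a • b j ∈ M), fun j => by simp⟩
  obtain ⟨θ, hθ⟩ : ∃ θ : T →+ T, ∀ x, θ x = ∑ j ∈ J, b.repr x j • b j :=
    ⟨{ toFun := fun x => ∑ j ∈ J, b.repr x j • b j
       map_zero' := by simp
       map_add' := fun x y => by
        rw [← Finset.sum_add_distrib]
        refine Finset.sum_congr rfl fun j _ => ?_
        rw [map_add, Finsupp.add_apply, add_smul] }, fun x => rfl⟩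
  refine ⟨θ, fun x => ?_, fun x hx => ?_, fun x hx => ?_⟩
  · rw [hθ, mem_loc, Finset.smul_sum]
    refine sum_mem fun j hj => ?_
    have h1 : p ^ a • b.repr x j • b j = b.repr x j • (p ^ a • b j) := smul_comm _ _ _
    rw [h1]
    exact zsmul_mem ((hJ j).mp hj) _
  · rw [hθ]
    exact sum_mem fun j _ => (hb x).mp hx j
  · have hx' := (hb x).mp hx
    have key : ∀ j, j ∉ J → ∃ c : ℤ, b.repr x j = (p : ℤ) ^ (a + d + 1) * c := by
      intro j hj
      rw [hJ] at hj
      -- the coordinates of the multiples of b j in M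
      have hdiv : ∀ t : ℤ, t • b j ∈ M → (p : ℤ) ^ (a + d + 1) ∣ t := by
        intro t ht
        by_contra hnd
        -- some power of p times b j is in M
        obtain ⟨k, u, hk, hpu, htk⟩ : ∃ (k : ℕ) (u : ℤ), k ≤ a + d ∧ IsCoprime u ((p : ℤ) ^ e) ∧
            t = (p : ℤ) ^ k * u := by
          have ht0 : t ≠ 0 := by
            rintro rfl
            exact hnd (dvd_zero _)
          have hfm : FiniteMultiplicity (p : ℤ) t := by
            rw [Int.finiteMultiplicity_iff]
            refine ⟨?_, ht0⟩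
            rw [Int.natAbs_natCast]
            exact hp.one_lt.ne'
          obtain ⟨u, hu1, hu2⟩ := hfm.exists_eq_pow_mul_and_not_dvd
          refine ⟨multiplicity (p : ℤ) t, u, ?_, ?_, hu1⟩
          · by_contra hlt
            push Not at hlt
            exact hnd ((pow_dvd_pow _ hlt).trans ⟨u, hu1⟩)
          · apply IsCoprime.pow_right
            rw [isCoprime_comm, Prime.coprime_iff_not_dvd (Nat.prime_iff_prime_int.mp hp)]
            exact hu2
        have h1 : (p ^ k) • b j ∈ M := by
          obtain ⟨r, s, hrs⟩ := hpu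
          have h2 : (p ^ k) • b j = r • (t • b j) + ((p : ℤ) ^ k * s) • (p ^ e • b j) := by
            rw [htk, ← natCast_zsmul, ← natCast_zsmul, smul_smul, smul_smul, ← add_smul]
            congr 1
            push_cast
            linear_combination -(p : ℤ) ^ k * hrs
          rw [h2]
          exact add_mem (zsmul_mem ht r) (zsmul_mem (hM _) _)
        have h2 : b j ∈ lay p M (a + d) := by
          apply AddSubgroup.mem_sup_left
          rw [mem_loc]
          have h3 : p ^ (a + d) • b j = p ^ (a + d - k) • (p ^ k • b j) := by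
            rw [← mul_smul, ← pow_add]
            congr 2
            omega
          rw [h3]
          exact nsmul_mem h1 _
        obtain ⟨ν, hν, z, hz, hνz⟩ := AddSubgroup.mem_sup.mp (hrun h2)
        obtain ⟨y, rfl⟩ := hz
        rw [mem_loc] at hν
        have h3 := (hb _).mp hν j
        -- the coordinate of ν is a unit modulo p
        have h4 : b.repr ν j = 1 - p * b.repr y j := by
          have h5 : ν = b j - (p : ℤ) • y := by
            rw [← hνz, nsmulAddMonoidHom_apply, natCast_zsmul]
            abel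
          rw [h5, map_sub, map_smul, Finsupp.sub_apply, Finsupp.smul_apply, b.repr_self,
            Finsupp.single_eq_same, smul_eq_mul]
        have h5 : b.repr (p ^ a • ν) j = (p : ℤ) ^ a * (1 - p * b.repr y j) := by
          rw [← natCast_zsmul, map_smul, Finsupp.smul_apply, h4, smul_eq_mul]
          push_cast
          ring
        rw [h5] at h3
        apply hj
        have h6 : IsCoprime (1 - (p : ℤ) * b.repr y j) ((p : ℤ) ^ e) := by
          apply IsCoprime.pow_right
          exact ⟨1, b.repr y j, by ring⟩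
        obtain ⟨r, s, hrs⟩ := h6
        have h7 : (p ^ a) • b j = r • (((p : ℤ) ^ a * (1 - p * b.repr y j)) • b j) +
            ((p : ℤ) ^ a * s) • (p ^ e • b j) := by
          rw [← natCast_zsmul, ← natCast_zsmul, smul_smul, smul_smul, ← add_smul]
          congr 1
          push_cast
          linear_combination -(p : ℤ) ^ a * hrs
        rw [h7]
        exact add_mem (zsmul_mem h3 r) (zsmul_mem (hM _) _)
      obtain ⟨c, hc⟩ := hdiv _ (hx' j)
      exact ⟨c, hc⟩
    have hsum : x - θ x = ∑ j ∈ Jᶜ, b.repr x j • b j := by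
      rw [hθ, sub_eq_iff_eq_add]
      conv_lhs => rw [← b.sum_repr x]
      exact (Finset.sum_compl_add_sum J _).symm
    rw [hsum]
    have key' : ∀ j : ι, ∃ c : ℤ, j ∉ J → b.repr x j = (p : ℤ) ^ (a + d + 1) * c := by
      intro j
      by_cases hj : j ∈ J
      · exact ⟨0, fun h => absurd hj h⟩
      · obtain ⟨c, hc⟩ := key j hj
        exact ⟨c, fun _ => hc⟩
    choose c hc using key'
    refine ⟨∑ j ∈ Jᶜ, c j • b j, ?_⟩
    rw [Finset.smul_sum]
    refine Finset.sum_congr rfl fun j hj => ?_
    rw [hc j (Finset.mem_compl.mp hj), ← natCast_zsmul, smul_smul]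
    congr 1

end Pool.Agent.Tor
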