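import Mathlib
import Pool.Agent.Tor.Adapt

/-!
# Averaged projections
-/

set_option autoImplicit false

namespace Pool.Agent.Tor

variable {T V : Type} [AddCommGroup T] [Group V] [DistribMulAction V T]

theorem pow_smul_iff {p k : ℕ} {x : T} {M : AddSubgroup T} :
    p ^ k • x ∈ M ↔ (p : ℤ) ^ k • x ∈ M := by
  rw [← natCast_zsmul]
  push_cast
  exact Iff.rfl

/-- The data of an adapted projection and its average. -/
structure Theta (Q : Subgroup V) (M : AddSubgroup T) (p c a D : ℕ) (θ Θ : T →+ T) : Prop where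
  htf : ∀ (k : ℕ) (x y : T), (p : ℤ) ^ k • x = (p : ℤ) ^ k • y → x = y
  t1 : ∀ x, (p : ℤ) ^ a • θ x ∈ M
  t2 : ∀ x ∈ M, ∃ y, x - θ x = (p : ℤ) ^ (a + D) • y
  T0 : ∀ q ∈ Q, ∀ x, Θ (q • x) = q • Θ x
  T1 : ∀ x, (p : ℤ) ^ a • Θ x ∈ M
  T2 : ∀ x ∈ M, ∃ u, Θ x = (p : ℤ) ^ c • x + (p : ℤ) ^ (a + D) • u ∧
    (p : ℤ) ^ (a + D) • u ∈ M

theorem Theta.t3 {Q : Subgroup V} {M : AddSubgroup T} {p c a D : ℕ} {θ Θ : T →+ T}
    (h : Theta Q M p c a D θ Θ) {x : T} (hx : (p : ℤ) ^ a • x ∈ M) :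
    ∃ y, x - θ x = (p : ℤ) ^ D • y := by
  obtain ⟨y, hy⟩ := h.t2 _ hx
  refine ⟨y, h.htf a _ _ ?_⟩
  rw [map_zsmul, ← smul_sub, pow_add, mul_smul] at hy
  exact hy

theorem Theta.T3 {Q : Subgroup V} {M : AddSubgroup T} {p c a D : ℕ} {θ Θ : T →+ T}
    (h : Theta Q M p c a D θ Θ) {x : T} (hx : (p : ℤ) ^ a • x ∈ M) :
    ∃ u, Θ x = (p : ℤ) ^ c • x + (p : ℤ) ^ D • u := by
  obtain ⟨u, hu, _⟩ := h.T2 _ hx
  refine ⟨u, h.htf a _ _ ?_⟩
  rw [map_zsmul] at hu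
  rw [hu]
  module

theorem exists_theta [Module.Free ℤ T] [Module.Finite ℤ T] (Q : Subgroup V) [Finite Q] {p : ℕ}
    (hp : p.Prime) (htf : ∀ x y : T, p • x = p • y → x = y) (M : AddSubgroup T)
    (hQ : Stable Q M) {e a d : ℕ} (hM : ∀ x : T, p ^ e • x ∈ M)
    (hrun : lay p M (a + d) ≤ lay p M a) :
    ∃ θ Θ : T →+ T, Theta Q M p ((Nat.card Q).factorization p) a (d + 1) θ Θ := by
  classical
  obtain ⟨c, hc⟩ : ∃ c, c = (Nat.card Q).factorization p := ⟨_, rfl⟩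
  rw [← hc]
  obtain ⟨r, hr, hpr⟩ : ∃ r, Nat.card Q = p ^ c * r ∧ Nat.Coprime p r :=
    ⟨_, by rw [hc]; exact (Nat.ordProj_mul_ordCompl_eq_self _ p).symm,
      Nat.coprime_ordCompl hp Nat.card_pos.ne'⟩
  obtain ⟨θ, h1, h2, h3⟩ := exists_adapted hp M hM hrun
  have hic : IsCoprime (r : ℤ) ((p : ℤ) ^ (a + d + 1)) := by
    apply IsCoprime.pow_right
    rw [Nat.isCoprime_iff_coprime]
    exact hpr.symm
  obtain ⟨r', k, hrk⟩ := hic
  let instF : Fintype Q := Fintype.ofFinite Q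
  obtain ⟨S, hS⟩ : ∃ S : T →+ T, ∀ x, S x = ∑ q : Q, (q : V) • θ ((q : V)⁻¹ • x) :=
    ⟨∑ q : Q, ((act (q : V)).comp θ).comp (act (q : V)⁻¹), fun x => by
      rw [AddMonoidHom.finsetSum_apply]
      rfl⟩
  have hcard : (Fintype.card Q : ℤ) = (p : ℤ) ^ c * r := by
    rw [← Nat.card_eq_fintype_card, hr]
    push_cast
    ring
  have hpt : ∀ x ∈ M, ∀ q : Q, ∃ y, (q : V) • θ ((q : V)⁻¹ • x) = x + (p : ℤ) ^ (a + d + 1) • y ∧
      (p : ℤ) ^ (a + d + 1) • y ∈ M := by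
    intro x hx q
    have hx' : (q : V)⁻¹ • x ∈ M := hQ _ (inv_mem q.2) x hx
    obtain ⟨y, hy⟩ := h3 _ hx'
    have hz : (p : ℤ) ^ (a + d + 1) • y = (q : V)⁻¹ • x - θ ((q : V)⁻¹ • x) := by
      rw [hy, ← natCast_zsmul]
      push_cast
      rfl
    have hθ : θ ((q : V)⁻¹ • x) = (q : V)⁻¹ • x - (p : ℤ) ^ (a + d + 1) • y := by
      rw [hz]
      abel
    refine ⟨-((q : V) • y), ?_, ?_⟩
    · rw [hθ, smul_sub, smul_inv_smul, smul_neg, sub_eq_add_neg]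
      congr 2
      exact smul_comm _ _ _
    · rw [smul_neg]
      apply neg_mem
      have h4 : (p : ℤ) ^ (a + d + 1) • (q : V) • y = (q : V) • (p : ℤ) ^ (a + d + 1) • y :=
        smul_comm _ _ _
      rw [h4]
      apply hQ _ q.2
      rw [hz]
      exact sub_mem hx' (h2 _ hx')
  refine ⟨θ, r' • S, ?_, ?_, ?_, ?_, ?_, ?_⟩
  · intro k
    induction k with
    | zero =>
      intro x y h
      rwa [pow_zero, one_smul, one_smul] at h
    | succ k ih =>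
      intro x y h
      rw [pow_succ', mul_smul, mul_smul, natCast_zsmul, natCast_zsmul] at h
      exact ih x y (htf _ _ h)
  · intro x
    exact pow_smul_iff.mp (h1 x)
  · intro x hx
    obtain ⟨y, hy⟩ := h3 x hx
    refine ⟨y, ?_⟩
    rw [hy, ← natCast_zsmul]
    push_cast
    rfl
  · intro q hq x
    show r' • S (q • x) = q • (r' • S x)
    have h4 : q • (r' • S x) = r' • (q • S x) := smul_comm _ _ _
    rw [h4]
    congr 1
    rw [hS, hS, Finset.smul_sum]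
    rw [← Equiv.sum_comp (Equiv.mulLeft (⟨q, hq⟩ : Q))
      (fun h : Q => (h : V) • θ ((h : V)⁻¹ • (q • x)))]
    refine Finset.sum_congr rfl fun h _ => ?_
    show (q * (h : V)) • θ ((q * (h : V))⁻¹ • (q • x)) = q • (h : V) • θ ((h : V)⁻¹ • x)
    rw [mul_smul, mul_inv_rev, mul_smul, inv_smul_smul]
  · intro x
    show (p : ℤ) ^ a • (r' • S x) ∈ M
    rw [smul_comm]
    apply zsmul_mem
    rw [hS, Finset.smul_sum]
    refine sum_mem fun q _ => ?_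
    have h4 : (p : ℤ) ^ a • (q : V) • θ ((q : V)⁻¹ • x) =
        (q : V) • (p : ℤ) ^ a • θ ((q : V)⁻¹ • x) := smul_comm _ _ _
    rw [h4]
    exact hQ _ q.2 _ (pow_smul_iff.mp (h1 _))
  · intro x hx
    choose y hy1 hy2 using hpt x hx
    have h4 : S x = ((p : ℤ) ^ c * r) • x + (p : ℤ) ^ (a + d + 1) • ∑ q : Q, y q := by
      rw [hS, Finset.sum_congr rfl (fun q _ => hy1 q), Finset.sum_add_distrib, Finset.sum_const,
        ← Finset.smul_sum, ← hcard, natCast_zsmul]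
      rfl
    refine ⟨r' • (∑ q : Q, y q) - ((p : ℤ) ^ c * k) • x, ?_, ?_⟩
    · show r' • S x = _
      have h6 : (p : ℤ) ^ c • x =
          ((p : ℤ) ^ c * (r' * r + k * (p : ℤ) ^ (a + d + 1))) • x := by rw [hrk, mul_one]
      rw [h4, h6]
      module
    · have h5 : (p : ℤ) ^ (a + (d + 1)) • (r' • (∑ q : Q, y q) - ((p : ℤ) ^ c * k) • x) =
          r' • (∑ q : Q, (p : ℤ) ^ (a + d + 1) • y q) -
            ((p : ℤ) ^ (a + d + 1) * (p : ℤ) ^ c * k) • x := by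
        rw [← Finset.smul_sum]
        module
      rw [h5]
      exact sub_mem (zsmul_mem (sum_mem fun q _ => hy2 q) _) (zsmul_mem hx _)

end Pool.Agent.Tor
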