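import Mathlib
import Pool.Agent.Tor.Theta

/-!
# Lengthening and shortening long runs of layers
-/

set_option autoImplicit false

namespace Pool.Agent.Tor

variable {T V : Type} [AddCommGroup T] [Group V] [DistribMulAction V T]

theorem mem_lay_iff {p j : ℕ} {M : AddSubgroup T} {x : T} :
    x ∈ lay p M j ↔ ∃ y, (p : ℤ) ^ j • (x - (p : ℤ) • y) ∈ M := by
  constructor
  · intro h
    obtain ⟨a, ha, b, hb, rfl⟩ := AddSubgroup.mem_sup.mp h
    obtain ⟨z, rfl⟩ := hb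
    refine ⟨z, ?_⟩
    rw [mem_loc, pow_smul_iff] at ha
    have h1 : a + (nsmulAddMonoidHom p z : T) - (p : ℤ) • z = a := by
      rw [nsmulAddMonoidHom_apply, natCast_zsmul]
      abel
    rw [h1]
    exact ha
  · rintro ⟨y, hy⟩
    have h1 : x = (x - (p : ℤ) • y) + (p : ℤ) • y := by abel
    rw [h1]
    refine AddSubgroup.add_mem_sup ?_ ⟨y, ?_⟩
    · rw [mem_loc, pow_smul_iff]
      exact hy
    · rw [nsmulAddMonoidHom_apply, natCast_zsmul]

theorem mem_lay_of_sub {p j : ℕ} {M : AddSubgroup T} {x y : T} (hx : (p : ℤ) ^ j • x ∈ M)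
    (z : T) (h : y = x + (p : ℤ) • z) : y ∈ lay p M j := by
  rw [mem_lay_iff]
  refine ⟨z, ?_⟩
  rw [h]
  have h1 : x + (p : ℤ) • z - (p : ℤ) • z = x := by abel
  rwa [h1]

theorem lay_mono {p i j : ℕ} (h : i ≤ j) (M : AddSubgroup T) : lay p M i ≤ lay p M j := by
  intro x hx
  rw [mem_lay_iff] at hx ⊢
  obtain ⟨y, hy⟩ := hx
  refine ⟨y, ?_⟩
  obtain ⟨k, rfl⟩ := Nat.exists_eq_add_of_le h
  have h1 : (p : ℤ) ^ (i + k) • (x - (p : ℤ) • y) = (p : ℤ) ^ k • ((p : ℤ) ^ i • (x - (p : ℤ) • y)) := by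
    module
  rw [h1]
  exact zsmul_mem hy _

/-- The lattice `M'` used for lengthening a run. -/
theorem extend_aux {Q : Subgroup V} {M : AddSubgroup T} {p c a d : ℕ} {θ Θ : T →+ T}
    (h : Theta Q M p c a (2 * c + 2 + d) θ Θ) (hQ : Stable Q M) :
    ∃ M' : AddSubgroup T, Stable Q M' ∧
      (∀ y, (p : ℤ) ^ (a + (2 * c + 2 + d) + 1) • y ∈ M' ↔
        (p : ℤ) ^ (a + (2 * c + 2 + d)) • y ∈ M) ∧
      (∀ x ∈ M, ∃ u, x + (p : ℤ) ^ (a + (c + 2 + d)) • u ∈ M') ∧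
      (∀ j, j ≤ a + (2 * c + 2 + d) → ∀ x, (p : ℤ) ^ j • x ∈ M' →
        (∃ y, x - θ x = (p : ℤ) • y) ∧ (j < a → x ∈ lay p M j)) := by
  obtain ⟨P, hP⟩ : ∃ P : ℤ, P = p := ⟨_, rfl⟩
  obtain ⟨D, hD⟩ : ∃ D, D = 2 * c + 2 + d := ⟨_, rfl⟩
  have htf := h.htf
  have t1 := h.t1
  have T1 := h.T1
  have T2 := h.T2
  have t2 := h.t2
  have T0 := h.T0
  rw [← hD] at T2 t2
  rw [← hP] at htf t1 T1 T2 t2 ⊢
  have T1' : ∀ (k : ℕ) x, P ^ (a + k) • Θ x ∈ M := by
    intro k x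
    have h1 : P ^ (a + k) • Θ x = P ^ k • (P ^ a • Θ x) := by module
    rw [h1]
    exact zsmul_mem (T1 x) _
  obtain ⟨M', hM'⟩ : ∃ M' : AddSubgroup T, ∀ x, x ∈ M' ↔
      ∃ μ ∈ M, P ^ c • x + (P - 1) • Θ x = P ^ (c + 1) • μ :=
    ⟨{ carrier := {x | ∃ μ ∈ M, P ^ c • x + (P - 1) • Θ x = P ^ (c + 1) • μ}
       add_mem' := by
        rintro x y ⟨μ, hμ, h1⟩ ⟨ν, hν, h2⟩
        refine ⟨μ + ν, add_mem hμ hν, ?_⟩
        rw [map_add]
        linear_combination (norm := module) h1 + h2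
       zero_mem' := ⟨0, zero_mem _, by simp⟩
       neg_mem' := by
        rintro x ⟨μ, hμ, h1⟩
        refine ⟨-μ, neg_mem hμ, ?_⟩
        rw [map_neg]
        linear_combination (norm := module) -h1 }, fun x => Iff.rfl⟩
  refine ⟨M', ?_, ?_, ?_, ?_⟩
  · intro q hq x hx
    rw [hM'] at hx ⊢
    obtain ⟨μ, hμ, h1⟩ := hx
    refine ⟨q • μ, hQ q hq μ hμ, ?_⟩
    rw [T0 q hq]
    have h2 : ∀ (k : ℤ) (y : T), k • q • y = q • k • y := fun k y => smul_comm _ _ _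
    rw [h2, h2, h2, ← smul_add, h1]
  · intro y
    rw [← hD, hM']
    constructor
    · rintro ⟨μ, hμ, h1⟩
      rw [map_zsmul] at h1
      have h2 : P ^ (a + D) • y = μ - (P - 1) • P ^ (a + (c + 2 + d)) • Θ y := by
        apply htf (c + 1)
        rw [hD] at h1 ⊢
        linear_combination (norm := module) h1
      rw [h2]
      exact sub_mem hμ (zsmul_mem (T1' _ _) _)
    · intro hy
      refine ⟨P ^ (a + D) • y + (P - 1) • P ^ (a + (c + 2 + d)) • Θ y,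
        add_mem hy (zsmul_mem (T1' _ _) _), ?_⟩
      rw [map_zsmul, hD]
      module
  · intro μ hμ
    obtain ⟨u, hu1, hu2⟩ := T2 μ hμ
    refine ⟨(1 - P) • u, ?_⟩
    rw [hM']
    refine ⟨μ - (P - 1) • (P - 1) • P ^ (a + (1 + d)) • Θ u,
      sub_mem hμ (zsmul_mem (zsmul_mem (T1' _ _) _) _), ?_⟩
    rw [map_add, map_zsmul, map_zsmul, hu1, hD]
    module
  · intro j hj x hx
    rw [← hD] at hj
    rw [hM'] at hx
    obtain ⟨μ, hμ, h1⟩ := hx
    rw [map_zsmul] at h1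
    obtain ⟨y₂, hy₂⟩ := t2 μ hμ
    obtain ⟨y₁, hy₁⟩ := h.t3 (x := Θ x) (by rw [← hP]; exact T1 x)
    rw [← hP, ← hD] at hy₁
    -- the equation for x - θ x
    have h2 := congrArg θ h1
    rw [map_add, map_zsmul, map_zsmul, map_zsmul, map_zsmul, map_zsmul] at h2
    obtain ⟨k, hk⟩ := Nat.exists_eq_add_of_le hj
    have hβ : x - θ x = P ^ (1 + k) • y₂ - (P - 1) • P ^ (c + 2 + d) • y₁ := by
      apply htf (j + c)
      have h3 : P ^ (a + D) = P ^ (j + k) := by rw [hk]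
      rw [h3] at hy₂
      rw [hD] at hy₁
      linear_combination (norm := module) h1 - h2 + P ^ (c + 1) • hy₂ - ((P - 1) * P ^ j) • hy₁
    refine ⟨⟨P ^ k • y₂ - (P - 1) • P ^ (c + 1 + d) • y₁, ?_⟩, ?_⟩
    · rw [hβ]
      module
    · intro hja
      -- now j < a
      obtain ⟨i, hi⟩ := Nat.exists_eq_add_of_lt hja
      have hk' : k = i + 1 + (2 * c + 2 + d) := by omega
      obtain ⟨b, hb⟩ : ∃ b, b = P ^ (i + 2 + c) • y₂ - (P - 1) • y₁ := ⟨_, rfl⟩
      have hβ' : x = θ x + P ^ (c + 2 + d) • b := by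
        rw [hb]
        rw [hk'] at hβ
        linear_combination (norm := module) hβ
      obtain ⟨u', hu'⟩ := h.T3 (x := θ x) (by rw [← hP]; exact t1 x)
      rw [← hP, ← hD] at hu'
      have hΘ : Θ x = P ^ c • θ x + P ^ D • u' + P ^ (c + 2 + d) • Θ b := by
        conv_lhs => rw [hβ']
        rw [map_add, map_zsmul, hu']
      obtain ⟨w, hw⟩ : ∃ w, w = P ^ (c + d) • b + (P - 1) • P ^ (c + d) • u' +
          (P - 1) • P ^ d • Θ b := ⟨_, rfl⟩
      have h4 : P ^ j • (θ x + P • w) = μ := by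
        apply htf (c + 1)
        rw [hD] at hΘ
        rw [hw]
        linear_combination (norm := module) h1 - P ^ (j + c) • hβ' - ((P - 1) * P ^ j) • hΘ
      refine mem_lay_of_sub (x := θ x + P • w) ?_ (P ^ (c + 1 + d) • b - w) ?_
      · rw [← hP, h4]
        exact hμ
      · rw [← hP]
        linear_combination (norm := module) hβ'

/-- The lattice used for shortening a run. -/
theorem contract_aux {Q : Subgroup V} {M : AddSubgroup T} {p c a d : ℕ} {θ Θ : T →+ T}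
    (h : Theta Q M p c a (2 * c + 2 + d) θ Θ) (hQ : Stable Q M) :
    ∃ M' : AddSubgroup T, Stable Q M' ∧
      (∀ y, (p : ℤ) ^ (a + (2 * c + 1 + d)) • y ∈ M' ↔
        (p : ℤ) ^ (a + (2 * c + 2 + d)) • y ∈ M) ∧
      (∀ x ∈ M, ∃ u, x + (p : ℤ) ^ (a + (c + 1 + d)) • u ∈ M') ∧
      (∀ j, j ≤ a + (2 * c + d) → ∀ x, (p : ℤ) ^ j • x ∈ M' →
        (∃ y, x - θ x = (p : ℤ) • y) ∧ (j < a → x ∈ lay p M j)) := by
  obtain ⟨P, hP⟩ : ∃ P : ℤ, P = p := ⟨_, rfl⟩
  obtain ⟨D, hD⟩ : ∃ D, D = 2 * c + 2 + d := ⟨_, rfl⟩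
  have htf := h.htf
  have t1 := h.t1
  have T1 := h.T1
  have T2 := h.T2
  have t2 := h.t2
  have T0 := h.T0
  rw [← hD] at T2 t2
  rw [← hP] at htf t1 T1 T2 t2 ⊢
  have T1' : ∀ (k : ℕ) x, P ^ (a + k) • Θ x ∈ M := by
    intro k x
    have h1 : P ^ (a + k) • Θ x = P ^ k • (P ^ a • Θ x) := by module
    rw [h1]
    exact zsmul_mem (T1 x) _
  obtain ⟨M', hM'⟩ : ∃ M' : AddSubgroup T, ∀ x, x ∈ M' ↔
      ∃ μ ∈ M, P ^ (c + 1) • x + (1 - P) • Θ x = P ^ c • μ :=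
    ⟨{ carrier := {x | ∃ μ ∈ M, P ^ (c + 1) • x + (1 - P) • Θ x = P ^ c • μ}
       add_mem' := by
        rintro x y ⟨μ, hμ, h1⟩ ⟨ν, hν, h2⟩
        refine ⟨μ + ν, add_mem hμ hν, ?_⟩
        rw [map_add]
        linear_combination (norm := module) h1 + h2
       zero_mem' := ⟨0, zero_mem _, by simp⟩
       neg_mem' := by
        rintro x ⟨μ, hμ, h1⟩
        refine ⟨-μ, neg_mem hμ, ?_⟩
        rw [map_neg]
        linear_combination (norm := module) -h1 }, fun x => Iff.rfl⟩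
  refine ⟨M', ?_, ?_, ?_, ?_⟩
  · intro q hq x hx
    rw [hM'] at hx ⊢
    obtain ⟨μ, hμ, h1⟩ := hx
    refine ⟨q • μ, hQ q hq μ hμ, ?_⟩
    rw [T0 q hq]
    have h2 : ∀ (k : ℤ) (y : T), k • q • y = q • k • y := fun k y => smul_comm _ _ _
    rw [h2, h2, h2, ← smul_add, h1]
  · intro y
    rw [← hD, hM']
    constructor
    · rintro ⟨μ, hμ, h1⟩
      rw [map_zsmul] at h1
      have h2 : P ^ (a + D) • y = μ - (1 - P) • P ^ (a + (c + 1 + d)) • Θ y := by
        apply htf c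
        rw [hD]
        linear_combination (norm := module) h1
      rw [h2]
      exact sub_mem hμ (zsmul_mem (T1' _ _) _)
    · intro hy
      refine ⟨P ^ (a + D) • y + (1 - P) • P ^ (a + (c + 1 + d)) • Θ y,
        add_mem hy (zsmul_mem (T1' _ _) _), ?_⟩
      rw [map_zsmul, hD]
      module
  · intro μ hμ
    obtain ⟨u, hu1, hu2⟩ := T2 μ hμ
    refine ⟨(P - 1) • u, ?_⟩
    rw [hM']
    refine ⟨μ - (P - 1) • (P - 1) • P ^ (a + (1 + d)) • Θ u,
      sub_mem hμ (zsmul_mem (zsmul_mem (T1' _ _) _) _), ?_⟩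
    rw [map_add, map_zsmul, map_zsmul, hu1, hD]
    module
  · intro j hj x hx
    rw [hM'] at hx
    obtain ⟨μ, hμ, h1⟩ := hx
    rw [map_zsmul] at h1
    obtain ⟨y₂, hy₂⟩ := t2 μ hμ
    obtain ⟨y₁, hy₁⟩ := h.t3 (x := Θ x) (by rw [← hP]; exact T1 x)
    rw [← hP, ← hD] at hy₁
    -- the equation for x - θ x
    have h2 := congrArg θ h1
    rw [map_add, map_zsmul, map_zsmul, map_zsmul, map_zsmul, map_zsmul] at h2
    obtain ⟨k, hk⟩ := Nat.exists_eq_add_of_le hj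
    have hβ : x - θ x = P ^ (1 + k) • y₂ + (P - 1) • P ^ (c + 1 + d) • y₁ := by
      apply htf (j + c + 1)
      have h3 : P ^ (a + D) = P ^ (j + k + 2) := by
        congr 1
        omega
      rw [h3] at hy₂
      rw [hD] at hy₁
      linear_combination (norm := module) h1 - h2 + P ^ c • hy₂ + ((P - 1) * P ^ j) • hy₁
    refine ⟨⟨P ^ k • y₂ + (P - 1) • P ^ (c + d) • y₁, ?_⟩, ?_⟩
    · rw [hβ]
      module
    · intro hja
      -- now j < a
      obtain ⟨i, hi⟩ := Nat.exists_eq_add_of_lt hja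
      have hk' : k = i + 1 + (2 * c + d) := by omega
      obtain ⟨b, hb⟩ : ∃ b, b = P ^ (i + 1 + c) • y₂ + (P - 1) • y₁ := ⟨_, rfl⟩
      have hβ' : x = θ x + P ^ (c + 1 + d) • b := by
        rw [hb]
        rw [hk'] at hβ
        linear_combination (norm := module) hβ
      obtain ⟨u', hu'⟩ := h.T3 (x := θ x) (by rw [← hP]; exact t1 x)
      rw [← hP, ← hD] at hu'
      have hΘ : Θ x = P ^ c • θ x + P ^ D • u' + P ^ (c + 1 + d) • Θ b := by
        conv_lhs => rw [hβ']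
        rw [map_add, map_zsmul, hu']
      obtain ⟨w, hw⟩ : ∃ w, w = P ^ (c + 1 + d) • b + (1 - P) • P ^ (c + 1 + d) • u' +
          (1 - P) • P ^ d • Θ b := ⟨_, rfl⟩
      have h4 : P ^ j • (θ x + P • w) = μ := by
        apply htf c
        rw [hD] at hΘ
        rw [hw]
        linear_combination (norm := module) h1 - P ^ (j + c + 1) • hβ' - ((1 - P) * P ^ j) • hΘ
      refine mem_lay_of_sub (x := θ x + P • w) ?_ (P ^ (c + d) • b - w) ?_
      · rw [← hP, h4]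
        exact hμ
      · rw [← hP]
        linear_combination (norm := module) hβ'

/-- Lengthening a long run of layers. -/
theorem extend_run {Q : Subgroup V} {M : AddSubgroup T} {p c a d e : ℕ} {θ Θ : T →+ T}
    (h : Theta Q M p c a (2 * c + 2 + d) θ Θ) (hQ : Stable Q M)
    (hM : ∀ x : T, p ^ e • x ∈ M) (he : a + (2 * c + 2 + d) ≤ e) :
    ∃ M' : AddSubgroup T, Stable Q M' ∧ (∀ x : T, p ^ (e + 1) • x ∈ M') ∧
      (∀ j, j < a → lay p M' j = lay p M j) ∧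
      (∀ j, a ≤ j → j ≤ a + (2 * c + 2 + d) → lay p M' j = lay p M a) ∧
      (∀ j, a + (2 * c + 2 + d) ≤ j → lay p M' (j + 1) = lay p M j) := by
  obtain ⟨M', hQ', h1, h2, h3⟩ := extend_aux h hQ
  have hge : ∀ j, j ≤ a → lay p M j ≤ lay p M' j := by
    intro j hj x hx
    rw [mem_lay_iff] at hx
    obtain ⟨y, hy⟩ := hx
    obtain ⟨u, hu⟩ := h2 _ hy
    obtain ⟨k, rfl⟩ := Nat.exists_eq_add_of_le hj
    refine mem_lay_of_sub (x := x - (p : ℤ) • y + (p : ℤ) ^ (k + (c + 2 + d)) • u) ?_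
      (y - (p : ℤ) ^ (k + (c + 1 + d)) • u) (by module)
    have h4 : (p : ℤ) ^ j • (x - (p : ℤ) • y + (p : ℤ) ^ (k + (c + 2 + d)) • u) =
        (p : ℤ) ^ j • (x - (p : ℤ) • y) + (p : ℤ) ^ (j + k + (c + 2 + d)) • u := by module
    rw [h4]
    exact hu
  refine ⟨M', hQ', ?_, ?_, ?_, ?_⟩
  · intro x
    obtain ⟨k, rfl⟩ := Nat.exists_eq_add_of_le he
    rw [pow_smul_iff]
    have h4 : (p : ℤ) ^ (a + (2 * c + 2 + d) + k + 1) • x =
        (p : ℤ) ^ (a + (2 * c + 2 + d) + 1) • ((p : ℤ) ^ k • x) := by module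
    rw [h4, h1]
    have h5 : (p : ℤ) ^ (a + (2 * c + 2 + d)) • ((p : ℤ) ^ k • x) =
        (p : ℤ) ^ (a + (2 * c + 2 + d) + k) • x := by module
    rw [h5]
    exact pow_smul_iff.mp (hM x)
  · intro j hj
    apply le_antisymm
    · intro x hx
      rw [mem_lay_iff] at hx
      obtain ⟨y, hy⟩ := hx
      obtain ⟨_, h4⟩ := h3 j (by omega) _ hy
      have h5 := h4 hj
      rw [mem_lay_iff] at h5
      obtain ⟨z, hz⟩ := h5
      refine mem_lay_of_sub hz (y + z) ?_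
      module
    · exact hge j hj.le
  · intro j hj hj'
    apply le_antisymm
    · intro x hx
      rw [mem_lay_iff] at hx
      obtain ⟨y, hy⟩ := hx
      obtain ⟨⟨z, hz⟩, _⟩ := h3 j hj' _ hy
      refine mem_lay_of_sub (h.t1 (x - (p : ℤ) • y)) (y + z) ?_
      linear_combination (norm := module) hz
    · exact (hge a le_rfl).trans (lay_mono hj _)
  · intro j hj
    obtain ⟨k, rfl⟩ := Nat.exists_eq_add_of_le hj
    ext x
    rw [mem_lay_iff, mem_lay_iff]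
    refine exists_congr fun y => ?_
    have h4 : ∀ z : T, (p : ℤ) ^ (a + (2 * c + 2 + d) + k + 1) • z =
        (p : ℤ) ^ (a + (2 * c + 2 + d) + 1) • ((p : ℤ) ^ k • z) := fun z => by module
    have h5 : ∀ z : T, (p : ℤ) ^ (a + (2 * c + 2 + d) + k) • z =
        (p : ℤ) ^ (a + (2 * c + 2 + d)) • ((p : ℤ) ^ k • z) := fun z => by module
    rw [h4, h5, h1]

/-- Shortening a long run of layers. -/
theorem contract_run {Q : Subgroup V} {M : AddSubgroup T} {p c a d e : ℕ} {θ Θ : T →+ T}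
    (h : Theta Q M p c a (2 * c + 2 + d) θ Θ) (hQ : Stable Q M)
    (hM : ∀ x : T, p ^ e • x ∈ M) (he : a + (2 * c + 2 + d) ≤ e) :
    ∃ M' : AddSubgroup T, Stable Q M' ∧ (∀ x : T, p ^ (e - 1) • x ∈ M') ∧
      (∀ j, j < a → lay p M' j = lay p M j) ∧
      (∀ j, a ≤ j → j ≤ a + (2 * c + d) → lay p M' j = lay p M a) ∧
      (∀ j, a + (2 * c + 1 + d) ≤ j → lay p M' j = lay p M (j + 1)) := by
  obtain ⟨M', hQ', h1, h2, h3⟩ := contract_aux h hQ
  have hge : ∀ j, j ≤ a → lay p M j ≤ lay p M' j := by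
    intro j hj x hx
    rw [mem_lay_iff] at hx
    obtain ⟨y, hy⟩ := hx
    obtain ⟨u, hu⟩ := h2 _ hy
    obtain ⟨k, rfl⟩ := Nat.exists_eq_add_of_le hj
    refine mem_lay_of_sub (x := x - (p : ℤ) • y + (p : ℤ) ^ (k + (c + 1 + d)) • u) ?_
      (y - (p : ℤ) ^ (k + (c + d)) • u) (by module)
    have h4 : (p : ℤ) ^ j • (x - (p : ℤ) • y + (p : ℤ) ^ (k + (c + 1 + d)) • u) =
        (p : ℤ) ^ j • (x - (p : ℤ) • y) + (p : ℤ) ^ (j + k + (c + 1 + d)) • u := by module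
    rw [h4]
    exact hu
  refine ⟨M', hQ', ?_, ?_, ?_, ?_⟩
  · intro x
    obtain ⟨k, rfl⟩ := Nat.exists_eq_add_of_le he
    rw [pow_smul_iff]
    have h4 : (p : ℤ) ^ (a + (2 * c + 2 + d) + k - 1) • x =
        (p : ℤ) ^ (a + (2 * c + 1 + d)) • ((p : ℤ) ^ k • x) := by
      have h6 : a + (2 * c + 2 + d) + k - 1 = a + (2 * c + 1 + d) + k := by omega
      rw [h6]
      module
    rw [h4, h1]
    have h5 : (p : ℤ) ^ (a + (2 * c + 2 + d)) • ((p : ℤ) ^ k • x) =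
        (p : ℤ) ^ (a + (2 * c + 2 + d) + k) • x := by module
    rw [h5]
    exact pow_smul_iff.mp (hM x)
  · intro j hj
    apply le_antisymm
    · intro x hx
      rw [mem_lay_iff] at hx
      obtain ⟨y, hy⟩ := hx
      obtain ⟨_, h4⟩ := h3 j (by omega) _ hy
      have h5 := h4 hj
      rw [mem_lay_iff] at h5
      obtain ⟨z, hz⟩ := h5
      refine mem_lay_of_sub hz (y + z) ?_
      module
    · exact hge j hj.le
  · intro j hj hj'
    apply le_antisymm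
    · intro x hx
      rw [mem_lay_iff] at hx
      obtain ⟨y, hy⟩ := hx
      obtain ⟨⟨z, hz⟩, _⟩ := h3 j hj' _ hy
      refine mem_lay_of_sub (h.t1 (x - (p : ℤ) • y)) (y + z) ?_
      linear_combination (norm := module) hz
    · exact (hge a le_rfl).trans (lay_mono hj _)
  · intro j hj
    obtain ⟨k, rfl⟩ := Nat.exists_eq_add_of_le hj
    ext x
    rw [mem_lay_iff, mem_lay_iff]
    refine exists_congr fun y => ?_
    have h4 : ∀ z : T, (p : ℤ) ^ (a + (2 * c + 1 + d) + k) • z =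
        (p : ℤ) ^ (a + (2 * c + 1 + d)) • ((p : ℤ) ^ k • z) := fun z => by module
    have h5 : ∀ z : T, (p : ℤ) ^ (a + (2 * c + 1 + d) + k + 1) • z =
        (p : ℤ) ^ (a + (2 * c + 2 + d)) • ((p : ℤ) ^ k • z) := fun z => by module
    rw [h4, h5, h1]

end Pool.Agent.Tor
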