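import Mathlib
import Pool.Agent.Tor.Stab
import Pool.Agent.Tor.TyDefs

/-!
# Types of stable lattices
-/

set_option autoImplicit false

namespace Pool.Agent.Tor

variable {T V : Type} [AddCommGroup T] [Group V] [DistribMulAction V T]

/-- There is a stable lattice with the given layers. -/
def Rz (Q : Subgroup V) (p : ℕ) (L : List (AddSubgroup T × ℕ)) : Prop :=
  ∃ M : AddSubgroup T, Stable Q M ∧ (∀ x : T, p ^ tot L • x ∈ M) ∧
    ∀ j, lay p M j = layerAt L j

theorem tot_cons (x : AddSubgroup T × ℕ) (L : List (AddSubgroup T × ℕ)) :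
    tot (x :: L) = x.2 + tot L := rfl

theorem tot_append (L₁ L₂ : List (AddSubgroup T × ℕ)) : tot (L₁ ++ L₂) = tot L₁ + tot L₂ := by
  unfold tot
  rw [List.map_append, List.sum_append]

theorem layerAt_append (L₁ L₂ : List (AddSubgroup T × ℕ)) (j : ℕ) :
    layerAt (L₁ ++ L₂) j = if j < tot L₁ then layerAt L₁ j else layerAt L₂ (j - tot L₁) := by
  induction L₁ generalizing j with
  | nil =>
    rw [List.nil_append, if_neg (by unfold tot; simp)]
    rfl
  | cons x L ih =>
    have ht := tot_cons x L
    have e1 : layerAt (x :: L ++ L₂) j = if j < x.2 then x.1 else layerAt (L ++ L₂) (j - x.2) := rfl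
    have e2 : layerAt (x :: L) j = if j < x.2 then x.1 else layerAt L (j - x.2) := rfl
    rw [e1, e2]
    by_cases h1 : j < x.2
    · rw [if_pos h1, if_pos (by omega : j < tot (x :: L)), if_pos h1]
    · rw [if_neg h1, if_neg h1, ih]
      by_cases h2 : j - x.2 < tot L
      · rw [if_pos h2, if_pos (by omega : j < tot (x :: L))]
      · rw [if_neg h2, if_neg (by omega : ¬ j < tot (x :: L))]
        congr 1
        omega

theorem layerAt_ge (L : List (AddSubgroup T × ℕ)) : ∀ j, tot L ≤ j → layerAt L j = ⊤ := by
  induction L with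
  | nil => intro j _; rfl
  | cons x L ih =>
    intro j hj
    rw [tot_cons] at hj
    rw [layerAt, if_neg (by omega)]
    exact ih _ (by omega)

/-- Changing the length of a long run. -/
theorem rz_succ [Module.Free ℤ T] [Module.Finite ℤ T] (Q : Subgroup V) [Finite Q] {p : ℕ}
    (hp : p.Prime) (htf : ∀ x y : T, p • x = p • y → x = y) (L₁ L₂ : List (AddSubgroup T × ℕ))
    (G : AddSubgroup T) (m : ℕ) (hm : 2 * (Nat.card Q).factorization p + 2 ≤ m) :
    Rz Q p (L₁ ++ (G, m) :: L₂) ↔ Rz Q p (L₁ ++ (G, m + 1) :: L₂) := by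
  obtain ⟨c, hc⟩ : ∃ c, c = (Nat.card Q).factorization p := ⟨_, rfl⟩
  rw [← hc] at hm
  constructor
  · rintro ⟨M, hQ, hM, hl⟩
    obtain ⟨d, hd⟩ := Nat.exists_eq_add_of_le hm
    have hl' : ∀ j, lay p M j = if j < tot L₁ then layerAt L₁ j else
        if j - tot L₁ < m then G else layerAt L₂ (j - tot L₁ - m) := by
      intro j
      rw [hl, layerAt_append]
      rfl
    have ha : lay p M (tot L₁) = G := by
      rw [hl', if_neg (lt_irrefl _), if_pos (by omega)]
    have had : lay p M (tot L₁ + (2 * c + 1 + d)) = G := by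
      rw [hl', if_neg (by omega), if_pos (by omega)]
    obtain ⟨θ, Θ, hΘ⟩ := exists_theta Q hp htf M hQ hM
      (le_of_eq (had.trans ha.symm) : lay p M (tot L₁ + (2 * c + 1 + d)) ≤ lay p M (tot L₁))
    rw [← hc] at hΘ
    have hd1 : 2 * c + 1 + d + 1 = 2 * c + 2 + d := by omega
    rw [hd1] at hΘ
    have htot : tot (L₁ ++ (G, m) :: L₂) = tot L₁ + (m + tot L₂) := by
      rw [tot_append, tot_cons]
    have htot' : tot (L₁ ++ (G, m + 1) :: L₂) = tot L₁ + (m + tot L₂) + 1 := by
      rw [tot_append, tot_cons]
      show tot L₁ + (m + 1 + tot L₂) = _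
      omega
    obtain ⟨M', hQ', hM', h1, h2, h3⟩ := extend_run hΘ hQ hM (by rw [htot]; omega)
    refine ⟨M', hQ', fun x => ?_, fun j => ?_⟩
    · rw [htot', ← htot]
      exact hM' x
    · rw [layerAt_append]
      by_cases hj1 : j < tot L₁
      · rw [if_pos hj1, h1 j hj1, hl', if_pos hj1]
      · rw [if_neg hj1]
        show _ = if j - tot L₁ < m + 1 then G else layerAt L₂ (j - tot L₁ - (m + 1))
        by_cases hj2 : j - tot L₁ < m + 1
        · rw [if_pos hj2, h2 j (by omega) (by omega), ha]
        · rw [if_neg hj2]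
          obtain ⟨i, rfl⟩ : ∃ i, j = i + 1 := ⟨j - 1, by omega⟩
          rw [h3 i (by omega), hl', if_neg (by omega), if_neg (by omega)]
          congr 1
          omega
  · rintro ⟨M, hQ, hM, hl⟩
    obtain ⟨d, hd⟩ := Nat.exists_eq_add_of_le hm
    have hl' : ∀ j, lay p M j = if j < tot L₁ then layerAt L₁ j else
        if j - tot L₁ < m + 1 then G else layerAt L₂ (j - tot L₁ - (m + 1)) := by
      intro j
      rw [hl, layerAt_append]
      rfl
    have ha : lay p M (tot L₁) = G := by
      rw [hl', if_neg (lt_irrefl _), if_pos (by omega)]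
    have had : lay p M (tot L₁ + (2 * c + 2 + d)) = G := by
      rw [hl', if_neg (by omega), if_pos (by omega)]
    obtain ⟨θ, Θ, hΘ⟩ := exists_theta Q hp htf M hQ hM
      (le_of_eq (had.trans ha.symm) : lay p M (tot L₁ + (2 * c + 2 + d)) ≤ lay p M (tot L₁))
    rw [← hc] at hΘ
    have hd1 : 2 * c + 2 + d + 1 = 2 * c + 2 + (d + 1) := by omega
    rw [hd1] at hΘ
    have htot : tot (L₁ ++ (G, m) :: L₂) = tot L₁ + (m + tot L₂) := by
      rw [tot_append, tot_cons]
    have htot' : tot (L₁ ++ (G, m + 1) :: L₂) = tot L₁ + (m + tot L₂) + 1 := by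
      rw [tot_append, tot_cons]
      show tot L₁ + (m + 1 + tot L₂) = _
      omega
    obtain ⟨M', hQ', hM', h1, h2, h3⟩ := contract_run hΘ hQ hM (by rw [htot']; omega)
    refine ⟨M', hQ', fun x => ?_, fun j => ?_⟩
    · have h4 := hM' x
      rw [htot', Nat.add_sub_cancel, ← htot] at h4
      exact h4
    · rw [layerAt_append]
      by_cases hj1 : j < tot L₁
      · rw [if_pos hj1, h1 j hj1, hl', if_pos hj1]
      · rw [if_neg hj1]
        show _ = if j - tot L₁ < m then G else layerAt L₂ (j - tot L₁ - m)
        by_cases hj2 : j - tot L₁ < m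
        · rw [if_pos hj2, h2 j (by omega) (by omega), ha]
        · rw [if_neg hj2, h3 j (by omega), hl', if_neg (by omega), if_neg (by omega)]
          congr 1
          omega

theorem rz_min [Module.Free ℤ T] [Module.Finite ℤ T] (Q : Subgroup V) [Finite Q] {p : ℕ}
    (hp : p.Prime) (htf : ∀ x y : T, p • x = p • y → x = y) (L₁ L₂ : List (AddSubgroup T × ℕ))
    (G : AddSubgroup T) (m : ℕ) :
    Rz Q p (L₁ ++ (G, m) :: L₂) ↔
      Rz Q p (L₁ ++ (G, min m (2 * (Nat.card Q).factorization p + 2)) :: L₂) := by
  by_cases hm : m ≤ 2 * (Nat.card Q).factorization p + 2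
  · rw [min_eq_left hm]
  · rw [min_eq_right (by omega)]
    obtain ⟨k, rfl⟩ := Nat.exists_eq_add_of_le (Nat.le_of_not_le hm)
    induction k with
    | zero => rfl
    | succ k ih =>
      by_cases hk : k = 0
      · subst hk
        rw [zero_add]
        exact (rz_succ Q hp htf L₁ L₂ G _ le_rfl).symm
      · rw [← ih (by omega), ← add_assoc]
        exact (rz_succ Q hp htf L₁ L₂ G _ (Nat.le_add_right _ _)).symm

/-- The stabilization theorem. -/
theorem rz_cut [Module.Free ℤ T] [Module.Finite ℤ T] (Q : Subgroup V) [Finite Q] {p : ℕ}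
    (hp : p.Prime) (htf : ∀ x y : T, p • x = p • y → x = y) (L : List (AddSubgroup T × ℕ)) :
    Rz Q p L ↔ Rz Q p (cut (2 * (Nat.card Q).factorization p + 2) L) := by
  have key : ∀ L₂ L₁ : List (AddSubgroup T × ℕ), Rz Q p (L₁ ++ L₂) ↔
      Rz Q p (L₁ ++ cut (2 * (Nat.card Q).factorization p + 2) L₂) := by
    intro L₂
    induction L₂ with
    | nil => intro L₁; rfl
    | cons x L ih =>
      intro L₁
      obtain ⟨G, m⟩ := x
      rw [rz_min Q hp htf]
      have h1 := ih (L₁ ++ [(G, min m (2 * (Nat.card Q).factorization p + 2))])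
      rw [List.append_assoc, List.append_assoc] at h1
      exact h1
  exact key L []

/-- Run-length encoding. -/
theorem exists_rle : ∀ (e : ℕ) (F : ℕ → AddSubgroup T),
    (∀ j, j + 1 < e → F j ≤ F (j + 1)) → ∃ L : List (AddSubgroup T × ℕ),
      (∀ x ∈ L, 1 ≤ x.2 ∧ ∃ j < e, x.1 = F j) ∧ L.Pairwise (fun x y => x.1 < y.1) ∧
        tot L = e ∧ ∀ j < e, layerAt L j = F j := by
  intro e
  induction e with
  | zero =>
    intro F _
    exact ⟨[], by simp, List.Pairwise.nil, rfl, fun j hj => by omega⟩
  | succ e ih =>
    intro F hF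
    obtain ⟨L, h1, h2, h3, h4⟩ := ih (fun j => F (j + 1)) (fun j hj => hF (j + 1) (by omega))
    cases L with
    | nil =>
      have he : e = 0 := h3.symm
      subst he
      refine ⟨[(F 0, 1)], ?_, List.pairwise_singleton _ _, rfl, ?_⟩
      · intro x hx
        rw [List.mem_singleton] at hx
        subst hx
        exact ⟨le_rfl, 0, by omega, rfl⟩
      · intro j hj
        have hj0 : j = 0 := by omega
        subst hj0
        rfl
    | cons x L =>
      obtain ⟨G, m⟩ := x
      obtain ⟨hm, -⟩ := h1 (G, m) (by simp)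
      have hm' : 1 ≤ m := hm
      rw [tot_cons] at h3
      have h3' : m + tot L = e := h3
      have hG : G = F 1 := by
        have := h4 0 (by omega)
        rw [layerAt, if_pos (show 0 < m from hm')] at this
        exact this
      rw [List.pairwise_cons] at h2
      by_cases h0 : F 0 = G
      · refine ⟨(G, m + 1) :: L, ?_, ?_, ?_, ?_⟩
        · intro x hx
          rcases List.mem_cons.mp hx with rfl | hx
          · exact ⟨by show 1 ≤ m + 1; omega, 0, by omega, h0.symm⟩
          · obtain ⟨h5, j, hj, h6⟩ := h1 x (List.mem_cons_of_mem _ hx)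
            exact ⟨h5, j + 1, by omega, h6⟩
        · rw [List.pairwise_cons]
          exact ⟨h2.1, h2.2⟩
        · rw [tot_cons]
          show m + 1 + tot L = e + 1
          omega
        · intro j hj
          rcases j with _ | j
          · rw [layerAt, if_pos (by show 0 < m + 1; omega)]
            exact h0.symm
          · have h5 := h4 j (by omega)
            rw [← h5]
            rw [layerAt, layerAt]
            by_cases hjm : j < m
            · rw [if_pos (by show j + 1 < m + 1; omega), if_pos hjm]
            · rw [if_neg (by show ¬ j + 1 < m + 1; omega), if_neg hjm]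
              congr 1
              show j + 1 - (m + 1) = j - m
              omega
      · have hlt : F 0 < G := by
          refine lt_of_le_of_ne ?_ h0
          rw [hG]
          exact hF 0 (by omega)
        refine ⟨(F 0, 1) :: (G, m) :: L, ?_, ?_, ?_, ?_⟩
        · intro x hx
          rcases List.mem_cons.mp hx with rfl | hx
          · exact ⟨le_rfl, 0, by omega, rfl⟩
          · obtain ⟨h5, j, hj, h6⟩ := h1 x hx
            exact ⟨h5, j + 1, by omega, h6⟩
        · rw [List.pairwise_cons, List.pairwise_cons]
          refine ⟨?_, h2⟩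
          intro y hy
          rcases List.mem_cons.mp hy with rfl | hy
          · exact hlt
          · exact hlt.trans (h2.1 y hy)
        · rw [tot_cons, tot_cons]
          show 1 + (m + tot L) = e + 1
          omega
        · intro j hj
          rcases j with _ | j
          · rw [layerAt, if_pos (by show 0 < 1; omega)]
          · rw [layerAt, if_neg (by show ¬ j + 1 < 1; omega)]
            exact h4 j (by omega)

/-- The last entry. -/
theorem layerAt_last : ∀ (L : List (AddSubgroup T × ℕ)), (∀ x ∈ L, 1 ≤ x.2) →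
    ∀ x ∈ L.getLast?, layerAt L (tot L - 1) = x.1 := by
  intro L
  induction L with
  | nil =>
    intro _ x hx
    simp at hx
  | cons y L ih =>
    intro h x hx
    have hy := h y (by simp)
    cases L with
    | nil =>
      have hxy : y = x := by simpa using hx
      subst hxy
      rw [layerAt, tot_cons, if_pos]
      have : tot ([] : List (AddSubgroup T × ℕ)) = 0 := rfl
      omega
    | cons z L =>
      have hz := h z (by simp)
      rw [List.getLast?_cons_cons] at hx
      have h1 := ih (fun w hw => h w (List.mem_cons_of_mem _ hw)) x hx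
      have h2 : 1 ≤ tot (z :: L) := by
        rw [tot_cons]
        omega
      rw [layerAt, tot_cons, if_neg (by omega), ← h1]
      congr 1
      omega

theorem exists_getLast : ∀ (L : List (AddSubgroup T × ℕ)), tot L ≠ 0 → ∃ x, x ∈ L.getLast? := by
  intro L hL
  cases L with
  | nil => exact absurd rfl hL
  | cons y L => exact ⟨_, List.getLast?_eq_some_getLast (List.cons_ne_nil y L)⟩

/-- The product of the indices of the layers. -/
theorem prod_layerAt (L : List (AddSubgroup T × ℕ)) :
    ∏ j ∈ Finset.range (tot L), (layerAt L j).index = (L.map fun x => x.1.index ^ x.2).prod := by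
  induction L with
  | nil => rfl
  | cons x L ih =>
    rw [tot_cons, Finset.prod_range_add, List.map_cons, List.prod_cons, ← ih]
    congr 1
    · rw [Finset.prod_congr rfl (g := fun _ => x.1.index)]
      · rw [Finset.prod_const, Finset.card_range]
      · intro j hj
        rw [layerAt, if_pos (Finset.mem_range.mp hj)]
    · refine Finset.prod_congr rfl fun j _ => ?_
      rw [layerAt, if_neg (by omega)]
      congr 2
      omega

/-- The terms of the sequence before the end are entries of the list. -/
theorem layerAt_mem (L : List (AddSubgroup T × ℕ)) : ∀ j < tot L, ∃ x ∈ L, layerAt L j = x.1 := by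
  induction L with
  | nil => intro j hj; exact absurd hj (by unfold tot; simp)
  | cons x L ih =>
    intro j hj
    rw [layerAt]
    by_cases h1 : j < x.2
    · exact ⟨x, by simp, if_pos h1⟩
    · rw [if_neg h1]
      rw [tot_cons] at hj
      obtain ⟨y, hy, h2⟩ := ih (j - x.2) (by omega)
      exact ⟨y, List.mem_cons_of_mem _ hy, h2⟩

/-- The sequence is increasing. -/
theorem layerAt_mono (L : List (AddSubgroup T × ℕ)) (h : L.Pairwise (fun x y => x.1 < y.1)) :
    ∀ j, layerAt L j ≤ layerAt L (j + 1) := by
  induction L with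
  | nil => intro j; exact le_rfl
  | cons x L ih =>
    rw [List.pairwise_cons] at h
    intro j
    rw [layerAt, layerAt]
    by_cases h1 : j < x.2
    · rw [if_pos h1]
      by_cases h2 : j + 1 < x.2
      · rw [if_pos h2]
      · rw [if_neg h2]
        by_cases h3 : j + 1 - x.2 < tot L
        · obtain ⟨y, hy, h4⟩ := layerAt_mem L _ h3
          rw [h4]
          exact (h.1 y hy).le
        · rw [layerAt_ge L _ (by omega)]
          exact le_top
    · rw [if_neg h1, if_neg (by omega)]
      have h2 : j + 1 - x.2 = j - x.2 + 1 := by omega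
      rw [h2]
      exact ih h.2 _

end Pool.Agent.Tor
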