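import Mathlib
import Pool.Agent.Tor.Types
import Pool.Agent.Tor.Glob

/-!
# The local theorem
-/

set_option autoImplicit false

namespace Pool.Agent.Tor

variable {T V : Type} [AddCommGroup T] [Group V] [DistribMulAction V T]

/-- Local data at a prime: `Y` is a proper stable subgroup containing the multiples of `p`, and
stable subgroups of `p`-power exponent are comparable with the multiples of `p`. -/
structure LocalData (T V : Type) [AddCommGroup T] [Group V] [DistribMulAction V T] (p : ℕ)
    (Y : AddSubgroup T) : Prop where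
  htf : ∀ x y : T, p • x = p • y → x = y
  hY : ∀ x : T, p • x ∈ Y
  hYt : Y ≠ ⊤
  hdich : ∀ X : AddSubgroup T, (∀ (w : V), ∀ x ∈ X, w • x ∈ X) → (∃ K : ℕ, ∀ x : T, p ^ K • x ∈ X) →
    (∀ x ∈ X, ∃ y, p • y = x) ∨ ∀ x : T, p • x ∈ X

/-- The lattice `p^(b-1) Y` (the whole group for `b = 0`). -/
def coreLat (p b : ℕ) (Y : AddSubgroup T) : AddSubgroup T :=
  if b = 0 then ⊤ else Y.map (nsmulAddMonoidHom (p ^ (b - 1)))

theorem pow_tf' {p : ℕ} (htf : ∀ x y : T, p • x = p • y → x = y) :
    ∀ (n : ℕ) (x y : T), p ^ n • x = p ^ n • y → x = y := by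
  intro n
  induction n with
  | zero =>
    intro x y h
    rwa [pow_zero, one_smul, one_smul] at h
  | succ n ih =>
    intro x y h
    rw [pow_succ', mul_smul, mul_smul] at h
    exact ih x y (htf _ _ h)

/-- The core is determined by the last layer. -/
theorem core_last {p : ℕ} {Y : AddSubgroup T} (hD : LocalData T V p Y) {b : ℕ}
    {M : AddSubgroup T} :
    HasCore (V := V) M (coreLat p (b + 1) Y) ↔
      (∀ x : T, p ^ (b + 1) • x ∈ M) ∧ HasCore (V := V) (lay p M b) Y := by
  have hcomm : ∀ (w : V) (n : ℕ) (x : T), w • n • x = n • w • x := fun w n x => smul_comm w n x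
  have hcl : coreLat p (b + 1) Y = Y.map (nsmulAddMonoidHom (p ^ b)) := by
    unfold coreLat
    rw [if_neg (by omega), Nat.add_sub_cancel]
  rw [hcl]
  have hlay : (∀ x : T, p ^ (b + 1) • x ∈ M) → lay p M b = loc M (p ^ b) := by
    intro h
    apply le_antisymm
    · refine sup_le le_rfl ?_
      rintro x ⟨y, rfl⟩
      rw [mem_loc, nsmulAddMonoidHom_apply, ← mul_smul, ← pow_succ]
      exact h y
    · exact le_sup_left
  constructor
  · intro hc
    have h1 : ∀ x : T, p ^ (b + 1) • x ∈ M := by
      intro x
      apply core_le' hc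
      exact ⟨p • x, hD.hY x, by rw [nsmulAddMonoidHom_apply, ← mul_smul, ← pow_succ]⟩
    refine ⟨h1, ?_⟩
    rw [hlay h1]
    intro x
    have h2 : (∀ w : V, w • x ∈ loc M (p ^ b)) ↔ ∀ w : V, w • (p ^ b • x) ∈ M := by
      refine forall_congr' fun w => ?_
      rw [mem_loc, hcomm]
    rw [h2, hc]
    constructor
    · rintro ⟨y, hy, hxy⟩
      rw [nsmulAddMonoidHom_apply] at hxy
      rwa [← pow_tf' hD.htf b _ _ hxy]
    · intro hx
      exact ⟨x, hx, rfl⟩
  · rintro ⟨h1, hc⟩
    rw [hlay h1] at hc
    have hM1 : ∀ x : T, p ^ (b + 1) • x ∈ coreOf V M := by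
      intro x w
      rw [hcomm]
      exact h1 _
    -- the core is contained in the multiples of p^b
    have key : ∀ j ≤ b, ∀ x ∈ coreOf V M, ∃ y, p ^ j • y = x := by
      intro j
      induction j with
      | zero =>
        intro _ x _
        exact ⟨x, by rw [pow_zero, one_smul]⟩
      | succ j ih =>
        intro hj x hx
        rcases hD.hdich (loc (coreOf V M) (p ^ j)) (by
          intro w y hy
          rw [mem_loc] at hy ⊢
          rw [← hcomm]
          exact coreOf_smul w hy) ⟨b + 1, fun y => by
            rw [mem_loc, ← mul_smul, mul_comm, mul_smul]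
            exact hM1 _⟩ with h2 | h2
        · obtain ⟨y, rfl⟩ := ih (by omega) x hx
          obtain ⟨z, rfl⟩ := h2 y (mem_loc.mpr hx)
          exact ⟨z, by rw [← mul_smul, ← pow_succ]⟩
        · exfalso
          apply hD.hYt
          rw [eq_top_iff]
          intro y _
          rw [← hc]
          intro w
          rw [mem_loc]
          have h3 := h2 (w • y)
          rw [mem_loc, ← mul_smul, ← pow_succ] at h3
          have h4 : p ^ b • w • y = p ^ (b - (j + 1)) • (p ^ (j + 1) • w • y) := by
            rw [← mul_smul, ← pow_add]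
            congr 2
            omega
          rw [h4]
          apply nsmul_mem
          have := h3 1
          rwa [one_smul] at this
    intro x
    constructor
    · intro hx
      obtain ⟨y, rfl⟩ := key b le_rfl x hx
      refine ⟨y, (hc y).mp fun w => ?_, rfl⟩
      rw [mem_loc, ← hcomm]
      exact hx w
    · rintro ⟨y, hy, rfl⟩ w
      rw [nsmulAddMonoidHom_apply, hcomm, ← mem_loc]
      exact (hc y).mpr hy w

/-- The types of stable lattices with the given core. -/
def IsTy (Q : Subgroup V) (p b : ℕ) (Y : AddSubgroup T) (L : List (AddSubgroup T × ℕ)) : Prop :=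
  (∀ x ∈ L, Stable Q x.1 ∧ (∀ y : T, p • y ∈ x.1) ∧ x.1 ≠ ⊤ ∧ 1 ≤ x.2) ∧
  L.Pairwise (fun x y => x.1 < y.1) ∧ tot L = b ∧
  (∀ x ∈ L.getLast?, HasCore (V := V) x.1 Y) ∧
  (p ∣ Nat.card Q → Rz Q p (cut (2 * (Nat.card Q).factorization p + 2) L))

/-- The local theorem. -/
theorem local_thm [Module.Free ℤ T] [Module.Finite ℤ T] (Q : Subgroup V) [Finite Q] {p : ℕ}
    (hp : p.Prime) {Y : AddSubgroup T} (hD : LocalData T V p Y) (b m : ℕ) :
    RelQ Q (coreLat p b Y) m ↔ ∃ L : List (AddSubgroup T × ℕ), IsTy Q p b Y L ∧
      (L.map fun x => x.1.index ^ x.2).prod = m := by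
  constructor
  · rintro ⟨M, hQ, hc, rfl⟩
    have hM : ∀ x : T, p ^ b • x ∈ M := by
      intro x
      rcases b with _ | b
      · have h1 : coreLat p 0 Y = (⊤ : AddSubgroup T) := by
          unfold coreLat
          rw [if_pos rfl]
        rw [h1] at hc
        exact core_le' hc (AddSubgroup.mem_top _)
      · exact ((core_last hD).mp hc).1 x
    obtain ⟨L, h1, h2, h3, h4⟩ := exists_rle b (lay p M) (fun j _ => lay_mono (Nat.le_succ j) M)
    have hne : ∀ j < b, lay p M j ≠ ⊤ := by
      intro j hj htop
      rcases b with _ | b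
      · omega
      · have h5 := ((core_last hD).mp hc).2
        apply hD.hYt
        rw [eq_top_iff]
        intro y _
        rw [← h5]
        intro w
        apply lay_mono (by omega : j ≤ b) M
        rw [htop]
        exact AddSubgroup.mem_top _
    have hall : ∀ j, lay p M j = layerAt L j := by
      intro j
      by_cases hj : j < b
      · exact (h4 j hj).symm
      · rw [layerAt_ge L j (by omega), eq_top_iff]
        intro x _
        apply AddSubgroup.mem_sup_left
        rw [mem_loc]
        obtain ⟨k, rfl⟩ := Nat.exists_eq_add_of_le (Nat.le_of_not_lt hj)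
        rw [pow_add, mul_comm, mul_smul]
        exact nsmul_mem (hM x) _
    have hRz : Rz Q p L := ⟨M, hQ, fun x => by rw [h3]; exact hM x, hall⟩
    refine ⟨L, ⟨?_, h2, h3, ?_, fun _ => (rz_cut Q hp hD.htf L).mp hRz⟩, ?_⟩
    · intro x hx
      obtain ⟨h5, j, hj, h6⟩ := h1 x hx
      rw [h6]
      exact ⟨stable_sup (stable_loc hQ _) (stable_mulT Q p),
        fun y => AddSubgroup.mem_sup_right ⟨y, rfl⟩, hne j hj, h5⟩
    · intro x hx
      rcases b with _ | b
      · have hL : L = [] := by
          cases L with
          | nil => rfl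
          | cons y L =>
            have h5 := (h1 y (by simp)).1
            rw [tot_cons] at h3
            omega
        subst hL
        simp at hx
      · have h5 := layerAt_last L (fun x hx => (h1 x hx).1) x hx
        rw [h3, Nat.add_sub_cancel, ← hall] at h5
        rw [← h5]
        exact ((core_last hD).mp hc).2
    · rw [← prod_layerAt, h3, index_lay p b M hM]
      exact Finset.prod_congr rfl fun j hj => by rw [h4 j (Finset.mem_range.mp hj)]
  · rintro ⟨L, ⟨h1, h2, h3, h4, h5⟩, rfl⟩
    obtain ⟨M, hQ, hM, hl⟩ : Rz Q p L := by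
      by_cases hpQ : p ∣ Nat.card Q
      · exact (rz_cut Q hp hD.htf L).mpr (h5 hpQ)
      · obtain ⟨M, hM1, hM2, _, _, _, hM6⟩ := exists_of_chain Q hp hpQ hD.htf b (layerAt L)
          ⟨fun j hj => by
            obtain ⟨x, hx, h6⟩ := layerAt_mem L j (by omega)
            rw [h6]
            exact ⟨(h1 x hx).1, (h1 x hx).2.1, (h1 x hx).2.2.1⟩,
            fun j _ => layerAt_mono L h2 j⟩
        refine ⟨M, hM1, fun x => by rw [h3]; exact hM2 x, fun j => ?_⟩
        by_cases hj : j < b
        · exact hM6 j hj
        · rw [layerAt_ge L j (by omega), eq_top_iff]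
          intro x _
          apply AddSubgroup.mem_sup_left
          rw [mem_loc]
          obtain ⟨k, rfl⟩ := Nat.exists_eq_add_of_le (Nat.le_of_not_lt hj)
          rw [pow_add, mul_comm, mul_smul]
          exact nsmul_mem (hM2 x) _
    rw [h3] at hM
    refine ⟨M, hQ, ?_, ?_⟩
    · rcases b with _ | b
      · have h6 : coreLat p 0 Y = (⊤ : AddSubgroup T) := by
          unfold coreLat
          rw [if_pos rfl]
        rw [h6]
        intro x
        refine ⟨fun _ => AddSubgroup.mem_top _, fun _ w => ?_⟩
        have := hM (w • x)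
        rwa [pow_zero, one_smul] at this
      · rw [core_last hD]
        refine ⟨hM, ?_⟩
        obtain ⟨x, hx⟩ := exists_getLast L (by omega)
        have h6 := layerAt_last L (fun x hx => (h1 x hx).2.2.2) x hx
        rw [h3, Nat.add_sub_cancel] at h6
        rw [hl, h6]
        exact h4 x hx
    · rw [index_lay p b M hM, ← prod_layerAt, h3]
      exact Finset.prod_congr rfl fun j _ => by rw [hl]

end Pool.Agent.Tor
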