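import Mathlib
import Pool.Agent.Tor.Red

/-!
# The reduction when a central element acts trivially
-/

set_option autoImplicit false

namespace Pool.Agent.Tor

/-- The abstract form of the reduction when exactly one nontrivial element `z`, which is central,
acts trivially modulo the lattice. -/
theorem degrees_central {G V T : Type} [Group G] [Group V] [Finite V] [AddCommGroup T]
    [DistribMulAction V T] (τ : Multiplicative T →* G) (ℓ : V →* G) (π : G →* V)
    (hinj : Function.Injective τ) (hπ : ∀ w, π (ℓ w) = w) (hker : π.ker = τ.range)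
    (hconj : ∀ w v, ℓ w * τ (Multiplicative.ofAdd v) * (ℓ w)⁻¹ =
      τ (Multiplicative.ofAdd (w • v)))
    (L : AddSubgroup T) (N : Subgroup G) [N.Normal]
    (hN : ∀ g, g ∈ N ↔ ∃ v ∈ L, τ (Multiplicative.ofAdd v) = g)
    (z : V) (hz1 : z ≠ 1) (hzc : ∀ w : V, w * z = z * w)
    (hf : ∀ w : V, (∀ x : T, x - w • x ∈ L) → w = 1 ∨ w = z)
    (hzL : ∀ x : T, x - z • x ∈ L)
    (hfix : ∀ t : T, (∀ w : V, w • t - t ∈ L) → t ∈ L) (d : ℕ) :
    d ∈ Degrees (G ⧸ N) ↔ 0 < d ∧ ∃ (M : AddSubgroup T) (Q : Subgroup V) (c : V → T),
      HasCore (V := V) M L ∧ Stable Q M ∧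
      (∀ q ∈ Q, ∀ r ∈ Q, c (q * r) - (c q + q • c r) ∈ M) ∧ (z ∈ Q → c z ∉ M) ∧
        M.index * Q.index = d := by
  rw [mem_degrees_quotient_iff]
  refine and_congr_right fun _ => ?_
  have hsurj : Function.Surjective π := fun w => ⟨ℓ w, hπ w⟩
  have hdec : ∀ g : G, ∃ v : T, g = τ (Multiplicative.ofAdd v) * ℓ (π g) := by
    intro g
    have : g * (ℓ (π g))⁻¹ ∈ π.ker := by
      rw [MonoidHom.mem_ker, map_mul, map_inv, hπ, mul_inv_cancel]
    rw [hker] at this
    obtain ⟨v, hv⟩ := this
    refine ⟨v.toAdd, ?_⟩
    rw [ofAdd_toAdd, hv]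
    group
  have hπτ : ∀ v, π (τ v) = 1 := by
    intro v
    have : τ v ∈ π.ker := by rw [hker]; exact ⟨v, rfl⟩
    exact this
  have hcj : ∀ g : G, ∀ v : T, g * τ (Multiplicative.ofAdd v) * g⁻¹ =
      τ (Multiplicative.ofAdd (π g • v)) := by
    intro g v
    obtain ⟨u, hu⟩ := hdec g
    have h1 : g * τ (Multiplicative.ofAdd v) * g⁻¹ = τ (Multiplicative.ofAdd u) *
        (ℓ (π g) * τ (Multiplicative.ofAdd v) * (ℓ (π g))⁻¹) *
          (τ (Multiplicative.ofAdd u))⁻¹ := by
      conv_lhs => rw [hu]
      group
    rw [h1, hconj, ← map_inv, ← map_mul, ← map_mul]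
    congr 1
    rw [mul_comm (Multiplicative.ofAdd u), mul_assoc, mul_inv_cancel, mul_one]
  have hNN : N ≤ τ.range := by
    intro g hg
    obtain ⟨v, _, hv⟩ := (hN g).mp hg
    exact ⟨_, hv⟩
  have hτN : ∀ v : T, τ (Multiplicative.ofAdd v) ∈ N ↔ v ∈ L := by
    intro v
    rw [hN]
    constructor
    · rintro ⟨u, hu, he⟩
      have := hinj he
      rw [Multiplicative.ofAdd.injective.eq_iff] at this
      rwa [← this]
    · intro hv
      exact ⟨v, hv, rfl⟩
  have hcomm : ∀ (w : V) (v : T), ℓ w * τ (Multiplicative.ofAdd v) =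
      τ (Multiplicative.ofAdd (w • v)) * ℓ w := by
    intro w v
    rw [← hconj]
    group
  constructor
  · rintro ⟨H, hcore, hidx⟩
    obtain ⟨M, hM⟩ : ∃ M : AddSubgroup T, ∀ x, x ∈ M ↔ τ (Multiplicative.ofAdd x) ∈ H :=
      ⟨AddSubgroup.toSubgroup.symm (H.comap τ), fun x => Iff.rfl⟩
    have hMi : M.index = H.relIndex π.ker := by
      rw [hker, ← Subgroup.index_comap]
      have : M = AddSubgroup.toSubgroup.symm (H.comap τ) := by
        ext x
        exact hM x
      rw [this]
      rfl
    have hHC : HasCore (V := V) M L := by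
      intro x
      rw [← hτN, ← hcore]
      constructor
      · intro h g
        rw [hcj, ← hM]
        exact h _
      · intro h w
        have := h (ℓ w)
        rw [hcj, hπ, ← hM] at this
        exact this
    have hex : ∀ w : V, ∃ u : T, w ∈ H.map π → τ (Multiplicative.ofAdd u) * ℓ w ∈ H := by
      intro w
      by_cases hw : w ∈ H.map π
      · obtain ⟨h, hh, rfl⟩ := hw
        obtain ⟨v, hv⟩ := hdec h
        exact ⟨v, fun _ => by rw [← hv]; exact hh⟩
      · exact ⟨0, fun h => absurd h hw⟩
    choose c hc using hex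
    refine ⟨M, H.map π, c, hHC, ?_, ?_, ?_, ?_⟩
    · rintro q ⟨h, hh, rfl⟩ x hx
      rw [hM] at hx ⊢
      rw [← hcj]
      exact mul_mem (mul_mem hh hx) (inv_mem hh)
    · intro q hq r hr
      rw [hM]
      have h1 := hc _ (mul_mem hq hr)
      have h2 := mul_mem (hc _ hq) (hc _ hr)
      have h3 : τ (Multiplicative.ofAdd (c q)) * ℓ q * (τ (Multiplicative.ofAdd (c r)) * ℓ r) =
          τ (Multiplicative.ofAdd (c q + q • c r)) * ℓ (q * r) := by
        rw [ofAdd_add, map_mul, map_mul ℓ]
        have h4 := hcomm q (c r)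
        calc τ (Multiplicative.ofAdd (c q)) * ℓ q * (τ (Multiplicative.ofAdd (c r)) * ℓ r)
            = τ (Multiplicative.ofAdd (c q)) * (ℓ q * τ (Multiplicative.ofAdd (c r))) * ℓ r := by
              group
          _ = _ := by
              rw [h4]
              group
      rw [h3] at h2
      have h4 := mul_mem h1 (inv_mem h2)
      have h5 : τ (Multiplicative.ofAdd (c (q * r))) * ℓ (q * r) *
          (τ (Multiplicative.ofAdd (c q + q • c r)) * ℓ (q * r))⁻¹ =
          τ (Multiplicative.ofAdd (c (q * r) - (c q + q • c r))) := by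
        rw [sub_eq_add_neg, ofAdd_add (c (q * r)) (-(c q + q • c r)), ofAdd_neg, map_mul τ, map_inv τ]
        group
      rw [← h5]
      exact h4
    · intro hz hcz
      rw [hM] at hcz
      have h1 : ℓ z ∈ H := by
        have := mul_mem (inv_mem hcz) (hc z hz)
        rwa [inv_mul_cancel_left] at this
      have h2 : ℓ z ∈ H.normalCore := by
        intro g
        obtain ⟨t, ht⟩ := hdec g
        have h3 : g * ℓ z * g⁻¹ = τ (Multiplicative.ofAdd (t - z • t)) * ℓ z := by
          have h4 : ℓ (π g) * ℓ z = ℓ z * ℓ (π g) := by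
            rw [← map_mul, hzc, map_mul]
          calc g * ℓ z * g⁻¹ = τ (Multiplicative.ofAdd t) * (ℓ (π g) * ℓ z) * (ℓ (π g))⁻¹ *
                (τ (Multiplicative.ofAdd t))⁻¹ := by
                conv_lhs => rw [ht]
                group
            _ = τ (Multiplicative.ofAdd t) * ℓ z * (τ (Multiplicative.ofAdd t))⁻¹ := by
                rw [h4]
                group
            _ = τ (Multiplicative.ofAdd t) * (ℓ z * τ (Multiplicative.ofAdd (-t))) := by
                rw [ofAdd_neg, map_inv]
                group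
            _ = _ := by
                rw [hcomm, smul_neg, sub_eq_add_neg, ofAdd_add, map_mul]
                group
        rw [h3]
        refine mul_mem ?_ h1
        rw [← hM]
        have := (hHC _).mpr (hzL t) 1
        rwa [one_smul] at this
      rw [hcore] at h2
      obtain ⟨y, hy⟩ := hNN h2
      apply hz1
      rw [← hπ z, ← hy, hπτ]
    · rw [hMi, ← index_ker_map π hsurj H, hidx]
  · rintro ⟨M, Q, c, hcore, hst, hcoc, hzQ, hidx⟩
    have hc1 : c 1 ∈ M := by
      have := hcoc 1 (one_mem _) 1 (one_mem _)
      rw [mul_one, one_smul, sub_add_cancel_left] at this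
      exact neg_mem_iff.mp this
    let H : Subgroup G :=
      { carrier := {g | π g ∈ Q ∧ ∃ v ∈ M, g = τ (Multiplicative.ofAdd (c (π g) + v)) * ℓ (π g)}
        mul_mem' := by
          rintro a b ⟨ha, va, hva, ea⟩ ⟨hb, vb, hvb, eb⟩
          refine ⟨by rw [map_mul]; exact mul_mem ha hb,
            va + π a • vb - (c (π a * π b) - (c (π a) + π a • c (π b))),
            sub_mem (add_mem hva (hst _ ha _ hvb)) (hcoc _ ha _ hb), ?_⟩
          rw [map_mul π]
          have h1 : c (π a * π b) + (va + π a • vb - (c (π a * π b) -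
              (c (π a) + π a • c (π b)))) = (c (π a) + va) + π a • (c (π b) + vb) := by
            rw [smul_add]
            abel
          rw [h1, ofAdd_add, map_mul τ, map_mul ℓ]
          have h2 := hcomm (π a) (c (π b) + vb)
          calc a * b = τ (Multiplicative.ofAdd (c (π a) + va)) *
                (ℓ (π a) * τ (Multiplicative.ofAdd (c (π b) + vb))) * ℓ (π b) := by
                conv_lhs => rw [ea, eb]
                group
            _ = _ := by
                rw [h2]
                group
        one_mem' := by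
          refine ⟨by rw [map_one]; exact one_mem _, - c 1, neg_mem hc1, ?_⟩
          rw [map_one, map_one, add_neg_cancel, ofAdd_zero, map_one, one_mul]
        inv_mem' := by
          rintro a ⟨ha, va, hva, ea⟩
          refine ⟨by rw [map_inv]; exact inv_mem ha,
            -((π a)⁻¹ • va) - ((π a)⁻¹ • c (π a) + c (π a)⁻¹), ?_, ?_⟩
          · refine sub_mem (neg_mem (hst _ (inv_mem ha) _ hva)) ?_
            have h1 := hcoc _ (inv_mem ha) _ ha
            rw [inv_mul_cancel] at h1
            have h2 := sub_mem hc1 h1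
            have h3 : c 1 - (c 1 - (c (π a)⁻¹ + (π a)⁻¹ • c (π a))) =
                (π a)⁻¹ • c (π a) + c (π a)⁻¹ := by abel
            rwa [h3] at h2
          · rw [map_inv π]
            have h1 : c (π a)⁻¹ + (-((π a)⁻¹ • va) - ((π a)⁻¹ • c (π a) + c (π a)⁻¹)) =
                (π a)⁻¹ • (-(c (π a) + va)) := by
              rw [smul_neg, smul_add]
              abel
            rw [h1, ← hcomm, ofAdd_neg, map_inv τ, map_inv ℓ]
            conv_lhs => rw [ea]
            group }
    have hHmem : ∀ g, g ∈ H ↔ π g ∈ Q ∧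
        ∃ v ∈ M, g = τ (Multiplicative.ofAdd (c (π g) + v)) * ℓ (π g) := fun g => Iff.rfl
    have hτH : ∀ v : T, τ (Multiplicative.ofAdd v) ∈ H ↔ v ∈ M := by
      intro v
      rw [hHmem, hπτ, map_one]
      constructor
      · rintro ⟨_, u, hu, he⟩
        rw [mul_one] at he
        have := hinj he
        rw [Multiplicative.ofAdd.injective.eq_iff] at this
        rw [this]
        exact add_mem hc1 hu
      · intro hv
        exact ⟨one_mem _, v - c 1, sub_mem hv hc1, by rw [add_sub_cancel, mul_one]⟩
    refine ⟨H, ?_, ?_⟩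
    · have hC : ∀ v : T, τ (Multiplicative.ofAdd v) ∈ H.normalCore ↔ v ∈ L := by
        intro v
        rw [← hcore v]
        constructor
        · intro h w
          have := h (ℓ w)
          rw [hcj, hπ, hτH] at this
          exact this
        · intro h g
          rw [hcj, hτH]
          exact h _
      have hCT : H.normalCore ≤ τ.range := by
        intro k hk
        rw [← hker, MonoidHom.mem_ker]
        have hk1 : π k = 1 ∨ π k = z := by
          apply hf
          intro x
          rw [← hC]
          have h1 : τ (Multiplicative.ofAdd x) * k * (τ (Multiplicative.ofAdd x))⁻¹ ∈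
              H.normalCore := H.normalCore_normal.conj_mem k hk _
          have h2 := mul_mem h1 (inv_mem hk)
          have h3 : τ (Multiplicative.ofAdd x) * k * (τ (Multiplicative.ofAdd x))⁻¹ * k⁻¹ =
              τ (Multiplicative.ofAdd (x - π k • x)) := by
            have h4 : τ (Multiplicative.ofAdd x) * k * (τ (Multiplicative.ofAdd x))⁻¹ * k⁻¹ =
              τ (Multiplicative.ofAdd x) * (k * τ (Multiplicative.ofAdd x) * k⁻¹)⁻¹ := by group
            rw [h4, hcj, ← map_inv, ← map_mul, ← ofAdd_neg, ← ofAdd_add, sub_eq_add_neg]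
          rw [← h3]
          exact h2
        rcases hk1 with h | h
        · exact h
        · exfalso
          obtain ⟨t, ht⟩ := hdec k
          rw [h] at ht
          have htL : t ∈ L := by
            apply hfix
            intro w
            rw [← hC]
            have h1 : ℓ w * k * (ℓ w)⁻¹ ∈ H.normalCore := H.normalCore_normal.conj_mem k hk _
            have h2 := mul_mem h1 (inv_mem hk)
            have h3 : ℓ w * k * (ℓ w)⁻¹ * k⁻¹ = τ (Multiplicative.ofAdd (w • t - t)) := by
              have h4 : ℓ w * ℓ z * (ℓ w)⁻¹ = ℓ z := by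
                rw [← map_mul, hzc, map_mul]
                group
              calc ℓ w * k * (ℓ w)⁻¹ * k⁻¹ = (ℓ w * τ (Multiplicative.ofAdd t)) * (ℓ w)⁻¹ *
                    (ℓ w * ℓ z * (ℓ w)⁻¹) * (ℓ z)⁻¹ * (τ (Multiplicative.ofAdd t))⁻¹ := by
                    conv_lhs => rw [ht]
                    group
                _ = τ (Multiplicative.ofAdd (w • t)) * (τ (Multiplicative.ofAdd t))⁻¹ := by
                    rw [h4, hcomm]
                    group
                _ = _ := by
                    rw [sub_eq_add_neg, ofAdd_add, ofAdd_neg, map_mul, map_inv]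
            rw [← h3]
            exact h2
          have h1 : ℓ z ∈ H.normalCore := by
            have := mul_mem (inv_mem ((hC t).mpr htL)) hk
            rw [ht, inv_mul_cancel_left] at this
            exact this
          have h2 : ℓ z ∈ H := H.normalCore_le h1
          rw [hHmem, hπ] at h2
          obtain ⟨hzQ', v, hv, he⟩ := h2
          apply hzQ hzQ'
          have h3 : τ (Multiplicative.ofAdd (c z + v)) = 1 := mul_eq_right.mp he.symm
          have h4 : c z + v = 0 := by
            have h5 : τ (Multiplicative.ofAdd (c z + v)) = τ (Multiplicative.ofAdd 0) := by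
              rw [h3, ofAdd_zero, map_one]
            have := hinj h5
            rwa [Multiplicative.ofAdd.injective.eq_iff] at this
          rw [add_eq_zero_iff_eq_neg.mp h4]
          exact neg_mem hv
      apply le_antisymm
      · intro k hk
        obtain ⟨v, rfl⟩ := hCT hk
        rw [hN]
        exact ⟨v.toAdd, (hC v.toAdd).mp hk, rfl⟩
      · intro k hk
        obtain ⟨v, hv, rfl⟩ := (hN k).mp hk
        exact (hC v).mpr hv
    · rw [index_ker_map π hsurj H, hker, ← Subgroup.index_comap, ← hidx]
      have h1 : H.comap τ = AddSubgroup.toSubgroup M := by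
        ext x
        exact hτH x.toAdd
      have h2 : H.map π = Q := by
        ext q
        constructor
        · rintro ⟨g, hg, rfl⟩
          exact hg.1
        · intro hq
          refine ⟨τ (Multiplicative.ofAdd (c q)) * ℓ q, ?_, ?_⟩
          · show τ (Multiplicative.ofAdd (c q)) * ℓ q ∈ H
            rw [hHmem, map_mul, hπτ, one_mul, hπ]
            exact ⟨hq, 0, zero_mem _, by rw [add_zero]⟩
          · rw [map_mul, hπτ, one_mul, hπ]
      rw [h1, h2]
      rfl

end Pool.Agent.Tor
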