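import Mathlib

/-!
# The sets of degrees in closed form
-/

set_option autoImplicit false

namespace Pool.Agent.Tor

/-- `f` is of the form `2 a + b` with `max a b = e`. -/
def MaxSum (e f : ℕ) : Prop := ∃ a b, max a b = e ∧ f = 2 * a + b

/-- The condition at the prime `2`: for `k = 1` it is `f = 3 e`, for `k = 2` it is
`f ∈ {e + 1, e + 3, .. , 3 e + 1}`, for `k = 3` it is `2 e + 2 ≤ f ≤ 3 e + 2`. -/
def AtTwo (k e f : ℕ) : Prop :=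
  (k = 1 ∧ f = 3 * e) ∨ (k = 2 ∧ ∃ a ≤ e, f = 2 * a + e + 1) ∨
    (k = 3 ∧ ∃ b ≤ e, f = 2 * e + 2 + b)

/-- The indices of the lattices with core the given lattice which are stable under all
permutations of the three coordinates. -/
def IndP (k s : ℕ) : Set ℕ :=
  {m | 0 < m ∧ AtTwo k (s.factorization 2) (m.factorization 2) ∧
    (s.factorization 3 ≤ m.factorization 3 ∧ m.factorization 3 ≤ 3 * s.factorization 3) ∧
    ∀ p, p.Prime → 5 ≤ p → MaxSum (s.factorization p) (m.factorization p)}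

/-- The indices of the lattices with core the given lattice which are stable under the cyclic
permutations of the three coordinates. -/
def IndC (k s : ℕ) : Set ℕ :=
  {m | 0 < m ∧ AtTwo k (s.factorization 2) (m.factorization 2) ∧
    (∀ p, p.Prime → p ≠ 2 → p % 3 = 2 → MaxSum (s.factorization p) (m.factorization p)) ∧
    ∀ p, p.Prime → p ≠ 2 → p % 3 ≠ 2 →
      s.factorization p ≤ m.factorization p ∧ m.factorization p ≤ 3 * s.factorization p}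

/-- The degrees for `{4,3,4}_(s,0,0)`. -/
def D1 (s : ℕ) : Set ℕ :=
  {d | d = s ^ 3 ∨ d = 2 * s ^ 3 ∨
    (∃ a b, a.lcm b = s ∧ d = 3 * (a ^ 2 * b)) ∨
    (∃ m ∈ IndP 1 s, d = 4 * m) ∨
    (∃ m ∈ IndC 1 s, d = 8 * m ∨ d = 16 * m) ∨
    (∃ m, s ∣ m ∧ m ∣ s ^ 3 ∧ (d = 6 * m ∨ d = 12 * m ∨ d = 24 * m ∨ d = 48 * m))}

/-- The degrees for `{4,3,4}_(s,s,0)`. -/
def D2 (s : ℕ) : Set ℕ :=
  {d | d = 2 * s ^ 3 ∨ d = 4 * s ^ 3 ∨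
    (Odd s ∧ ∃ a b, a.lcm b = s ∧ d = 6 * (a ^ 2 * b)) ∨
    (∃ m ∈ IndP 2 s, d = 4 * m) ∨
    (∃ m ∈ IndC 2 s, d = 8 * m ∨ d = 16 * m) ∨
    (∃ m, 2 ^ (s.factorization 2) * (2 * s) ∣ m ∧ m ∣ 2 * s ^ 3 ∧ d = 6 * m) ∨
    (∃ m, 2 * s ∣ m ∧ m ∣ 2 * s ^ 3 ∧ (d = 12 * m ∨ d = 24 * m ∨ d = 48 * m))}

/-- The degrees for `{4,3,4}_(s,s,s)`. -/
def D3 (s : ℕ) : Set ℕ :=
  {d | d = 4 * s ^ 3 ∨ d = 8 * s ^ 3 ∨
    (Odd s ∧ ∃ a b, a.lcm b = s ∧ d = 6 * (a ^ 2 * b)) ∨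
    (∃ m ∈ IndP 3 s, d = 4 * m) ∨
    (∃ m ∈ IndC 3 s, d = 8 * m ∨ d = 16 * m) ∨
    (∃ m, 2 * s ∣ m ∧ m ∣ 4 * s ^ 3 ∧ (d = 6 * m ∨ d = 12 * m ∨ d = 24 * m ∨ d = 48 * m))}

end Pool.Agent.Tor
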