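import Mathlib
import Pool.Agent.Tor.Loc

/-!
# Subgroups of the group of signed permutations of three coordinates
-/

set_option autoImplicit false

namespace Pool.Agent.Tor

/-- The stabiliser of a lattice. -/
def Stab {A V : Type} [AddCommGroup A] [Group V] [DistribMulAction V A] (M : AddSubgroup A) :
    Subgroup V where
  carrier := {w | ∀ x, w • x ∈ M ↔ x ∈ M}
  mul_mem' {a b} ha hb x := by rw [mul_smul, ha, hb]
  one_mem' x := by rw [one_smul]
  inv_mem' {a} ha x := by rw [← ha, smul_inv_smul]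

theorem mem_Stab {A V : Type} [AddCommGroup A] [Group V] [DistribMulAction V A]
    {M : AddSubgroup A} {w : V} : w ∈ Stab (V := V) M ↔ ∀ x, w • x ∈ M ↔ x ∈ M := Iff.rfl

theorem stable_iff {A V : Type} [AddCommGroup A] [Group V] [DistribMulAction V A]
    {M : AddSubgroup A} {Q : Subgroup V} : Stable Q M ↔ Q ≤ Stab M := by
  constructor
  · intro h q hq x
    refine ⟨fun hx => ?_, h q hq x⟩
    have := h q⁻¹ (inv_mem hq) _ hx
    rwa [inv_smul_smul] at this
  · intro h q hq x hx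
    exact (h hq x).mpr hx

/-- A change of signs. -/
abbrev sg (ε : Fin 3 → ℤˣ) : W 3 := SemidirectProduct.inl ε

/-- A permutation of the coordinates. -/
abbrev pm (σ : Equiv.Perm (Fin 3)) : W 3 := SemidirectProduct.inr σ

theorem sg_smul (ε : Fin 3 → ℤˣ) (x : Z 3) (i : Fin 3) : (sg ε • x) i = (ε i : ℤ) * x i := rfl

theorem pm_smul (σ : Equiv.Perm (Fin 3)) (x : Z 3) (i : Fin 3) : (pm σ • x) i = x (σ⁻¹ i) := by
  rw [smul_apply]
  simp

/-- The cyclic rotation of the coordinates. -/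
abbrev rot : Equiv.Perm (Fin 3) := finRotate 3

/-- The change of the sign of one coordinate. -/
abbrev flip (i : Fin 3) : Fin 3 → ℤˣ := fun j => if j = i then -1 else 1

theorem neg_mem_Stab (M : AddSubgroup (Z 3)) : sg (fun _ => -1) ∈ Stab (V := W 3) M := by
  intro x
  have : sg (fun _ => -1) • x = -x := by
    funext i
    rw [sg_smul]
    simp
  rw [this]
  exact neg_mem_iff

theorem card_W3 : Nat.card (W 3) = 48 := by
  rw [SemidirectProduct.card, Nat.card_eq_fintype_card, Nat.card_eq_fintype_card,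
    Fintype.card_perm, Fintype.card_pi]
  simp [Nat.factorial]

theorem card_signs : Nat.card (SemidirectProduct.rightHom (φ := mulAutArrow)
    (N := Fin 3 → ℤˣ) (G := Equiv.Perm (Fin 3))).ker = 8 := by
  rw [← SemidirectProduct.range_inl_eq_ker_rightHom,
    ← Nat.card_congr (MonoidHom.ofInjective SemidirectProduct.inl_injective).toEquiv,
    Nat.card_eq_fintype_card, Fintype.card_pi]
  simp

/-- The two invariants of a subgroup. -/
theorem split (Q : Subgroup (W 3)) : ∃ a b : ℕ, a ∣ 8 ∧ b ∣ 6 ∧ a * b = Q.index ∧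
    a = Q.relIndex (SemidirectProduct.rightHom (φ := mulAutArrow)
      (N := Fin 3 → ℤˣ) (G := Equiv.Perm (Fin 3))).ker ∧
    b = (Q.map SemidirectProduct.rightHom).index := by
  refine ⟨_, _, ?_, ?_, ?_, rfl, rfl⟩
  · rw [← card_signs]
    exact Subgroup.relIndex_dvd_card _ _
  · have h : Nat.card (Equiv.Perm (Fin 3)) = 6 := by
      rw [Nat.card_eq_fintype_card, Fintype.card_perm]
      rfl
    rw [← h]
    exact Subgroup.index_dvd_card _
  · exact (index_ker_map SemidirectProduct.rightHom SemidirectProduct.rightHom_surjective Q).symm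

theorem signs_of_one {Q : Subgroup (W 3)} (h : Q.relIndex (SemidirectProduct.rightHom
    (φ := mulAutArrow) (N := Fin 3 → ℤˣ) (G := Equiv.Perm (Fin 3))).ker = 1)
    (ε : Fin 3 → ℤˣ) : sg ε ∈ Q := by
  rw [Subgroup.relIndex_eq_one] at h
  apply h
  rw [MonoidHom.mem_ker, SemidirectProduct.rightHom_inl]

theorem signs_of_two {Q : Subgroup (W 3)} (h : Q.relIndex (SemidirectProduct.rightHom
    (φ := mulAutArrow) (N := Fin 3 → ℤˣ) (G := Equiv.Perm (Fin 3))).ker = 2)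
    (ε ε' : Fin 3 → ℤˣ) : sg ε ∈ Q ∨ sg ε' ∈ Q ∨ sg (ε * ε') ∈ Q := by
  by_contra hc
  push Not at hc
  obtain ⟨h1, h2, h3⟩ := hc
  have hk : ∀ ε, sg ε ∈ (SemidirectProduct.rightHom (φ := mulAutArrow)
    (N := Fin 3 → ℤˣ) (G := Equiv.Perm (Fin 3))).ker := fun ε => by
    rw [MonoidHom.mem_ker, SemidirectProduct.rightHom_inl]
  have h4 := Subgroup.mul_mem_iff_of_index_two h (a := ⟨sg ε, hk ε⟩) (b := ⟨sg ε', hk ε'⟩)
  rw [Subgroup.mem_subgroupOf, Subgroup.mem_subgroupOf, Subgroup.mem_subgroupOf] at h4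
  have h5 : sg (ε * ε') = sg ε * sg ε' := map_mul _ _ _
  rw [h5] at h3
  exact h3 (h4.mpr ⟨fun h => absurd h h1, fun h => absurd h h2⟩)

theorem flips_prod (i j k : Fin 3) (hij : i ≠ j) (hik : i ≠ k) (hjk : j ≠ k) :
    flip i * flip j = (fun _ => -1) * flip k := by
  revert i j k
  decide

/-- A subgroup of index 6 stabilising `M`: some single sign change stabilises `M`. -/
theorem flip_of_small {Q : Subgroup (W 3)} {M : AddSubgroup (Z 3)} (hQ : Q ≤ Stab M)
    (h : Q.relIndex (SemidirectProduct.rightHom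
    (φ := mulAutArrow) (N := Fin 3 → ℤˣ) (G := Equiv.Perm (Fin 3))).ker = 1 ∨
    Q.relIndex (SemidirectProduct.rightHom
    (φ := mulAutArrow) (N := Fin 3 → ℤˣ) (G := Equiv.Perm (Fin 3))).ker = 2) :
    ∃ i, sg (flip i) ∈ Stab M ∧ (sg (flip i) ∈ Q ∨ sg ((fun _ => -1) * flip i) ∈ Q) := by
  rcases h with h | h
  · exact ⟨0, hQ (signs_of_one h _), Or.inl (signs_of_one h _)⟩
  · rcases signs_of_two h (flip 0) (flip 1) with h1 | h1 | h1
    · exact ⟨0, hQ h1, Or.inl h1⟩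
    · exact ⟨1, hQ h1, Or.inl h1⟩
    · rw [flips_prod 0 1 2 (by decide) (by decide) (by decide)] at h1
      refine ⟨2, ?_, Or.inr h1⟩
      have h2 := mul_mem (neg_mem_Stab M) (hQ h1)
      rw [← map_mul] at h2
      have h3 : ((fun _ => -1) * ((fun _ => -1) * flip 2) : Fin 3 → ℤˣ) = flip 2 := by decide
      rwa [h3] at h2

theorem index_six {Q : Subgroup (W 3)} {M : AddSubgroup (Z 3)} (hQ : Q ≤ Stab M)
    (h : Q.index = 6) : ∃ i, sg (flip i) ∈ Stab M := by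
  obtain ⟨a, b, ha, hb, hab, h1, h2⟩ := split Q
  rw [h] at hab
  have h3 : a ∣ 2 := by
    have h4 : a ∣ Nat.gcd 8 6 := Nat.dvd_gcd ha (hab ▸ dvd_mul_right a b)
    exact h4
  have h5 : a = 1 ∨ a = 2 := (Nat.dvd_prime Nat.prime_two).mp h3
  rw [h1] at h5
  obtain ⟨i, hi, _⟩ := flip_of_small hQ h5
  exact ⟨i, hi⟩

theorem perm3_order_two (σ : Equiv.Perm (Fin 3)) (h : σ * σ = 1) (h1 : σ ≠ 1) :
    ∃ i j, i ≠ j ∧ σ = Equiv.swap i j := by
  revert σ
  decide

theorem index_three {Q : Subgroup (W 3)} {M : AddSubgroup (Z 3)} (hQ : Q ≤ Stab M)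
    (h : Q.index = 3) : (∀ ε, sg ε ∈ Stab M) ∧ ∃ i j, i ≠ j ∧ pm (Equiv.swap i j) ∈ Stab M := by
  obtain ⟨a, b, ha, hb, hab, h1, h2⟩ := split Q
  rw [h] at hab
  have h3 : a ∣ 1 := by
    have h4 : a ∣ Nat.gcd 8 3 := Nat.dvd_gcd ha (hab ▸ dvd_mul_right a b)
    exact h4
  have h4 : a = 1 := Nat.dvd_one.mp h3
  rw [h1] at h4
  have hs : ∀ ε, sg ε ∈ Q := signs_of_one h4
  refine ⟨fun ε => hQ (hs ε), ?_⟩
  rw [← h1] at h4
  rw [h4, one_mul, h2] at hab
  have h5 : Nat.card (Q.map (SemidirectProduct.rightHom (φ := mulAutArrow)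
    (N := Fin 3 → ℤˣ) (G := Equiv.Perm (Fin 3)))) = 2 := by
    have h6 := Subgroup.card_mul_index (Q.map (SemidirectProduct.rightHom (φ := mulAutArrow)
      (N := Fin 3 → ℤˣ) (G := Equiv.Perm (Fin 3))))
    have h7 : Nat.card (Equiv.Perm (Fin 3)) = 6 := by
      rw [Nat.card_eq_fintype_card, Fintype.card_perm]
      rfl
    rw [hab, h7] at h6
    omega
  obtain ⟨y, hy⟩ := exists_prime_orderOf_dvd_card' (G := Q.map (SemidirectProduct.rightHom
    (φ := mulAutArrow) (N := Fin 3 → ℤˣ) (G := Equiv.Perm (Fin 3)))) 2 (by rw [h5])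
  obtain ⟨⟨σ, hσ⟩, rfl⟩ : ∃ z, z = y := ⟨y, rfl⟩
  have h8 : orderOf σ = 2 := by
    rw [← hy]
    exact (Subgroup.orderOf_mk σ hσ).symm
  have h9 : σ * σ = 1 := by
    have := pow_orderOf_eq_one σ
    rw [h8, pow_two] at this
    exact this
  have h10 : σ ≠ 1 := by
    rintro rfl
    rw [orderOf_one] at h8
    omega
  obtain ⟨i, j, hij, rfl⟩ := perm3_order_two σ h9 h10
  obtain ⟨g, hg, hg2⟩ := hσ
  refine ⟨i, j, hij, ?_⟩
  have h11 := mul_mem (hQ (hs g.left⁻¹)) (hQ hg)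
  have h12 : sg g.left⁻¹ * g = pm (Equiv.swap i j) := by
    rw [← SemidirectProduct.inl_left_mul_inr_right g, ← mul_assoc, ← map_mul]
    have h13 : g.right = Equiv.swap i j := hg2
    rw [h13]
    simp
  rwa [h12] at h11

/-- A subgroup of index a power of two below 32 contains an element with rotation `rot`. -/
theorem exists_rot {Q : Subgroup (W 3)} (h : Q.index ∣ 16) : ∃ g ∈ Q, g.right = rot := by
  obtain ⟨a, b, ha, hb, hab, h1, h2⟩ := split Q
  have h3 : b ∣ 2 := by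
    have h4 : b ∣ Nat.gcd 6 16 := Nat.dvd_gcd hb (dvd_trans (hab ▸ dvd_mul_left b a) h)
    exact h4
  have h5 : b = 1 ∨ b = 2 := (Nat.dvd_prime Nat.prime_two).mp h3
  have h6 : rot ∈ Q.map (SemidirectProduct.rightHom (φ := mulAutArrow)
      (N := Fin 3 → ℤˣ) (G := Equiv.Perm (Fin 3))) := by
    rcases h5 with h5 | h5
    · rw [h2, Subgroup.index_eq_one] at h5
      rw [h5]
      exact Subgroup.mem_top _
    · rw [h2] at h5
      have h7 : rot = rot⁻¹ ^ 2 := by decide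
      rw [h7]
      exact Subgroup.sq_mem_of_index_two h5 _
  obtain ⟨g, hg, hg2⟩ := h6
  exact ⟨g, hg, hg2⟩

theorem units_sq (u : ℤˣ) : u * u = 1 := by
  rcases Int.units_eq_one_or u with h | h <;> rw [h] <;> decide

/-- Up to conjugation by sign changes, such a subgroup contains the rotation itself. -/
theorem exists_conj_rot {Q : Subgroup (W 3)} (h : Q.index ∣ 16) :
    ∃ δ, (sg δ)⁻¹ * pm rot * sg δ ∈ Q := by
  obtain ⟨g, hg, hr⟩ := exists_rot h
  have h4 : g ^ 4 ∈ Q := pow_mem hg 4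
  obtain ⟨ε, hε⟩ : ∃ ε : Fin 3 → ℤˣ, g = ⟨ε, rot⟩ := ⟨g.left, by ext1 <;> [rfl; exact hr]⟩
  obtain ⟨η, hη, hη1⟩ : ∃ η : Fin 3 → ℤˣ, g ^ 4 = ⟨η, rot⟩ ∧ η 0 * η 1 * η 2 = 1 := by
    refine ⟨(g ^ 4).left, ?_, ?_⟩
    · ext1
      · rfl
      · have h5 : (g ^ 4).right = g.right ^ 4 := map_pow SemidirectProduct.rightHom g 4
        rw [h5, hr]
        show rot ^ 4 = rot
        decide
    · rw [hε]
      revert ε
      intro ε _
      have h6 : (⟨ε, rot⟩ : W 3) ^ 4 = ⟨ε, rot⟩ * (⟨ε, rot⟩ * (⟨ε, rot⟩ * ⟨ε, rot⟩)) := by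
        rw [pow_succ', pow_succ', pow_succ', pow_one]
      rw [h6]
      have h7 : ∀ i, ((⟨ε, rot⟩ : W 3) * (⟨ε, rot⟩ * (⟨ε, rot⟩ * ⟨ε, rot⟩))).left i =
          ε i * (ε (rot⁻¹ i) * (ε (rot⁻¹ (rot⁻¹ i)) * ε (rot⁻¹ (rot⁻¹ (rot⁻¹ i))))) :=
        fun i => rfl
      rw [h7, h7, h7]
      have e0 : (rot⁻¹ : Equiv.Perm (Fin 3)) 0 = 2 := by decide
      have e1 : (rot⁻¹ : Equiv.Perm (Fin 3)) 1 = 0 := by decide
      have e2 : (rot⁻¹ : Equiv.Perm (Fin 3)) 2 = 1 := by decide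
      rw [e0, e1, e2, e0, e1, e2, e0]
      rcases Int.units_eq_one_or (ε 0) with h | h <;> rcases Int.units_eq_one_or (ε 1) with h' | h'
        <;> rcases Int.units_eq_one_or (ε 2) with h'' | h'' <;> rw [h, h', h''] <;> decide
  refine ⟨fun i => if i = 0 then 1 else if i = 1 then η 1 else η 1 * η 2, ?_⟩
  have h8 : ∀ δ : Fin 3 → ℤˣ, (sg δ)⁻¹ * pm rot * sg δ = ⟨fun i => δ i * δ (rot⁻¹ i), rot⟩ := by
    intro δ
    rw [← map_inv]
    ext1
    · funext i
      have h9 : ((sg δ⁻¹ * pm rot * sg δ : W 3)).left i =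
        (δ⁻¹ i * (1 : Fin 3 → ℤˣ) i) * δ ((1 * rot : Equiv.Perm (Fin 3))⁻¹ i) := rfl
      rw [h9, one_mul, Pi.one_apply, mul_one, Pi.inv_apply, Int.units_inv_eq_self]
    · have h9 : ((sg δ⁻¹ * pm rot * sg δ : W 3)).right = 1 * rot * 1 := rfl
      rw [h9, mul_one, one_mul]
  rw [h8]
  have h10 : (⟨fun i => (fun i : Fin 3 => if i = 0 then 1 else if i = 1 then η 1 else η 1 * η 2) i *
      (fun i : Fin 3 => if i = 0 then 1 else if i = 1 then η 1 else η 1 * η 2) (rot⁻¹ i), rot⟩ : W 3)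
        = g ^ 4 := by
    rw [hη]
    ext1
    · funext i
      have e0 : (rot⁻¹ : Equiv.Perm (Fin 3)) 0 = 2 := by decide
      have e1 : (rot⁻¹ : Equiv.Perm (Fin 3)) 1 = 0 := by decide
      have e2 : (rot⁻¹ : Equiv.Perm (Fin 3)) 2 = 1 := by decide
      fin_cases i
      · show (1 : ℤˣ) * (if (rot⁻¹ : Equiv.Perm (Fin 3)) 0 = 0 then 1 else
          if (rot⁻¹ : Equiv.Perm (Fin 3)) 0 = 1 then η 1 else η 1 * η 2) = η 0
        rw [e0, if_neg (by decide), if_neg (by decide), one_mul]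
        have h11 : η 0 * (η 1 * η 2) = 1 := by rw [← mul_assoc]; exact hη1
        have h12 := eq_inv_of_mul_eq_one_left h11
        rw [h12, Int.units_inv_eq_self]
      · show η 1 * (if (rot⁻¹ : Equiv.Perm (Fin 3)) 1 = 0 then 1 else
          if (rot⁻¹ : Equiv.Perm (Fin 3)) 1 = 1 then η 1 else η 1 * η 2) = η 1
        rw [e1, if_pos rfl, mul_one]
      · show (η 1 * η 2) * (if (rot⁻¹ : Equiv.Perm (Fin 3)) 2 = 0 then 1 else
          if (rot⁻¹ : Equiv.Perm (Fin 3)) 2 = 1 then η 1 else η 1 * η 2) = η 2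
        rw [e2, if_neg (by decide), if_pos rfl, mul_comm, ← mul_assoc, units_sq, one_mul]
    · rfl
  rw [h10]
  exact h4

end Pool.Agent.Tor
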