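import Mathlib
import Pool.Agent.Tor.Sub

/-!
# More on subgroups of the group of signed permutations of three coordinates
-/

set_option autoImplicit false

namespace Pool.Agent.Tor

/-- The image of a lattice under a group element. -/
def tw {A V : Type} [AddCommGroup A] [Group V] [DistribMulAction V A] (w : V)
    (M : AddSubgroup A) : AddSubgroup A := M.comap (DistribSMul.toAddMonoidHom A w⁻¹)

theorem mem_tw {A V : Type} [AddCommGroup A] [Group V] [DistribMulAction V A] {w : V}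
    {M : AddSubgroup A} {x : A} : x ∈ tw w M ↔ w⁻¹ • x ∈ M := Iff.rfl

theorem index_tw {A V : Type} [AddCommGroup A] [Group V] [DistribMulAction V A] (w : V)
    (M : AddSubgroup A) : (tw w M).index = M.index := by
  unfold tw
  apply AddSubgroup.index_comap_of_surjective
  intro x
  exact ⟨w • x, inv_smul_smul w x⟩

theorem core_tw {A V : Type} [AddCommGroup A] [Group V] [DistribMulAction V A] (w : V)
    {M L : AddSubgroup A} (h : HasCore (V := V) M L) : HasCore (V := V) (tw w M) L := by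
  intro x
  rw [← h]
  constructor
  · intro h1 v
    have := h1 (w * v)
    rwa [mem_tw, ← mul_smul, inv_mul_cancel_left] at this
  · intro h1 v
    rw [mem_tw, ← mul_smul]
    exact h1 _

theorem mem_stab_tw {A V : Type} [AddCommGroup A] [Group V] [DistribMulAction V A] {w g : V}
    {M : AddSubgroup A} (h : w⁻¹ * g * w ∈ Stab M) : g ∈ Stab (tw w M) := by
  intro x
  rw [mem_tw, mem_tw]
  have := h (w⁻¹ • x)
  rwa [mul_smul, smul_inv_smul, mul_smul] at this

theorem sg_mul (a b : Fin 3 → ℤˣ) : sg (a * b) = sg a * sg b := map_mul _ _ _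

theorem sg_one : sg 1 = 1 := map_one _

theorem sg_inv (a : Fin 3 → ℤˣ) : (sg a)⁻¹ = sg a⁻¹ := (map_inv _ _).symm

theorem pm_mul (a b : Equiv.Perm (Fin 3)) : pm (a * b) = pm a * pm b := map_mul _ _ _

theorem pm_one : pm 1 = 1 := map_one _

theorem pm_inv (a : Equiv.Perm (Fin 3)) : (pm a)⁻¹ = pm a⁻¹ := (map_inv _ _).symm

theorem conj_rot_sg (γ : Fin 3 → ℤˣ) : pm rot * sg γ * (pm rot)⁻¹ = sg (γ ∘ (rot⁻¹ :)) := by
  rw [mul_inv_eq_iff_eq_mul]
  ext1
  · funext i
    have h9 : ((pm rot * sg γ : W 3)).left i = (1 : Fin 3 → ℤˣ) i * γ (rot⁻¹ i) := rfl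
    have h10 : ((sg (γ ∘ (rot⁻¹ :)) * pm rot : W 3)).left i =
      γ (rot⁻¹ i) * (1 : Fin 3 → ℤˣ) ((1 : Equiv.Perm (Fin 3))⁻¹ i) := rfl
    rw [h9, h10]
    simp
  · rfl

theorem conj_rot_mem {S : Subgroup (W 3)} (hr : pm rot ∈ S) {γ : Fin 3 → ℤˣ} (h : sg γ ∈ S) :
    sg (γ ∘ (rot⁻¹ :)) ∈ S := by
  rw [← conj_rot_sg]
  exact mul_mem (mul_mem hr h) (inv_mem hr)

/-- A subgroup with the rotation and the even sign changes and `-1` contains all sign changes. -/
theorem flips_mem {S : Subgroup (W 3)} (hn : sg (fun _ => -1) ∈ S) (hr : pm rot ∈ S)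
    (h : sg (flip 0 * flip 1) ∈ S) (i : Fin 3) : sg (flip i) ∈ S := by
  have h2 : sg (flip 2) ∈ S := by
    have := mul_mem hn h
    rw [← sg_mul] at this
    have h3 : ((fun _ => -1) * (flip 0 * flip 1) : Fin 3 → ℤˣ) = flip 2 := by decide
    rwa [h3] at this
  have h0 : sg (flip 0) ∈ S := by
    have := conj_rot_mem hr h2
    have h3 : (flip 2) ∘ (rot⁻¹ :) = flip 0 := by decide
    rwa [h3] at this
  have h1 : sg (flip 1) ∈ S := by
    have := conj_rot_mem hr h0
    have h3 : (flip 0) ∘ (rot⁻¹ :) = flip 1 := by decide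
    rwa [h3] at this
  fin_cases i
  · exact h0
  · exact h1
  · exact h2

theorem perm3_cases (σ : Equiv.Perm (Fin 3)) : σ = 1 ∨ σ = rot ∨ σ = rot * rot ∨
    σ = Equiv.swap 0 1 ∨ σ = rot * Equiv.swap 0 1 ∨ σ = rot * rot * Equiv.swap 0 1 := by
  revert σ
  decide

theorem sign3_cases (ε : Fin 3 → ℤˣ) : ε = 1 ∨ ε = flip 0 ∨ ε = flip 1 ∨ ε = flip 2 ∨
    ε = flip 0 * flip 1 ∨ ε = flip 0 * flip 2 ∨ ε = flip 1 * flip 2 ∨
    ε = flip 0 * flip 1 * flip 2 := by
  revert ε
  decide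

theorem signs_mem {S : Subgroup (W 3)} (h : ∀ i, sg (flip i) ∈ S) (ε : Fin 3 → ℤˣ) :
    sg ε ∈ S := by
  rcases sign3_cases ε with h1 | h1 | h1 | h1 | h1 | h1 | h1 | h1 <;> rw [h1]
  · rw [sg_one]
    exact one_mem _
  · exact h 0
  · exact h 1
  · exact h 2
  · rw [sg_mul]
    exact mul_mem (h 0) (h 1)
  · rw [sg_mul]
    exact mul_mem (h 0) (h 2)
  · rw [sg_mul]
    exact mul_mem (h 1) (h 2)
  · rw [sg_mul, sg_mul]
    exact mul_mem (mul_mem (h 0) (h 1)) (h 2)

theorem perms_mem {S : Subgroup (W 3)} (hr : pm rot ∈ S) (hs : pm (Equiv.swap 0 1) ∈ S)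
    (σ : Equiv.Perm (Fin 3)) : pm σ ∈ S := by
  rcases perm3_cases σ with h1 | h1 | h1 | h1 | h1 | h1 <;> rw [h1]
  · rw [pm_one]
    exact one_mem _
  · exact hr
  · rw [pm_mul]
    exact mul_mem hr hr
  · exact hs
  · rw [pm_mul]
    exact mul_mem hr hs
  · rw [pm_mul, pm_mul]
    exact mul_mem (mul_mem hr hr) hs

theorem stab_top_of {S : Subgroup (W 3)} (hr : pm rot ∈ S) (hs : pm (Equiv.swap 0 1) ∈ S)
    (h : ∀ i, sg (flip i) ∈ S) (w : W 3) : w ∈ S := by
  rw [← SemidirectProduct.inl_left_mul_inr_right w]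
  exact mul_mem (signs_mem h _) (perms_mem hr hs _)

theorem rot_smul (x : Z 3) : (pm rot • x) 0 = x 2 ∧ (pm rot • x) 1 = x 0 ∧
    (pm rot • x) 2 = x 1 := by
  have e0 : (rot⁻¹ : Equiv.Perm (Fin 3)) 0 = 2 := by decide
  have e1 : (rot⁻¹ : Equiv.Perm (Fin 3)) 1 = 0 := by decide
  have e2 : (rot⁻¹ : Equiv.Perm (Fin 3)) 2 = 1 := by decide
  rw [pm_smul, pm_smul, pm_smul, e0, e1, e2]
  exact ⟨rfl, rfl, rfl⟩

theorem swap_smul (x : Z 3) : (pm (Equiv.swap 0 1) • x) 0 = x 1 ∧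
    (pm (Equiv.swap 0 1) • x) 1 = x 0 ∧ (pm (Equiv.swap 0 1) • x) 2 = x 2 := by
  have e0 : ((Equiv.swap 0 1)⁻¹ : Equiv.Perm (Fin 3)) 0 = 1 := by decide
  have e1 : ((Equiv.swap 0 1)⁻¹ : Equiv.Perm (Fin 3)) 1 = 0 := by decide
  have e2 : ((Equiv.swap 0 1)⁻¹ : Equiv.Perm (Fin 3)) 2 = 2 := by decide
  rw [pm_smul, pm_smul, pm_smul, e0, e1, e2]
  exact ⟨rfl, rfl, rfl⟩

theorem flip_mem {M : AddSubgroup (Z 3)} {i : Fin 3} (h : sg (flip i) ∈ Stab M) {x : Z 3}
    (hx : x ∈ M) : (Pi.single i (2 * x i) : Z 3) ∈ M := by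
  have h1 := sub_mem hx ((h x).mpr hx)
  have h2 : (Pi.single i (2 * x i) : Z 3) = x - sg (flip i) • x := by
    funext j
    rw [Pi.sub_apply, sg_smul, show flip i j = (if j = i then -1 else 1) from rfl]
    by_cases hj : j = i
    · subst hj
      rw [Pi.single_eq_same, if_pos rfl, Units.val_neg, Units.val_one]
      ring
    · rw [Pi.single_eq_of_ne hj, if_neg hj, Units.val_one]
      ring
  rw [h2]
  exact h1

theorem exists_gen (H : AddSubgroup ℤ) : ∃ d : ℤ, ∀ x, x ∈ H ↔ d ∣ x := by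
  obtain ⟨d, hd⟩ := Int.subgroup_cyclic H
  refine ⟨d, fun x => ?_⟩
  rw [hd, ← AddSubgroup.zmultiples_eq_closure, Int.mem_zmultiples_iff]

theorem rot_single (i : Fin 3) (a : ℤ) : pm rot • (Pi.single i a : Z 3) = Pi.single (i + 1) a := by
  rw [smul_single]
  have : (pm rot : W 3).right i = i + 1 := by
    revert i
    decide
  rw [this]
  simp

theorem eq_sum3 (x : Z 3) : x = Pi.single 0 (x 0) + Pi.single 1 (x 1) + Pi.single 2 (x 2) := by
  funext i
  fin_cases i <;> simp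

/-- A lattice stable under the even sign changes and the rotation is stable under everything. -/
theorem stab_top {M : AddSubgroup (Z 3)} (hr : pm rot ∈ Stab M)
    (he : sg (flip 0 * flip 1) ∈ Stab M) (w : W 3) : w ∈ Stab M := by
  have hf := flips_mem (neg_mem_Stab M) hr he
  refine stab_top_of hr ?_ hf w
  obtain ⟨d, hd⟩ := exists_gen (M.map (Pi.evalAddMonoidHom (fun _ : Fin 3 => ℤ) 0))
  have h0 : ∀ x ∈ M, d ∣ x 0 := fun x hx => (hd _).mp ⟨x, hx, rfl⟩
  have h2 : ∀ x ∈ M, d ∣ x 2 := fun x hx => by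
    have := h0 _ ((hr x).mpr hx)
    rwa [(rot_smul x).1] at this
  have h1 : ∀ x ∈ M, d ∣ x 1 := fun x hx => by
    have := h2 _ ((hr x).mpr hx)
    rwa [(rot_smul x).2.2] at this
  obtain ⟨g, hg, hgd⟩ : ∃ g ∈ M, g 0 = d := (hd d).mpr dvd_rfl
  have e0 : (Pi.single 0 (2 * d) : Z 3) ∈ M := by
    have := flip_mem (hf 0) hg
    rwa [hgd] at this
  have e1 : (Pi.single 1 (2 * d) : Z 3) ∈ M := by
    have := (hr _).mpr e0
    rwa [rot_single] at this
  have e2 : (Pi.single 2 (2 * d) : Z 3) ∈ M := by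
    have := (hr _).mpr e1
    rwa [rot_single] at this
  have key : ∀ x : Z 3, 2 * d ∣ x 0 → 2 * d ∣ x 1 → 2 * d ∣ x 2 → x ∈ M := by
    rintro x ⟨a, ha⟩ ⟨b, hb⟩ ⟨c, hc⟩
    rw [eq_sum3 x, ha, hb, hc]
    have h3 : ∀ i : Fin 3, ∀ t : ℤ, (Pi.single i (2 * d * t) : Z 3) =
        t • (Pi.single i (2 * d) : Z 3) := by
      intro i t
      rw [← Pi.single_smul, smul_eq_mul, mul_comm]
    rw [h3, h3, h3]
    exact add_mem (add_mem (zsmul_mem e0 _) (zsmul_mem e1 _)) (zsmul_mem e2 _)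
  have hsw : ∀ x ∈ M, pm (Equiv.swap 0 1) • x ∈ M := by
    intro x hx
    obtain ⟨a, ha⟩ := h0 x hx
    obtain ⟨b, hb⟩ := h1 x hx
    obtain ⟨c, hc⟩ := h2 x hx
    have hrx := (hr _).mpr hx
    have hrrx := (hr _).mpr hrx
    have hcases : (2 : ℤ) ∣ a - b ∨ (2 : ℤ) ∣ b - c ∨ (2 : ℤ) ∣ a - c := by omega
    rcases hcases with ⟨t, ht⟩ | ⟨t, ht⟩ | ⟨t, ht⟩
    · have h3 : pm (Equiv.swap 0 1) • x = x + (pm (Equiv.swap 0 1) • x - x) := by abel
      rw [h3]
      refine add_mem hx (key _ ?_ ?_ ?_)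
      · rw [Pi.sub_apply, (swap_smul x).1, ha, hb]
        exact ⟨-t, by linear_combination (-d) * ht⟩
      · rw [Pi.sub_apply, (swap_smul x).2.1, ha, hb]
        exact ⟨t, by linear_combination d * ht⟩
      · rw [Pi.sub_apply, (swap_smul x).2.2, sub_self]
        exact dvd_zero _
    · have h3 : pm (Equiv.swap 0 1) • x = pm rot • x + (pm (Equiv.swap 0 1) • x - pm rot • x) := by
        abel
      rw [h3]
      refine add_mem hrx (key _ ?_ ?_ ?_)
      · rw [Pi.sub_apply, (swap_smul x).1, (rot_smul x).1, hb, hc]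
        exact ⟨t, by linear_combination d * ht⟩
      · rw [Pi.sub_apply, (swap_smul x).2.1, (rot_smul x).2.1, sub_self]
        exact dvd_zero _
      · rw [Pi.sub_apply, (swap_smul x).2.2, (rot_smul x).2.2, hb, hc]
        exact ⟨-t, by linear_combination (-d) * ht⟩
    · have h3 : pm (Equiv.swap 0 1) • x = pm rot • pm rot • x +
          (pm (Equiv.swap 0 1) • x - pm rot • pm rot • x) := by
        abel
      rw [h3]
      refine add_mem hrrx (key _ ?_ ?_ ?_)
      · rw [Pi.sub_apply, (swap_smul x).1, (rot_smul _).1, (rot_smul x).2.2, sub_self]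
        exact dvd_zero _
      · rw [Pi.sub_apply, (swap_smul x).2.1, (rot_smul _).2.1, (rot_smul x).1, ha, hc]
        exact ⟨t, by linear_combination d * ht⟩
      · rw [Pi.sub_apply, (swap_smul x).2.2, (rot_smul _).2.2, (rot_smul x).2.1, ha, hc]
        exact ⟨-t, by linear_combination (-d) * ht⟩
  intro x
  refine ⟨fun h => ?_, hsw x⟩
  have h3 := hsw _ h
  rw [← mul_smul, ← pm_mul, Equiv.swap_mul_self, pm_one, one_smul] at h3
  exact h3

theorem conj_mem_of_index_two {S : Subgroup (W 3)} (h : S.index = 2) {g : W 3} (hg : g ∈ S)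
    (w : W 3) : w * g * w⁻¹ ∈ S := (Subgroup.normal_of_index_eq_two h).conj_mem g hg w

/-- Subgroups of index at most two. -/
theorem index_two {Q : Subgroup (W 3)} (h : Q.index ∣ 2) :
    pm rot ∈ Q ∧ sg (flip 0 * flip 1) ∈ Q := by
  rcases (Nat.dvd_prime Nat.prime_two).mp h with h1 | h1
  · rw [Subgroup.index_eq_one] at h1
    rw [h1]
    exact ⟨Subgroup.mem_top _, Subgroup.mem_top _⟩
  · have hr : pm rot ∈ Q := by
      have h7 : pm rot = (pm rot⁻¹) ^ 2 := by
        rw [pow_two, ← pm_mul]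
        congr 1
        decide
      rw [h7]
      exact Subgroup.sq_mem_of_index_two h1 _
    refine ⟨hr, ?_⟩
    have h2 := mul_mem (conj_mem_of_index_two h1 hr (sg (flip 0))) (inv_mem hr)
    have h3 : sg (flip 0) * pm rot * (sg (flip 0))⁻¹ * (pm rot)⁻¹ =
        sg (flip 0) * (pm rot * sg (flip 0)⁻¹ * (pm rot)⁻¹) := by
      rw [← sg_inv]
      group
    rw [h3, conj_rot_sg, ← sg_mul] at h2
    have h4 : flip 0 * ((flip 0)⁻¹ ∘ (rot⁻¹ :)) = flip 0 * flip 1 := by decide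
    rwa [h4] at h2

/-- Subgroups of index four containing the rotation. -/
theorem index_four {Q : Subgroup (W 3)} (h : Q.index = 4) (hr : pm rot ∈ Q) :
    sg (flip 0 * flip 1) ∈ Q ∨ pm (Equiv.swap 0 1) ∈ Q ∨
      sg (fun _ => -1) * pm (Equiv.swap 0 1) ∈ Q := by
  obtain ⟨a, b, ha, hb, hab, h1, h2⟩ := split Q
  rw [h] at hab
  have h3 : b ∣ 2 := by
    have h4 : b ∣ Nat.gcd 6 4 := Nat.dvd_gcd hb (hab ▸ dvd_mul_left b a)
    exact h4
  rcases (Nat.dvd_prime Nat.prime_two).mp h3 with h5 | h5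
  · rw [h2, Subgroup.index_eq_one] at h5
    have h6 : Equiv.swap 0 1 ∈ Q.map (SemidirectProduct.rightHom (φ := mulAutArrow)
      (N := Fin 3 → ℤˣ) (G := Equiv.Perm (Fin 3))) := by
      rw [h5]
      exact Subgroup.mem_top _
    obtain ⟨g, hg, hg2⟩ := h6
    obtain ⟨δ, hδ⟩ : ∃ δ : Fin 3 → ℤˣ, g = ⟨δ, Equiv.swap 0 1⟩ :=
      ⟨g.left, by ext1 <;> [rfl; exact hg2]⟩
    have h7 := mul_mem (mul_mem (mul_mem hg hr) (inv_mem hg)) hr
    have h8 : g * pm rot * g⁻¹ * pm rot = sg (δ * (δ ∘ (rot :))) := by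
      have h9 : g = sg δ * pm (Equiv.swap 0 1) := by
        rw [hδ]
        ext1
        · funext i
          show δ i = δ i * (1 : Fin 3 → ℤˣ) i
          rw [Pi.one_apply, mul_one]
        · rfl
      have h10 : pm (Equiv.swap 0 1) * pm rot * (pm (Equiv.swap 0 1))⁻¹ = (pm rot)⁻¹ := by
        rw [pm_inv, pm_inv, ← pm_mul, ← pm_mul]
        congr 1
        decide
      have h11 : (pm rot)⁻¹ * (sg δ)⁻¹ * pm rot = sg (δ ∘ (rot :)) := by
        have h13 := conj_rot_sg (δ ∘ (rot :))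
        have h14 : (δ ∘ (rot :)) ∘ (rot⁻¹ :) = δ := by
          funext i
          show δ (rot (rot⁻¹ i)) = δ i
          exact congrArg δ (Equiv.apply_symm_apply rot i)
        have h15 : (sg δ)⁻¹ = sg δ := by
          rw [sg_inv]
          congr 1
          funext i
          exact Int.units_inv_eq_self _
        rw [h14] at h13
        rw [h15, ← h13]
        group
      have h12 : g * pm rot * g⁻¹ * pm rot = sg δ *
          ((pm (Equiv.swap 0 1) * pm rot * (pm (Equiv.swap 0 1))⁻¹) * (sg δ)⁻¹ * pm rot) := by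
        rw [h9]
        group
      rw [h12, h10, h11, sg_mul]
    rw [h8] at h7
    have key2 : sg (flip 0 * flip 2) ∈ Q → sg (flip 0 * flip 1) ∈ Q := by
      intro h
      have h9 := conj_rot_mem hr h
      have h10 : (flip 0 * flip 2) ∘ (rot⁻¹ :) = flip 0 * flip 1 := by decide
      rwa [h10] at h9
    have key3 : sg (flip 1 * flip 2) ∈ Q → sg (flip 0 * flip 1) ∈ Q := by
      intro h
      apply key2
      have h9 := conj_rot_mem hr h
      have h10 : (flip 1 * flip 2) ∘ (rot⁻¹ :) = flip 0 * flip 2 := by decide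
      rwa [h10] at h9
    have hg3 : sg δ * pm (Equiv.swap 0 1) ∈ Q := by
      have h9 : g = sg δ * pm (Equiv.swap 0 1) := by
        rw [hδ]
        ext1
        · funext i
          show δ i = δ i * (1 : Fin 3 → ℤˣ) i
          rw [Pi.one_apply, mul_one]
        · rfl
      rw [← h9]
      exact hg
    rcases sign3_cases δ with h9 | h9 | h9 | h9 | h9 | h9 | h9 | h9
    · rw [h9, sg_one, one_mul] at hg3
      exact Or.inr (Or.inl hg3)
    · have h10 : δ * (δ ∘ (rot :)) = flip 0 * flip 2 := by rw [h9]; decide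
      rw [h10] at h7
      exact Or.inl (key2 h7)
    · have h10 : δ * (δ ∘ (rot :)) = flip 0 * flip 1 := by rw [h9]; decide
      rw [h10] at h7
      exact Or.inl h7
    · have h10 : δ * (δ ∘ (rot :)) = flip 1 * flip 2 := by rw [h9]; decide
      rw [h10] at h7
      exact Or.inl (key3 h7)
    · have h10 : δ * (δ ∘ (rot :)) = flip 1 * flip 2 := by rw [h9]; decide
      rw [h10] at h7
      exact Or.inl (key3 h7)
    · have h10 : δ * (δ ∘ (rot :)) = flip 0 * flip 1 := by rw [h9]; decide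
      rw [h10] at h7
      exact Or.inl h7
    · have h10 : δ * (δ ∘ (rot :)) = flip 0 * flip 2 := by rw [h9]; decide
      rw [h10] at h7
      exact Or.inl (key2 h7)
    · have h10 : flip 0 * flip 1 * flip 2 = (fun _ => -1) := by decide
      rw [h9, h10] at hg3
      exact Or.inr (Or.inr hg3)
  · left
    have ha2 : a = 2 := by
      rw [h5] at hab
      omega
    rw [ha2] at h1
    rcases signs_of_two h1.symm (flip 0) (flip 1) with h6 | h6 | h6
    · have h7 := conj_rot_mem hr h6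
      have h8 : (flip 0) ∘ (rot⁻¹ :) = flip 1 := by decide
      rw [h8] at h7
      rw [sg_mul]
      exact mul_mem h6 h7
    · have h7 := conj_rot_mem hr (conj_rot_mem hr h6)
      have h8 : ((flip 1) ∘ (rot⁻¹ :)) ∘ (rot⁻¹ :) = flip 0 := by decide
      rw [h8] at h7
      rw [sg_mul]
      exact mul_mem h7 h6
    · exact h6

end Pool.Agent.Tor
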