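import Mathlib
import Pool.Agent.Tor.Sub2

/-!
# Lattices given by congruences and the general bounds
-/

set_option autoImplicit false

namespace Pool.Agent.Tor

/-- A linear form. -/
def form (p q r : ℤ) : Z 3 →+ ℤ where
  toFun x := p * x 0 + q * x 1 + r * x 2
  map_zero' := by simp
  map_add' x y := by
    simp only [Pi.add_apply]
    ring

theorem form_apply (p q r : ℤ) (x : Z 3) : form p q r x = p * x 0 + q * x 1 + r * x 2 := rfl

/-- The lattice given by three congruences. -/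
def lat3 (a b c : ℕ) (f g h : Z 3 →+ ℤ) : AddSubgroup (Z 3) where
  carrier := {x | (a : ℤ) ∣ f x ∧ (b : ℤ) ∣ g x ∧ (c : ℤ) ∣ h x}
  add_mem' {x y} hx hy := by
    refine ⟨?_, ?_, ?_⟩
    · rw [map_add]; exact dvd_add hx.1 hy.1
    · rw [map_add]; exact dvd_add hx.2.1 hy.2.1
    · rw [map_add]; exact dvd_add hx.2.2 hy.2.2
  zero_mem' := by
    refine ⟨?_, ?_, ?_⟩ <;> rw [map_zero] <;> exact dvd_zero _
  neg_mem' {x} hx := by
    refine ⟨?_, ?_, ?_⟩
    · rw [map_neg]; exact (dvd_neg).mpr hx.1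
    · rw [map_neg]; exact (dvd_neg).mpr hx.2.1
    · rw [map_neg]; exact (dvd_neg).mpr hx.2.2

theorem mem_lat3 {a b c : ℕ} {f g h : Z 3 →+ ℤ} {x : Z 3} :
    x ∈ lat3 a b c f g h ↔ (a : ℤ) ∣ f x ∧ (b : ℤ) ∣ g x ∧ (c : ℤ) ∣ h x := Iff.rfl

theorem index_lat3 (a b c : ℕ) (f g h : Z 3 →+ ℤ)
    (hs : ∀ u v w : ℤ, ∃ x, (a : ℤ) ∣ f x - u ∧ (b : ℤ) ∣ g x - v ∧ (c : ℤ) ∣ h x - w) :
    (lat3 a b c f g h).index = a * b * c := by
  obtain ⟨F, hF⟩ : ∃ F : Z 3 →+ Z 3, ∀ x, F x 0 = f x ∧ F x 1 = g x ∧ F x 2 = h x :=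
    ⟨{ toFun := fun x => ![f x, g x, h x]
       map_zero' := by
        funext i
        fin_cases i <;> simp
       map_add' := fun x y => by
        funext i
        fin_cases i <;> simp }, fun x => ⟨rfl, rfl, rfl⟩⟩
  have h1 : lat3 a b c f g h = (diag ![a, b, c]).comap F := by
    ext x
    rw [mem_lat3, AddSubgroup.mem_comap, mem_diag, Fin.forall_fin_succ, Fin.forall_fin_two]
    show _ ↔ (a : ℤ) ∣ F x 0 ∧ (b : ℤ) ∣ F x 1 ∧ (c : ℤ) ∣ F x 2
    rw [(hF x).1, (hF x).2.1, (hF x).2.2]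
  rw [h1, index_comap_diag]
  · rw [Fin.prod_univ_three]
    rfl
  · intro y
    obtain ⟨x, h2, h3, h4⟩ := hs (y 0) (y 1) (y 2)
    refine ⟨x, ?_⟩
    rw [Fin.forall_fin_succ, Fin.forall_fin_two]
    show (a : ℤ) ∣ F x 0 - y 0 ∧ (b : ℤ) ∣ F x 1 - y 1 ∧ (c : ℤ) ∣ F x 2 - y 2
    rw [(hF x).1, (hF x).2.1, (hF x).2.2]
    exact ⟨h2, h3, h4⟩

theorem forall3 {P : Fin 3 → Prop} : (∀ i, P i) ↔ P 0 ∧ P 1 ∧ P 2 := by
  rw [Fin.forall_fin_succ, Fin.forall_fin_two]
  rfl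

/-- The vector with given coordinates. -/
abbrev vec (a b c : ℤ) : Z 3 := ![a, b, c]

theorem vec_zero (a b c : ℤ) : vec a b c 0 = a := rfl
theorem vec_one (a b c : ℤ) : vec a b c 1 = b := rfl
theorem vec_two (a b c : ℤ) : vec a b c 2 = c := rfl

theorem vec_eq (x : Z 3) : x = vec (x 0) (x 1) (x 2) := by
  funext i
  fin_cases i <;> rfl

theorem index_L1 (s : ℕ) : (L1 3 s).index = s ^ 3 := by
  have h : L1 3 s = diag (fun _ : Fin 3 => s) := by
    ext x
    exact Iff.rfl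
  rw [h, index_diag]
  simp

theorem L2_eq_scale (s : ℕ) : L2 3 s = scale s (lat3 1 1 2 (form 1 0 0) (form 0 1 0)
    (form 1 1 1)) := by
  ext x
  rw [mem_L2, mem_scale]
  constructor
  · rintro ⟨h1, h2⟩
    choose y hy using h1
    by_cases hs : s = 0
    · subst hs
      refine ⟨0, zero_mem _, ?_⟩
      funext i
      rw [hy]
      simp
    · refine ⟨y, ⟨⟨_, (one_mul _).symm⟩, ⟨_, (one_mul _).symm⟩, ?_⟩, ?_⟩
      · rw [form_apply]
        rw [Fin.sum_univ_three, hy 0, hy 1, hy 2] at h2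
        obtain ⟨t, ht⟩ := h2
        refine ⟨t, ?_⟩
        have h3 : (s : ℤ) ≠ 0 := by exact_mod_cast hs
        apply mul_left_cancel₀ h3
        push_cast
        linear_combination ht
      · funext i
        rw [Pi.smul_apply, nsmul_eq_mul, hy]
  · rintro ⟨y, ⟨_, _, t, ht⟩, rfl⟩
    refine ⟨fun i => ⟨y i, by rw [Pi.smul_apply, nsmul_eq_mul]⟩, t, ?_⟩
    rw [Fin.sum_univ_three]
    rw [form_apply] at ht
    simp only [Pi.smul_apply, nsmul_eq_mul]
    push_cast at ht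
    linear_combination (s : ℤ) * ht

theorem L3_eq_scale (s : ℕ) : L3 3 s = scale s (lat3 2 2 1 (form 1 (-1) 0) (form 1 0 (-1))
    (form 1 0 0)) := by
  ext x
  rw [mem_L3, mem_scale]
  constructor
  · rintro ⟨h1, h2⟩
    choose y hy using h1
    by_cases hs : s = 0
    · subst hs
      refine ⟨0, zero_mem _, ?_⟩
      funext i
      rw [hy]
      simp
    · have h3 : (s : ℤ) ≠ 0 := by exact_mod_cast hs
      refine ⟨y, ⟨?_, ?_, ⟨_, (one_mul _).symm⟩⟩, ?_⟩
      · rw [form_apply]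
        obtain ⟨t, ht⟩ := h2 0 1
        rw [hy 0, hy 1] at ht
        refine ⟨t, ?_⟩
        apply mul_left_cancel₀ h3
        push_cast
        linear_combination ht
      · rw [form_apply]
        obtain ⟨t, ht⟩ := h2 0 2
        rw [hy 0, hy 2] at ht
        refine ⟨t, ?_⟩
        apply mul_left_cancel₀ h3
        push_cast
        linear_combination ht
      · funext i
        rw [Pi.smul_apply, nsmul_eq_mul, hy]
  · rintro ⟨y, ⟨⟨t, ht⟩, ⟨u, hu⟩, _⟩, rfl⟩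
    rw [form_apply] at ht hu
    push_cast at ht hu
    refine ⟨fun i => ⟨y i, by rw [Pi.smul_apply, nsmul_eq_mul]⟩, ?_⟩
    have h0 : ∀ i, ∃ v, y i = y 0 + 2 * v := by
      rw [forall3]
      exact ⟨⟨0, by ring⟩, ⟨-t, by linear_combination -ht⟩, ⟨-u, by linear_combination -hu⟩⟩
    intro i j
    obtain ⟨v, hv⟩ := h0 i
    obtain ⟨w, hw⟩ := h0 j
    refine ⟨v - w, ?_⟩
    simp only [Pi.smul_apply, nsmul_eq_mul]
    rw [hv, hw]
    ring

theorem index_L2 (s : ℕ) (hs : s ≠ 0) : (L2 3 s).index = 2 * s ^ 3 := by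
  rw [L2_eq_scale, index_scale s hs, index_lat3]
  · intro u v w
    refine ⟨vec u v (w - u - v), ?_, ?_, ?_⟩ <;>
      rw [form_apply, vec_zero, vec_one, vec_two]
    · exact ⟨0, by ring⟩
    · exact ⟨0, by ring⟩
    · exact ⟨0, by ring⟩

theorem index_L3 (s : ℕ) (hs : s ≠ 0) : (L3 3 s).index = 4 * s ^ 3 := by
  rw [L3_eq_scale, index_scale s hs, index_lat3]
  · intro u v w
    refine ⟨vec w (w - u) (w - v), ?_, ?_, ?_⟩ <;>
      rw [form_apply, vec_zero, vec_one, vec_two]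
    · exact ⟨0, by ring⟩
    · exact ⟨0, by ring⟩
    · exact ⟨0, by ring⟩

theorem core_le {M L : AddSubgroup (Z 3)} (h : HasCore (V := W 3) M L) : L ≤ M := by
  intro x hx
  have := (h x).mpr hx 1
  rwa [one_smul] at this

theorem index_smul_mem_core {M L : AddSubgroup (Z 3)} (h : HasCore (V := W 3) M L) (x : Z 3) :
    M.index • x ∈ L := by
  rw [← h]
  intro w
  have : w • M.index • x = M.index • w • x := (smul_comm w M.index x)
  rw [this]
  exact smul_index_mem M _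

theorem gen1 {M : AddSubgroup (Z 3)} {s : ℕ} (h : HasCore (V := W 3) M (L1 3 s)) :
    s ∣ M.index ∧ M.index ∣ s ^ 3 := by
  constructor
  · have h1 := index_smul_mem_core h (vec 1 0 0) 0
    rw [Pi.smul_apply, vec_zero, nsmul_eq_mul, mul_one] at h1
    exact_mod_cast h1
  · rw [← index_L1]
    exact AddSubgroup.index_dvd_of_le (core_le h)

theorem gen2 {M : AddSubgroup (Z 3)} {s : ℕ} (hs : s ≠ 0)
    (h : HasCore (V := W 3) M (L2 3 s)) : 2 * s ∣ M.index ∧ M.index ∣ 2 * s ^ 3 := by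
  constructor
  · have h1 := (index_smul_mem_core h (vec 1 0 0)).2
    rw [Fin.sum_univ_three] at h1
    simp only [Pi.smul_apply, vec_zero, vec_one, vec_two, nsmul_eq_mul, mul_one, mul_zero,
      add_zero] at h1
    exact_mod_cast h1
  · rw [← index_L2 s hs]
    exact AddSubgroup.index_dvd_of_le (core_le h)

theorem gen3 {M : AddSubgroup (Z 3)} {s : ℕ} (hs : s ≠ 0)
    (h : HasCore (V := W 3) M (L3 3 s)) : 2 * s ∣ M.index ∧ M.index ∣ 4 * s ^ 3 := by
  constructor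
  · have h1 := (index_smul_mem_core h (vec 1 0 0)).2 0 1
    simp only [Pi.smul_apply, vec_zero, vec_one, nsmul_eq_mul, mul_one, mul_zero,
      sub_zero] at h1
    exact_mod_cast h1
  · rw [← index_L3 s hs]
    exact AddSubgroup.index_dvd_of_le (core_le h)

/-- The lattice `N(a, b)`. -/
def latN (a b : ℕ) : AddSubgroup (Z 3) :=
  lat3 a a b (form 1 (-1) 0) (form 0 1 (-1)) (form 1 1 1)

theorem mem_latN {a b : ℕ} {x : Z 3} : x ∈ latN a b ↔
    (a : ℤ) ∣ x 0 - x 1 ∧ (a : ℤ) ∣ x 1 - x 2 ∧ (b : ℤ) ∣ x 0 + x 1 + x 2 := by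
  unfold latN
  rw [mem_lat3, form_apply, form_apply, form_apply]
  have h1 : 1 * x 0 + -1 * x 1 + 0 * x 2 = x 0 - x 1 := by ring
  have h2 : 0 * x 0 + 1 * x 1 + -1 * x 2 = x 1 - x 2 := by ring
  have h3 : 1 * x 0 + 1 * x 1 + 1 * x 2 = x 0 + x 1 + x 2 := by ring
  rw [h1, h2, h3]

theorem exists_inv {a b : ℕ} (h : Nat.Coprime a b) : ∃ t u : ℤ, a * t = 1 + b * u := by
  have h1 := Int.gcd_eq_gcd_ab (a : ℤ) (b : ℤ)
  rw [Int.gcd_natCast_natCast, h] at h1
  refine ⟨Int.gcdA a b, -Int.gcdB a b, ?_⟩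
  push_cast at h1
  linear_combination -h1

theorem index_latN (a b : ℕ) (h : Nat.Coprime 3 b) : (latN a b).index = a * a * b := by
  unfold latN
  rw [index_lat3]
  intro u v w
  obtain ⟨t, r, htr⟩ := exists_inv h
  refine ⟨vec (t * (w - u - 2 * v) + u + v) (t * (w - u - 2 * v) + v) (t * (w - u - 2 * v)),
    ?_, ?_, ?_⟩ <;>
      rw [form_apply, vec_zero, vec_one, vec_two]
  · exact ⟨0, by ring⟩
  · exact ⟨0, by ring⟩
  · push_cast at htr
    exact ⟨r * (w - u - 2 * v), by linear_combination (w - u - 2 * v) * htr⟩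

end Pool.Agent.Tor
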