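import Mathlib
import Pool.Agent.Tor.Forms

/-!
# Lattices of prime power index stable under the rotation
-/

set_option autoImplicit false

namespace Pool.Agent.Tor

theorem norm_dvd {p : ℕ} (hp : p.Prime) (h3 : p % 3 = 2) {x y : ℤ}
    (h : (p : ℤ) ∣ x ^ 2 + x * y + y ^ 2) : (p : ℤ) ∣ x ∧ (p : ℤ) ∣ y := by
  have hpf : Fact p.Prime := ⟨hp⟩
  have key : (p : ℤ) ∣ y := by
    by_contra hy
    have hy' : (y : ZMod p) ≠ 0 := by
      rw [Ne, ZMod.intCast_zmod_eq_zero_iff_dvd]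
      exact hy
    have h1 : ((x ^ 2 + x * y + y ^ 2 : ℤ) : ZMod p) = 0 := by
      rw [ZMod.intCast_zmod_eq_zero_iff_dvd]
      exact h
    push_cast at h1
    obtain ⟨t, ht⟩ : ∃ t : ZMod p, t = x * (y : ZMod p)⁻¹ := ⟨_, rfl⟩
    have h2 : (x : ZMod p) = t * y := by
      rw [ht, mul_assoc, inv_mul_cancel₀ hy', mul_one]
    have h4 : t ^ 2 + t + 1 = 0 := by
      have h5 : (y : ZMod p) ^ 2 * (t ^ 2 + t + 1) = 0 := by
        rw [h2] at h1
        linear_combination h1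
      exact (mul_eq_zero.mp h5).resolve_left (pow_ne_zero 2 hy')
    have h6 : t ^ 3 = 1 := by linear_combination (t - 1) * h4
    have h7 : t ≠ 1 := by
      intro h8
      rw [h8] at h4
      have h9 : ((3 : ℕ) : ZMod p) = 0 := by
        push_cast
        linear_combination h4
      rw [ZMod.natCast_eq_zero_iff] at h9
      have := (Nat.prime_dvd_prime_iff_eq hp Nat.prime_three).mp h9
      omega
    have h8 : t ≠ 0 := by
      intro h9
      rw [h9] at h6
      norm_num at h6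
    have h10 : orderOf t = 3 := orderOf_eq_prime h6 h7
    have h11 := ZMod.orderOf_dvd_card_sub_one h8
    rw [h10] at h11
    have := hp.one_lt
    omega
  refine ⟨?_, key⟩
  obtain ⟨z, rfl⟩ := key
  have h1 : (p : ℤ) ∣ x ^ 2 := by
    have h2 : x ^ 2 = (x ^ 2 + x * (p * z) + (p * z) ^ 2) - p * (x * z + p * z ^ 2) := by ring
    rw [h2]
    exact dvd_sub h (dvd_mul_right _ _)
  exact (Nat.prime_iff_prime_int.mp hp).dvd_of_dvd_pow h1

theorem pow_gen {p f : ℕ} (hp : p.Prime) (H : AddSubgroup ℤ) (h : (p : ℤ) ^ f ∈ H) :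
    ∃ a ≤ f, ∀ x, x ∈ H ↔ (p : ℤ) ^ a ∣ x := by
  obtain ⟨d, hd⟩ := exists_gen H
  have h1 : d ∣ (p : ℤ) ^ f := (hd _).mp h
  have h2 : d.natAbs ∣ p ^ f := by
    have := Int.natAbs_dvd_natAbs.mpr h1
    rwa [Int.natAbs_pow, Int.natAbs_natCast] at this
  obtain ⟨a, ha, he⟩ := (Nat.dvd_prime_pow hp).mp h2
  refine ⟨a, ha, fun x => ?_⟩
  rw [hd, ← Int.natAbs_dvd, he]
  push_cast
  exact Iff.rfl

/-- The integers `t` with `t v ∈ M`. -/
def coefs (M : AddSubgroup (Z 3)) (v : Z 3) : AddSubgroup ℤ :=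
  M.comap ((zmultiplesHom (Z 3)) v)

theorem mem_coefs {M : AddSubgroup (Z 3)} {v : Z 3} {t : ℤ} : t ∈ coefs M v ↔ t • v ∈ M := Iff.rfl

theorem smul_vec (t a b c : ℤ) : t • vec a b c = vec (t * a) (t * b) (t * c) := by
  rw [vec_eq (t • vec a b c)]
  rfl

theorem add_vec (a b c a' b' c' : ℤ) : vec a b c + vec a' b' c' = vec (a + a') (b + b') (c + c') := by
  rw [vec_eq (vec a b c + vec a' b' c')]
  rfl

theorem rot_vec (a b c : ℤ) : pm rot • vec a b c = vec c a b := by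
  rw [vec_eq (pm rot • vec a b c), (rot_smul _).1, (rot_smul _).2.1, (rot_smul _).2.2]
  rfl

theorem rot2_smul (x : Z 3) : (pm rot • pm rot • x) 0 = x 1 ∧ (pm rot • pm rot • x) 1 = x 2 ∧
    (pm rot • pm rot • x) 2 = x 0 := by
  refine ⟨?_, ?_, ?_⟩
  · rw [(rot_smul _).1, (rot_smul _).2.2]
  · rw [(rot_smul _).2.1, (rot_smul _).1]
  · rw [(rot_smul _).2.2, (rot_smul _).2.1]

theorem nsmul_vec (t : ℕ) (a b c : ℤ) : t • vec a b c = vec (t * a) (t * b) (t * c) := by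
  rw [← natCast_zsmul, smul_vec]

theorem three_coprime {p : ℕ} (hp : p.Prime) (h3 : p ≠ 3) (f : ℕ) : Nat.Coprime 3 (p ^ f) :=
  Nat.Coprime.pow_right f ((Nat.coprime_primes Nat.prime_three hp).mpr (Ne.symm h3))

theorem dvd_of_dvd_three_mul {p : ℕ} (hp : p.Prime) (h3 : p ≠ 3) {f : ℕ} {x : ℤ}
    (h : (p : ℤ) ^ f ∣ 3 * x) : (p : ℤ) ^ f ∣ x := by
  have h1 : IsCoprime ((p : ℤ) ^ f) 3 := by
    have := Nat.isCoprime_iff_coprime.mpr (three_coprime hp h3 f).symm
    push_cast at this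
    exact this
  exact h1.dvd_of_dvd_mul_left h

/-- The structure theorem, with the divisibility on the sum-zero part as a hypothesis. -/
theorem structN {M : AddSubgroup (Z 3)} {p f : ℕ} (hp : p.Prime) (h3 : p ≠ 3)
    (hi : M.index = p ^ f) (hr : pm rot ∈ Stab M) {a b : ℕ}
    (ha : ∀ t : ℤ, t • vec 1 (-1) 0 ∈ M ↔ (p : ℤ) ^ a ∣ t)
    (hb : ∀ t : ℤ, t • vec 1 1 1 ∈ M ↔ (p : ℤ) ^ b ∣ t)
    (hd : ∀ y ∈ M, y 0 + y 1 + y 2 = 0 → (p : ℤ) ^ a ∣ y 0) : M = latN (p ^ a) (p ^ b) := by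
  have hd1 : ∀ y ∈ M, y 0 + y 1 + y 2 = 0 → (p : ℤ) ^ a ∣ y 1 := by
    intro y hy hs
    have h1 := (hr _).mpr ((hr _).mpr hy)
    have h2 := hd _ h1 (by
      rw [(rot2_smul _).1, (rot2_smul _).2.1, (rot2_smul _).2.2, ← hs]
      ring)
    rwa [(rot2_smul _).1] at h2
  ext x
  rw [mem_latN]
  push_cast
  constructor
  · intro hx
    have hs : (x 0 + x 1 + x 2) • vec 1 1 1 ∈ M := by
      have h1 := add_mem (add_mem hx ((hr _).mpr hx)) ((hr _).mpr ((hr _).mpr hx))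
      have h2 : (x 0 + x 1 + x 2) • vec 1 1 1 = x + pm rot • x + pm rot • pm rot • x := by
        rw [vec_eq x, rot_vec, rot_vec, add_vec, add_vec, smul_vec]
        rw [vec_zero, vec_one, vec_two]
        congr 1
        · ring
        · ring
        · ring
      rw [h2]
      exact h1
    have h0 : 3 • x - (x 0 + x 1 + x 2) • vec 1 1 1 ∈ M := sub_mem (nsmul_mem hx 3) hs
    obtain ⟨y, hy⟩ : ∃ y, y = 3 • x - (x 0 + x 1 + x 2) • vec 1 1 1 := ⟨_, rfl⟩
    rw [← hy] at h0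
    have e : ∀ i, y i = 3 * x i - (x 0 + x 1 + x 2) := by
      intro i
      rw [hy]
      rw [Pi.sub_apply, Pi.smul_apply, Pi.smul_apply]
      fin_cases i <;> simp [vec]
    have hsum : y 0 + y 1 + y 2 = 0 := by
      rw [e, e, e]
      ring
    have d0 := hd y h0 hsum
    have d1 := hd1 y h0 hsum
    have d2 : (p : ℤ) ^ a ∣ y 2 := by
      have : y 2 = - (y 0 + y 1) := by linear_combination hsum
      rw [this]
      exact (dvd_neg).mpr (dvd_add d0 d1)
    refine ⟨?_, ?_, (hb _).mp hs⟩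
    · apply dvd_of_dvd_three_mul hp h3
      have : 3 * (x 0 - x 1) = y 0 - y 1 := by
        rw [e, e]
        ring
      rw [this]
      exact dvd_sub d0 d1
    · apply dvd_of_dvd_three_mul hp h3
      have : 3 * (x 1 - x 2) = y 1 - y 2 := by
        rw [e, e]
        ring
      rw [this]
      exact dvd_sub d1 d2
  · rintro ⟨h1, h2, h4⟩
    have hs := (hb _).mpr h4
    have u1 := (ha _).mpr h1
    have u2 := (hr _).mpr ((ha _).mpr h2)
    have u3 := (hr _).mpr ((hr _).mpr ((ha (x 2 - x 0)).mpr (by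
      have : x 2 - x 0 = - ((x 0 - x 1) + (x 1 - x 2)) := by ring
      rw [this]
      exact (dvd_neg).mpr (dvd_add h1 h2))))
    have h5 : 3 • x ∈ M := by
      have h6 : 3 • x = (x 0 + x 1 + x 2) • vec 1 1 1 + (x 0 - x 1) • vec 1 (-1) 0 +
          pm rot • (x 1 - x 2) • vec 1 (-1) 0 + pm rot • pm rot • (x 2 - x 0) • vec 1 (-1) 0 := by
        rw [smul_vec, smul_vec, smul_vec, smul_vec, rot_vec, rot_vec, rot_vec, add_vec, add_vec,
          add_vec]
        conv_lhs => rw [vec_eq x, nsmul_vec]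
        funext i
        fin_cases i
        · show ((3 : ℕ) : ℤ) * x 0 = (x 0 + x 1 + x 2) * 1 + (x 0 - x 1) * 1 + (x 1 - x 2) * 0 +
            (x 2 - x 0) * (-1)
          push_cast
          ring
        · show ((3 : ℕ) : ℤ) * x 1 = (x 0 + x 1 + x 2) * 1 + (x 0 - x 1) * (-1) +
            (x 1 - x 2) * 1 + (x 2 - x 0) * 0
          push_cast
          ring
        · show ((3 : ℕ) : ℤ) * x 2 = (x 0 + x 1 + x 2) * 1 + (x 0 - x 1) * 0 +
            (x 1 - x 2) * (-1) + (x 2 - x 0) * 1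
          push_cast
          ring
      rw [h6]
      exact add_mem (add_mem (add_mem hs u1) u2) u3
    have h7 : p ^ f • x ∈ M := by
      rw [← hi]
      exact smul_index_mem M x
    exact mem_of_coprime (three_coprime hp h3 f) h5 h7

theorem exists_ab {M : AddSubgroup (Z 3)} {p f : ℕ} (hp : p.Prime) (hi : M.index = p ^ f) :
    ∃ a b : ℕ, (∀ t : ℤ, t • vec 1 (-1) 0 ∈ M ↔ (p : ℤ) ^ a ∣ t) ∧
      (∀ t : ℤ, t • vec 1 1 1 ∈ M ↔ (p : ℤ) ^ b ∣ t) := by
  have h1 : ∀ v : Z 3, (p : ℤ) ^ f ∈ coefs M v := by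
    intro v
    rw [mem_coefs]
    have := smul_index_mem M v
    rw [hi, ← natCast_zsmul] at this
    push_cast at this
    exact this
  obtain ⟨a, _, ha⟩ := pow_gen hp _ (h1 (vec 1 (-1) 0))
  obtain ⟨b, _, hb⟩ := pow_gen hp _ (h1 (vec 1 1 1))
  exact ⟨a, b, ha, hb⟩

/-- The structure theorem for inert primes. -/
theorem structN_inert {M : AddSubgroup (Z 3)} {p f : ℕ} (hp : p.Prime) (h3 : p % 3 = 2)
    (hi : M.index = p ^ f) (hr : pm rot ∈ Stab M) : ∃ a b, M = latN (p ^ a) (p ^ b) := by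
  obtain ⟨a, b, ha, hb⟩ := exists_ab hp hi
  refine ⟨a, b, structN hp (by omega) hi hr ha hb fun y hy hs => ?_⟩
  have key : ∀ j ≤ a, (p : ℤ) ^ j ∣ y 0 ∧ (p : ℤ) ^ j ∣ y 1 := by
    intro j
    induction j with
    | zero => intro _; simp
    | succ j ih =>
      intro hj
      obtain ⟨⟨z0, h0⟩, ⟨z1, h1⟩⟩ := ih (by omega)
      have h2 : y 2 = - (p : ℤ) ^ j * (z0 + z1) := by
        linear_combination hs - h0 - h1
      have h4 : ((p : ℤ) ^ j * (z0 ^ 2 + z0 * z1 + z1 ^ 2)) • vec 1 (-1) 0 ∈ M := by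
        have h5 := sub_mem (zsmul_mem ((hr _).mpr hy) (-(z0 + z1))) (zsmul_mem hy z1)
        have h6 : ((p : ℤ) ^ j * (z0 ^ 2 + z0 * z1 + z1 ^ 2)) • vec 1 (-1) 0 =
            (-(z0 + z1)) • (pm rot • y) - z1 • y := by
          rw [vec_eq y, rot_vec, smul_vec]
          funext i
          fin_cases i
          · show (p : ℤ) ^ j * (z0 ^ 2 + z0 * z1 + z1 ^ 2) * 1 = (-(z0 + z1)) * y 2 - z1 * y 0
            rw [h2, h0]
            ring
          · show (p : ℤ) ^ j * (z0 ^ 2 + z0 * z1 + z1 ^ 2) * (-1) = (-(z0 + z1)) * y 0 - z1 * y 1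
            rw [h1, h0]
            ring
          · show (p : ℤ) ^ j * (z0 ^ 2 + z0 * z1 + z1 ^ 2) * 0 = (-(z0 + z1)) * y 1 - z1 * y 2
            rw [h1, h2]
            ring
        rw [h6]
        exact h5
      rw [ha] at h4
      have h5 : (p : ℤ) ^ (j + 1) ∣ (p : ℤ) ^ j * (z0 ^ 2 + z0 * z1 + z1 ^ 2) :=
        dvd_trans (pow_dvd_pow _ hj) h4
      have hp0 : (p : ℤ) ^ j ≠ 0 := pow_ne_zero _ (by exact_mod_cast hp.ne_zero)
      rw [pow_succ, mul_dvd_mul_iff_left hp0] at h5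
      obtain ⟨⟨u, hu⟩, ⟨v, hv⟩⟩ := norm_dvd hp h3 h5
      refine ⟨⟨u, ?_⟩, ⟨v, ?_⟩⟩
      · rw [h0, hu]
        ring
      · rw [h1, hv]
        ring
  exact (key a le_rfl).1

/-- The structure theorem for lattices stable under all permutations. -/
theorem structN_swap {M : AddSubgroup (Z 3)} {p f : ℕ} (hp : p.Prime) (h3 : p ≠ 3)
    (hi : M.index = p ^ f) (hr : pm rot ∈ Stab M) (hsw : pm (Equiv.swap 0 1) ∈ Stab M) :
    ∃ a b, M = latN (p ^ a) (p ^ b) := by
  obtain ⟨a, b, ha, hb⟩ := exists_ab hp hi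
  refine ⟨a, b, structN hp h3 hi hr ha hb fun y hy hs => ?_⟩
  have key : ∀ x ∈ M, (p : ℤ) ^ a ∣ x 0 - x 1 := by
    intro x hx
    rw [← ha]
    have h1 := sub_mem hx ((hsw _).mpr hx)
    have h2 : (x 0 - x 1) • vec 1 (-1) 0 = x - pm (Equiv.swap 0 1) • x := by
      rw [smul_vec]
      funext i
      rw [Pi.sub_apply]
      fin_cases i
      · show (x 0 - x 1) * 1 = x 0 - (pm (Equiv.swap 0 1) • x) 0
        rw [(swap_smul x).1]
        ring
      · show (x 0 - x 1) * (-1) = x 1 - (pm (Equiv.swap 0 1) • x) 1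
        rw [(swap_smul x).2.1]
        ring
      · show (x 0 - x 1) * 0 = x 2 - (pm (Equiv.swap 0 1) • x) 2
        rw [(swap_smul x).2.2]
        ring
    rw [h2]
    exact h1
  apply dvd_of_dvd_three_mul hp h3
  have h1 := key y hy
  have h2 := key _ ((hr _).mpr hy)
  rw [(rot_smul y).1, (rot_smul y).2.1] at h2
  have h4 : 3 * y 0 = (y 0 - y 1) - (y 2 - y 0) := by linear_combination hs
  rw [h4]
  exact dvd_sub h1 h2

end Pool.Agent.Tor
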