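import Mathlib
import Pool.Agent.Tor.UpN

/-!
# Local conditions on the index
-/

set_option autoImplicit false

namespace Pool.Agent.Tor

theorem pow_dvd_pow_iff' {p a e : ℕ} (hp : p.Prime) : ((p : ℤ) ^ a ∣ (p : ℤ) ^ e) ↔ a ≤ e := by
  have h : ((p : ℤ) ^ a ∣ (p : ℤ) ^ e) ↔ p ^ a ∣ p ^ e := by
    exact_mod_cast Int.natCast_dvd_natCast (m := p ^ a) (n := p ^ e)
  rw [h, Nat.pow_dvd_pow_iff_le_right hp.one_lt]

theorem vec_mem_L1 {a b c s : ℤ} : vec a b c ∈ L1 3 s ↔ s ∣ a ∧ s ∣ b ∧ s ∣ c := by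
  rw [mem_L1, forall3]
  rfl

theorem vec_mem_L2 {a b c s : ℤ} : vec a b c ∈ L2 3 s ↔
    (s ∣ a ∧ s ∣ b ∧ s ∣ c) ∧ 2 * s ∣ a + b + c := by
  rw [mem_L2, forall3, Fin.sum_univ_three]
  rfl

theorem mem_L3' {x : Z 3} {s : ℤ} : x ∈ L3 3 s ↔
    (∀ i, s ∣ x i) ∧ 2 * s ∣ x 0 - x 1 ∧ 2 * s ∣ x 1 - x 2 := by
  rw [mem_L3]
  refine and_congr_right fun _ => ⟨fun h => ⟨h 0 1, h 1 2⟩, fun ⟨h1, h2⟩ => ?_⟩
  have h0 : ∀ i, ∃ v, x i = x 0 + 2 * s * v := by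
    obtain ⟨t, ht⟩ := h1
    obtain ⟨u, hu⟩ := h2
    rw [forall3]
    exact ⟨⟨0, by ring⟩, ⟨-t, by linear_combination -ht⟩, ⟨-t - u, by
      linear_combination -ht - hu⟩⟩
  intro i j
  obtain ⟨v, hv⟩ := h0 i
  obtain ⟨w, hw⟩ := h0 j
  exact ⟨v - w, by rw [hv, hw]; ring⟩

theorem vec_mem_L3 {a b c s : ℤ} : vec a b c ∈ L3 3 s ↔
    (s ∣ a ∧ s ∣ b ∧ s ∣ c) ∧ 2 * s ∣ a - b ∧ 2 * s ∣ b - c := by
  rw [mem_L3', forall3]
  rfl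

theorem vec_mem_latN {a b : ℕ} {x y z : ℤ} : vec x y z ∈ latN a b ↔
    (a : ℤ) ∣ x - y ∧ (a : ℤ) ∣ y - z ∧ (b : ℤ) ∣ x + y + z := mem_latN

/-- If a stable lattice `K` is contained in `M`, then it is contained in the core. -/
theorem le_core {M L K : AddSubgroup (Z 3)} (h : HasCore (V := W 3) M L)
    (hK : ∀ (w : W 3), ∀ x ∈ K, w • x ∈ K) (hKM : K ≤ M) : K ≤ L := fun x hx =>
  (h x).mp fun w => hKM (hK w x hx)

theorem coreN_odd {M : AddSubgroup (Z 3)} {p e a b : ℕ} (hp : p.Prime)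
    (hM : M = latN (p ^ a) (p ^ b)) (hc : HasCore (V := W 3) M (L1 3 ((p ^ e : ℕ) : ℤ))) :
    max a b = e := by
  have h1 : vec ((p : ℤ) ^ e) 0 0 ∈ M := core_le hc (vec_mem_L1.mpr (by push_cast; simp))
  rw [hM, vec_mem_latN] at h1
  push_cast at h1
  rw [sub_zero, add_zero, add_zero] at h1
  have ha : a ≤ e := (pow_dvd_pow_iff' hp).mp h1.1
  have hb : b ≤ e := (pow_dvd_pow_iff' hp).mp h1.2.2
  by_contra hne
  have he : 1 ≤ e := by omega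
  have ha' : a ≤ e - 1 := by omega
  have hb' : b ≤ e - 1 := by omega
  have h2 : L1 3 ((p : ℤ) ^ (e - 1)) ≤ M := by
    intro x hx
    rw [hM, mem_latN]
    push_cast
    have e1 : (p : ℤ) ^ a ∣ (p : ℤ) ^ (e - 1) := pow_dvd_pow _ ha'
    have e2 : (p : ℤ) ^ b ∣ (p : ℤ) ^ (e - 1) := pow_dvd_pow _ hb'
    exact ⟨dvd_sub (e1.trans (hx 0)) (e1.trans (hx 1)), dvd_sub (e1.trans (hx 1)) (e1.trans (hx 2)),
      dvd_add (dvd_add (e2.trans (hx 0)) (e2.trans (hx 1))) (e2.trans (hx 2))⟩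
  have h3 := le_core hc (fun w x hx => smul_mem_L1 w hx) h2
  have h4 : vec ((p : ℤ) ^ (e - 1)) 0 0 ∈ L1 3 ((p ^ e : ℕ) : ℤ) :=
    h3 (vec_mem_L1.mpr (by simp))
  rw [vec_mem_L1] at h4
  push_cast at h4
  have := (pow_dvd_pow_iff' hp).mp h4.1
  omega

theorem coreN_two1 {M : AddSubgroup (Z 3)} {e a b : ℕ}
    (hM : M = latN (2 ^ a) (2 ^ b)) (hc : HasCore (V := W 3) M (L1 3 ((2 ^ e : ℕ) : ℤ))) :
    a = e ∧ b = e := by
  have hmax := coreN_odd Nat.prime_two hM hc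
  have ha : e ≤ a := by
    by_contra hlt
    have h2 : L2 3 ((2 : ℤ) ^ (e - 1)) ≤ M := by
      intro x hx
      rw [hM, mem_latN]
      push_cast
      have e1 : (2 : ℤ) ^ a ∣ (2 : ℤ) ^ (e - 1) := pow_dvd_pow _ (by omega)
      have e2 : (2 : ℤ) ^ b ∣ 2 * (2 : ℤ) ^ (e - 1) := by
        rw [← pow_succ']
        exact pow_dvd_pow _ (by omega)
      have h5 := hx.2
      rw [Fin.sum_univ_three] at h5
      exact ⟨dvd_sub (e1.trans (hx.1 0)) (e1.trans (hx.1 1)),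
        dvd_sub (e1.trans (hx.1 1)) (e1.trans (hx.1 2)), e2.trans h5⟩
    have h3 := le_core hc (fun w x hx => smul_mem_L2 w hx) h2
    have h4 : vec ((2 : ℤ) ^ (e - 1)) ((2 : ℤ) ^ (e - 1)) 0 ∈ L1 3 ((2 ^ e : ℕ) : ℤ) :=
      h3 (vec_mem_L2.mpr ⟨by simp, ⟨1, by ring⟩⟩)
    rw [vec_mem_L1] at h4
    push_cast at h4
    have := (pow_dvd_pow_iff' Nat.prime_two).mp h4.1
    omega
  have hb : e ≤ b := by
    by_contra hlt
    have h2 : L3 3 ((2 : ℤ) ^ (e - 1)) ≤ M := by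
      intro x hx
      rw [hM, mem_latN]
      push_cast
      have e1 : (2 : ℤ) ^ b ∣ (2 : ℤ) ^ (e - 1) := pow_dvd_pow _ (by omega)
      have e2 : (2 : ℤ) ^ a ∣ 2 * (2 : ℤ) ^ (e - 1) := by
        rw [← pow_succ']
        exact pow_dvd_pow _ (by omega)
      exact ⟨e2.trans (hx.2 0 1), e2.trans (hx.2 1 2), dvd_add (dvd_add (e1.trans (hx.1 0))
        (e1.trans (hx.1 1))) (e1.trans (hx.1 2))⟩
    have h3 := le_core hc (fun w x hx => smul_mem_L3 w hx) h2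
    have h4 : vec ((2 : ℤ) ^ (e - 1)) ((2 : ℤ) ^ (e - 1)) ((2 : ℤ) ^ (e - 1)) ∈
        L1 3 ((2 ^ e : ℕ) : ℤ) := h3 (vec_mem_L3.mpr ⟨by simp, by simp⟩)
    rw [vec_mem_L1] at h4
    push_cast at h4
    have := (pow_dvd_pow_iff' Nat.prime_two).mp h4.1
    omega
  omega

theorem L1_le_latN {p a b e : ℕ} (ha : a ≤ e) (hb : b ≤ e) :
    L1 3 ((p : ℤ) ^ e) ≤ latN (p ^ a) (p ^ b) := by
  intro x hx
  rw [mem_latN]
  push_cast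
  have e1 : (p : ℤ) ^ a ∣ (p : ℤ) ^ e := pow_dvd_pow _ ha
  have e2 : (p : ℤ) ^ b ∣ (p : ℤ) ^ e := pow_dvd_pow _ hb
  exact ⟨dvd_sub (e1.trans (hx 0)) (e1.trans (hx 1)), dvd_sub (e1.trans (hx 1)) (e1.trans (hx 2)),
    dvd_add (dvd_add (e2.trans (hx 0)) (e2.trans (hx 1))) (e2.trans (hx 2))⟩

theorem not_core2 {M : AddSubgroup (Z 3)} {e : ℕ}
    (hc : HasCore (V := W 3) M (L2 3 ((2 ^ e : ℕ) : ℤ))) : ¬ L1 3 ((2 : ℤ) ^ e) ≤ M := by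
  intro h2
  have h3 := le_core hc (fun w x hx => smul_mem_L1 w hx) h2
  have h4 : vec ((2 : ℤ) ^ e) 0 0 ∈ L2 3 ((2 ^ e : ℕ) : ℤ) := h3 (vec_mem_L1.mpr (by simp))
  have h5 := (vec_mem_L2.mp h4).2
  push_cast at h5
  rw [add_zero, add_zero, ← pow_succ'] at h5
  have := (pow_dvd_pow_iff' Nat.prime_two).mp h5
  omega

theorem not_core3 {M : AddSubgroup (Z 3)} {e : ℕ}
    (hc : HasCore (V := W 3) M (L3 3 ((2 ^ e : ℕ) : ℤ))) : ¬ L1 3 ((2 : ℤ) ^ e) ≤ M := by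
  intro h2
  have h3 := le_core hc (fun w x hx => smul_mem_L1 w hx) h2
  have h4 : vec ((2 : ℤ) ^ e) 0 0 ∈ L3 3 ((2 ^ e : ℕ) : ℤ) := h3 (vec_mem_L1.mpr (by simp))
  have h5 := (vec_mem_L3.mp h4).2.1
  push_cast at h5
  rw [sub_zero, ← pow_succ'] at h5
  have := (pow_dvd_pow_iff' Nat.prime_two).mp h5
  omega

theorem coreN_two2 {M : AddSubgroup (Z 3)} {e a b : ℕ}
    (hM : M = latN (2 ^ a) (2 ^ b)) (hc : HasCore (V := W 3) M (L2 3 ((2 ^ e : ℕ) : ℤ))) :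
    a ≤ e ∧ b = e + 1 := by
  have h1 : vec ((2 : ℤ) ^ e) ((2 : ℤ) ^ e) 0 ∈ M := core_le hc (vec_mem_L2.mpr (by
    push_cast
    exact ⟨by simp, ⟨1, by ring⟩⟩))
  rw [hM, vec_mem_latN] at h1
  push_cast at h1
  have ha : a ≤ e := (pow_dvd_pow_iff' Nat.prime_two).mp (by simpa using h1.2.1)
  have hb : b ≤ e + 1 := (pow_dvd_pow_iff' Nat.prime_two).mp (by
    have h2 := h1.2.2
    rw [add_zero, ← two_mul, ← pow_succ'] at h2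
    exact h2)
  refine ⟨ha, ?_⟩
  by_contra hne
  apply not_core2 hc
  rw [hM]
  exact L1_le_latN (p := 2) ha (by omega)

theorem coreN_two3 {M : AddSubgroup (Z 3)} {e a b : ℕ}
    (hM : M = latN (2 ^ a) (2 ^ b)) (hc : HasCore (V := W 3) M (L3 3 ((2 ^ e : ℕ) : ℤ))) :
    a = e + 1 ∧ b ≤ e := by
  have h1 : vec ((2 : ℤ) ^ (e + 1)) 0 0 ∈ M := core_le hc (vec_mem_L3.mpr (by
    push_cast
    refine ⟨⟨⟨2, by ring⟩, by simp⟩, ⟨⟨1, by ring⟩, by simp⟩⟩))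
  have h2 : vec ((2 : ℤ) ^ e) ((2 : ℤ) ^ e) ((2 : ℤ) ^ e) ∈ M := core_le hc (vec_mem_L3.mpr (by
    push_cast
    refine ⟨by simp, by simp⟩))
  rw [hM, vec_mem_latN] at h1 h2
  push_cast at h1 h2
  have ha : a ≤ e + 1 := (pow_dvd_pow_iff' Nat.prime_two).mp (by simpa using h1.1)
  have hb : b ≤ e := by
    have h3 : (2 : ℤ) ^ b ∣ 3 * 2 ^ e := by
      have h4 : (3 : ℤ) * 2 ^ e = 2 ^ e + 2 ^ e + 2 ^ e := by ring
      rw [h4]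
      exact h2.2.2
    exact (pow_dvd_pow_iff' Nat.prime_two).mp
      (dvd_of_dvd_three_mul (p := 2) Nat.prime_two (by norm_num) h3)
  refine ⟨?_, hb⟩
  by_contra hne
  apply not_core3 hc
  rw [hM]
  exact L1_le_latN (p := 2) (by omega) hb

theorem dvd_of_coprime_mul' {r u : ℕ} (hu : Nat.Coprime r u) {x : ℤ}
    (h : (r : ℤ) ∣ (u : ℤ) * x) : (r : ℤ) ∣ x :=
  (Nat.isCoprime_iff_coprime.mpr hu).dvd_of_dvd_mul_left h

theorem loc_L1' {r s' u : ℕ} (hu : Nat.Coprime r u) (hs : s' ∣ u) :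
    loc (L1 3 ((r * s' : ℕ) : ℤ)) u = L1 3 (r : ℤ) := by
  ext x
  rw [mem_loc, mem_L1, mem_L1]
  refine forall_congr' fun i => ?_
  rw [Pi.smul_apply, nsmul_eq_mul]
  push_cast
  constructor
  · intro h
    exact dvd_of_coprime_mul' hu ((dvd_mul_right _ _).trans h)
  · rintro ⟨t, ht⟩
    obtain ⟨r, rfl⟩ := hs
    exact ⟨r * t, by rw [ht]; push_cast; ring⟩

theorem loc_L2_odd' {r s' u : ℕ} (hu : Nat.Coprime r u) (hs : 2 * s' ∣ u) :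
    loc (L2 3 ((r * s' : ℕ) : ℤ)) u = L1 3 (r : ℤ) := by
  have h0 := loc_L1' hu ((dvd_mul_left s' 2).trans hs)
  ext x
  rw [← h0, mem_loc, mem_L2, mem_loc, mem_L1]
  refine ⟨fun h => h.1, fun h => ⟨h, ?_⟩⟩
  have h1 : u • x ∈ L1 3 ((r * s' : ℕ) : ℤ) := h
  rw [← mem_loc, h0] at h1
  have h2 : ∑ i, (u • x) i = u * ∑ i, x i := by
    rw [Finset.mul_sum]
    exact Finset.sum_congr rfl fun i _ => by rw [Pi.smul_apply, nsmul_eq_mul]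
  rw [h2]
  obtain ⟨t, ht⟩ : (r : ℤ) ∣ ∑ i, x i := Finset.dvd_sum fun i _ => h1 i
  obtain ⟨r, rfl⟩ := hs
  rw [ht]
  exact ⟨r * t, by push_cast; ring⟩

theorem loc_L3_odd' {r s' u : ℕ} (hu : Nat.Coprime r u) (hs : 2 * s' ∣ u) :
    loc (L3 3 ((r * s' : ℕ) : ℤ)) u = L1 3 (r : ℤ) := by
  have h0 := loc_L1' hu ((dvd_mul_left s' 2).trans hs)
  ext x
  rw [← h0, mem_loc, mem_L3, mem_loc, mem_L1]
  refine ⟨fun h => h.1, fun h => ⟨h, fun i j => ?_⟩⟩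
  have h1 : u • x ∈ L1 3 ((r * s' : ℕ) : ℤ) := h
  rw [← mem_loc, h0] at h1
  have h2 : (u • x) i - (u • x) j = u * (x i - x j) := by
    rw [Pi.smul_apply, nsmul_eq_mul, Pi.smul_apply, nsmul_eq_mul]
    ring
  rw [h2]
  obtain ⟨t, ht⟩ : (r : ℤ) ∣ x i - x j := dvd_sub (h1 i) (h1 j)
  obtain ⟨r, rfl⟩ := hs
  rw [ht]
  exact ⟨r * t, by push_cast; ring⟩

theorem dvd_of_coprime_mul {p e u : ℕ} (hu : Nat.Coprime p u) {x : ℤ}
    (h : (p : ℤ) ^ e ∣ (u : ℤ) * x) : (p : ℤ) ^ e ∣ x := by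
  have h1 : IsCoprime ((p : ℤ) ^ e) (u : ℤ) := by
    have := Nat.isCoprime_iff_coprime.mpr hu
    exact this.pow_left
  exact h1.dvd_of_dvd_mul_left h

theorem loc_L1 {p e s' u : ℕ} (hu : Nat.Coprime p u) (hs : s' ∣ u) :
    loc (L1 3 ((p ^ e * s' : ℕ) : ℤ)) u = L1 3 ((p ^ e : ℕ) : ℤ) := by
  ext x
  rw [mem_loc, mem_L1, mem_L1]
  refine forall_congr' fun i => ?_
  rw [Pi.smul_apply, nsmul_eq_mul]
  push_cast
  constructor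
  · intro h
    exact dvd_of_coprime_mul hu ((dvd_mul_right _ _).trans h)
  · rintro ⟨t, ht⟩
    obtain ⟨r, rfl⟩ := hs
    exact ⟨r * t, by rw [ht]; push_cast; ring⟩

theorem loc_L2_odd {p e s' u : ℕ} (hu : Nat.Coprime p u) (hs : 2 * s' ∣ u) :
    loc (L2 3 ((p ^ e * s' : ℕ) : ℤ)) u = L1 3 ((p ^ e : ℕ) : ℤ) := by
  have h0 := loc_L1 (e := e) hu ((dvd_mul_left s' 2).trans hs)
  ext x
  rw [← h0, mem_loc, mem_L2, mem_loc, mem_L1]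
  refine ⟨fun h => h.1, fun h => ⟨h, ?_⟩⟩
  have h1 : u • x ∈ L1 3 ((p ^ e * s' : ℕ) : ℤ) := h
  rw [← mem_loc, h0] at h1
  have h2 : ∑ i, (u • x) i = u * ∑ i, x i := by
    rw [Finset.mul_sum]
    exact Finset.sum_congr rfl fun i _ => by rw [Pi.smul_apply, nsmul_eq_mul]
  rw [h2]
  obtain ⟨t, ht⟩ : ((p ^ e : ℕ) : ℤ) ∣ ∑ i, x i := Finset.dvd_sum fun i _ => h1 i
  obtain ⟨r, rfl⟩ := hs
  rw [ht]
  exact ⟨r * t, by push_cast; ring⟩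

theorem loc_L2_two {e s' u : ℕ} (hu : Nat.Coprime 2 u) (hs : s' ∣ u) :
    loc (L2 3 ((2 ^ e * s' : ℕ) : ℤ)) u = L2 3 ((2 ^ e : ℕ) : ℤ) := by
  have h0 := loc_L1 (e := e) hu hs
  ext x
  have h1 : (∀ i, ((2 ^ e * s' : ℕ) : ℤ) ∣ (u • x) i) ↔ ∀ i, ((2 ^ e : ℕ) : ℤ) ∣ x i := by
    have : x ∈ loc (L1 3 ((2 ^ e * s' : ℕ) : ℤ)) u ↔ x ∈ L1 3 ((2 ^ e : ℕ) : ℤ) := by rw [h0]
    exact this
  rw [mem_loc, mem_L2, mem_L2, h1]
  refine and_congr_right fun h => ?_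
  have h2 : ∑ i, (u • x) i = u * ∑ i, x i := by
    rw [Finset.mul_sum]
    exact Finset.sum_congr rfl fun i _ => by rw [Pi.smul_apply, nsmul_eq_mul]
  rw [h2]
  push_cast
  constructor
  · intro h3
    rw [← pow_succ']
    refine dvd_of_coprime_mul (p := 2) hu ?_
    refine dvd_trans ?_ h3
    exact ⟨s', by push_cast; ring⟩
  · rintro ⟨t, ht⟩
    obtain ⟨r, rfl⟩ := hs
    rw [ht]
    exact ⟨r * t, by push_cast; ring⟩

theorem loc_L3_odd {p e s' u : ℕ} (hu : Nat.Coprime p u) (hs : 2 * s' ∣ u) :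
    loc (L3 3 ((p ^ e * s' : ℕ) : ℤ)) u = L1 3 ((p ^ e : ℕ) : ℤ) := by
  have h0 := loc_L1 (e := e) hu ((dvd_mul_left s' 2).trans hs)
  ext x
  rw [← h0, mem_loc, mem_L3, mem_loc, mem_L1]
  refine ⟨fun h => h.1, fun h => ⟨h, fun i j => ?_⟩⟩
  have h1 : u • x ∈ L1 3 ((p ^ e * s' : ℕ) : ℤ) := h
  rw [← mem_loc, h0] at h1
  have h2 : (u • x) i - (u • x) j = u * (x i - x j) := by
    rw [Pi.smul_apply, nsmul_eq_mul, Pi.smul_apply, nsmul_eq_mul]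
    ring
  rw [h2]
  obtain ⟨t, ht⟩ : ((p ^ e : ℕ) : ℤ) ∣ x i - x j := dvd_sub (h1 i) (h1 j)
  obtain ⟨r, rfl⟩ := hs
  rw [ht]
  exact ⟨r * t, by push_cast; ring⟩

theorem loc_L3_two {e s' u : ℕ} (hu : Nat.Coprime 2 u) (hs : s' ∣ u) :
    loc (L3 3 ((2 ^ e * s' : ℕ) : ℤ)) u = L3 3 ((2 ^ e : ℕ) : ℤ) := by
  have h0 := loc_L1 (e := e) hu hs
  ext x
  have h1 : (∀ i, ((2 ^ e * s' : ℕ) : ℤ) ∣ (u • x) i) ↔ ∀ i, ((2 ^ e : ℕ) : ℤ) ∣ x i := by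
    have : x ∈ loc (L1 3 ((2 ^ e * s' : ℕ) : ℤ)) u ↔ x ∈ L1 3 ((2 ^ e : ℕ) : ℤ) := by rw [h0]
    exact this
  rw [mem_loc, mem_L3, mem_L3, h1]
  refine and_congr_right fun h => forall_congr' fun i => forall_congr' fun j => ?_
  have h2 : (u • x) i - (u • x) j = u * (x i - x j) := by
    rw [Pi.smul_apply, nsmul_eq_mul, Pi.smul_apply, nsmul_eq_mul]
    ring
  rw [h2]
  push_cast
  constructor
  · intro h3
    rw [← pow_succ']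
    refine dvd_of_coprime_mul (p := 2) hu ?_
    refine dvd_trans ?_ h3
    exact ⟨s', by push_cast; ring⟩
  · rintro ⟨t, ht⟩
    obtain ⟨r, rfl⟩ := hs
    rw [ht]
    exact ⟨r * t, by push_cast; ring⟩

end Pool.Agent.Tor
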