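import Mathlib
import Pool.Agent.Tor.UpC
import Pool.Agent.Tor.Sets

/-!
# Upper bounds: the possible indices
-/

set_option autoImplicit false

namespace Pool.Agent.Tor

theorem stab_le_loc (M : AddSubgroup (Z 3)) (u : ℕ) : Stab (V := W 3) M ≤ Stab (loc M u) := by
  intro w hw x
  have : u • w • x = w • u • x := (smul_comm w u x).symm
  rw [mem_loc, mem_loc, this]
  exact hw (u • x)

theorem factor_pow_mul {m p v u : ℕ} (hp : p.Prime) (hm : m ≠ 0) (h : v = m.factorization p)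
    (hu : u = m / p ^ m.factorization p) : m = p ^ v * u ∧ Nat.Coprime p u := by
  subst h hu
  exact ⟨(Nat.ordProj_mul_ordCompl_eq_self m p).symm, Nat.coprime_ordCompl hp hm⟩

theorem exists_factor {m p : ℕ} (hp : p.Prime) (hm : m ≠ 0) :
    ∃ u, m = p ^ (m.factorization p) * u ∧ Nat.Coprime p u :=
  ⟨_, factor_pow_mul hp hm rfl rfl⟩

theorem coprime_part_dvd {p v u e s' : ℕ} (hs : Nat.Coprime p s')
    (h : p ^ e * s' ∣ p ^ v * u) : s' ∣ u :=
  Nat.Coprime.dvd_of_dvd_mul_left (Nat.Coprime.pow_right v hs.symm)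
    ((dvd_mul_left s' (p ^ e)).trans h)

theorem index_loc_pow {M : AddSubgroup (Z 3)} {p v u : ℕ} (hp : p.Prime) (hM : M.index ≠ 0)
    (hi : M.index = p ^ v * u) (hu : Nat.Coprime p u) : (loc M u).index = p ^ v := by
  refine index_loc M (pow_ne_zero _ hp.ne_zero) ?_ (Nat.Coprime.pow_left v hu) hi
  rintro rfl
  exact hM (by rw [hi, mul_zero])

theorem loc1 {M : AddSubgroup (Z 3)} {s p : ℕ} (hs : s ≠ 0) (hM : M.index ≠ 0)
    (h : HasCore (V := W 3) M (L1 3 s)) (hp : p.Prime) :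
    ∃ P : AddSubgroup (Z 3), P.index = p ^ (M.index.factorization p) ∧
      HasCore (V := W 3) P (L1 3 ((p ^ (s.factorization p) : ℕ) : ℤ)) ∧
      Stab (V := W 3) M ≤ Stab P := by
  obtain ⟨u, hu, hpu⟩ := exists_factor hp hM
  obtain ⟨s', hs', hps⟩ := exists_factor hp hs
  refine ⟨loc M u, index_loc_pow hp hM hu hpu, ?_, stab_le_loc M u⟩
  have hd : s' ∣ u := by
    apply coprime_part_dvd hps (e := s.factorization p) (v := M.index.factorization p)
    rw [← hs', ← hu]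
    exact (gen1 h).1
  rw [← loc_L1' (s' := s') (Nat.Coprime.pow_left _ hpu) hd, ← hs']
  exact core_loc h u

theorem loc2_odd {M : AddSubgroup (Z 3)} {s p : ℕ} (hs : s ≠ 0) (hM : M.index ≠ 0)
    (h : HasCore (V := W 3) M (L2 3 s)) (hp : p.Prime) (h2 : p ≠ 2) :
    ∃ P : AddSubgroup (Z 3), P.index = p ^ (M.index.factorization p) ∧
      HasCore (V := W 3) P (L1 3 ((p ^ (s.factorization p) : ℕ) : ℤ)) ∧
      Stab (V := W 3) M ≤ Stab P := by
  obtain ⟨u, hu, hpu⟩ := exists_factor hp hM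
  obtain ⟨s', hs', hps⟩ := exists_factor hp hs
  refine ⟨loc M u, index_loc_pow hp hM hu hpu, ?_, stab_le_loc M u⟩
  have hd : 2 * s' ∣ u := by
    apply coprime_part_dvd (Nat.Coprime.mul_right ((Nat.coprime_primes hp Nat.prime_two).mpr h2)
      hps) (e := s.factorization p) (v := M.index.factorization p)
    rw [← hu]
    have h3 : p ^ s.factorization p * (2 * s') = 2 * s := by
      conv_rhs => rw [hs']
      ring
    rw [h3]
    exact (gen2 hs h).1
  rw [← loc_L2_odd' (s' := s') (Nat.Coprime.pow_left _ hpu) hd, ← hs']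
  exact core_loc h u

theorem loc2_two {M : AddSubgroup (Z 3)} {s : ℕ} (hs : s ≠ 0) (hM : M.index ≠ 0)
    (h : HasCore (V := W 3) M (L2 3 s)) :
    ∃ P : AddSubgroup (Z 3), P.index = 2 ^ (M.index.factorization 2) ∧
      HasCore (V := W 3) P (L2 3 ((2 ^ (s.factorization 2) : ℕ) : ℤ)) ∧
      Stab (V := W 3) M ≤ Stab P := by
  obtain ⟨u, hu, hpu⟩ := exists_factor Nat.prime_two hM
  obtain ⟨s', hs', hps⟩ := exists_factor Nat.prime_two hs
  refine ⟨loc M u, index_loc_pow Nat.prime_two hM hu hpu, ?_, stab_le_loc M u⟩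
  have hd : s' ∣ u := by
    apply coprime_part_dvd hps (e := s.factorization 2) (v := M.index.factorization 2)
    rw [← hs', ← hu]
    exact (dvd_mul_left s 2).trans (gen2 hs h).1
  rw [← loc_L2_two (s' := s') hpu hd, ← hs']
  exact core_loc h u

theorem loc3_odd {M : AddSubgroup (Z 3)} {s p : ℕ} (hs : s ≠ 0) (hM : M.index ≠ 0)
    (h : HasCore (V := W 3) M (L3 3 s)) (hp : p.Prime) (h2 : p ≠ 2) :
    ∃ P : AddSubgroup (Z 3), P.index = p ^ (M.index.factorization p) ∧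
      HasCore (V := W 3) P (L1 3 ((p ^ (s.factorization p) : ℕ) : ℤ)) ∧
      Stab (V := W 3) M ≤ Stab P := by
  obtain ⟨u, hu, hpu⟩ := exists_factor hp hM
  obtain ⟨s', hs', hps⟩ := exists_factor hp hs
  refine ⟨loc M u, index_loc_pow hp hM hu hpu, ?_, stab_le_loc M u⟩
  have hd : 2 * s' ∣ u := by
    apply coprime_part_dvd (Nat.Coprime.mul_right ((Nat.coprime_primes hp Nat.prime_two).mpr h2)
      hps) (e := s.factorization p) (v := M.index.factorization p)
    rw [← hu]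
    have h3 : p ^ s.factorization p * (2 * s') = 2 * s := by
      conv_rhs => rw [hs']
      ring
    rw [h3]
    exact (gen3 hs h).1
  rw [← loc_L3_odd' (s' := s') (Nat.Coprime.pow_left _ hpu) hd, ← hs']
  exact core_loc h u

theorem loc3_two {M : AddSubgroup (Z 3)} {s : ℕ} (hs : s ≠ 0) (hM : M.index ≠ 0)
    (h : HasCore (V := W 3) M (L3 3 s)) :
    ∃ P : AddSubgroup (Z 3), P.index = 2 ^ (M.index.factorization 2) ∧
      HasCore (V := W 3) P (L3 3 ((2 ^ (s.factorization 2) : ℕ) : ℤ)) ∧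
      Stab (V := W 3) M ≤ Stab P := by
  obtain ⟨u, hu, hpu⟩ := exists_factor Nat.prime_two hM
  obtain ⟨s', hs', hps⟩ := exists_factor Nat.prime_two hs
  refine ⟨loc M u, index_loc_pow Nat.prime_two hM hu hpu, ?_, stab_le_loc M u⟩
  have hd : s' ∣ u := by
    apply coprime_part_dvd hps (e := s.factorization 2) (v := M.index.factorization 2)
    rw [← hs', ← hu]
    exact (dvd_mul_left s 2).trans (gen3 hs h).1
  rw [← loc_L3_two (s' := s') hpu hd, ← hs']
  exact core_loc h u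

theorem index_latN_pow {p a b f : ℕ} (hp : p.Prime) (h3 : p ≠ 3)
    (h : (latN (p ^ a) (p ^ b)).index = p ^ f) : f = 2 * a + b := by
  rw [index_latN _ _ (three_coprime hp h3 b), ← pow_add, ← pow_add] at h
  have := Nat.pow_right_injective hp.two_le h
  omega

theorem rotVal_odd {P : AddSubgroup (Z 3)} {p e f : ℕ} (hp : p.Prime) (h3 : p ≠ 3)
    (hi : P.index = p ^ f) (hc : HasCore (V := W 3) P (L1 3 ((p ^ e : ℕ) : ℤ)))
    (hr : pm rot ∈ Stab P) (h : p % 3 = 2 ∨ pm (Equiv.swap 0 1) ∈ Stab P) : MaxSum e f := by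
  obtain ⟨a, b, hab⟩ : ∃ a b, P = latN (p ^ a) (p ^ b) := by
    rcases h with h | h
    · exact structN_inert hp h hi hr
    · exact structN_swap hp h3 hi hr h
  refine ⟨a, b, coreN_odd hp hab hc, ?_⟩
  rw [hab] at hi
  exact index_latN_pow hp h3 hi

theorem rotVal_two1 {P : AddSubgroup (Z 3)} {e f : ℕ}
    (hi : P.index = 2 ^ f) (hc : HasCore (V := W 3) P (L1 3 ((2 ^ e : ℕ) : ℤ)))
    (hr : pm rot ∈ Stab P) : AtTwo 1 e f := by
  obtain ⟨a, b, hab⟩ : ∃ a b, P = latN (2 ^ a) (2 ^ b) :=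
    structN_inert Nat.prime_two (by norm_num) hi hr
  obtain ⟨h1, h2⟩ := coreN_two1 hab hc
  rw [hab] at hi
  have := index_latN_pow Nat.prime_two (by norm_num) hi
  exact Or.inl ⟨rfl, by omega⟩

theorem rotVal_two2 {P : AddSubgroup (Z 3)} {e f : ℕ}
    (hi : P.index = 2 ^ f) (hc : HasCore (V := W 3) P (L2 3 ((2 ^ e : ℕ) : ℤ)))
    (hr : pm rot ∈ Stab P) : AtTwo 2 e f := by
  obtain ⟨a, b, hab⟩ : ∃ a b, P = latN (2 ^ a) (2 ^ b) :=
    structN_inert Nat.prime_two (by norm_num) hi hr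
  obtain ⟨h1, h2⟩ := coreN_two2 hab hc
  rw [hab] at hi
  have := index_latN_pow Nat.prime_two (by norm_num) hi
  exact Or.inr (Or.inl ⟨rfl, a, h1, by omega⟩)

theorem rotVal_two3 {P : AddSubgroup (Z 3)} {e f : ℕ}
    (hi : P.index = 2 ^ f) (hc : HasCore (V := W 3) P (L3 3 ((2 ^ e : ℕ) : ℤ)))
    (hr : pm rot ∈ Stab P) : AtTwo 3 e f := by
  obtain ⟨a, b, hab⟩ : ∃ a b, P = latN (2 ^ a) (2 ^ b) :=
    structN_inert Nat.prime_two (by norm_num) hi hr
  obtain ⟨h1, h2⟩ := coreN_two3 hab hc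
  rw [hab] at hi
  have := index_latN_pow Nat.prime_two (by norm_num) hi
  exact Or.inr (Or.inr ⟨rfl, b, h2, by omega⟩)

theorem between {s m p j : ℕ} (hs : s ≠ 0) (hm : m ≠ 0) (_ : p.Prime) (h2 : p ≠ 2)
    (h1 : s ∣ m) (h3 : m ∣ 2 ^ j * s ^ 3) :
    s.factorization p ≤ m.factorization p ∧ m.factorization p ≤ 3 * s.factorization p := by
  constructor
  · exact (Nat.factorization_le_iff_dvd hs hm).mpr h1 p
  · have h4 : 2 ^ j * s ^ 3 ≠ 0 := mul_ne_zero (pow_ne_zero _ two_ne_zero) (pow_ne_zero _ hs)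
    have h5 := (Nat.factorization_le_iff_dvd hm h4).mpr h3 p
    rw [Nat.factorization_mul (pow_ne_zero _ two_ne_zero) (pow_ne_zero _ hs),
      Nat.factorization_pow, Nat.factorization_pow, Finsupp.add_apply, Finsupp.smul_apply,
      Finsupp.smul_apply, Nat.Prime.factorization Nat.prime_two,
      Finsupp.single_eq_of_ne (Ne.symm h2 |>.symm), smul_zero, zero_add, smul_eq_mul] at h5
    exact h5

/-- The data shared by the three families. -/
structure Fam (k s : ℕ) (M : AddSubgroup (Z 3)) : Prop where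
  two : ∃ P : AddSubgroup (Z 3), P.index = 2 ^ (M.index.factorization 2) ∧
    (pm rot ∈ Stab P → AtTwo k (s.factorization 2) (M.index.factorization 2)) ∧
    Stab (V := W 3) M ≤ Stab P
  odd : ∀ p, p.Prime → p ≠ 2 → ∃ P : AddSubgroup (Z 3),
    P.index = p ^ (M.index.factorization p) ∧
      HasCore (V := W 3) P (L1 3 ((p ^ (s.factorization p) : ℕ) : ℤ)) ∧
      Stab (V := W 3) M ≤ Stab P
  btw : ∀ p, p.Prime → p ≠ 2 →
    s.factorization p ≤ M.index.factorization p ∧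
      M.index.factorization p ≤ 3 * s.factorization p
  ne : M.index ≠ 0

theorem fam1 {M : AddSubgroup (Z 3)} {s : ℕ} (hs : s ≠ 0) (hM : M.index ≠ 0)
    (h : HasCore (V := W 3) M (L1 3 s)) : Fam 1 s M where
  two := by
    obtain ⟨P, h1, h2, h3⟩ := loc1 hs hM h Nat.prime_two
    exact ⟨P, h1, fun hr => rotVal_two1 h1 h2 hr, h3⟩
  odd p hp _ := loc1 hs hM h hp
  btw p hp h2 := between (j := 0) hs hM hp h2 (gen1 h).1 (by
    rw [pow_zero, one_mul]
    exact (gen1 h).2)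
  ne := hM

theorem fam2 {M : AddSubgroup (Z 3)} {s : ℕ} (hs : s ≠ 0) (hM : M.index ≠ 0)
    (h : HasCore (V := W 3) M (L2 3 s)) : Fam 2 s M where
  two := by
    obtain ⟨P, h1, h2, h3⟩ := loc2_two hs hM h
    exact ⟨P, h1, fun hr => rotVal_two2 h1 h2 hr, h3⟩
  odd p hp h2 := loc2_odd hs hM h hp h2
  btw p hp h2 := between (j := 1) hs hM hp h2 ((dvd_mul_left s 2).trans (gen2 hs h).1) (by
    rw [pow_one]
    exact (gen2 hs h).2)
  ne := hM

theorem fam3 {M : AddSubgroup (Z 3)} {s : ℕ} (hs : s ≠ 0) (hM : M.index ≠ 0)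
    (h : HasCore (V := W 3) M (L3 3 s)) : Fam 3 s M where
  two := by
    obtain ⟨P, h1, h2, h3⟩ := loc3_two hs hM h
    exact ⟨P, h1, fun hr => rotVal_two3 h1 h2 hr, h3⟩
  odd p hp h2 := loc3_odd hs hM h hp h2
  btw p hp h2 := between (j := 2) hs hM hp h2 ((dvd_mul_left s 2).trans (gen3 hs h).1) (by
    exact (gen3 hs h).2)
  ne := hM

theorem Fam.indC {k s : ℕ} {M : AddSubgroup (Z 3)} (h : Fam k s M) (hr : pm rot ∈ Stab M) :
    M.index ∈ IndC k s := by
  refine ⟨Nat.pos_of_ne_zero h.ne, ?_, ?_, fun p hp h2 _ => h.btw p hp h2⟩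
  · obtain ⟨P, h1, h2, h3⟩ := h.two
    exact h2 (h3 hr)
  · intro p hp h2 h3
    obtain ⟨P, h4, h5, h6⟩ := h.odd p hp h2
    exact rotVal_odd hp (by omega) h4 h5 (h6 hr) (Or.inl h3)

theorem Fam.indP {k s : ℕ} {M : AddSubgroup (Z 3)} (h : Fam k s M) (hr : pm rot ∈ Stab M)
    (hsw : pm (Equiv.swap 0 1) ∈ Stab M) : M.index ∈ IndP k s := by
  refine ⟨Nat.pos_of_ne_zero h.ne, ?_, h.btw 3 Nat.prime_three (by norm_num), ?_⟩
  · obtain ⟨P, h1, h2, h3⟩ := h.two
    exact h2 (h3 hr)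
  · intro p hp h2
    obtain ⟨P, h4, h5, h6⟩ := h.odd p hp (by omega)
    exact rotVal_odd hp (by omega) h4 h5 (h6 hr) (Or.inr (h6 hsw))

/-- Conjugating, we may assume that the rotation stabilises the lattice. -/
theorem conj_indC {M : AddSubgroup (Z 3)} {Q : Subgroup (W 3)} (hQ : Q ≤ Stab M)
    (h : Q.index ∣ 16) : ∃ w : W 3, pm rot ∈ Stab (tw w M) := by
  obtain ⟨δ, hδ⟩ := exists_conj_rot h
  exact ⟨sg δ, mem_stab_tw (hQ hδ)⟩

theorem conj_indP {M : AddSubgroup (Z 3)} {Q : Subgroup (W 3)} (hQ : Q ≤ Stab M)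
    (h : Q.index = 4) : ∃ w : W 3, pm rot ∈ Stab (tw w M) ∧
      pm (Equiv.swap 0 1) ∈ Stab (tw w M) := by
  obtain ⟨δ, hδ⟩ := exists_conj_rot (Q := Q) (by rw [h]; norm_num)
  refine ⟨sg δ, mem_stab_tw (hQ hδ), ?_⟩
  obtain ⟨Q', hQ'⟩ : ∃ Q' : Subgroup (W 3), Q' = Q.comap (MulAut.conj (sg δ)⁻¹).toMonoidHom :=
    ⟨_, rfl⟩
  have hmem : ∀ g, g ∈ Q' ↔ (sg δ)⁻¹ * g * sg δ ∈ Q := by
    intro g
    rw [hQ', Subgroup.mem_comap]
    show MulAut.conj (sg δ)⁻¹ g ∈ Q ↔ _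
    rw [MulAut.conj_apply, inv_inv]
  have hidx : Q'.index = 4 := by
    rw [hQ', Subgroup.index_comap_of_surjective _ (MulAut.conj (sg δ)⁻¹).surjective, h]
  have hr : pm rot ∈ Q' := (hmem _).mpr hδ
  have hle : ∀ g ∈ Q', g ∈ Stab (tw (sg δ) M) := fun g hg => mem_stab_tw (hQ ((hmem g).mp hg))
  rcases index_four hidx hr with h1 | h1 | h1
  · exact stab_top (hle _ hr) (hle _ h1) _
  · exact hle _ h1
  · have h2 := mul_mem (neg_mem_Stab (tw (sg δ) M)) (hle _ h1)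
    rw [← mul_assoc, ← sg_mul] at h2
    have h3 : ((fun _ => -1) * (fun _ => -1) : Fin 3 → ℤˣ) = 1 := by decide
    rw [h3, sg_one, one_mul] at h2
    exact h2

/-- For subgroups of index at most two the lattice is its own core. -/
theorem eq_core {M L : AddSubgroup (Z 3)} {Q : Subgroup (W 3)} (hQ : Q ≤ Stab M)
    (h : Q.index ∣ 2) (hc : HasCore (V := W 3) M L) : M = L := by
  obtain ⟨h1, h2⟩ := index_two h
  have h3 := stab_top (hQ h1) (hQ h2)
  ext x
  rw [← hc x]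
  exact ⟨fun hx w => (h3 w x).mpr hx, fun hx => by
    have := hx 1
    rwa [one_smul] at this⟩

end Pool.Agent.Tor
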