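import Mathlib
import Pool.Agent.Tor.Up

/-!
# Upper bounds for the subgroups of index 3 and 6
-/

set_option autoImplicit false

namespace Pool.Agent.Tor

theorem single_smul' (t : ℤ) (i : Fin 3) : t • (Pi.single i 1 : Z 3) = Pi.single i t := by
  rw [← Pi.single_smul, smul_eq_mul, mul_one]

/-- `L1` is generated by the multiples of the unit vectors. -/
theorem L1_le_of {M : AddSubgroup (Z 3)} {s : ℤ} (h : ∀ i, (Pi.single i s : Z 3) ∈ M) :
    L1 3 s ≤ M := by
  intro x hx
  rw [eq_sum3 x]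
  have key : ∀ i : Fin 3, (Pi.single i (x i) : Z 3) ∈ M := by
    intro i
    obtain ⟨t, ht⟩ := hx i
    have : (Pi.single i (x i) : Z 3) = t • (Pi.single i s : Z 3) := by
      rw [← Pi.single_smul, smul_eq_mul, ht, mul_comm]
    rw [this]
    exact zsmul_mem (h i) t
  exact add_mem (add_mem (key 0) (key 1)) (key 2)

theorem coef_pow {P : AddSubgroup (Z 3)} {f : ℕ} (hi : P.index = 2 ^ f) (v : Z 3) :
    ∃ g : ℕ, ∀ t : ℤ, t • v ∈ P ↔ (2 : ℤ) ^ g ∣ t := by
  have h1 : ((2 : ℕ) : ℤ) ^ f ∈ coefs P v := by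
    rw [mem_coefs]
    have := smul_index_mem P v
    rw [hi, ← natCast_zsmul] at this
    push_cast at this ⊢
    exact this
  obtain ⟨a, _, ha⟩ := pow_gen Nat.prime_two _ h1
  exact ⟨a, ha⟩

theorem two_case_single {P : AddSubgroup (Z 3)} {e f : ℕ} (hi : P.index = 2 ^ f)
    (hc : HasCore (V := W 3) P (L2 3 ((2 ^ e : ℕ) : ℤ))) (i : Fin 3) (t : ℤ)
    (ht : (Pi.single i t : Z 3) ∈ P) : (2 : ℤ) ^ (e + 1) ∣ t := by
  obtain ⟨g, hg⟩ := coef_pow hi (Pi.single i 1)
  have hg' : ∀ t : ℤ, (Pi.single i t : Z 3) ∈ P ↔ (2 : ℤ) ^ g ∣ t := fun t => by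
    rw [← hg, single_smul']
  have h1 : e + 1 ≤ g := by
    by_contra hlt
    apply not_core2 hc
    have h2 : (Pi.single i ((2 : ℤ) ^ e) : Z 3) ∈ P := (hg' _).mpr (pow_dvd_pow _ (by omega))
    refine L1_le_of fun k => ?_
    have h3 : (Pi.single k ((2 : ℤ) ^ e) : Z 3) = Pi.single i ((2 : ℤ) ^ e) +
        (Pi.single k ((2 : ℤ) ^ e) - Pi.single i ((2 : ℤ) ^ e)) := by abel
    rw [h3]
    refine add_mem h2 (core_le hc ⟨fun j => ?_, ?_⟩)
    · push_cast
      rw [Pi.sub_apply, Pi.single_apply, Pi.single_apply]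
      exact dvd_sub (by split_ifs <;> simp) (by split_ifs <;> simp)
    · have : ∑ j, (Pi.single k ((2 : ℤ) ^ e) - Pi.single i ((2 : ℤ) ^ e) : Z 3) j = 0 := by
        simp only [Pi.sub_apply, Finset.sum_sub_distrib, Finset.sum_pi_single', Finset.mem_univ,
          if_true, sub_self]
      rw [this]
      exact dvd_zero _
  exact (pow_dvd_pow _ h1).trans ((hg' t).mp ht)

theorem flip_dvd {P : AddSubgroup (Z 3)} {e f : ℕ} (hi : P.index = 2 ^ f)
    (hc : HasCore (V := W 3) P (L2 3 ((2 ^ e : ℕ) : ℤ))) {i : Fin 3}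
    (hf : sg (flip i) ∈ Stab P) {x : Z 3} (hx : x ∈ P) : (2 : ℤ) ^ e ∣ x i := by
  have h1 := two_case_single hi hc i _ (flip_mem hf hx)
  rw [pow_succ'] at h1
  exact (mul_dvd_mul_iff_left two_ne_zero).mp h1

/-- The index is divisible by `2^(2e+1)` when some single sign change stabilises the lattice. -/
theorem flip_bound {P : AddSubgroup (Z 3)} {e f : ℕ} (hi : P.index = 2 ^ f)
    (hc : HasCore (V := W 3) P (L2 3 ((2 ^ e : ℕ) : ℤ))) {i : Fin 3}
    (hf : sg (flip i) ∈ Stab P) : 2 * e + 1 ≤ f := by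
  obtain ⟨K, hK⟩ : ∃ K : AddSubgroup (Z 3), K = (zmultiplesHom (Z 3) (Pi.single i 1)).range :=
    ⟨_, rfl⟩
  have h1 := AddSubgroup.relIndex_mul_index (le_sup_left : P ≤ P ⊔ K)
  have h2 : P.relIndex (P ⊔ K) = P.relIndex K := AddSubgroup.relIndex_sup_left K P
  obtain ⟨g, hg⟩ := coef_pow hi (Pi.single i 1)
  have hg1 : e + 1 ≤ g := by
    have h3 := (hg ((2 : ℤ) ^ g)).mpr dvd_rfl
    rw [single_smul'] at h3
    have h4 := two_case_single hi hc i _ h3
    exact (pow_dvd_pow_iff' Nat.prime_two).mp h4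
  have h3 : P.relIndex K = 2 ^ g := by
    rw [hK, ← AddSubgroup.index_comap]
    have h4 : P.comap (zmultiplesHom (Z 3) (Pi.single i 1)) =
        AddSubgroup.zmultiples ((2 : ℤ) ^ g) := by
      ext t
      rw [Int.mem_zmultiples_iff, ← hg]
      exact Iff.rfl
    rw [h4, Int.index_zmultiples, Int.natAbs_pow]
    rfl
  have h5 : (2 : ℤ) ^ e ∣ ((P ⊔ K).index : ℤ) := by
    obtain ⟨j, hj⟩ : ∃ j : Fin 3, j ≠ i := exists_ne i
    have h6 := smul_index_mem (P ⊔ K) (Pi.single j 1)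
    rw [← natCast_zsmul, single_smul'] at h6
    obtain ⟨h, hh⟩ : ∃ h : ℤ, h = ((P ⊔ K).index : ℤ) := ⟨_, rfl⟩
    rw [← hh] at h6 ⊢
    obtain ⟨y, hy, z, hz, hyz⟩ := AddSubgroup.mem_sup.mp h6
    rw [hK] at hz
    obtain ⟨t, rfl⟩ := hz
    have hz' : (zmultiplesHom (Z 3) (Pi.single i 1)) t = Pi.single i t := single_smul' t i
    rw [hz'] at hyz
    have hyi : y i = -t := by
      have := congrFun hyz i
      rw [Pi.add_apply, Pi.single_eq_same, Pi.single_eq_of_ne hj.symm] at this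
      linear_combination this
    have h7 := flip_mem hf hy
    rw [hyi] at h7
    have h8 : (Pi.single j (2 * h) : Z 3) ∈ P := by
      have h9 := sub_mem (nsmul_mem hy 2) h7
      have h10 : (Pi.single j (2 * h) : Z 3) = 2 • y - Pi.single i (2 * -t) := by
        have h11 : y = Pi.single j h - Pi.single i t := eq_sub_of_add_eq hyz
        rw [h11]
        have e1 : (Pi.single j (2 * h) : Z 3) = Pi.single j h + Pi.single j h := by
          rw [← Pi.single_add, two_mul]
        have e2 : (Pi.single i (2 * -t) : Z 3) = - (Pi.single i t + Pi.single i t) := by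
          rw [← Pi.single_add, ← Pi.single_neg]
          congr 1
          ring
        rw [e1, e2, two_nsmul]
        abel
      rw [h10]
      exact h9
    have h9 := two_case_single hi hc j _ h8
    rw [pow_succ'] at h9
    exact (mul_dvd_mul_iff_left two_ne_zero).mp h9
  rw [h2, h3, hi] at h1
  have h6 : 2 ^ e ∣ (P ⊔ K).index := by exact_mod_cast h5
  have h7 : 2 ^ (2 * e + 1) ∣ 2 ^ f := by
    rw [← h1]
    have h8 : 2 ^ (2 * e + 1) = 2 ^ (e + 1) * 2 ^ e := by
      rw [← pow_add]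
      congr 1
      omega
    rw [h8]
    exact mul_dvd_mul (pow_dvd_pow _ hg1) h6
  exact (Nat.pow_dvd_pow_iff_le_right (by norm_num)).mp h7

theorem lt_of_le_of_not {P R : AddSubgroup (Z 3)} {f g : ℕ} (hP : P.index = 2 ^ f)
    (hR : R.index = 2 ^ g) (h1 : P ≤ R) (h2 : ¬ R ≤ P) : g < f := by
  have h3 := AddSubgroup.relIndex_mul_index h1
  rw [hP, hR] at h3
  have h4 : g ≤ f := by
    have : 2 ^ g ∣ 2 ^ f := by
      rw [← h3]
      exact dvd_mul_left _ _
    exact (Nat.pow_dvd_pow_iff_le_right (by norm_num)).mp this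
  rcases Nat.lt_or_ge g f with h5 | h5
  · exact h5
  · exfalso
    apply h2
    have h6 : g = f := le_antisymm h4 h5
    rw [h6] at h3
    have h7 : P.relIndex R = 1 := by
      have h8 : 0 < 2 ^ f := by positivity
      exact Nat.eq_of_mul_eq_mul_right h8 (by rw [h3, one_mul])
    exact AddSubgroup.relIndex_eq_one.mp h7

theorem signs_bound2 {P : AddSubgroup (Z 3)} {e f : ℕ} (hi : P.index = 2 ^ f)
    (hc : HasCore (V := W 3) P (L2 3 ((2 ^ e : ℕ) : ℤ)))
    (hf : ∀ i, sg (flip i) ∈ Stab P) : 3 * e + 1 ≤ f := by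
  have h1 : P ≤ L1 3 ((2 ^ e : ℕ) : ℤ) := fun x hx i => by
    push_cast
    exact flip_dvd hi hc (hf i) hx
  have h2 : ¬ L1 3 ((2 ^ e : ℕ) : ℤ) ≤ P := by
    have := not_core2 hc
    push_cast
    exact this
  exact lt_of_le_of_not hi (by rw [index_L1, ← pow_mul, mul_comm]) h1 h2

theorem third (i j : Fin 3) (hij : i ≠ j) : ∃ k, k ≠ i ∧ k ≠ j ∧ ∀ l, l = i ∨ l = j ∨ l = k := by
  revert i j
  decide

theorem single_sum_third {i j k : Fin 3} (hij : i ≠ j) (hki : k ≠ i) (hkj : k ≠ j)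
    (h : ∀ l, l = i ∨ l = j ∨ l = k) (x : Z 3) :
    x = Pi.single i (x i) + Pi.single j (x j) + Pi.single k (x k) := by
  funext l
  rw [Pi.add_apply, Pi.add_apply]
  rcases h l with rfl | rfl | rfl
  · rw [Pi.single_eq_same, Pi.single_eq_of_ne hij, Pi.single_eq_of_ne hki.symm]
    ring
  · rw [Pi.single_eq_same, Pi.single_eq_of_ne hij.symm, Pi.single_eq_of_ne hkj.symm]
    ring
  · rw [Pi.single_eq_same, Pi.single_eq_of_ne hki, Pi.single_eq_of_ne hkj]
    ring

theorem swap_single (i j : Fin 3) (t : ℤ) :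
    pm (Equiv.swap i j) • (Pi.single i t : Z 3) = Pi.single j t := by
  rw [smul_single]
  have h1 : (pm (Equiv.swap i j) : W 3).right i = j := Equiv.swap_apply_left i j
  rw [h1]
  have h2 : (((pm (Equiv.swap i j) : W 3).left j : ℤˣ) : ℤ) = 1 := rfl
  rw [h2, one_mul]

theorem signs_bound3 {P : AddSubgroup (Z 3)} {e f : ℕ} (hi : P.index = 2 ^ f)
    (hc : HasCore (V := W 3) P (L3 3 ((2 ^ e : ℕ) : ℤ)))
    (hf : ∀ i, sg (flip i) ∈ Stab P) {i j : Fin 3} (hij : i ≠ j)
    (hs : pm (Equiv.swap i j) ∈ Stab P) : 2 * e + 1 ≤ f := by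
  obtain ⟨k, hki, hkj, hk⟩ := third i j hij
  have hsw : ∀ t : ℤ, (Pi.single i t : Z 3) ∈ P ↔ (Pi.single j t : Z 3) ∈ P := by
    intro t
    rw [← swap_single i j t]
    exact (hs _).symm
  obtain ⟨g, hg⟩ := coef_pow hi (Pi.single i 1)
  have hg' : ∀ t : ℤ, (Pi.single i t : Z 3) ∈ P ↔ (2 : ℤ) ^ g ∣ t := fun t => by
    rw [← hg, single_smul']
  have hni : (Pi.single i ((2 : ℤ) ^ e) : Z 3) ∉ P := by
    intro h1
    apply not_core3 hc
    have h2 := (hsw _).mp h1
    have h3 : vec ((2 : ℤ) ^ e) ((2 : ℤ) ^ e) ((2 : ℤ) ^ e) ∈ P := core_le hc (vec_mem_L3.mpr (by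
      push_cast
      refine ⟨by simp, by simp⟩))
    have h4 : (Pi.single k ((2 : ℤ) ^ e) : Z 3) ∈ P := by
      have h5 := single_sum_third hij hki hkj hk (vec ((2 : ℤ) ^ e) ((2 : ℤ) ^ e) ((2 : ℤ) ^ e))
      have h6 : ∀ l, vec ((2 : ℤ) ^ e) ((2 : ℤ) ^ e) ((2 : ℤ) ^ e) l = (2 : ℤ) ^ e := by
        rw [forall3]
        exact ⟨rfl, rfl, rfl⟩
      rw [h6, h6, h6] at h5
      have h7 : (Pi.single k ((2 : ℤ) ^ e) : Z 3) =
          vec ((2 : ℤ) ^ e) ((2 : ℤ) ^ e) ((2 : ℤ) ^ e) - Pi.single i ((2 : ℤ) ^ e) -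
            Pi.single j ((2 : ℤ) ^ e) := by
        rw [h5]
        abel
      rw [h7]
      exact sub_mem (sub_mem h3 h1) h2
    refine L1_le_of fun l => ?_
    rcases hk l with rfl | rfl | rfl
    · exact h1
    · exact h2
    · exact h4
  have hg1 : e + 1 ≤ g := by
    by_contra hlt
    exact hni ((hg' _).mpr (pow_dvd_pow _ (by omega)))
  have hdi : ∀ x ∈ P, (2 : ℤ) ^ e ∣ x i := by
    intro x hx
    have h1 := (pow_dvd_pow _ hg1).trans ((hg' _).mp (flip_mem (hf i) hx))
    rw [pow_succ'] at h1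
    exact (mul_dvd_mul_iff_left two_ne_zero).mp h1
  have hdj : ∀ x ∈ P, (2 : ℤ) ^ e ∣ x j := by
    intro x hx
    have h1 := (pow_dvd_pow _ hg1).trans ((hg' _).mp ((hsw _).mpr (flip_mem (hf j) hx)))
    rw [pow_succ'] at h1
    exact (mul_dvd_mul_iff_left two_ne_zero).mp h1
  obtain ⟨a, ha⟩ : ∃ a : Fin 3 → ℕ, a = fun l => if l = k then 1 else 2 ^ e := ⟨_, rfl⟩
  have hR : (diag a).index = 2 ^ (2 * e) := by
    rw [index_diag, ha]
    have h1 : (Finset.univ : Finset (Fin 3)) = {i, j, k} := by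
      ext l
      simp [hk l]
    rw [h1, Finset.prod_insert, Finset.prod_insert, Finset.prod_singleton, if_pos rfl,
      if_neg hki.symm, if_neg hkj.symm]
    · rw [mul_one, ← pow_add]
      congr 1
      omega
    · simp [hkj.symm]
    · simp [hij, hki.symm]
  refine lt_of_le_of_not hi hR ?_ ?_
  · intro x hx l
    rw [ha]
    rcases hk l with rfl | rfl | rfl
    · simp only [if_neg hki.symm]
      push_cast
      exact hdi x hx
    · simp only [if_neg hkj.symm]
      push_cast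
      exact hdj x hx
    · simp
  · intro h1
    apply hni
    apply h1
    intro l
    rw [ha]
    rcases hk l with rfl | rfl | rfl
    · simp only [if_neg hki.symm]
      push_cast
      rw [Pi.single_eq_same]
    · rw [Pi.single_eq_of_ne hij.symm]
      exact dvd_zero _
    · rw [Pi.single_eq_of_ne hki]
      exact dvd_zero _

/-- The odd part of the index for the subgroups of index 3. -/
theorem odd_part {P : AddSubgroup (Z 3)} {r : ℕ} (hodd : Nat.Coprime 2 P.index)
    (hc : HasCore (V := W 3) P (L1 3 (r : ℤ))) (hf : ∀ i, sg (flip i) ∈ Stab P) {i j : Fin 3}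
    (hij : i ≠ j) (hs : pm (Equiv.swap i j) ∈ Stab P) :
    ∃ a b : ℕ, a.lcm b = r ∧ P.index = a ^ 2 * b := by
  obtain ⟨k, hki, hkj, hk⟩ := third i j hij
  have hsw : ∀ t : ℤ, (Pi.single i t : Z 3) ∈ P ↔ (Pi.single j t : Z 3) ∈ P := by
    intro t
    rw [← swap_single i j t]
    exact (hs _).symm
  have hcoef : ∀ l : Fin 3, ∃ a : ℕ, ∀ t : ℤ, (Pi.single l t : Z 3) ∈ P ↔ (a : ℤ) ∣ t := by
    intro l
    obtain ⟨d, hd⟩ := exists_gen (coefs P (Pi.single l 1))
    refine ⟨d.natAbs, fun t => ?_⟩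
    rw [Int.natAbs_dvd, ← hd, mem_coefs, single_smul']
  obtain ⟨a, ha⟩ := hcoef i
  obtain ⟨b, hb⟩ := hcoef k
  have ha' : ∀ t : ℤ, (Pi.single j t : Z 3) ∈ P ↔ (a : ℤ) ∣ t := fun t => by rw [← hsw, ha]
  have hmem : ∀ x ∈ P, ∀ l, (Pi.single l (x l) : Z 3) ∈ P := by
    intro x hx l
    have h1 := flip_mem (hf l) hx
    have h2 : 2 • (Pi.single l (x l) : Z 3) ∈ P := by
      have : 2 • (Pi.single l (x l) : Z 3) = Pi.single l (2 * x l) := by
        rw [← natCast_zsmul, ← Pi.single_smul, smul_eq_mul]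
        rfl
      rw [this]
      exact h1
    exact mem_of_coprime hodd h2 (smul_index_mem P _)
  have hP : P = diag (fun l => if l = k then b else a) := by
    ext x
    rw [mem_diag]
    constructor
    · intro hx l
      rcases hk l with rfl | rfl | rfl
      · rw [if_neg hki.symm]
        exact (ha _).mp (hmem x hx _)
      · rw [if_neg hkj.symm]
        exact (ha' _).mp (hmem x hx _)
      · rw [if_pos rfl]
        exact (hb _).mp (hmem x hx _)
    · intro h
      rw [single_sum_third hij hki hkj hk x]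
      have e1 := h i
      have e2 := h j
      have e3 := h k
      rw [if_neg hki.symm] at e1
      rw [if_neg hkj.symm] at e2
      rw [if_pos rfl] at e3
      exact add_mem (add_mem ((ha _).mpr e1) ((ha' _).mpr e2)) ((hb _).mpr e3)
  refine ⟨a, b, ?_, ?_⟩
  · apply Nat.dvd_antisymm
    · have h1 : ∀ l, (Pi.single l (r : ℤ) : Z 3) ∈ P := by
        intro l
        apply core_le hc
        intro m
        rw [Pi.single_apply]
        split_ifs <;> simp
      exact Nat.lcm_dvd (by exact_mod_cast (ha _).mp (h1 i)) (by exact_mod_cast (hb _).mp (h1 k))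
    · have h1 : L1 3 ((a.lcm b : ℕ) : ℤ) ≤ P := by
        apply L1_le_of
        intro l
        rcases hk l with rfl | rfl | rfl
        · rw [ha]
          exact_mod_cast Nat.dvd_lcm_left a b
        · rw [ha']
          exact_mod_cast Nat.dvd_lcm_left a b
        · rw [hb]
          exact_mod_cast Nat.dvd_lcm_right a b
      have h2 := le_core hc (fun w x hx => smul_mem_L1 w hx) h1
      have h3 : vec ((a.lcm b : ℕ) : ℤ) 0 0 ∈ L1 3 (r : ℤ) := h2 (vec_mem_L1.mpr (by simp))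
      exact_mod_cast (vec_mem_L1.mp h3).1
  · rw [hP, index_diag]
    have h1 : (Finset.univ : Finset (Fin 3)) = {i, j, k} := by
      ext l
      simp [hk l]
    rw [h1, Finset.prod_insert, Finset.prod_insert, Finset.prod_singleton, if_pos rfl,
      if_neg hki.symm, if_neg hkj.symm]
    · ring
    · simp [hkj.symm]
    · simp [hij, hki.symm]

end Pool.Agent.Tor
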