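import Mathlib
import Pool.Agent.Tor.Up2

/-!
# Upper bounds: assembly
-/

set_option autoImplicit false

namespace Pool.Agent.Tor

theorem index_dvd_48 (Q : Subgroup (W 3)) : Q.index ∣ 48 := by
  rw [← card_W3]
  exact Subgroup.index_dvd_card Q

theorem index_cases (Q : Subgroup (W 3)) : Q.index ∣ 2 ∨ Q.index = 3 ∨ Q.index = 4 ∨
    Q.index = 6 ∨ Q.index = 8 ∨ Q.index = 12 ∨ Q.index = 16 ∨ Q.index = 24 ∨ Q.index = 48 := by
  have h := index_dvd_48 Q
  have h1 : Q.index ∈ Nat.divisors 48 := Nat.mem_divisors.mpr ⟨h, by norm_num⟩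
  have h2 : Nat.divisors 48 = {1, 2, 3, 4, 6, 8, 12, 16, 24, 48} := by decide +kernel
  rw [h2] at h1
  simp only [Finset.mem_insert, Finset.mem_singleton] at h1
  rcases h1 with h1 | h1 | h1 | h1 | h1 | h1 | h1 | h1 | h1 | h1 <;> rw [h1] <;> simp

/-- The oddness part for subgroups of index three, for the three families. -/
theorem odd_part_of {M L : AddSubgroup (Z 3)} {Q : Subgroup (W 3)} (hQ : Q ≤ Stab M)
    (h3 : Q.index = 3) (hM : M.index ≠ 0) (hc : HasCore (V := W 3) M L) {v u r : ℕ}
    (hi : M.index = 2 ^ v * u) (hu : Nat.Coprime 2 u)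
    (hL : loc L (2 ^ v) = L1 3 (r : ℤ)) : ∃ a b : ℕ, a.lcm b = r ∧ u = a ^ 2 * b := by
  obtain ⟨h1, i, j, hij, h2⟩ := index_three hQ h3
  have hu0 : u ≠ 0 := by
    rintro rfl
    exact hM (by rw [hi, mul_zero])
  have hidx : (loc M (2 ^ v)).index = u :=
    index_loc M hu0 (by positivity) (Nat.Coprime.pow_right v hu.symm) (by rw [hi, mul_comm])
  obtain ⟨a, b, hab, hab'⟩ := odd_part (P := loc M (2 ^ v)) (r := r) (by rw [hidx]; exact hu)
    (by rw [← hL]; exact core_loc hc _) (fun l => stab_le_loc M _ (h1 _)) hij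
    (stab_le_loc M _ h2)
  exact ⟨a, b, hab, by rw [← hidx, hab']⟩

theorem lcm_mul_right_coprime {a b c : ℕ} (h : Nat.Coprime a c) :
    a.lcm (c * b) = c * a.lcm b := by
  rw [Nat.lcm, Nat.lcm, Nat.Coprime.gcd_mul_left_cancel_right b h.symm]
  rw [← Nat.mul_div_assoc _ ((Nat.gcd_dvd_left a b).mul_right b)]
  congr 1
  ring

theorem upper1 {M : AddSubgroup (Z 3)} {Q : Subgroup (W 3)} {s : ℕ} (hs : s ≠ 0)
    (hM : M.index ≠ 0) (hc : HasCore (V := W 3) M (L1 3 s)) (hst : Stable Q M) :
    M.index * Q.index ∈ D1 s := by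
  have hQ : Q ≤ Stab M := stable_iff.mp hst
  have hg := gen1 hc
  have hF : ∀ w : W 3, Fam 1 s (tw w M) := fun w =>
    fam1 hs (by rw [index_tw]; exact hM) (core_tw w hc)
  rcases index_cases Q with h | h | h | h | h | h | h | h | h
  · have h1 := eq_core hQ h hc
    rcases (Nat.dvd_prime Nat.prime_two).mp h with h2 | h2
    · left
      rw [h2, h1, index_L1, mul_one]
    · right; left
      rw [h2, h1, index_L1, mul_comm]
  · -- index three
    obtain ⟨u, hu, hpu⟩ := exists_factor Nat.prime_two hM
    obtain ⟨s', hs', hps⟩ := exists_factor Nat.prime_two hs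
    have hle : s.factorization 2 ≤ M.index.factorization 2 :=
      (Nat.factorization_le_iff_dvd hs hM).mpr hg.1 2
    obtain ⟨a, b, hab, hab'⟩ := odd_part_of hQ h hM hc (r := s') hu hpu (by
      have := loc_L1' (r := s') (s' := 2 ^ s.factorization 2) (u := 2 ^ M.index.factorization 2)
        (Nat.Coprime.pow_right _ hps.symm) (pow_dvd_pow _ hle)
      rw [mul_comm, ← hs'] at this
      exact this)
    rcases Nat.eq_or_lt_of_le hle with h1 | h1
    · right; right; left
      refine ⟨a, 2 ^ s.factorization 2 * b, ?_, ?_⟩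
      · have hco : Nat.Coprime a (2 ^ s.factorization 2) := by
          apply Nat.Coprime.pow_right
          have : a ∣ s' := by rw [← hab]; exact Nat.dvd_lcm_left a b
          exact Nat.Coprime.coprime_dvd_left this hps.symm
        rw [lcm_mul_right_coprime hco, hab, ← hs']
      · rw [h, hu, ← h1, hab']
        ring
    · right; right; right; right; right
      obtain ⟨t, ht⟩ : 2 * s ∣ M.index := by
        conv_lhs => rw [hs']
        conv_rhs => rw [hu]
        have h2 : s' ∣ u := by
          apply coprime_part_dvd hps (e := s.factorization 2) (v := M.index.factorization 2)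
          rw [← hs', ← hu]
          exact hg.1
        rw [← mul_assoc, ← pow_succ']
        exact mul_dvd_mul (pow_dvd_pow _ h1) h2
      refine ⟨s * t, dvd_mul_right _ _, ?_, Or.inl ?_⟩
      · refine dvd_trans ?_ hg.2
        rw [ht]
        exact ⟨2, by ring⟩
      · rw [h, ht]
        ring
  · obtain ⟨w, h1, h2⟩ := conj_indP hQ h
    have h3 := (hF w).indP h1 h2
    rw [index_tw] at h3
    right; right; right; left
    exact ⟨_, h3, by rw [h, mul_comm]⟩
  · right; right; right; right; right
    exact ⟨_, hg.1, hg.2, Or.inl (by rw [h, mul_comm])⟩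
  · obtain ⟨w, h1⟩ := conj_indC hQ (by rw [h]; norm_num)
    have h3 := (hF w).indC h1
    rw [index_tw] at h3
    right; right; right; right; left
    exact ⟨_, h3, Or.inl (by rw [h, mul_comm])⟩
  · right; right; right; right; right
    exact ⟨_, hg.1, hg.2, Or.inr (Or.inl (by rw [h, mul_comm]))⟩
  · obtain ⟨w, h1⟩ := conj_indC hQ (by rw [h])
    have h3 := (hF w).indC h1
    rw [index_tw] at h3
    right; right; right; right; left
    exact ⟨_, h3, Or.inr (by rw [h, mul_comm])⟩
  · right; right; right; right; right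
    exact ⟨_, hg.1, hg.2, Or.inr (Or.inr (Or.inl (by rw [h, mul_comm])))⟩
  · right; right; right; right; right
    exact ⟨_, hg.1, hg.2, Or.inr (Or.inr (Or.inr (by rw [h, mul_comm])))⟩

theorem upper2 {M : AddSubgroup (Z 3)} {Q : Subgroup (W 3)} {s : ℕ} (hs : s ≠ 0)
    (hM : M.index ≠ 0) (hc : HasCore (V := W 3) M (L2 3 s)) (hst : Stable Q M) :
    M.index * Q.index ∈ D2 s := by
  have hQ : Q ≤ Stab M := stable_iff.mp hst
  have hg := gen2 hs hc
  have hF : ∀ w : W 3, Fam 2 s (tw w M) := fun w =>
    fam2 hs (by rw [index_tw]; exact hM) (core_tw w hc)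
  obtain ⟨u, hu, hpu⟩ := exists_factor Nat.prime_two hM
  obtain ⟨s', hs', hps⟩ := exists_factor Nat.prime_two hs
  have hsu : s' ∣ u := by
    apply coprime_part_dvd hps (e := s.factorization 2) (v := M.index.factorization 2)
    rw [← hs', ← hu]
    exact (dvd_mul_left s 2).trans hg.1
  have hle : s.factorization 2 + 1 ≤ M.index.factorization 2 := by
    have h1 := (Nat.factorization_le_iff_dvd (mul_ne_zero two_ne_zero hs) hM).mpr hg.1 2
    rw [Nat.factorization_mul two_ne_zero hs, Finsupp.add_apply,
      Nat.Prime.factorization_self Nat.prime_two] at h1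
    omega
  have hdvd : ∀ j, s.factorization 2 + j ≤ M.index.factorization 2 →
      2 ^ j * s ∣ M.index := by
    intro j hj
    conv_lhs => rw [hs']
    conv_rhs => rw [hu]
    rw [← mul_assoc, ← pow_add]
    exact mul_dvd_mul (pow_dvd_pow _ (by omega)) hsu
  rcases index_cases Q with h | h | h | h | h | h | h | h | h
  · have h1 := eq_core hQ h hc
    rcases (Nat.dvd_prime Nat.prime_two).mp h with h2 | h2
    · left
      rw [h2, h1, index_L2 s hs, mul_one]
    · right; left
      rw [h2, h1, index_L2 s hs]
      ring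
  · -- index three
    obtain ⟨h1, i, j, hij, h2⟩ := index_three hQ h
    by_cases he : s.factorization 2 = 0
    · have hodd : Odd s := by
        rw [← Nat.not_even_iff_odd, even_iff_two_dvd]
        intro h3
        rw [hs', he, pow_zero, one_mul] at h3
        exact Nat.prime_two.one_lt.ne' (Nat.Coprime.eq_one_of_dvd hps h3)
      have hf : M.index.factorization 2 = 1 := by
        have h3 := (Nat.factorization_le_iff_dvd hM (mul_ne_zero two_ne_zero
          (pow_ne_zero 3 hs))).mpr hg.2 2
        rw [Nat.factorization_mul two_ne_zero (pow_ne_zero 3 hs), Finsupp.add_apply,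
          Nat.Prime.factorization_self Nat.prime_two, Nat.factorization_pow, Finsupp.smul_apply,
          he] at h3
        simp at h3
        omega
      obtain ⟨a, b, hab, hab'⟩ := odd_part_of hQ h hM hc (r := s') hu hpu (by
        have := loc_L2_odd' (r := s') (s' := 2 ^ s.factorization 2)
          (u := 2 ^ M.index.factorization 2)
          (Nat.Coprime.pow_right _ hps.symm) (by rw [← pow_succ']; exact pow_dvd_pow _ hle)
        rw [mul_comm, ← hs'] at this
        exact this)
      right; right; left
      refine ⟨hodd, a, b, ?_, ?_⟩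
      · rw [hab]
        rw [he, pow_zero, one_mul] at hs'
        exact hs'.symm
      · rw [h, hu, hf, hab']
        ring
    · obtain ⟨P, h3, h4, h5⟩ := loc2_two hs hM hc
      have h6 := signs_bound2 h3 h4 (fun l => h5 (h1 _))
      obtain ⟨t, ht⟩ := hdvd (s.factorization 2 + 2) (by omega)
      right; right; right; right; right; left
      refine ⟨2 ^ (s.factorization 2) * (2 * s) * t, dvd_mul_right _ _, ?_, ?_⟩
      · refine dvd_trans ?_ hg.2
        rw [ht]
        exact ⟨2, by ring⟩
      · rw [h, ht]
        ring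
  · obtain ⟨w, h1, h2⟩ := conj_indP hQ h
    have h3 := (hF w).indP h1 h2
    rw [index_tw] at h3
    right; right; right; left
    exact ⟨_, h3, by rw [h, mul_comm]⟩
  · right; right; right; right; right; left
    obtain ⟨i, hi⟩ := index_six hQ h
    obtain ⟨P, h3, h4, h5⟩ := loc2_two hs hM hc
    have h6 := flip_bound h3 h4 (h5 hi)
    obtain ⟨t, ht⟩ := hdvd (s.factorization 2 + 1) (by omega)
    refine ⟨_, ⟨t, ?_⟩, hg.2, by rw [h, mul_comm]⟩
    rw [ht]
    ring
  · obtain ⟨w, h1⟩ := conj_indC hQ (by rw [h]; norm_num)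
    have h3 := (hF w).indC h1
    rw [index_tw] at h3
    right; right; right; right; left
    exact ⟨_, h3, Or.inl (by rw [h, mul_comm])⟩
  · right; right; right; right; right; right
    exact ⟨_, hg.1, hg.2, Or.inl (by rw [h, mul_comm])⟩
  · obtain ⟨w, h1⟩ := conj_indC hQ (by rw [h])
    have h3 := (hF w).indC h1
    rw [index_tw] at h3
    right; right; right; right; left
    exact ⟨_, h3, Or.inr (by rw [h, mul_comm])⟩
  · right; right; right; right; right; right
    exact ⟨_, hg.1, hg.2, Or.inr (Or.inl (by rw [h, mul_comm]))⟩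
  · right; right; right; right; right; right
    exact ⟨_, hg.1, hg.2, Or.inr (Or.inr (by rw [h, mul_comm]))⟩

theorem upper3 {M : AddSubgroup (Z 3)} {Q : Subgroup (W 3)} {s : ℕ} (hs : s ≠ 0)
    (hM : M.index ≠ 0) (hc : HasCore (V := W 3) M (L3 3 s)) (hst : Stable Q M) :
    M.index * Q.index ∈ D3 s := by
  have hQ : Q ≤ Stab M := stable_iff.mp hst
  have hg := gen3 hs hc
  have hF : ∀ w : W 3, Fam 3 s (tw w M) := fun w =>
    fam3 hs (by rw [index_tw]; exact hM) (core_tw w hc)
  obtain ⟨u, hu, hpu⟩ := exists_factor Nat.prime_two hM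
  obtain ⟨s', hs', hps⟩ := exists_factor Nat.prime_two hs
  have hsu : s' ∣ u := by
    apply coprime_part_dvd hps (e := s.factorization 2) (v := M.index.factorization 2)
    rw [← hs', ← hu]
    exact (dvd_mul_left s 2).trans hg.1
  have hle : s.factorization 2 + 1 ≤ M.index.factorization 2 := by
    have h1 := (Nat.factorization_le_iff_dvd (mul_ne_zero two_ne_zero hs) hM).mpr hg.1 2
    rw [Nat.factorization_mul two_ne_zero hs, Finsupp.add_apply,
      Nat.Prime.factorization_self Nat.prime_two] at h1
    omega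
  have hdvd : ∀ j, s.factorization 2 + j ≤ M.index.factorization 2 →
      2 ^ j * s ∣ M.index := by
    intro j hj
    conv_lhs => rw [hs']
    conv_rhs => rw [hu]
    rw [← mul_assoc, ← pow_add]
    exact mul_dvd_mul (pow_dvd_pow _ (by omega)) hsu
  rcases index_cases Q with h | h | h | h | h | h | h | h | h
  · have h1 := eq_core hQ h hc
    rcases (Nat.dvd_prime Nat.prime_two).mp h with h2 | h2
    · left
      rw [h2, h1, index_L3 s hs, mul_one]
    · right; left
      rw [h2, h1, index_L3 s hs]
      ring
  · -- index three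
    obtain ⟨h1, i, j, hij, h2⟩ := index_three hQ h
    by_cases h4s : s.factorization 2 + 2 ≤ M.index.factorization 2
    · obtain ⟨t, ht⟩ := hdvd 2 h4s
      right; right; right; right; right
      refine ⟨2 * s * t, dvd_mul_right _ _, ?_, Or.inl ?_⟩
      · refine dvd_trans ?_ hg.2
        rw [ht]
        exact ⟨2, by ring⟩
      · rw [h, ht]
        ring
    · have hf : M.index.factorization 2 = s.factorization 2 + 1 := by omega
      have he : s.factorization 2 = 0 := by
        obtain ⟨P, h3, h4, h5⟩ := loc3_two hs hM hc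
        have h6 := signs_bound3 h3 h4 (fun l => h5 (h1 _)) hij (h5 h2)
        omega
      have hodd : Odd s := by
        rw [← Nat.not_even_iff_odd, even_iff_two_dvd]
        intro h3
        rw [hs', he, pow_zero, one_mul] at h3
        exact Nat.prime_two.one_lt.ne' (Nat.Coprime.eq_one_of_dvd hps h3)
      obtain ⟨a, b, hab, hab'⟩ := odd_part_of hQ h hM hc (r := s') hu hpu (by
        have := loc_L3_odd' (r := s') (s' := 2 ^ s.factorization 2)
          (u := 2 ^ M.index.factorization 2)
          (Nat.Coprime.pow_right _ hps.symm) (by rw [← pow_succ']; exact pow_dvd_pow _ hle)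
        rw [mul_comm, ← hs'] at this
        exact this)
      right; right; left
      refine ⟨hodd, a, b, ?_, ?_⟩
      · rw [hab]
        rw [he, pow_zero, one_mul] at hs'
        exact hs'.symm
      · rw [h, hu, hf, hab', he]
        ring
  · obtain ⟨w, h1, h2⟩ := conj_indP hQ h
    have h3 := (hF w).indP h1 h2
    rw [index_tw] at h3
    right; right; right; left
    exact ⟨_, h3, by rw [h, mul_comm]⟩
  · right; right; right; right; right
    exact ⟨_, hg.1, hg.2, Or.inl (by rw [h, mul_comm])⟩
  · obtain ⟨w, h1⟩ := conj_indC hQ (by rw [h]; norm_num)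
    have h3 := (hF w).indC h1
    rw [index_tw] at h3
    right; right; right; right; left
    exact ⟨_, h3, Or.inl (by rw [h, mul_comm])⟩
  · right; right; right; right; right
    exact ⟨_, hg.1, hg.2, Or.inr (Or.inl (by rw [h, mul_comm]))⟩
  · obtain ⟨w, h1⟩ := conj_indC hQ (by rw [h])
    have h3 := (hF w).indC h1
    rw [index_tw] at h3
    right; right; right; right; left
    exact ⟨_, h3, Or.inr (by rw [h, mul_comm])⟩
  · right; right; right; right; right
    exact ⟨_, hg.1, hg.2, Or.inr (Or.inr (Or.inl (by rw [h, mul_comm])))⟩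
  · right; right; right; right; right
    exact ⟨_, hg.1, hg.2, Or.inr (Or.inr (Or.inr (by rw [h, mul_comm])))⟩

end Pool.Agent.Tor
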