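import Mathlib
import Pool.Agent.Tor.Up3

/-!
# Lower bounds: realising indices
-/

set_option autoImplicit false

namespace Pool.Agent.Tor

/-- There is a lattice of index `m` with core `L` whose stabiliser contains `G`. -/
def RL (G : Set (W 3)) (L : AddSubgroup (Z 3)) (m : ℕ) : Prop :=
  ∃ M : AddSubgroup (Z 3), HasCore (V := W 3) M L ∧ (∀ g ∈ G, g ∈ Stab M) ∧ M.index = m

theorem hasCore_of {M L : AddSubgroup (Z 3)} (hL : ∀ (w : W 3), ∀ x ∈ L, w • x ∈ L) (h1 : L ≤ M)
    (h2 : ∀ x, (∀ w : W 3, w • x ∈ M) → x ∈ L) : HasCore (V := W 3) M L :=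
  fun x => ⟨h2 x, fun hx w => h1 (hL w x hx)⟩

theorem hasCore_self {L : AddSubgroup (Z 3)} (hL : ∀ (w : W 3), ∀ x ∈ L, w • x ∈ L) :
    HasCore (V := W 3) L L :=
  hasCore_of hL le_rfl fun x h => by
    have := h 1
    rwa [one_smul] at this

theorem stab_of_invariant {L : AddSubgroup (Z 3)} (hL : ∀ (w : W 3), ∀ x ∈ L, w • x ∈ L)
    (w : W 3) : w ∈ Stab L := fun x => ⟨fun h => by
    have := hL w⁻¹ _ h
    rwa [inv_smul_smul] at this, hL w x⟩

theorem RL.glue {G : Set (W 3)} {A B : AddSubgroup (Z 3)} {m n : ℕ} (h1 : RL G A m)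
    (h2 : RL G B n) (hc : Nat.Coprime m n) (hm : m ≠ 0) (hn : n ≠ 0) :
    RL G (A ⊓ B) (m * n) := by
  obtain ⟨M, c1, g1, rfl⟩ := h1
  obtain ⟨N, c2, g2, rfl⟩ := h2
  refine ⟨M ⊓ N, fun x => ?_, fun g hg x => ?_, index_inf_coprime M N hc hm hn⟩
  · rw [AddSubgroup.mem_inf, ← c1, ← c2]
    simp only [AddSubgroup.mem_inf]
    exact forall_and
  · rw [AddSubgroup.mem_inf, AddSubgroup.mem_inf, g1 g hg x, g2 g hg x]

theorem L1_inf {a b : ℕ} (h : Nat.Coprime a b) : L1 3 (a : ℤ) ⊓ L1 3 (b : ℤ) =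
    L1 3 ((a * b : ℕ) : ℤ) := by
  have hc : IsCoprime (a : ℤ) (b : ℤ) := Nat.isCoprime_iff_coprime.mpr h
  ext x
  rw [AddSubgroup.mem_inf]
  constructor
  · rintro ⟨h1, h2⟩ i
    push_cast
    exact hc.mul_dvd (h1 i) (h2 i)
  · intro h1
    refine ⟨fun i => ?_, fun i => ?_⟩
    · have := h1 i
      push_cast at this
      exact (dvd_mul_right _ _).trans this
    · have := h1 i
      push_cast at this
      exact (dvd_mul_left _ _).trans this

theorem L2_inf {a b : ℕ} (h : Nat.Coprime (2 * a) b) : L2 3 (a : ℤ) ⊓ L1 3 (b : ℤ) =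
    L2 3 ((a * b : ℕ) : ℤ) := by
  have hc' : IsCoprime ((2 * a : ℕ) : ℤ) (b : ℤ) := Nat.isCoprime_iff_coprime.mpr h
  have hc : IsCoprime (a : ℤ) (b : ℤ) := Nat.isCoprime_iff_coprime.mpr
    (Nat.Coprime.coprime_mul_left h)
  ext x
  rw [AddSubgroup.mem_inf]
  constructor
  · rintro ⟨h1, h2⟩
    refine ⟨fun i => ?_, ?_⟩
    · push_cast
      exact hc.mul_dvd (h1.1 i) (h2 i)
    · push_cast at hc' ⊢
      rw [← mul_assoc]
      exact hc'.mul_dvd h1.2 (Finset.dvd_sum fun i _ => h2 i)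
  · rintro ⟨h1, h2⟩
    refine ⟨⟨fun i => ?_, ?_⟩, fun i => ?_⟩
    · have := h1 i
      push_cast at this
      exact (dvd_mul_right _ _).trans this
    · push_cast at h2
      rw [← mul_assoc] at h2
      exact (dvd_mul_right _ _).trans h2
    · have := h1 i
      push_cast at this
      exact (dvd_mul_left _ _).trans this

theorem L3_inf {a b : ℕ} (h : Nat.Coprime (2 * a) b) : L3 3 (a : ℤ) ⊓ L1 3 (b : ℤ) =
    L3 3 ((a * b : ℕ) : ℤ) := by
  have hc' : IsCoprime ((2 * a : ℕ) : ℤ) (b : ℤ) := Nat.isCoprime_iff_coprime.mpr h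
  have hc : IsCoprime (a : ℤ) (b : ℤ) := Nat.isCoprime_iff_coprime.mpr
    (Nat.Coprime.coprime_mul_left h)
  ext x
  rw [AddSubgroup.mem_inf]
  constructor
  · rintro ⟨h1, h2⟩
    refine ⟨fun i => ?_, fun i j => ?_⟩
    · push_cast
      exact hc.mul_dvd (h1.1 i) (h2 i)
    · push_cast at hc' ⊢
      rw [← mul_assoc]
      exact hc'.mul_dvd (h1.2 i j) (dvd_sub (h2 i) (h2 j))
  · rintro ⟨h1, h2⟩
    refine ⟨⟨fun i => ?_, fun i j => ?_⟩, fun i => ?_⟩
    · have := h1 i
      push_cast at this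
      exact (dvd_mul_right _ _).trans this
    · have h3 := h2 i j
      push_cast at h3
      rw [← mul_assoc] at h3
      exact (dvd_mul_right _ _).trans h3
    · have := h1 i
      push_cast at this
      exact (dvd_mul_left _ _).trans this

/-- Gluing over all primes. -/
theorem glue_all (G : Set (W 3)) (cond : ℕ → ℕ → ℕ → Prop)
    (h0 : ∀ p f, p.Prime → cond p 0 f → f = 0) (h00 : ∀ p, cond p 0 0)
    (hl : ∀ p e f, p.Prime → 1 ≤ e → cond p e f → RL G (L1 3 ((p ^ e : ℕ) : ℤ)) (p ^ f)) :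
    ∀ s m : ℕ, s ≠ 0 → m ≠ 0 →
      (∀ p, p.Prime → cond p (s.factorization p) (m.factorization p)) → RL G (L1 3 (s : ℤ)) m := by
  intro s
  induction s using Nat.strong_induction_on with
  | _ s ih =>
    intro m hs hm hcond
    by_cases hs1 : s = 1
    · have hm1 : m = 1 := by
        by_contra hne
        obtain ⟨p, hp, hpm⟩ := Nat.exists_prime_and_dvd hne
        have h1 := hcond p hp
        rw [hs1, Nat.factorization_one, Finsupp.zero_apply] at h1
        have h2 := h0 p _ hp h1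
        exact absurd h2 (hp.factorization_pos_of_dvd hm hpm).ne'
      rw [hs1, hm1]
      refine ⟨⊤, fun x => ?_, fun g _ x => ?_, AddSubgroup.index_top⟩
      · rw [mem_L1]
        simp
      · simp
    · obtain ⟨p, hp, hps⟩ := Nat.exists_prime_and_dvd hs1
      obtain ⟨s', hs', hps'⟩ := exists_factor hp hs
      obtain ⟨m', hm', hpm'⟩ := exists_factor hp hm
      have hs'0 : s' ≠ 0 := by
        rintro rfl
        exact hs (by rw [hs', mul_zero])
      have hm'0 : m' ≠ 0 := by
        rintro rfl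
        exact hm (by rw [hm', mul_zero])
      have he : 1 ≤ s.factorization p := hp.factorization_pos_of_dvd hs hps
      have hlt : s' < s := by
        conv_rhs => rw [hs']
        have : 1 < p ^ s.factorization p := Nat.one_lt_pow (by omega) hp.one_lt
        exact (Nat.lt_mul_iff_one_lt_left (Nat.pos_of_ne_zero hs'0)).mpr this
      have hfac : ∀ (n n' : ℕ), n' ≠ 0 → n = p ^ n.factorization p * n' → ∀ q, q ≠ p →
          n'.factorization q = n.factorization q := by
        intro n n' hn' hn q hq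
        conv_rhs => rw [hn]
        rw [Nat.factorization_mul (pow_ne_zero _ hp.ne_zero) hn', Finsupp.add_apply,
          Nat.factorization_pow, Finsupp.smul_apply, Nat.Prime.factorization hp,
          Finsupp.single_eq_of_ne hq, smul_zero, zero_add]
      have h1 := hl p _ _ hp he (hcond p hp)
      have h2 := ih s' hlt m' hs'0 hm'0 (by
        intro q hq
        by_cases hqp : q = p
        · subst hqp
          rw [Nat.factorization_eq_zero_of_not_dvd (fun h => hq.one_lt.ne'
            (Nat.Coprime.eq_one_of_dvd hps' h)), Nat.factorization_eq_zero_of_not_dvd (fun h =>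
            hq.one_lt.ne' (Nat.Coprime.eq_one_of_dvd hpm' h))]
          exact h00 q
        · rw [hfac s s' hs'0 hs' q hqp, hfac m m' hm'0 hm' q hqp]
          exact hcond q hq)
      have h3 := h1.glue h2 (Nat.Coprime.pow_left _ hpm') (pow_ne_zero _ hp.ne_zero) hm'0
      rw [L1_inf (Nat.Coprime.pow_left _ hps'), ← hs', ← hm'] at h3
      exact h3

end Pool.Agent.Tor
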