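import Mathlib
import Pool.Agent.Tor.Low

/-!
# Lower bounds: the local lattices
-/

set_option autoImplicit false

namespace Pool.Agent.Tor

/-- The required stabiliser elements for the lattices stable under all permutations. -/
def GP : Set (W 3) := {pm rot, pm (Equiv.swap 0 1)}

/-- The required stabiliser elements for the lattices stable under the rotation. -/
def GR : Set (W 3) := {pm rot}

/-- The required stabiliser elements for the order 8 subgroup. -/
def G8 : Set (W 3) := {sg (flip 1), pm (Equiv.swap 0 2)}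

/-- The required stabiliser elements for the order 4 subgroup. -/
def G4 : Set (W 3) := {pm (Equiv.swap 0 2)}

theorem RL.mono {G G' : Set (W 3)} (h : G' ⊆ G) {L : AddSubgroup (Z 3)} {m : ℕ}
    (hR : RL G L m) : RL G' L m := by
  obtain ⟨M, h1, h2, h3⟩ := hR
  exact ⟨M, h1, fun g hg => h2 g (h hg), h3⟩

theorem L1_smul (s : ℤ) : ∀ (w : W 3), ∀ x ∈ L1 3 s, w • x ∈ L1 3 s :=
  fun w _ hx => smul_mem_L1 w hx
theorem L2_smul (s : ℤ) : ∀ (w : W 3), ∀ x ∈ L2 3 s, w • x ∈ L2 3 s :=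
  fun w _ hx => smul_mem_L2 w hx
theorem L3_smul (s : ℤ) : ∀ (w : W 3), ∀ x ∈ L3 3 s, w • x ∈ L3 3 s :=
  fun w _ hx => smul_mem_L3 w hx

theorem stab_of {M : AddSubgroup (Z 3)} {w : W 3} (h : ∀ x ∈ M, w • x ∈ M) : w ∈ Stab M := by
  have hpow : ∀ n : ℕ, ∀ x ∈ M, w ^ n • x ∈ M := by
    intro n
    induction n with
    | zero =>
      intro x hx
      rw [pow_zero, one_smul]
      exact hx
    | succ n ih =>
      intro x hx
      rw [pow_succ, mul_smul]
      exact ih _ (h x hx)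
  intro x
  refine ⟨fun hx => ?_, h x⟩
  obtain ⟨n, hn⟩ : ∃ n : ℕ, w⁻¹ = w ^ n := by
    have h1 : w⁻¹ ∈ Submonoid.powers w := by
      have h2 : w ^ (orderOf w - 1) = w⁻¹ := by
        rw [← mul_eq_one_iff_eq_inv, ← pow_succ, Nat.sub_add_cancel (orderOf_pos w)]
        exact pow_orderOf_eq_one w
      exact ⟨_, h2⟩
    obtain ⟨n, hn⟩ := h1
    exact ⟨n, hn.symm⟩
  have h1 := hpow n _ hx
  rw [← hn, inv_smul_smul] at h1
  exact h1

theorem flip_smul (i : Fin 3) (x : Z 3) : (sg (flip i) • x) i = - x i := by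
  rw [sg_smul, show flip i i = (if i = i then -1 else 1) from rfl, if_pos rfl]
  simp

theorem flip_smul_ne {i j : Fin 3} (h : j ≠ i) (x : Z 3) : (sg (flip i) • x) j = x j := by
  rw [sg_smul, show flip i j = (if j = i then -1 else 1) from rfl, if_neg h]
  simp

theorem swap02_smul (x : Z 3) : (pm (Equiv.swap 0 2) • x) 0 = x 2 ∧
    (pm (Equiv.swap 0 2) • x) 1 = x 1 ∧ (pm (Equiv.swap 0 2) • x) 2 = x 0 := by
  have e0 : ((Equiv.swap 0 2)⁻¹ : Equiv.Perm (Fin 3)) 0 = 2 := by decide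
  have e1 : ((Equiv.swap 0 2)⁻¹ : Equiv.Perm (Fin 3)) 1 = 1 := by decide
  have e2 : ((Equiv.swap 0 2)⁻¹ : Equiv.Perm (Fin 3)) 2 = 0 := by decide
  rw [pm_smul, pm_smul, pm_smul, e0, e1, e2]
  exact ⟨rfl, rfl, rfl⟩

theorem rot_stab_latN (a b : ℕ) : pm rot ∈ Stab (latN a b) := by
  apply stab_of
  intro x hx
  rw [mem_latN] at hx ⊢
  obtain ⟨h1, h2, h3⟩ := hx
  rw [(rot_smul x).1, (rot_smul x).2.1, (rot_smul x).2.2]
  refine ⟨?_, h1, ?_⟩
  · have : x 2 - x 0 = - ((x 0 - x 1) + (x 1 - x 2)) := by ring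
    rw [this]
    exact (dvd_neg).mpr (dvd_add h1 h2)
  · have : x 2 + x 0 + x 1 = x 0 + x 1 + x 2 := by ring
    rw [this]
    exact h3

theorem swap_stab_latN (a b : ℕ) : pm (Equiv.swap 0 1) ∈ Stab (latN a b) := by
  apply stab_of
  intro x hx
  rw [mem_latN] at hx ⊢
  obtain ⟨h1, h2, h3⟩ := hx
  rw [(swap_smul x).1, (swap_smul x).2.1, (swap_smul x).2.2]
  refine ⟨?_, ?_, ?_⟩
  · have : x 1 - x 0 = - (x 0 - x 1) := by ring
    rw [this]
    exact (dvd_neg).mpr h1
  · have : x 0 - x 2 = (x 0 - x 1) + (x 1 - x 2) := by ring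
    rw [this]
    exact dvd_add h1 h2
  · have : x 1 + x 0 + x 2 = x 0 + x 1 + x 2 := by ring
    rw [this]
    exact h3

theorem GP_stab_latN (a b : ℕ) : ∀ g ∈ GP, g ∈ Stab (latN a b) := by
  rintro g (rfl | rfl)
  · exact rot_stab_latN a b
  · exact swap_stab_latN a b

/-- Elements of the core of `latN a b`. -/
theorem core_latN {a b : ℕ} {x : Z 3} (h : ∀ w : W 3, w • x ∈ latN a b) :
    (∀ i, (a : ℤ) ∣ 2 * x i) ∧ (∀ i, (b : ℤ) ∣ 2 * x i) ∧ (∀ i j, (a : ℤ) ∣ x i - x j) ∧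
      (b : ℤ) ∣ x 0 + x 1 + x 2 := by
  have h1 := mem_latN.mp (h 1)
  rw [one_smul] at h1
  have f0 := mem_latN.mp (h (sg (flip 0)))
  have f1 := mem_latN.mp (h (sg (flip 1)))
  have f2 := mem_latN.mp (h (sg (flip 2)))
  rw [flip_smul, flip_smul_ne (by decide), flip_smul_ne (by decide)] at f0 f1 f2
  obtain ⟨a1, a2, a3⟩ := h1
  obtain ⟨b1, b2, b3⟩ := f0
  obtain ⟨c1, c2, c3⟩ := f1
  obtain ⟨d1, d2, d3⟩ := f2
  refine ⟨?_, ?_, ?_, a3⟩
  · rw [forall3]
    refine ⟨?_, ?_, ?_⟩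
    · have : 2 * x 0 = (x 0 - x 1) - (-x 0 - x 1) := by ring
      rw [this]
      exact dvd_sub a1 b1
    · have : 2 * x 1 = (x 1 - x 2) - (-x 1 - x 2) := by ring
      rw [this]
      exact dvd_sub a2 c2
    · have : 2 * x 2 = (x 1 - -x 2) - (x 1 - x 2) := by ring
      rw [this]
      exact dvd_sub d2 a2
  · rw [forall3]
    refine ⟨?_, ?_, ?_⟩
    · have : 2 * x 0 = (x 0 + x 1 + x 2) - (-x 0 + x 1 + x 2) := by ring
      rw [this]
      exact dvd_sub a3 b3
    · have : 2 * x 1 = (x 0 + x 1 + x 2) - (x 0 + -x 1 + x 2) := by ring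
      rw [this]
      exact dvd_sub a3 c3
    · have : 2 * x 2 = (x 0 + x 1 + x 2) - (x 0 + x 1 + -x 2) := by ring
      rw [this]
      exact dvd_sub a3 d3
  · have h0 : ∀ i, (a : ℤ) ∣ x i - x 0 := by
      rw [forall3]
      refine ⟨by simp, ?_, ?_⟩
      · have : x 1 - x 0 = - (x 0 - x 1) := by ring
        rw [this]
        exact (dvd_neg).mpr a1
      · have : x 2 - x 0 = - ((x 0 - x 1) + (x 1 - x 2)) := by ring
        rw [this]
        exact (dvd_neg).mpr (dvd_add a1 a2)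
    intro i j
    have : x i - x j = (x i - x 0) - (x j - x 0) := by ring
    rw [this]
    exact dvd_sub (h0 i) (h0 j)

theorem odd_cancel {p e : ℕ} (hp : p.Prime) (h2 : p ≠ 2) {x : ℤ} (h : (p : ℤ) ^ e ∣ 2 * x) :
    (p : ℤ) ^ e ∣ x := by
  have h1 : IsCoprime ((p : ℤ) ^ e) 2 := by
    have := Nat.isCoprime_iff_coprime.mpr ((Nat.coprime_primes hp Nat.prime_two).mpr h2)
    exact this.pow_left
  exact h1.dvd_of_dvd_mul_left h

theorem two_cancel {e : ℕ} {x : ℤ} (h : (2 : ℤ) ^ (e + 1) ∣ 2 * x) : (2 : ℤ) ^ e ∣ x := by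
  rw [pow_succ'] at h
  exact (mul_dvd_mul_iff_left two_ne_zero).mp h

/-- The lattices `latN` at odd primes different from three. -/
theorem RL_latN {p e f : ℕ} (hp : p.Prime) (h2 : p ≠ 2) (h3 : p ≠ 3) (h : MaxSum e f) :
    RL GP (L1 3 ((p ^ e : ℕ) : ℤ)) (p ^ f) := by
  obtain ⟨a, b, hab, hf⟩ := h
  refine ⟨latN (p ^ a) (p ^ b), hasCore_of (L1_smul _) ?_ ?_, GP_stab_latN _ _, ?_⟩
  · push_cast
    exact L1_le_latN (by omega) (by omega)
  · intro x hx
    obtain ⟨h4, h5, _, _⟩ := core_latN hx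
    intro i
    push_cast
    rcases le_total a b with hle | hle
    · have he : e = b := by omega
      rw [he]
      have := h5 i
      push_cast at this
      exact odd_cancel hp h2 this
    · have he : e = a := by omega
      rw [he]
      have := h4 i
      push_cast at this
      exact odd_cancel hp h2 this
  · rw [index_latN _ _ (three_coprime hp h3 b), ← pow_add, ← pow_add, hf]
    congr 1
    omega

theorem RL_two1 {e f : ℕ} (h : f = 3 * e) : RL Set.univ (L1 3 ((2 ^ e : ℕ) : ℤ)) (2 ^ f) := by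
  refine ⟨L1 3 ((2 ^ e : ℕ) : ℤ), hasCore_self (L1_smul _),
    fun g _ => stab_of_invariant (L1_smul _) g, ?_⟩
  rw [index_L1, h, ← pow_mul, mul_comm]

theorem RL_two2 {e f : ℕ} (h : AtTwo 2 e f) : RL GP (L2 3 ((2 ^ e : ℕ) : ℤ)) (2 ^ f) := by
  rcases h with h | h | h
  · exact absurd h.1 (by norm_num)
  · obtain ⟨_, a, ha, hf⟩ := h
    refine ⟨latN (2 ^ a) (2 ^ (e + 1)), hasCore_of (L2_smul _) ?_ ?_, GP_stab_latN _ _, ?_⟩
    · intro x hx
      rw [mem_L2, Fin.sum_univ_three] at hx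
      push_cast at hx
      rw [← pow_succ'] at hx
      rw [mem_latN]
      push_cast
      have e1 : (2 : ℤ) ^ a ∣ (2 : ℤ) ^ e := pow_dvd_pow _ ha
      exact ⟨dvd_sub (e1.trans (hx.1 0)) (e1.trans (hx.1 1)),
        dvd_sub (e1.trans (hx.1 1)) (e1.trans (hx.1 2)), hx.2⟩
    · intro x hx
      obtain ⟨_, h5, _, h6⟩ := core_latN hx
      rw [mem_L2, Fin.sum_univ_three]
      push_cast at h5 h6 ⊢
      rw [← pow_succ']
      exact ⟨fun i => two_cancel (h5 i), h6⟩
    · rw [index_latN _ _ (three_coprime Nat.prime_two (by norm_num) _), ← pow_add, ← pow_add, hf]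
      congr 1
      omega
  · exact absurd h.1 (by norm_num)

theorem RL_two3 {e f : ℕ} (h : AtTwo 3 e f) : RL GP (L3 3 ((2 ^ e : ℕ) : ℤ)) (2 ^ f) := by
  rcases h with h | h | h
  · exact absurd h.1 (by norm_num)
  · exact absurd h.1 (by norm_num)
  · obtain ⟨_, b, hb, hf⟩ := h
    refine ⟨latN (2 ^ (e + 1)) (2 ^ b), hasCore_of (L3_smul _) ?_ ?_, GP_stab_latN _ _, ?_⟩
    · intro x hx
      rw [mem_L3] at hx
      push_cast at hx
      rw [← pow_succ'] at hx
      rw [mem_latN]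
      push_cast
      have e1 : (2 : ℤ) ^ b ∣ (2 : ℤ) ^ e := pow_dvd_pow _ hb
      exact ⟨hx.2 0 1, hx.2 1 2, dvd_add (dvd_add (e1.trans (hx.1 0)) (e1.trans (hx.1 1)))
        (e1.trans (hx.1 2))⟩
    · intro x hx
      obtain ⟨h5, _, h6, _⟩ := core_latN hx
      rw [mem_L3]
      push_cast at h5 h6 ⊢
      rw [← pow_succ']
      exact ⟨fun i => two_cancel (h5 i), h6⟩
    · rw [index_latN _ _ (three_coprime Nat.prime_two (by norm_num) _), ← pow_add, ← pow_add, hf]
      congr 1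
      omega

/-! ### Scaling -/

theorem smul_nsmul' (w : W 3) (d : ℕ) (x : Z 3) : w • (d • x) = d • (w • x) := smul_comm w d x

theorem nsmul_inj {d : ℕ} (hd : d ≠ 0) {x y : Z 3} (h : d • x = d • y) : x = y := by
  funext i
  have h1 := congrFun h i
  rw [Pi.smul_apply, Pi.smul_apply, nsmul_eq_mul, nsmul_eq_mul] at h1
  exact mul_left_cancel₀ (by exact_mod_cast hd) h1

/-- Scaling a lattice scales the core. -/
theorem RL.scale {G : Set (W 3)} {L : AddSubgroup (Z 3)} {m : ℕ} (h : RL G L m) {d : ℕ}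
    (hd : d ≠ 0) : RL G (scale d L) (m * d ^ 3) := by
  obtain ⟨M, h1, h2, rfl⟩ := h
  refine ⟨Pool.Agent.Tor.scale d M, fun x => ?_, fun g hg => ?_, index_scale d hd M⟩
  · constructor
    · intro hx
      have h3 := hx 1
      rw [one_smul] at h3
      obtain ⟨y, _, rfl⟩ := mem_scale.mp h3
      refine mem_scale.mpr ⟨y, (h1 y).mp fun w => ?_, rfl⟩
      obtain ⟨z, hz, hzw⟩ := mem_scale.mp (hx w)
      rw [smul_nsmul'] at hzw
      rwa [← nsmul_inj hd hzw]
    · intro hx w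
      obtain ⟨y, hy, rfl⟩ := mem_scale.mp hx
      rw [smul_nsmul']
      exact mem_scale.mpr ⟨_, (h1 y).mpr hy w, rfl⟩
  · apply stab_of
    intro x hx
    obtain ⟨y, hy, rfl⟩ := mem_scale.mp hx
    rw [smul_nsmul']
    exact mem_scale.mpr ⟨_, (h2 g hg y).mpr hy, rfl⟩

theorem scale_L1 (d s : ℕ) : scale d (L1 3 (s : ℤ)) = L1 3 ((d * s : ℕ) : ℤ) := by
  ext x
  rw [mem_scale]
  constructor
  · rintro ⟨y, hy, rfl⟩ i
    rw [Pi.smul_apply, nsmul_eq_mul]
    push_cast
    exact mul_dvd_mul_left _ (hy i)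
  · intro h
    choose y hy using h
    refine ⟨fun i => s * y i, fun i => dvd_mul_right _ _, ?_⟩
    funext i
    rw [Pi.smul_apply, nsmul_eq_mul, hy i]
    push_cast
    ring

theorem scale_L2 (d s : ℕ) (hd : d ≠ 0) : scale d (L2 3 (s : ℤ)) = L2 3 ((d * s : ℕ) : ℤ) := by
  ext x
  rw [mem_scale, mem_L2]
  constructor
  · rintro ⟨y, ⟨hy, hs⟩, rfl⟩
    refine ⟨fun i => ?_, ?_⟩
    · rw [Pi.smul_apply, nsmul_eq_mul]
      push_cast
      exact mul_dvd_mul_left _ (hy i)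
    · have h1 : ∑ i, (d • y) i = d * ∑ i, y i := by
        rw [Finset.mul_sum]
        exact Finset.sum_congr rfl fun i _ => by rw [Pi.smul_apply, nsmul_eq_mul]
      rw [h1]
      have h2 : (2 : ℤ) * ((d * s : ℕ) : ℤ) = d * (2 * s) := by
        push_cast
        ring
      rw [h2]
      exact mul_dvd_mul_left _ hs
  · rintro ⟨h, hs⟩
    choose y hy using h
    have hd' : (d : ℤ) ≠ 0 := by exact_mod_cast hd
    refine ⟨fun i => s * y i, ⟨fun i => dvd_mul_right _ _, ?_⟩, ?_⟩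
    · have h1 : ∑ i, x i = d * ∑ i, s * y i := by
        rw [Finset.mul_sum]
        exact Finset.sum_congr rfl fun i _ => by
          rw [hy]
          push_cast
          ring
      rw [h1] at hs
      have h2 : (2 : ℤ) * ((d * s : ℕ) : ℤ) = d * (2 * s) := by
        push_cast
        ring
      rw [h2] at hs
      exact (mul_dvd_mul_iff_left hd').mp hs
    · funext i
      rw [Pi.smul_apply, nsmul_eq_mul, hy i]
      push_cast
      ring

theorem scale_L3 (d s : ℕ) (hd : d ≠ 0) : scale d (L3 3 (s : ℤ)) = L3 3 ((d * s : ℕ) : ℤ) := by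
  ext x
  rw [mem_scale, mem_L3]
  have h2 : (2 : ℤ) * ((d * s : ℕ) : ℤ) = d * (2 * s) := by
    push_cast
    ring
  constructor
  · rintro ⟨y, ⟨hy, hs⟩, rfl⟩
    refine ⟨fun i => ?_, fun i j => ?_⟩
    · rw [Pi.smul_apply, nsmul_eq_mul]
      push_cast
      exact mul_dvd_mul_left _ (hy i)
    · have h1 : (d • y) i - (d • y) j = d * (y i - y j) := by
        rw [Pi.smul_apply, nsmul_eq_mul, Pi.smul_apply, nsmul_eq_mul]
        ring
      rw [h1, h2]
      exact mul_dvd_mul_left _ (hs i j)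
  · rintro ⟨h, hs⟩
    choose y hy using h
    have hd' : (d : ℤ) ≠ 0 := by exact_mod_cast hd
    refine ⟨fun i => s * y i, ⟨fun i => dvd_mul_right _ _, fun i j => ?_⟩, ?_⟩
    · have h1 : x i - x j = d * (s * y i - s * y j) := by
        rw [hy i, hy j]
        push_cast
        ring
      have h3 := hs i j
      rw [h1, h2] at h3
      exact (mul_dvd_mul_iff_left hd').mp h3
    · funext i
      rw [Pi.smul_apply, nsmul_eq_mul, hy i]
      push_cast
      ring

end Pool.Agent.Tor
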