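import Mathlib
import Pool.Agent.Tor.Low2

/-!
# Lower bounds: the remaining local lattices
-/

set_option autoImplicit false

namespace Pool.Agent.Tor

/-- All sign changes. -/
def GF : Set (W 3) := {g | ∃ i, g = sg (flip i)}

/-- All sign changes and a transposition. -/
def G16 : Set (W 3) := {g | (∃ i, g = sg (flip i)) ∨ g = pm (Equiv.swap 0 1)}

theorem form_sum (x : Z 3) : form 1 1 1 x = x 0 + x 1 + x 2 := by rw [form_apply]; ring
theorem form_zero (x : Z 3) : form 0 0 0 x = 0 := by rw [form_apply]; ring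
theorem form_01 (x : Z 3) : form 1 (-1) 0 x = x 0 - x 1 := by rw [form_apply]; ring
theorem form_1 (x : Z 3) : form 0 1 0 x = x 1 := by rw [form_apply]; ring
theorem form_02 (x : Z 3) : form 1 0 (-1) x = x 0 - x 2 := by rw [form_apply]; ring
theorem form_02' (x : Z 3) : form 1 0 1 x = x 0 + x 2 := by rw [form_apply]; ring
theorem form_10 (x : Z 3) : form (-1) 1 0 x = x 1 - x 0 := by rw [form_apply]; ring

theorem core_sum {n : ℤ} {x : Z 3} (h : ∀ w : W 3, n ∣ (w • x) 0 + (w • x) 1 + (w • x) 2) :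
    (∀ i, n ∣ 2 * x i) ∧ n ∣ x 0 + x 1 + x 2 := by
  have h1 := h 1
  rw [one_smul] at h1
  have f0 := h (sg (flip 0))
  have f1 := h (sg (flip 1))
  have f2 := h (sg (flip 2))
  rw [flip_smul, flip_smul_ne (by decide), flip_smul_ne (by decide)] at f0 f1 f2
  refine ⟨?_, h1⟩
  rw [forall3]
  refine ⟨?_, ?_, ?_⟩
  · have : 2 * x 0 = (x 0 + x 1 + x 2) - (-x 0 + x 1 + x 2) := by ring
    rw [this]
    exact dvd_sub h1 f0
  · have : 2 * x 1 = (x 0 + x 1 + x 2) - (x 0 + -x 1 + x 2) := by ring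
    rw [this]
    exact dvd_sub h1 f1
  · have : 2 * x 2 = (x 0 + x 1 + x 2) - (x 0 + x 1 + -x 2) := by ring
    rw [this]
    exact dvd_sub h1 f2

theorem core_coord {d : ℤ} {x : Z 3} (j : Fin 3) (h : ∀ w : W 3, d ∣ (w • x) j) (i : Fin 3) :
    d ∣ x i := by
  have h1 := h (pm (Equiv.swap i j))
  rw [pm_smul, Equiv.swap_inv, Equiv.swap_apply_right] at h1
  exact h1

theorem exists_perm02 : ∀ i j : Fin 3, i ≠ j → ∃ σ : Equiv.Perm (Fin 3), σ⁻¹ 0 = i ∧ σ⁻¹ 2 = j := by
  decide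

theorem core_diff {n : ℤ} {x : Z 3} (h : ∀ w : W 3, n ∣ (w • x) 0 - (w • x) 2) :
    (∀ i j, n ∣ x i - x j) ∧ ∀ i, n ∣ 2 * x i := by
  have h1 : ∀ i j, i ≠ j → n ∣ x i - x j ∧ n ∣ x i + x j := by
    intro i j hij
    obtain ⟨σ, hσ0, hσ2⟩ := exists_perm02 i j hij
    have h1 := h (pm σ)
    have h2 := h (sg (flip 2) * pm σ)
    rw [mul_smul, flip_smul, flip_smul_ne (by decide)] at h2
    rw [pm_smul, pm_smul, hσ0, hσ2] at h1 h2
    refine ⟨h1, ?_⟩
    have : x i + x j = x i - -x j := by ring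
    rw [this]
    exact h2
  refine ⟨fun i j => ?_, fun i => ?_⟩
  · by_cases hij : i = j
    · rw [hij, sub_self]
      exact dvd_zero _
    · exact (h1 i j hij).1
  · obtain ⟨j, hj⟩ : ∃ j : Fin 3, j ≠ i := exists_ne i
    have h2 := h1 i j hj.symm
    have : 2 * x i = (x i - x j) + (x i + x j) := by ring
    rw [this]
    exact dvd_add h2.1 h2.2

/-- The lattice of vectors with coordinate sum divisible by `n`. -/
theorem RL_sum {n : ℕ} (hn : Nat.Coprime n 2) : RL GP (L1 3 (n : ℤ)) n := by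
  refine ⟨lat3 1 1 n (form 0 0 0) (form 0 0 0) (form 1 1 1), hasCore_of (L1_smul _) ?_ ?_, ?_, ?_⟩
  · intro x hx
    rw [mem_lat3, form_zero, form_sum]
    exact ⟨dvd_zero _, dvd_zero _, dvd_add (dvd_add (hx 0) (hx 1)) (hx 2)⟩
  · intro x hx
    have h1 := core_sum (n := (n : ℤ)) (x := x) (fun w => by
      have := (mem_lat3.mp (hx w)).2.2
      rwa [form_sum] at this)
    intro i
    exact (Nat.isCoprime_iff_coprime.mpr hn).dvd_of_dvd_mul_left (h1.1 i)
  · rintro g (rfl | rfl)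
    · apply stab_of
      intro x hx
      rw [mem_lat3, form_zero, form_sum] at hx ⊢
      rw [(rot_smul x).1, (rot_smul x).2.1, (rot_smul x).2.2]
      have : x 2 + x 0 + x 1 = x 0 + x 1 + x 2 := by ring
      rw [this]
      exact hx
    · apply stab_of
      intro x hx
      rw [mem_lat3, form_zero, form_sum] at hx ⊢
      rw [(swap_smul x).1, (swap_smul x).2.1, (swap_smul x).2.2]
      have : x 1 + x 0 + x 2 = x 0 + x 1 + x 2 := by ring
      rw [this]
      exact hx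
  · rw [index_lat3]
    · ring
    · intro u v w
      refine ⟨vec w 0 0, ⟨-u, ?_⟩, ⟨-v, ?_⟩, ⟨0, ?_⟩⟩
      · rw [form_zero]
        push_cast
        ring
      · rw [form_zero]
        push_cast
        ring
      · rw [form_sum, vec_zero, vec_one, vec_two]
        ring

/-- The second type of lattice at the prime three. -/
theorem RL_sum3 {j : ℕ} (hj : 1 ≤ j) : RL GP (L1 3 ((3 ^ j : ℕ) : ℤ)) (3 ^ (j + 1)) := by
  have h3j : (3 : ℤ) ∣ (3 : ℤ) ^ j := dvd_pow_self _ (by omega)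
  refine ⟨lat3 3 1 (3 ^ j) (form 1 (-1) 0) (form 0 0 0) (form 1 1 1),
    hasCore_of (L1_smul _) ?_ ?_, ?_, ?_⟩
  · intro x hx
    rw [mem_lat3, form_zero, form_sum, form_01]
    rw [mem_L1] at hx
    push_cast at hx ⊢
    exact ⟨dvd_sub (h3j.trans (hx 0)) (h3j.trans (hx 1)), trivial,
      dvd_add (dvd_add (hx 0) (hx 1)) (hx 2)⟩
  · intro x hx
    have h1 := core_sum (n := ((3 ^ j : ℕ) : ℤ)) (x := x) (fun w => by
      have := (mem_lat3.mp (hx w)).2.2
      rwa [form_sum] at this)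
    intro i
    exact (Nat.isCoprime_iff_coprime.mpr (Nat.Coprime.pow_left j (by norm_num :
      Nat.Coprime 3 2))).dvd_of_dvd_mul_left (h1.1 i)
  · rintro g (rfl | rfl)
    · apply stab_of
      intro x hx
      rw [mem_lat3, form_zero, form_sum, form_01] at hx ⊢
      rw [(rot_smul x).1, (rot_smul x).2.1, (rot_smul x).2.2]
      push_cast at hx ⊢
      obtain ⟨h1, _, h2⟩ := hx
      refine ⟨?_, trivial, ?_⟩
      · have h4 := h3j.trans h2
        omega
      · have : x 2 + x 0 + x 1 = x 0 + x 1 + x 2 := by ring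
        rw [this]
        exact h2
    · apply stab_of
      intro x hx
      rw [mem_lat3, form_zero, form_sum, form_01] at hx ⊢
      rw [(swap_smul x).1, (swap_smul x).2.1, (swap_smul x).2.2]
      push_cast at hx ⊢
      obtain ⟨h1, _, h2⟩ := hx
      refine ⟨?_, trivial, ?_⟩
      · omega
      · have : x 1 + x 0 + x 2 = x 0 + x 1 + x 2 := by ring
        rw [this]
        exact h2
  · rw [index_lat3]
    · ring
    · intro u v w
      refine ⟨vec u 0 (w - u), ⟨0, ?_⟩, ⟨-v, ?_⟩, ⟨0, ?_⟩⟩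
      · rw [form_01, vec_zero, vec_one]
        ring
      · rw [form_zero]
        push_cast
        ring
      · rw [form_sum, vec_zero, vec_one, vec_two]
        ring

theorem RL_three {e f : ℕ} (h1 : e ≤ f) (h2 : f ≤ 3 * e) :
    RL GP (L1 3 ((3 ^ e : ℕ) : ℤ)) (3 ^ f) := by
  rcases Nat.even_or_odd' (f - e) with ⟨c, hc | hc⟩
  · have h3 := (RL_sum (n := 3 ^ (e - c)) (Nat.Coprime.pow_left _ (by norm_num))).scale
      (d := 3 ^ c) (by positivity)
    rw [scale_L1, ← pow_add, ← pow_mul, ← pow_add] at h3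
    have e1 : c + (e - c) = e := by omega
    have e2 : e - c + c * 3 = f := by omega
    rwa [e1, e2] at h3
  · have h3 := (RL_sum3 (j := e - c) (by omega)).scale (d := 3 ^ c) (by positivity)
    rw [scale_L1, ← pow_add, ← pow_mul, ← pow_add] at h3
    have e1 : c + (e - c) = e := by omega
    have e2 : e - c + 1 + c * 3 = f := by omega
    rwa [e1, e2] at h3

theorem exists_zeta {p : ℕ} (hp : p.Prime) (h : p % 3 = 1) :
    ∃ z : ℤ, (p : ℤ) ∣ z ^ 2 + z + 1 := by
  have hpf : Fact p.Prime := ⟨hp⟩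
  have h1 : 3 ∣ Fintype.card (ZMod p)ˣ := by
    rw [ZMod.card_units_eq_totient, Nat.totient_prime hp]
    have := hp.one_lt
    omega
  have h3 : Fact (Nat.Prime 3) := ⟨Nat.prime_three⟩
  obtain ⟨u, hu⟩ := exists_prime_orderOf_dvd_card 3 h1
  have h4 : u ^ 3 = 1 := by
    rw [← hu]
    exact pow_orderOf_eq_one u
  have h5 : u ≠ 1 := by
    rintro rfl
    rw [orderOf_one] at hu
    omega
  obtain ⟨z, hz⟩ := ZMod.intCast_surjective (u : ZMod p)
  refine ⟨z, ?_⟩
  rw [← ZMod.intCast_zmod_eq_zero_iff_dvd]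
  push_cast
  rw [hz]
  have h6 : ((u : ZMod p) - 1) * ((u : ZMod p) ^ 2 + u + 1) = 0 := by
    have h7 : (u : ZMod p) ^ 3 = 1 := by
      have := congrArg (fun v : (ZMod p)ˣ => (v : ZMod p)) h4
      simpa using this
    linear_combination h7
  rcases mul_eq_zero.mp h6 with h7 | h7
  · exfalso
    apply h5
    ext
    rw [Units.val_one]
    linear_combination h7
  · exact h7

/-- The second type of lattice at the primes congruent to one modulo three. -/
theorem RL_zeta {p j : ℕ} (hp : p.Prime) (h1 : p % 3 = 1) (h2 : p ≠ 2) (hj : 1 ≤ j) :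
    RL GR (L1 3 ((p ^ j : ℕ) : ℤ)) (p ^ (j + 1)) := by
  obtain ⟨z, r, hz⟩ := exists_zeta hp h1
  have hpj : (p : ℤ) ∣ (p : ℤ) ^ j := dvd_pow_self _ (by omega)
  refine ⟨lat3 1 p (p ^ j) (form 0 0 0) (form 1 z (z ^ 2)) (form 1 1 1),
    hasCore_of (L1_smul _) ?_ ?_, ?_, ?_⟩
  · intro x hx
    rw [mem_lat3, form_zero, form_sum, form_apply]
    rw [mem_L1] at hx
    push_cast at hx ⊢
    exact ⟨trivial, dvd_add (dvd_add (Dvd.dvd.mul_left (hpj.trans (hx 0)) _)
      (Dvd.dvd.mul_left (hpj.trans (hx 1)) _)) (Dvd.dvd.mul_left (hpj.trans (hx 2)) _),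
      dvd_add (dvd_add (hx 0) (hx 1)) (hx 2)⟩
  · intro x hx
    have h1 := core_sum (n := ((p ^ j : ℕ) : ℤ)) (x := x) (fun w => by
      have := (mem_lat3.mp (hx w)).2.2
      rwa [form_sum] at this)
    intro i
    exact (Nat.isCoprime_iff_coprime.mpr (Nat.Coprime.pow_left j
      ((Nat.coprime_primes hp Nat.prime_two).mpr h2))).dvd_of_dvd_mul_left (h1.1 i)
  · rintro g rfl
    apply stab_of
    intro x hx
    rw [mem_lat3, form_zero, form_sum, form_apply] at hx ⊢
    rw [(rot_smul x).1, (rot_smul x).2.1, (rot_smul x).2.2]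
    push_cast at hx ⊢
    obtain ⟨_, ⟨t, ht⟩, h4⟩ := hx
    refine ⟨trivial, ?_, ?_⟩
    · refine ⟨z * t + (1 - z) * r * x 2, ?_⟩
      linear_combination z * ht + (1 - z) * x 2 * hz
    · have : x 2 + x 0 + x 1 = x 0 + x 1 + x 2 := by ring
      rw [this]
      exact h4
  · rw [index_lat3]
    · ring
    · intro u v w
      have hcop : IsCoprime (p : ℤ) (z - 1) := by
        rw [Prime.coprime_iff_not_dvd (Nat.prime_iff_prime_int.mp hp)]
        rintro ⟨c, hc⟩
        have h3 : (p : ℤ) ∣ 3 := by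
          refine ⟨r - c * (z + 2), ?_⟩
          linear_combination hz - (z + 2) * hc
        have h4 : p ∣ 3 := by exact_mod_cast h3
        have := (Nat.prime_dvd_prime_iff_eq hp Nat.prime_three).mp h4
        omega
      obtain ⟨α, β, hαβ⟩ := hcop
      refine ⟨vec (w - β * (v - w)) (β * (v - w)) 0, ⟨-u, ?_⟩, ⟨-α * (v - w), ?_⟩, ⟨0, ?_⟩⟩
      · rw [form_zero]
        push_cast
        ring
      · rw [form_apply, vec_zero, vec_one, vec_two]
        linear_combination (v - w) * hαβ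
      · rw [form_sum, vec_zero, vec_one, vec_two]
        ring

theorem RL_split {p e f : ℕ} (hp : p.Prime) (h1 : p % 3 = 1) (h2 : p ≠ 2) (h3 : e ≤ f)
    (h4 : f ≤ 3 * e) : RL GR (L1 3 ((p ^ e : ℕ) : ℤ)) (p ^ f) := by
  rcases Nat.even_or_odd' (f - e) with ⟨c, hc | hc⟩
  · have h5 := ((RL_sum (n := p ^ (e - c)) (Nat.Coprime.pow_left _
      ((Nat.coprime_primes hp Nat.prime_two).mpr h2))).mono (G' := GR) (by
        intro g hg
        exact Or.inl hg)).scale (d := p ^ c) (pow_ne_zero _ hp.ne_zero)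
    rw [scale_L1, ← pow_add, ← pow_mul, ← pow_add] at h5
    have e1 : c + (e - c) = e := by omega
    have e2 : e - c + c * 3 = f := by omega
    rwa [e1, e2] at h5
  · have h5 := (RL_zeta hp h1 h2 (j := e - c) (by omega)).scale (d := p ^ c)
      (pow_ne_zero _ hp.ne_zero)
    rw [scale_L1, ← pow_add, ← pow_mul, ← pow_add] at h5
    have e1 : c + (e - c) = e := by omega
    have e2 : e - c + 1 + c * 3 = f := by omega
    rwa [e1, e2] at h5

/-! ### The lattices for the 2-groups -/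

theorem G8_stab_of {M : AddSubgroup (Z 3)}
    (h1 : ∀ x ∈ M, sg (flip 1) • x ∈ M) (h2 : ∀ x ∈ M, pm (Equiv.swap 0 2) • x ∈ M) :
    ∀ g ∈ G8, g ∈ Stab M := by
  rintro g (rfl | rfl)
  · exact stab_of h1
  · exact stab_of h2

/-- Case `k = 2`, order 8, at the prime two. -/
theorem RL_b2 (j : ℕ) : RL G8 (L2 3 ((2 ^ j : ℕ) : ℤ)) (2 ^ (2 * j + 1)) := by
  refine ⟨lat3 (2 ^ j) 1 (2 ^ (j + 1)) (form 0 1 0) (form 0 0 0) (form 1 1 1),
    hasCore_of (L2_smul _) ?_ ?_, G8_stab_of ?_ ?_, ?_⟩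
  · intro x hx
    rw [mem_L2, Fin.sum_univ_three] at hx
    rw [mem_lat3, form_zero, form_sum, form_1]
    push_cast at hx ⊢
    rw [← pow_succ'] at hx
    exact ⟨hx.1 1, trivial, hx.2⟩
  · intro x hx
    have h1 := core_sum (n := ((2 ^ (j + 1) : ℕ) : ℤ)) (x := x) (fun w => by
      have := (mem_lat3.mp (hx w)).2.2
      rwa [form_sum] at this)
    rw [mem_L2, Fin.sum_univ_three]
    push_cast at h1 ⊢
    rw [← pow_succ']
    exact ⟨fun i => two_cancel (h1.1 i), h1.2⟩
  · intro x hx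
    rw [mem_lat3, form_zero, form_sum, form_1] at hx ⊢
    rw [flip_smul, flip_smul_ne (by decide), flip_smul_ne (by decide)]
    push_cast at hx ⊢
    obtain ⟨⟨t, ht⟩, _, h2⟩ := hx
    refine ⟨⟨-t, by rw [ht]; ring⟩, trivial, ?_⟩
    have : x 0 + -x 1 + x 2 = (x 0 + x 1 + x 2) - 2 ^ (j + 1) * t := by
      rw [ht, pow_succ]
      ring
    rw [this]
    exact dvd_sub h2 (dvd_mul_right _ _)
  · intro x hx
    rw [mem_lat3, form_zero, form_sum, form_1] at hx ⊢
    rw [(swap02_smul x).1, (swap02_smul x).2.1, (swap02_smul x).2.2]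
    have : x 2 + x 1 + x 0 = x 0 + x 1 + x 2 := by ring
    rw [this]
    exact hx
  · rw [index_lat3]
    · rw [mul_one, ← pow_add]
      congr 1
      omega
    · intro u v w
      refine ⟨vec (w - u) u 0, ⟨0, ?_⟩, ⟨-v, ?_⟩, ⟨0, ?_⟩⟩
      · rw [form_1, vec_one]
        ring
      · rw [form_zero]
        push_cast
        ring
      · rw [form_sum, vec_zero, vec_one, vec_two]
        ring

theorem RL_b2_all {e f : ℕ} (h1 : 2 * e + 1 ≤ f) (h2 : f ≤ 3 * e + 1) :
    RL G8 (L2 3 ((2 ^ e : ℕ) : ℤ)) (2 ^ f) := by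
  obtain ⟨c, hc⟩ : ∃ c, f = 2 * e + 1 + c := ⟨f - (2 * e + 1), by omega⟩
  have h5 := (RL_b2 (e - c)).scale (d := 2 ^ c) (by positivity)
  rw [scale_L2 _ _ (by positivity), ← pow_add, ← pow_mul, ← pow_add] at h5
  have e1 : c + (e - c) = e := by omega
  have e2 : 2 * (e - c) + 1 + c * 3 = f := by omega
  rwa [e1, e2] at h5

/-- Case `k = 2`, order 4, at the prime two. -/
theorem RL_c2 (j : ℕ) : RL G4 (L2 3 ((2 ^ j : ℕ) : ℤ)) (2 ^ (j + 1)) := by
  refine ⟨lat3 1 1 (2 ^ (j + 1)) (form 0 0 0) (form 0 0 0) (form 1 1 1),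
    hasCore_of (L2_smul _) ?_ ?_, ?_, ?_⟩
  · intro x hx
    rw [mem_L2, Fin.sum_univ_three] at hx
    rw [mem_lat3, form_zero, form_sum]
    push_cast at hx ⊢
    rw [← pow_succ'] at hx
    exact ⟨trivial, trivial, hx.2⟩
  · intro x hx
    have h1 := core_sum (n := ((2 ^ (j + 1) : ℕ) : ℤ)) (x := x) (fun w => by
      have := (mem_lat3.mp (hx w)).2.2
      rwa [form_sum] at this)
    rw [mem_L2, Fin.sum_univ_three]
    push_cast at h1 ⊢
    rw [← pow_succ']
    exact ⟨fun i => two_cancel (h1.1 i), h1.2⟩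
  · rintro g rfl
    apply stab_of
    intro x hx
    rw [mem_lat3, form_zero, form_sum] at hx ⊢
    rw [(swap02_smul x).1, (swap02_smul x).2.1, (swap02_smul x).2.2]
    have : x 2 + x 1 + x 0 = x 0 + x 1 + x 2 := by ring
    rw [this]
    exact hx
  · rw [index_lat3]
    · ring
    · intro u v w
      refine ⟨vec w 0 0, ⟨-u, ?_⟩, ⟨-v, ?_⟩, ⟨0, ?_⟩⟩
      · rw [form_zero]
        push_cast
        ring
      · rw [form_zero]
        push_cast
        ring
      · rw [form_sum, vec_zero, vec_one, vec_two]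
        ring

theorem RL_c2' {j : ℕ} (hj : 1 ≤ j) : RL G4 (L2 3 ((2 ^ j : ℕ) : ℤ)) (2 ^ (j + 2)) := by
  have h2j : (2 : ℤ) ∣ (2 : ℤ) ^ j := dvd_pow_self _ (by omega)
  refine ⟨lat3 2 1 (2 ^ (j + 1)) (form 0 1 0) (form 0 0 0) (form 1 1 1),
    hasCore_of (L2_smul _) ?_ ?_, ?_, ?_⟩
  · intro x hx
    rw [mem_L2, Fin.sum_univ_three] at hx
    rw [mem_lat3, form_zero, form_sum, form_1]
    push_cast at hx ⊢
    rw [← pow_succ'] at hx
    exact ⟨h2j.trans (hx.1 1), trivial, hx.2⟩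
  · intro x hx
    have h1 := core_sum (n := ((2 ^ (j + 1) : ℕ) : ℤ)) (x := x) (fun w => by
      have := (mem_lat3.mp (hx w)).2.2
      rwa [form_sum] at this)
    rw [mem_L2, Fin.sum_univ_three]
    push_cast at h1 ⊢
    rw [← pow_succ']
    exact ⟨fun i => two_cancel (h1.1 i), h1.2⟩
  · rintro g rfl
    apply stab_of
    intro x hx
    rw [mem_lat3, form_zero, form_sum, form_1] at hx ⊢
    rw [(swap02_smul x).1, (swap02_smul x).2.1, (swap02_smul x).2.2]
    have : x 2 + x 1 + x 0 = x 0 + x 1 + x 2 := by ring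
    rw [this]
    exact hx
  · rw [index_lat3]
    · ring
    · intro u v w
      refine ⟨vec (w - u) u 0, ⟨0, ?_⟩, ⟨-v, ?_⟩, ⟨0, ?_⟩⟩
      · rw [form_1, vec_one]
        ring
      · rw [form_zero]
        push_cast
        ring
      · rw [form_sum, vec_zero, vec_one, vec_two]
        ring

theorem RL_c2_all {e f : ℕ} (h1 : e + 1 ≤ f) (h2 : f ≤ 3 * e + 1) :
    RL G4 (L2 3 ((2 ^ e : ℕ) : ℤ)) (2 ^ f) := by
  rcases Nat.even_or_odd' (f - (e + 1)) with ⟨c, hc | hc⟩
  · have h5 := (RL_c2 (e - c)).scale (d := 2 ^ c) (by positivity)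
    rw [scale_L2 _ _ (by positivity), ← pow_add, ← pow_mul, ← pow_add] at h5
    have e1 : c + (e - c) = e := by omega
    have e2 : e - c + 1 + c * 3 = f := by omega
    rwa [e1, e2] at h5
  · have h5 := (RL_c2' (j := e - c) (by omega)).scale (d := 2 ^ c) (by positivity)
    rw [scale_L2 _ _ (by positivity), ← pow_add, ← pow_mul, ← pow_add] at h5
    have e1 : c + (e - c) = e := by omega
    have e2 : e - c + 2 + c * 3 = f := by omega
    rwa [e1, e2] at h5

/-- Case `k = 3`, order 8, at the prime two. -/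
theorem RL_b3 (j : ℕ) : RL G8 (L3 3 ((2 ^ j : ℕ) : ℤ)) (2 ^ (j + 1)) := by
  refine ⟨lat3 1 1 (2 ^ (j + 1)) (form 0 0 0) (form 0 0 0) (form 1 0 (-1)),
    hasCore_of (L3_smul _) ?_ ?_, G8_stab_of ?_ ?_, ?_⟩
  · intro x hx
    rw [mem_L3] at hx
    rw [mem_lat3, form_zero, form_02]
    push_cast at hx ⊢
    rw [← pow_succ'] at hx
    exact ⟨trivial, trivial, hx.2 0 2⟩
  · intro x hx
    have h1 := core_diff (n := ((2 ^ (j + 1) : ℕ) : ℤ)) (x := x) (fun w => by
      have := (mem_lat3.mp (hx w)).2.2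
      rwa [form_02] at this)
    rw [mem_L3]
    push_cast at h1 ⊢
    rw [← pow_succ']
    exact ⟨fun i => two_cancel (h1.2 i), h1.1⟩
  · intro x hx
    rw [mem_lat3, form_zero, form_02] at hx ⊢
    rw [flip_smul_ne (by decide), flip_smul_ne (by decide)]
    exact hx
  · intro x hx
    rw [mem_lat3, form_zero, form_02] at hx ⊢
    rw [(swap02_smul x).1, (swap02_smul x).2.2]
    have : x 2 - x 0 = - (x 0 - x 2) := by ring
    rw [this]
    exact ⟨hx.1, hx.2.1, (dvd_neg).mpr hx.2.2⟩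
  · rw [index_lat3]
    · ring
    · intro u v w
      refine ⟨vec w 0 0, ⟨-u, ?_⟩, ⟨-v, ?_⟩, ⟨0, ?_⟩⟩
      · rw [form_zero]
        push_cast
        ring
      · rw [form_zero]
        push_cast
        ring
      · rw [form_02, vec_zero, vec_two]
        ring

theorem RL_b3' (j : ℕ) : RL G8 (L3 3 ((2 ^ j : ℕ) : ℤ)) (2 ^ (j + 2)) := by
  have h2j : (2 : ℤ) ∣ (2 : ℤ) ^ (j + 1) := dvd_pow_self _ (by omega)
  refine ⟨lat3 2 1 (2 ^ (j + 1)) (form (-1) 1 0) (form 0 0 0) (form 1 0 (-1)),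
    hasCore_of (L3_smul _) ?_ ?_, G8_stab_of ?_ ?_, ?_⟩
  · intro x hx
    rw [mem_L3] at hx
    rw [mem_lat3, form_zero, form_02, form_10]
    push_cast at hx ⊢
    rw [← pow_succ'] at hx
    exact ⟨h2j.trans (hx.2 1 0), trivial, hx.2 0 2⟩
  · intro x hx
    have h1 := core_diff (n := ((2 ^ (j + 1) : ℕ) : ℤ)) (x := x) (fun w => by
      have := (mem_lat3.mp (hx w)).2.2
      rwa [form_02] at this)
    rw [mem_L3]
    push_cast at h1 ⊢
    rw [← pow_succ']
    exact ⟨fun i => two_cancel (h1.2 i), h1.1⟩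
  · intro x hx
    rw [mem_lat3, form_zero, form_02, form_10] at hx ⊢
    rw [flip_smul, flip_smul_ne (by decide), flip_smul_ne (by decide)]
    push_cast at hx ⊢
    refine ⟨?_, hx.2.1, hx.2.2⟩
    have := hx.1
    omega
  · intro x hx
    rw [mem_lat3, form_zero, form_02, form_10] at hx ⊢
    rw [(swap02_smul x).1, (swap02_smul x).2.1, (swap02_smul x).2.2]
    push_cast at hx ⊢
    obtain ⟨h1, _, h2⟩ := hx
    refine ⟨?_, trivial, ?_⟩
    · have h3 := h2j.trans h2
      omega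
    · have : x 2 - x 0 = - (x 0 - x 2) := by ring
      rw [this]
      exact (dvd_neg).mpr h2
  · rw [index_lat3]
    · ring
    · intro u v w
      refine ⟨vec w (w + u) 0, ⟨0, ?_⟩, ⟨-v, ?_⟩, ⟨0, ?_⟩⟩
      · rw [form_10, vec_zero, vec_one]
        ring
      · rw [form_zero]
        push_cast
        ring
      · rw [form_02, vec_zero, vec_two]
        ring

theorem RL_b3_all {e f : ℕ} (h1 : e + 1 ≤ f) (h2 : f ≤ 3 * e + 2) :
    RL G8 (L3 3 ((2 ^ e : ℕ) : ℤ)) (2 ^ f) := by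
  rcases Nat.even_or_odd' (f - (e + 1)) with ⟨c, hc | hc⟩
  · have h5 := (RL_b3 (e - c)).scale (d := 2 ^ c) (by positivity)
    rw [scale_L3 _ _ (by positivity), ← pow_add, ← pow_mul, ← pow_add] at h5
    have e1 : c + (e - c) = e := by omega
    have e2 : e - c + 1 + c * 3 = f := by omega
    rwa [e1, e2] at h5
  · have h5 := (RL_b3' (e - c)).scale (d := 2 ^ c) (by positivity)
    rw [scale_L3 _ _ (by positivity), ← pow_add, ← pow_mul, ← pow_add] at h5
    have e1 : c + (e - c) = e := by omega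
    have e2 : e - c + 2 + c * 3 = f := by omega
    rwa [e1, e2] at h5

theorem split_m {s m : ℕ} (hs : s ≠ 0) (h1 : s ∣ m) (h2 : m ∣ s ^ 3) :
    ∃ b c, b ∣ s ∧ c ∣ s ∧ m = s * b * c := by
  obtain ⟨t, rfl⟩ := h1
  have h3 : t ∣ s * s := by
    have h4 : s * t ∣ s * (s * s) := by
      have : s * (s * s) = s ^ 3 := by ring
      rw [this]
      exact h2
    exact (mul_dvd_mul_iff_left hs).mp h4
  have ht : 0 < Nat.gcd t s := Nat.gcd_pos_of_pos_right _ (Nat.pos_of_ne_zero hs)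
  refine ⟨Nat.gcd t s, t / Nat.gcd t s, Nat.gcd_dvd_right _ _, ?_, ?_⟩
  · rw [Nat.div_dvd_iff_dvd_mul (Nat.gcd_dvd_left _ _) ht, ← Nat.gcd_mul_right]
    exact Nat.dvd_gcd (dvd_mul_right _ _) h3
  · rw [mul_assoc, Nat.mul_div_cancel' (Nat.gcd_dvd_left _ _)]

/-- The order 8 subgroup at the odd primes. -/
theorem RL_odd8 {s m : ℕ} (hs : Nat.Coprime 2 s) (h1 : s ∣ m) (h2 : m ∣ s ^ 3) :
    RL G8 (L1 3 (s : ℤ)) m := by
  have hs0 : s ≠ 0 := by
    rintro rfl
    norm_num at hs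
  obtain ⟨b, c, hb, hc, hm⟩ := split_m hs0 h1 h2
  obtain ⟨t, r, htr⟩ := exists_inv hs
  obtain ⟨b', hb'⟩ := hb
  obtain ⟨c', hc'⟩ := hc
  have hbs : (b : ℤ) ∣ s := ⟨b', by exact_mod_cast hb'⟩
  have hcs : (c : ℤ) ∣ s := ⟨c', by exact_mod_cast hc'⟩
  refine ⟨lat3 s b c (form 0 1 0) (form 1 0 1) (form 1 0 (-1)),
    hasCore_of (L1_smul _) ?_ ?_, G8_stab_of ?_ ?_, ?_⟩
  · intro x hx
    rw [mem_lat3, form_1, form_02, form_02']
    exact ⟨hx 1, dvd_add (hbs.trans (hx 0)) (hbs.trans (hx 2)),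
      dvd_sub (hcs.trans (hx 0)) (hcs.trans (hx 2))⟩
  · intro x hx i
    refine core_coord 1 (fun w => ?_) i
    have := (mem_lat3.mp (hx w)).1
    rwa [form_1] at this
  · intro x hx
    rw [mem_lat3, form_1, form_02, form_02'] at hx ⊢
    rw [flip_smul, flip_smul_ne (by decide), flip_smul_ne (by decide)]
    exact ⟨(dvd_neg).mpr hx.1, hx.2.1, hx.2.2⟩
  · intro x hx
    rw [mem_lat3, form_1, form_02, form_02'] at hx ⊢
    rw [(swap02_smul x).1, (swap02_smul x).2.1, (swap02_smul x).2.2]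
    have e1 : x 2 + x 0 = x 0 + x 2 := by ring
    have e2 : x 2 - x 0 = - (x 0 - x 2) := by ring
    rw [e1, e2]
    exact ⟨hx.1, hx.2.1, (dvd_neg).mpr hx.2.2⟩
  · rw [index_lat3, hm]
    intro u v w
    push_cast at htr
    refine ⟨vec (t * (v + w)) u (t * (v - w)), ?_, ?_, ?_⟩
    · rw [form_1, vec_one, sub_self]
      exact dvd_zero _
    · rw [form_02', vec_zero, vec_two]
      have : t * (v + w) + t * (v - w) - v = s * (r * v) := by linear_combination v * htr
      rw [this]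
      exact hbs.mul_right _
    · rw [form_02, vec_zero, vec_two]
      have : t * (v + w) - t * (v - w) - w = s * (r * w) := by linear_combination w * htr
      rw [this]
      exact hcs.mul_right _

/-- The sign group for the first family. -/
theorem RL_signs {s m : ℕ} (hs : s ≠ 0) (h1 : s ∣ m) (h2 : m ∣ s ^ 3) :
    RL GF (L1 3 (s : ℤ)) m := by
  obtain ⟨b, c, hb, hc, hm⟩ := split_m hs h1 h2
  have hbs : (b : ℤ) ∣ s := by exact_mod_cast hb
  have hcs : (c : ℤ) ∣ s := by exact_mod_cast hc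
  refine ⟨diag ![s, b, c], hasCore_of (L1_smul _) ?_ ?_, ?_, ?_⟩
  · intro x hx
    rw [mem_diag, forall3]
    exact ⟨hx 0, hbs.trans (hx 1), hcs.trans (hx 2)⟩
  · intro x hx i
    exact core_coord 0 (fun w => hx w 0) i
  · rintro g ⟨i, rfl⟩
    apply stab_of
    intro x hx j
    by_cases hj : j = i
    · subst hj
      rw [flip_smul]
      exact (dvd_neg).mpr (hx j)
    · rw [flip_smul_ne hj]
      exact hx j
  · rw [index_diag, Fin.prod_univ_three, hm]
    rfl

/-- The order 16 subgroup. -/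
theorem RL_16 {a b s : ℕ} (h : a.lcm b = s) : RL G16 (L1 3 (s : ℤ)) (a ^ 2 * b) := by
  have has : (a : ℤ) ∣ s := by
    rw [← h]
    exact_mod_cast Nat.dvd_lcm_left a b
  have hbs : (b : ℤ) ∣ s := by
    rw [← h]
    exact_mod_cast Nat.dvd_lcm_right a b
  refine ⟨diag ![a, a, b], hasCore_of (L1_smul _) ?_ ?_, ?_, ?_⟩
  · intro x hx
    rw [mem_diag, forall3]
    exact ⟨has.trans (hx 0), has.trans (hx 1), hbs.trans (hx 2)⟩
  · intro x hx i
    have e1 : (a : ℤ) ∣ x i := core_coord 0 (fun w => hx w 0) i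
    have e2 : (b : ℤ) ∣ x i := core_coord 2 (fun w => hx w 2) i
    have e3 : a.lcm b ∣ (x i).natAbs :=
      Nat.lcm_dvd (Int.natCast_dvd.mp e1) (Int.natCast_dvd.mp e2)
    rw [h] at e3
    exact Int.natCast_dvd.mpr e3
  · rintro g (⟨i, rfl⟩ | rfl)
    · apply stab_of
      intro x hx j
      by_cases hj : j = i
      · subst hj
        rw [flip_smul]
        exact (dvd_neg).mpr (hx j)
      · rw [flip_smul_ne hj]
        exact hx j
    · apply stab_of
      intro x hx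
      rw [mem_diag, forall3] at hx ⊢
      rw [(swap_smul x).1, (swap_smul x).2.1, (swap_smul x).2.2]
      exact ⟨hx.2.1, hx.1, hx.2.2⟩
  · rw [index_diag, Fin.prod_univ_three]
    show a * a * b = a ^ 2 * b
    ring

theorem RL_16_two : RL G16 (L2 3 ((1 : ℕ) : ℤ)) 2 := by
  refine ⟨L2 3 ((1 : ℕ) : ℤ), hasCore_self (L2_smul _),
    fun g _ => stab_of_invariant (L2_smul _) g, ?_⟩
  rw [index_L2 1 one_ne_zero]
  norm_num

theorem RL_16_three : RL G16 (L3 3 ((1 : ℕ) : ℤ)) 2 := by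
  refine ⟨lat3 1 1 2 (form 0 0 0) (form 0 0 0) (form 1 (-1) 0),
    hasCore_of (L3_smul _) ?_ ?_, ?_, ?_⟩
  · intro x hx
    rw [mem_L3] at hx
    rw [mem_lat3, form_zero, form_01]
    push_cast at hx ⊢
    exact ⟨trivial, trivial, hx.2 0 1⟩
  · intro x hx
    rw [mem_L3]
    push_cast
    refine ⟨fun i => one_dvd _, fun i j => ?_⟩
    by_cases hij : i = j
    · rw [hij, sub_self]
      exact dvd_zero _
    · obtain ⟨σ, h0, h1⟩ := (show ∀ i j : Fin 3, i ≠ j → ∃ σ : Equiv.Perm (Fin 3),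
        σ⁻¹ 0 = i ∧ σ⁻¹ 1 = j from by decide) i j hij
      have h2 := (mem_lat3.mp (hx (pm σ))).2.2
      rw [form_01, pm_smul, pm_smul, h0, h1] at h2
      exact_mod_cast h2
  · rintro g (⟨i, rfl⟩ | rfl)
    · apply stab_of
      intro x hx
      rw [mem_lat3, form_zero, form_01] at hx ⊢
      refine ⟨dvd_zero _, dvd_zero _, ?_⟩
      have h1 := hx.2.2
      rw [sg_smul, sg_smul]
      push_cast at h1 ⊢
      have h2 := two_dvd_sub_unit (flip i 0) (x 0)
      have h3 := two_dvd_sub_unit (flip i 1) (x 1)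
      omega
    · apply stab_of
      intro x hx
      rw [mem_lat3, form_zero, form_01] at hx ⊢
      rw [(swap_smul x).1, (swap_smul x).2.1]
      refine ⟨dvd_zero _, dvd_zero _, ?_⟩
      have h1 := hx.2.2
      push_cast at h1 ⊢
      omega
  · rw [index_lat3]
    intro u v w
    refine ⟨vec w 0 0, ⟨-u, ?_⟩, ⟨-v, ?_⟩, ⟨0, ?_⟩⟩
    · rw [form_zero]
      push_cast
      ring
    · rw [form_zero]
      push_cast
      ring
    · rw [form_01, vec_zero, vec_one]
      ring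

end Pool.Agent.Tor
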