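import Mathlib
import Pool.Agent.Tor.Low3

/-!
# Subgroups of prescribed order
-/

set_option autoImplicit false

namespace Pool.Agent.Tor

theorem exists_sub_card {S Q : Subgroup (W 3)} (hQ : Q ≤ S) (p n : ℕ) (hp : p.Prime)
    (h : p ^ n ∣ Nat.card Q) : ∃ Q' : Subgroup (W 3), Q' ≤ S ∧ Nat.card Q' = p ^ n := by
  have hpf : Fact p.Prime := ⟨hp⟩
  obtain ⟨K, hK⟩ := Sylow.exists_subgroup_card_pow_prime (G := Q) p h
  refine ⟨K.map Q.subtype, ?_, ?_⟩
  · rintro x ⟨y, _, rfl⟩
    exact hQ y.2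
  · rw [← hK]
    exact Nat.card_congr (K.equivMapOfInjective Q.subtype Q.subtype_injective).symm.toEquiv

theorem index_of_card {Q : Subgroup (W 3)} {q c : ℕ} (h : Nat.card Q = q) (hqc : q * c = 48) :
    Q.index = c := by
  have h1 := Subgroup.card_mul_index Q
  rw [card_W3, h, ← hqc] at h1
  have hq : 0 < q := by
    rcases Nat.eq_zero_or_pos q with h2 | h2
    · rw [h2] at hqc
      omega
    · exact h2
  exact Nat.eq_of_mul_eq_mul_left hq h1

theorem card_range_of_inj {A : Type} [Group A] (f : A →* W 3) (hf : Function.Injective f) :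
    Nat.card f.range = Nat.card A :=
  (Nat.card_congr (MonoidHom.ofInjective hf).toEquiv).symm

theorem real_signs {S : Subgroup (W 3)} (h : ∀ i, sg (flip i) ∈ S) :
    ∃ Q : Subgroup (W 3), Q ≤ S ∧ Nat.card Q = 8 := by
  refine ⟨(SemidirectProduct.inl (φ := mulAutArrow) (N := Fin 3 → ℤˣ)
    (G := Equiv.Perm (Fin 3))).range, ?_, ?_⟩
  · rintro x ⟨ε, rfl⟩
    exact signs_mem h ε
  · rw [card_range_of_inj _ SemidirectProduct.inl_injective, Nat.card_eq_fintype_card,
      Fintype.card_pi]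
    simp

/-- The homomorphism onto the group generated by `-1` and the permutations. -/
def h12 : ℤˣ × Equiv.Perm (Fin 3) →* W 3 where
  toFun x := ⟨fun _ => x.1, x.2⟩
  map_one' := rfl
  map_mul' _ _ := rfl

theorem h12_inj : Function.Injective h12 := by
  intro x y h
  have h1 := congrArg (fun w : W 3 => w.left 0) h
  have h2 := congrArg (fun w : W 3 => w.right) h
  exact Prod.ext h1 h2

theorem h12_eq (u : ℤˣ) (σ : Equiv.Perm (Fin 3)) : h12 (u, σ) = sg (fun _ => u) * pm σ := by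
  ext1
  · funext i
    show u = u * (1 : Fin 3 → ℤˣ) i
    rw [Pi.one_apply, mul_one]
  · rfl

theorem const_mem {S : Subgroup (W 3)} (hn : sg (fun _ => -1) ∈ S) (u : ℤˣ) :
    sg (fun _ => u) ∈ S := by
  rcases Int.units_eq_one_or u with h | h <;> rw [h]
  · exact one_mem S
  · exact hn

theorem real12 {S : Subgroup (W 3)} (hn : sg (fun _ => -1) ∈ S) (hr : pm rot ∈ S)
    (hs : pm (Equiv.swap 0 1) ∈ S) : ∃ Q : Subgroup (W 3), Q ≤ S ∧ Nat.card Q = 12 := by
  refine ⟨h12.range, ?_, ?_⟩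
  · rintro x ⟨⟨u, σ⟩, rfl⟩
    rw [h12_eq]
    exact mul_mem (const_mem hn u) (perms_mem hr hs σ)
  · rw [card_range_of_inj _ h12_inj, Nat.card_prod, Nat.card_eq_fintype_card,
      Nat.card_eq_fintype_card, Fintype.card_perm]
    rfl

theorem card_zpowers_rot : Nat.card (Subgroup.zpowers rot) = 3 := by
  rw [Nat.card_zpowers]
  exact orderOf_eq_prime (by decide) (by decide)

theorem card_zpowers_swap {i j : Fin 3} (h : i ≠ j) :
    Nat.card (Subgroup.zpowers (Equiv.swap i j)) = 2 := by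
  rw [Nat.card_zpowers]
  refine orderOf_eq_prime ?_ ?_
  · rw [pow_two, Equiv.swap_mul_self]
  · intro h1
    exact h (Equiv.swap_eq_one_iff.mp h1)

theorem real_of_sub {S : Subgroup (W 3)} (hn : sg (fun _ => -1) ∈ S)
    (A : Subgroup (Equiv.Perm (Fin 3))) (hA : ∀ σ ∈ A, pm σ ∈ S) :
    ∃ Q : Subgroup (W 3), Q ≤ S ∧ Nat.card Q = 2 * Nat.card A := by
  refine ⟨((⊤ : Subgroup ℤˣ).prod A).map h12, ?_, ?_⟩
  · rintro x ⟨⟨u, σ⟩, hx, rfl⟩
    rw [h12_eq]
    exact mul_mem (const_mem hn u) (hA σ hx.2)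
  · rw [← Nat.card_congr (Subgroup.equivMapOfInjective _ h12 h12_inj).toEquiv,
      Nat.card_congr (Subgroup.prodEquiv _ _).toEquiv, Nat.card_prod, Subgroup.card_top,
      Nat.card_eq_fintype_card]
    rfl

theorem real6 {S : Subgroup (W 3)} (hn : sg (fun _ => -1) ∈ S) (hr : pm rot ∈ S) :
    ∃ Q : Subgroup (W 3), Q ≤ S ∧ Nat.card Q = 6 := by
  obtain ⟨Q, h1, h2⟩ := real_of_sub hn (Subgroup.zpowers rot) (by
    rintro σ ⟨n, rfl⟩
    show (SemidirectProduct.inr (rot ^ n) : W 3) ∈ S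
    rw [map_zpow]
    exact zpow_mem hr n)
  exact ⟨Q, h1, by rw [h2, card_zpowers_rot]⟩

theorem real4 {S : Subgroup (W 3)} (hn : sg (fun _ => -1) ∈ S)
    (hs : pm (Equiv.swap 0 2) ∈ S) : ∃ Q : Subgroup (W 3), Q ≤ S ∧ Nat.card Q = 4 := by
  obtain ⟨Q, h1, h2⟩ := real_of_sub hn (Subgroup.zpowers (Equiv.swap 0 2)) (by
    rintro σ ⟨n, rfl⟩
    show (SemidirectProduct.inr (Equiv.swap 0 2 ^ n) : W 3) ∈ S
    rw [map_zpow]
    exact zpow_mem hs n)
  exact ⟨Q, h1, by rw [h2, card_zpowers_swap (by decide)]⟩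

theorem real16 {S : Subgroup (W 3)} (hf : ∀ i, sg (flip i) ∈ S)
    (hs : pm (Equiv.swap 0 1) ∈ S) : ∃ Q : Subgroup (W 3), Q ≤ S ∧ Nat.card Q = 16 := by
  obtain ⟨Q, hQ⟩ : ∃ Q : Subgroup (W 3), Q = (Subgroup.zpowers (Equiv.swap 0 1)).comap
    (SemidirectProduct.rightHom (φ := mulAutArrow)
      (N := Fin 3 → ℤˣ) (G := Equiv.Perm (Fin 3))) := ⟨_, rfl⟩
  refine ⟨Q, ?_, ?_⟩
  · intro w hw
    rw [hQ] at hw
    obtain ⟨n, hn⟩ := hw
    have hn' : Equiv.swap 0 1 ^ n = w.right := hn
    rw [← SemidirectProduct.inl_left_mul_inr_right w, ← hn', map_zpow]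
    exact mul_mem (signs_mem hf _) (zpow_mem hs n)
  · have h1 : Q.index = 3 := by
      rw [hQ, Subgroup.index_comap_of_surjective _ SemidirectProduct.rightHom_surjective]
      have h2 := Subgroup.card_mul_index (Subgroup.zpowers (Equiv.swap (0 : Fin 3) 1))
      rw [card_zpowers_swap (by decide), Nat.card_eq_fintype_card, Fintype.card_perm] at h2
      have h3 : (Fintype.card (Fin 3)).factorial = 6 := rfl
      rw [h3] at h2
      omega
    have h2 := Subgroup.card_mul_index Q
    rw [h1, card_W3] at h2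
    omega

/-- The homomorphism onto the elementary abelian group of order eight. -/
def f8 (x : ℤˣ × ℤˣ × ℤˣ) : W 3 :=
  ⟨fun i => if i = 1 then x.2.1 else x.1, if x.2.2 = 1 then 1 else Equiv.swap 0 2⟩

theorem f8_mul (x y : ℤˣ × ℤˣ × ℤˣ) : f8 (x * y) = f8 x * f8 y := by
  obtain ⟨a, b, c⟩ := x
  obtain ⟨a', b', c'⟩ := y
  rcases Int.units_eq_one_or c with rfl | rfl <;> rcases Int.units_eq_one_or c' with rfl | rfl
  · ext1
    · funext i
      fin_cases i <;> rfl
    · rfl
  · ext1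
    · funext i
      fin_cases i <;> rfl
    · rfl
  · ext1
    · funext i
      fin_cases i <;> rfl
    · rfl
  · ext1
    · funext i
      fin_cases i <;> rfl
    · show (1 : Equiv.Perm (Fin 3)) = Equiv.swap 0 2 * Equiv.swap 0 2
      rw [Equiv.swap_mul_self]

/-- The homomorphism onto the elementary abelian group of order eight. -/
def h8 : ℤˣ × ℤˣ × ℤˣ →* W 3 where
  toFun := f8
  map_one' := by
    ext1
    · funext i
      fin_cases i <;> rfl
    · rfl
  map_mul' := f8_mul

theorem h8_inj : Function.Injective h8 := by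
  intro x y h
  have h1 : x.1 = y.1 := congrArg (fun w : W 3 => w.left 0) h
  have h2 : x.2.1 = y.2.1 := congrArg (fun w : W 3 => w.left 1) h
  have h3 : (if x.2.2 = 1 then 1 else Equiv.swap 0 2 : Equiv.Perm (Fin 3)) =
    if y.2.2 = 1 then 1 else Equiv.swap 0 2 := congrArg (fun w : W 3 => w.right) h
  have hne : (Equiv.swap 0 2 : Equiv.Perm (Fin 3)) ≠ 1 := by decide
  have h4 : x.2.2 = y.2.2 := by
    rcases Int.units_eq_one_or x.2.2 with h | h <;> rcases Int.units_eq_one_or y.2.2 with h' | h'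
    · rw [h, h']
    · rw [h, h', if_pos rfl, if_neg (by decide)] at h3
      exact absurd h3.symm hne
    · rw [h, h', if_pos rfl, if_neg (by decide)] at h3
      exact absurd h3 hne
    · rw [h, h']
  exact Prod.ext h1 (Prod.ext h2 h4)

theorem real8 {S : Subgroup (W 3)} (hn : sg (fun _ => -1) ∈ S) (hf : sg (flip 1) ∈ S)
    (hs : pm (Equiv.swap 0 2) ∈ S) : ∃ Q : Subgroup (W 3), Q ≤ S ∧ Nat.card Q = 8 := by
  refine ⟨h8.range, ?_, ?_⟩
  · rintro x ⟨⟨a, b, c⟩, rfl⟩
    have h1 : h8 (a, b, c) = h8 (a, a, 1) * h8 (1, a * b, 1) * h8 (1, 1, c) := by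
      rw [← map_mul, ← map_mul]
      congr 1
      refine Prod.ext ?_ (Prod.ext ?_ ?_)
      · show a = a * 1 * 1
        rw [mul_one, mul_one]
      · show b = a * (a * b) * 1
        rw [mul_one, ← mul_assoc, units_sq, one_mul]
      · show c = 1 * 1 * c
        rw [one_mul, one_mul]
    rw [h1]
    refine mul_mem (mul_mem ?_ ?_) ?_
    · have h2 : h8 (a, a, 1) = sg (fun _ => a) := by
        ext1
        · funext i
          fin_cases i <;> rfl
        · rfl
      rw [h2]
      exact const_mem hn a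
    · rcases Int.units_eq_one_or (a * b) with h | h <;> rw [h]
      · have h2 : h8 (1, 1, 1) = 1 := map_one h8
        rw [h2]
        exact one_mem _
      · have h2 : h8 (1, -1, 1) = sg (flip 1) := by
          ext1
          · funext i
            fin_cases i <;> rfl
          · rfl
        rw [h2]
        exact hf
    · rcases Int.units_eq_one_or c with h | h <;> rw [h]
      · have h2 : h8 (1, 1, 1) = 1 := map_one h8
        rw [h2]
        exact one_mem _
      · have h2 : h8 (1, 1, -1) = pm (Equiv.swap 0 2) := by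
          ext1
          · funext i
            fin_cases i <;> rfl
          · rfl
        rw [h2]
        exact hs
  · rw [card_range_of_inj _ h8_inj, Nat.card_prod, Nat.card_prod, Nat.card_eq_fintype_card]
    rfl

theorem real24 : ∃ Q : Subgroup (W 3), Nat.card Q = 24 := by
  obtain ⟨P, hP⟩ : ∃ f : W 3 →* ℤˣ, Function.Surjective f :=
    ⟨(Equiv.Perm.sign).comp SemidirectProduct.rightHom,
      (Equiv.Perm.sign_surjective (Fin 3)).comp SemidirectProduct.rightHom_surjective⟩
  refine ⟨P.ker, ?_⟩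
  have h1 : P.ker.index = 2 := by
    rw [Subgroup.index_ker, MonoidHom.range_eq_top_of_surjective P hP, Subgroup.card_top,
      Nat.card_eq_fintype_card]
    rfl
  have h2 := Subgroup.card_mul_index P.ker
  rw [h1, card_W3] at h2
  omega

end Pool.Agent.Tor
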