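import Mathlib
import Pool.Agent.Tor.Qs

/-!
# Lower bounds: assembly
-/

set_option autoImplicit false

namespace Pool.Agent.Tor

/-- The degree `d` is realised by a lattice with core `L`. -/
def Real (L : AddSubgroup (Z 3)) (d : ℕ) : Prop :=
  ∃ (M : AddSubgroup (Z 3)) (Q : Subgroup (W 3)),
    HasCore (V := W 3) M L ∧ Stable Q M ∧ M.index * Q.index = d

theorem build {G : Set (W 3)} {L : AddSubgroup (Z 3)} {m : ℕ} (h : RL G L m) (q c : ℕ)
    (hqc : q * c = 48)
    (hQ : ∀ S : Subgroup (W 3), (∀ g ∈ G, g ∈ S) → sg (fun _ => -1) ∈ S →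
      ∃ Q : Subgroup (W 3), Q ≤ S ∧ Nat.card Q = q) : Real L (c * m) := by
  obtain ⟨M, h1, h2, h3⟩ := h
  obtain ⟨Q, h4, h5⟩ := hQ (Stab M) h2 (neg_mem_Stab M)
  exact ⟨M, Q, h1, stable_iff.mpr h4, by rw [h3, index_of_card h5 hqc, mul_comm]⟩

/-- Passing to a subgroup of prime power order. -/
theorem sub_of {G : Set (W 3)} {q : ℕ} (p n : ℕ) (hp : p.Prime) (hd : p ^ n ∣ q)
    (hQ : ∀ S : Subgroup (W 3), (∀ g ∈ G, g ∈ S) → sg (fun _ => -1) ∈ S →
      ∃ Q : Subgroup (W 3), Q ≤ S ∧ Nat.card Q = q) :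
    ∀ S : Subgroup (W 3), (∀ g ∈ G, g ∈ S) → sg (fun _ => -1) ∈ S →
      ∃ Q : Subgroup (W 3), Q ≤ S ∧ Nat.card Q = p ^ n := by
  intro S h1 h2
  obtain ⟨Q, h3, h4⟩ := hQ S h1 h2
  exact exists_sub_card h3 p n hp (by rw [h4]; exact hd)

theorem qF : ∀ S : Subgroup (W 3), (∀ g ∈ GF, g ∈ S) → sg (fun _ => -1) ∈ S →
      ∃ Q : Subgroup (W 3), Q ≤ S ∧ Nat.card Q = 8 :=
  fun _ h _ => real_signs fun i => h _ ⟨i, rfl⟩

theorem q8 : ∀ S : Subgroup (W 3), (∀ g ∈ G8, g ∈ S) → sg (fun _ => -1) ∈ S →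
      ∃ Q : Subgroup (W 3), Q ≤ S ∧ Nat.card Q = 8 :=
  fun _ h hn => real8 hn (h _ (Or.inl rfl)) (h _ (Or.inr rfl))

theorem q4 : ∀ S : Subgroup (W 3), (∀ g ∈ G4, g ∈ S) → sg (fun _ => -1) ∈ S →
      ∃ Q : Subgroup (W 3), Q ≤ S ∧ Nat.card Q = 4 :=
  fun _ h hn => real4 hn (h _ rfl)

theorem q12 : ∀ S : Subgroup (W 3), (∀ g ∈ GP, g ∈ S) → sg (fun _ => -1) ∈ S →
      ∃ Q : Subgroup (W 3), Q ≤ S ∧ Nat.card Q = 12 :=
  fun _ h hn => real12 hn (h _ (Or.inl rfl)) (h _ (Or.inr rfl))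

theorem q6 : ∀ S : Subgroup (W 3), (∀ g ∈ GR, g ∈ S) → sg (fun _ => -1) ∈ S →
      ∃ Q : Subgroup (W 3), Q ≤ S ∧ Nat.card Q = 6 :=
  fun _ h hn => real6 hn (h _ rfl)

theorem q16 : ∀ S : Subgroup (W 3), (∀ g ∈ G16, g ∈ S) → sg (fun _ => -1) ∈ S →
      ∃ Q : Subgroup (W 3), Q ≤ S ∧ Nat.card Q = 16 :=
  fun _ h _ => real16 (fun i => h _ (Or.inl ⟨i, rfl⟩)) (h _ (Or.inr rfl))

/-- The condition for the lattices stable under all permutations. -/
def condP (p e f : ℕ) : Prop :=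
  if p = 2 then f = 3 * e else if p = 3 then e ≤ f ∧ f ≤ 3 * e else MaxSum e f

/-- The condition for the lattices stable under the rotation. -/
def condC (p e f : ℕ) : Prop :=
  if p = 2 then f = 3 * e else if p % 3 = 2 then MaxSum e f else e ≤ f ∧ f ≤ 3 * e

theorem maxSum_zero {f : ℕ} (h : MaxSum 0 f) : f = 0 := by
  obtain ⟨a, b, h1, h2⟩ := h
  omega

theorem maxSum_zero_zero : MaxSum 0 0 := ⟨0, 0, rfl, rfl⟩

theorem glueP {s m : ℕ} (hs : s ≠ 0) (hm : m ≠ 0)
    (h : ∀ p, p.Prime → condP p (s.factorization p) (m.factorization p)) :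
    RL GP (L1 3 (s : ℤ)) m := by
  refine glue_all GP condP ?_ ?_ ?_ s m hs hm h
  · intro p f _ h1
    unfold condP at h1
    split_ifs at h1
    · omega
    · omega
    · exact maxSum_zero h1
  · intro p
    unfold condP
    split_ifs
    · rfl
    · exact ⟨le_rfl, le_rfl⟩
    · exact maxSum_zero_zero
  · intro p e f hp _ h1
    unfold condP at h1
    split_ifs at h1 with h2 h3
    · subst h2
      exact (RL_two1 h1).mono (Set.subset_univ _)
    · subst h3
      exact RL_three h1.1 h1.2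
    · exact RL_latN hp h2 h3 h1

theorem glueC {s m : ℕ} (hs : s ≠ 0) (hm : m ≠ 0)
    (h : ∀ p, p.Prime → condC p (s.factorization p) (m.factorization p)) :
    RL GR (L1 3 (s : ℤ)) m := by
  have hPR : GR ⊆ GP := fun g hg => Or.inl hg
  refine glue_all GR condC ?_ ?_ ?_ s m hs hm h
  · intro p f _ h1
    unfold condC at h1
    split_ifs at h1
    · omega
    · exact maxSum_zero h1
    · omega
  · intro p
    unfold condC
    split_ifs
    · rfl
    · exact maxSum_zero_zero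
    · exact ⟨le_rfl, le_rfl⟩
  · intro p e f hp _ h1
    unfold condC at h1
    split_ifs at h1 with h2 h3
    · subst h2
      exact (RL_two1 h1).mono (Set.subset_univ _)
    · exact (RL_latN hp h2 (by omega) h1).mono hPR
    · by_cases h4 : p = 3
      · subst h4
        exact (RL_three h1.1 h1.2).mono hPR
      · have h5 : p % 3 ≠ 0 := by
          intro h6
          have h7 : 3 ∣ p := Nat.dvd_of_mod_eq_zero h6
          exact h4 ((Nat.prime_dvd_prime_iff_eq Nat.prime_three hp).mp h7).symm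
        exact RL_split hp (by omega) h2 h1.1 h1.2

theorem fac_odd {s so : ℕ} (hs : s ≠ 0) (h : s = 2 ^ s.factorization 2 * so)
    (hc : Nat.Coprime 2 so) : so.factorization 2 = 0 ∧
      ∀ p, p ≠ 2 → so.factorization p = s.factorization p := by
  have hso : so ≠ 0 := by
    rintro rfl
    exact hs (by rw [h, mul_zero])
  refine ⟨Nat.factorization_eq_zero_of_not_dvd fun h1 =>
    Nat.prime_two.one_lt.ne' (Nat.Coprime.eq_one_of_dvd hc h1), fun p hp => ?_⟩
  conv_rhs => rw [h]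
  rw [Nat.factorization_mul (pow_ne_zero _ two_ne_zero) hso, Finsupp.add_apply,
    Nat.factorization_pow, Finsupp.smul_apply, Nat.Prime.factorization Nat.prime_two,
    Finsupp.single_eq_of_ne hp, smul_zero, zero_add]

theorem glue2 {G : Set (W 3)} {s m : ℕ} (hs : s ≠ 0) (hm : m ≠ 0)
    (h2 : RL G (L2 3 ((2 ^ s.factorization 2 : ℕ) : ℤ)) (2 ^ m.factorization 2))
    (ho : ∀ so mo, so ≠ 0 → mo ≠ 0 → s = 2 ^ s.factorization 2 * so →
      m = 2 ^ m.factorization 2 * mo → Nat.Coprime 2 so → Nat.Coprime 2 mo →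
        RL G (L1 3 (so : ℤ)) mo) : RL G (L2 3 (s : ℤ)) m := by
  obtain ⟨so, hso, hco⟩ := exists_factor Nat.prime_two hs
  obtain ⟨mo, hmo, hcm⟩ := exists_factor Nat.prime_two hm
  have hso0 : so ≠ 0 := by
    rintro rfl
    exact hs (by rw [hso, mul_zero])
  have hmo0 : mo ≠ 0 := by
    rintro rfl
    exact hm (by rw [hmo, mul_zero])
  have h3 := h2.glue (ho so mo hso0 hmo0 hso hmo hco hcm) (Nat.Coprime.pow_left _ hcm)
    (pow_ne_zero _ two_ne_zero) hmo0
  rw [L2_inf (by rw [← pow_succ']; exact Nat.Coprime.pow_left _ hco), ← hso, ← hmo] at h3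
  exact h3

theorem glue3 {G : Set (W 3)} {s m : ℕ} (hs : s ≠ 0) (hm : m ≠ 0)
    (h2 : RL G (L3 3 ((2 ^ s.factorization 2 : ℕ) : ℤ)) (2 ^ m.factorization 2))
    (ho : ∀ so mo, so ≠ 0 → mo ≠ 0 → s = 2 ^ s.factorization 2 * so →
      m = 2 ^ m.factorization 2 * mo → Nat.Coprime 2 so → Nat.Coprime 2 mo →
        RL G (L1 3 (so : ℤ)) mo) : RL G (L3 3 (s : ℤ)) m := by
  obtain ⟨so, hso, hco⟩ := exists_factor Nat.prime_two hs
  obtain ⟨mo, hmo, hcm⟩ := exists_factor Nat.prime_two hm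
  have hso0 : so ≠ 0 := by
    rintro rfl
    exact hs (by rw [hso, mul_zero])
  have hmo0 : mo ≠ 0 := by
    rintro rfl
    exact hm (by rw [hmo, mul_zero])
  have h3 := h2.glue (ho so mo hso0 hmo0 hso hmo hco hcm) (Nat.Coprime.pow_left _ hcm)
    (pow_ne_zero _ two_ne_zero) hmo0
  rw [L3_inf (by rw [← pow_succ']; exact Nat.Coprime.pow_left _ hco), ← hso, ← hmo] at h3
  exact h3

theorem oddP {k s m : ℕ} (hs : s ≠ 0) (hm : m ∈ IndP k s) (so mo : ℕ) (hso0 : so ≠ 0)
    (hmo0 : mo ≠ 0) (hso : s = 2 ^ s.factorization 2 * so)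
    (hmo : m = 2 ^ m.factorization 2 * mo) (hco : Nat.Coprime 2 so) (hcm : Nat.Coprime 2 mo) :
    RL GP (L1 3 (so : ℤ)) mo := by
  obtain ⟨h0, _, h3, h5⟩ := hm
  obtain ⟨a1, a2⟩ := fac_odd hs hso hco
  obtain ⟨b1, b2⟩ := fac_odd h0.ne' hmo hcm
  refine glueP hso0 hmo0 fun p hp => ?_
  unfold condP
  split_ifs with c1 c2
  · subst c1
    rw [a1, b1]
  · subst c2
    rw [a2 3 (by norm_num), b2 3 (by norm_num)]
    exact h3
  · rw [a2 p c1, b2 p c1]
    apply h5 p hp
    have := hp.two_le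
    have h4 : p ≠ 4 := by
      rintro rfl
      norm_num at hp
    omega

theorem oddC {k s m : ℕ} (hs : s ≠ 0) (hm : m ∈ IndC k s) (so mo : ℕ) (hso0 : so ≠ 0)
    (hmo0 : mo ≠ 0) (hso : s = 2 ^ s.factorization 2 * so)
    (hmo : m = 2 ^ m.factorization 2 * mo) (hco : Nat.Coprime 2 so) (hcm : Nat.Coprime 2 mo) :
    RL GR (L1 3 (so : ℤ)) mo := by
  obtain ⟨h0, _, h3, h5⟩ := hm
  obtain ⟨a1, a2⟩ := fac_odd hs hso hco
  obtain ⟨b1, b2⟩ := fac_odd h0.ne' hmo hcm
  refine glueC hso0 hmo0 fun p hp => ?_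
  unfold condC
  split_ifs with c1 c2
  · subst c1
    rw [a1, b1]
  · rw [a2 p c1, b2 p c1]
    exact h3 p hp c1 c2
  · rw [a2 p c1, b2 p c1]
    exact h5 p hp c1 c2

theorem dvd_data {s m so mo j : ℕ} (hs : s ≠ 0) (hm : m ≠ 0)
    (hso : s = 2 ^ s.factorization 2 * so) (hmo : m = 2 ^ m.factorization 2 * mo)
    (hco : Nat.Coprime 2 so) (h : 2 ^ j * s ∣ m) :
    j + s.factorization 2 ≤ m.factorization 2 ∧ so ∣ mo := by
  constructor
  · have h1 := (Nat.factorization_le_iff_dvd (mul_ne_zero (pow_ne_zero _ two_ne_zero) hs) hm).mpr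
      h 2
    rw [Nat.factorization_mul (pow_ne_zero _ two_ne_zero) hs, Finsupp.add_apply,
      Nat.factorization_pow, Finsupp.smul_apply, Nat.Prime.factorization_self Nat.prime_two,
      smul_eq_mul, mul_one] at h1
    exact h1
  · apply coprime_part_dvd hco (e := s.factorization 2) (v := m.factorization 2)
    rw [← hso, ← hmo]
    exact (dvd_mul_left _ _).trans h

theorem dvd_data' {s m so mo j : ℕ} (hs : s ≠ 0) (hm : m ≠ 0)
    (hso : s = 2 ^ s.factorization 2 * so) (hmo : m = 2 ^ m.factorization 2 * mo)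
    (hcm : Nat.Coprime 2 mo) (h : m ∣ 2 ^ j * s ^ 3) :
    m.factorization 2 ≤ j + 3 * s.factorization 2 ∧ mo ∣ so ^ 3 := by
  constructor
  · have h1 := (Nat.factorization_le_iff_dvd hm (mul_ne_zero (pow_ne_zero _ two_ne_zero)
      (pow_ne_zero 3 hs))).mpr h 2
    rw [Nat.factorization_mul (pow_ne_zero _ two_ne_zero) (pow_ne_zero 3 hs), Finsupp.add_apply,
      Nat.factorization_pow, Finsupp.smul_apply, Nat.Prime.factorization_self Nat.prime_two,
      smul_eq_mul, mul_one, Nat.factorization_pow, Finsupp.smul_apply, smul_eq_mul] at h1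
    exact h1
  · have h2 : 2 ^ m.factorization 2 * mo ∣ 2 ^ (j + 3 * s.factorization 2) * so ^ 3 := by
      rw [← hmo]
      refine h.trans (dvd_of_eq ?_)
      conv_lhs => rw [hso]
      rw [mul_pow, ← pow_mul, ← mul_assoc, ← pow_add, mul_comm (s.factorization 2) 3]
    exact coprime_part_dvd hcm h2

theorem lower1 {s : ℕ} (hs : s ≠ 0) {d : ℕ} (hd : d ∈ D1 s) : Real (L1 3 (s : ℤ)) d := by
  rcases hd with hd | hd | hd | hd | hd | hd
  · refine ⟨L1 3 (s : ℤ), ⊤, hasCore_self (L1_smul _), fun q _ x hx => smul_mem_L1 q hx, ?_⟩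
    rw [index_L1, Subgroup.index_top, mul_one, hd]
  · obtain ⟨Q, hQ⟩ := real24
    refine ⟨L1 3 (s : ℤ), Q, hasCore_self (L1_smul _), fun q _ x hx => smul_mem_L1 q hx, ?_⟩
    rw [index_L1, index_of_card hQ (c := 2) (by norm_num), hd, mul_comm]
  · obtain ⟨a, b, hab, rfl⟩ := hd
    exact build (RL_16 hab) 16 3 (by norm_num) q16
  · obtain ⟨m, hm, rfl⟩ := hd
    refine build (G := GP) ?_ 12 4 (by norm_num) q12
    obtain ⟨h0, h2, h3, h5⟩ := hm
    refine glueP hs h0.ne' fun p hp => ?_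
    unfold condP
    split_ifs with c1 c2
    · subst c1
      rcases h2 with h2 | h2 | h2
      · exact h2.2
      · exact absurd h2.1 (by norm_num)
      · exact absurd h2.1 (by norm_num)
    · subst c2
      exact h3
    · apply h5 p hp
      have := hp.two_le
      have h4 : p ≠ 4 := by
        rintro rfl
        norm_num at hp
      omega
  · obtain ⟨m, hm, hd⟩ := hd
    have hR : RL GR (L1 3 (s : ℤ)) m := by
      obtain ⟨h0, h2, h3, h5⟩ := hm
      refine glueC hs h0.ne' fun p hp => ?_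
      unfold condC
      split_ifs with c1 c2
      · subst c1
        rcases h2 with h2 | h2 | h2
        · exact h2.2
        · exact absurd h2.1 (by norm_num)
        · exact absurd h2.1 (by norm_num)
      · exact h3 p hp c1 c2
      · exact h5 p hp c1 c2
    rcases hd with rfl | rfl
    · exact build hR 6 8 (by norm_num) q6
    · exact build hR (3 ^ 1) 16 (by norm_num) (sub_of 3 1 Nat.prime_three (by norm_num) q6)
  · obtain ⟨m, h1, h2, hd⟩ := hd
    have hR := RL_signs hs h1 h2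
    rcases hd with rfl | rfl | rfl | rfl
    · exact build hR 8 6 (by norm_num) qF
    · exact build hR (2 ^ 2) 12 (by norm_num) (sub_of 2 2 Nat.prime_two (by norm_num) qF)
    · exact build hR (2 ^ 1) 24 (by norm_num) (sub_of 2 1 Nat.prime_two (by norm_num) qF)
    · exact build hR (2 ^ 0) 48 (by norm_num) (sub_of 2 0 Nat.prime_two (by norm_num) qF)

theorem odd_ab {s a b : ℕ} (hodd : Odd s) (hab : a.lcm b = s) : Nat.Coprime 2 (a ^ 2 * b) ∧
    a ^ 2 * b ≠ 0 := by
  have h2 : Nat.Coprime 2 s := Nat.coprime_two_left.mpr hodd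
  have ha : Nat.Coprime 2 a := Nat.Coprime.coprime_dvd_right (hab ▸ Nat.dvd_lcm_left a b) h2
  have hb : Nat.Coprime 2 b := Nat.Coprime.coprime_dvd_right (hab ▸ Nat.dvd_lcm_right a b) h2
  have hc : Nat.Coprime 2 (a ^ 2 * b) := Nat.Coprime.mul_right (Nat.Coprime.pow_right 2 ha) hb
  refine ⟨hc, ?_⟩
  intro h0
  rw [h0] at hc
  norm_num at hc

theorem lower2 {s : ℕ} (hs : s ≠ 0) {d : ℕ} (hd : d ∈ D2 s) : Real (L2 3 (s : ℤ)) d := by
  rcases hd with hd | hd | hd | hd | hd | hd | hd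
  · refine ⟨L2 3 (s : ℤ), ⊤, hasCore_self (L2_smul _), fun q _ x hx => smul_mem_L2 q hx, ?_⟩
    rw [index_L2 s hs, Subgroup.index_top, mul_one, hd]
  · obtain ⟨Q, hQ⟩ := real24
    refine ⟨L2 3 (s : ℤ), Q, hasCore_self (L2_smul _), fun q _ x hx => smul_mem_L2 q hx, ?_⟩
    rw [index_L2 s hs, index_of_card hQ (c := 2) (by norm_num), hd]
    ring
  · obtain ⟨hodd, a, b, hab, rfl⟩ := hd
    obtain ⟨hc, hne⟩ := odd_ab hodd hab
    have h1 := RL_16_two.glue (RL_16 hab) hc two_ne_zero hne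
    rw [L2_inf (by rw [mul_one]; exact Nat.coprime_two_left.mpr hodd), one_mul] at h1
    have h2 := build h1 16 3 (by norm_num) q16
    have h3 : 3 * (2 * (a ^ 2 * b)) = 6 * (a ^ 2 * b) := by ring
    rwa [h3] at h2
  · obtain ⟨m, hm, rfl⟩ := hd
    exact build (glue2 hs hm.1.ne' (RL_two2 hm.2.1) (oddP hs hm)) 12 4 (by norm_num) q12
  · obtain ⟨m, hm, hd⟩ := hd
    have hR : RL GR (L2 3 (s : ℤ)) m :=
      glue2 hs hm.1.ne' ((RL_two2 hm.2.1).mono fun g hg => Or.inl hg) (oddC hs hm)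
    rcases hd with rfl | rfl
    · exact build hR 6 8 (by norm_num) q6
    · exact build hR (3 ^ 1) 16 (by norm_num) (sub_of 3 1 Nat.prime_three (by norm_num) q6)
  · obtain ⟨m, h1, h2, rfl⟩ := hd
    have hm : m ≠ 0 := by
      rintro rfl
      have := zero_dvd_iff.mp h2
      exact mul_ne_zero two_ne_zero (pow_ne_zero 3 hs) this
    have h1' : 2 ^ (s.factorization 2 + 1) * s ∣ m := by
      have : 2 ^ s.factorization 2 * (2 * s) = 2 ^ (s.factorization 2 + 1) * s := by ring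
      rwa [← this]
    have h2' : m ∣ 2 ^ 1 * s ^ 3 := by rwa [pow_one]
    refine build (G := G8) (glue2 hs hm ?_ ?_) 8 6 (by norm_num) q8
    · obtain ⟨so, hso, hco⟩ := exists_factor Nat.prime_two hs
      obtain ⟨mo, hmo, hcm⟩ := exists_factor Nat.prime_two hm
      have e1 := (dvd_data hs hm hso hmo hco h1').1
      have e2 := (dvd_data' hs hm hso hmo hcm h2').1
      exact RL_b2_all (by omega) (by omega)
    · intro so mo _ _ hso hmo hco hcm
      exact RL_odd8 hco (dvd_data hs hm hso hmo hco h1').2 (dvd_data' hs hm hso hmo hcm h2').2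
  · obtain ⟨m, h1, h2, hd⟩ := hd
    have hm : m ≠ 0 := by
      rintro rfl
      have := zero_dvd_iff.mp h2
      exact mul_ne_zero two_ne_zero (pow_ne_zero 3 hs) this
    have h1' : 2 ^ 1 * s ∣ m := by rwa [pow_one]
    have h2' : m ∣ 2 ^ 1 * s ^ 3 := by rwa [pow_one]
    have hR : RL G4 (L2 3 (s : ℤ)) m := by
      refine glue2 hs hm ?_ ?_
      · obtain ⟨so, hso, hco⟩ := exists_factor Nat.prime_two hs
        obtain ⟨mo, hmo, hcm⟩ := exists_factor Nat.prime_two hm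
        have e1 := (dvd_data hs hm hso hmo hco h1').1
        have e2 := (dvd_data' hs hm hso hmo hcm h2').1
        exact RL_c2_all (by omega) (by omega)
      · intro so mo _ _ hso hmo hco hcm
        exact (RL_odd8 hco (dvd_data hs hm hso hmo hco h1').2
          (dvd_data' hs hm hso hmo hcm h2').2).mono fun g hg => Or.inr hg
    rcases hd with rfl | rfl | rfl
    · exact build hR 4 12 (by norm_num) q4
    · exact build hR (2 ^ 1) 24 (by norm_num) (sub_of 2 1 Nat.prime_two (by norm_num) q4)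
    · exact build hR (2 ^ 0) 48 (by norm_num) (sub_of 2 0 Nat.prime_two (by norm_num) q4)

theorem lower3 {s : ℕ} (hs : s ≠ 0) {d : ℕ} (hd : d ∈ D3 s) : Real (L3 3 (s : ℤ)) d := by
  rcases hd with hd | hd | hd | hd | hd | hd
  · refine ⟨L3 3 (s : ℤ), ⊤, hasCore_self (L3_smul _), fun q _ x hx => smul_mem_L3 q hx, ?_⟩
    rw [index_L3 s hs, Subgroup.index_top, mul_one, hd]
  · obtain ⟨Q, hQ⟩ := real24
    refine ⟨L3 3 (s : ℤ), Q, hasCore_self (L3_smul _), fun q _ x hx => smul_mem_L3 q hx, ?_⟩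
    rw [index_L3 s hs, index_of_card hQ (c := 2) (by norm_num), hd]
    ring
  · obtain ⟨hodd, a, b, hab, rfl⟩ := hd
    obtain ⟨hc, hne⟩ := odd_ab hodd hab
    have h1 := RL_16_three.glue (RL_16 hab) hc two_ne_zero hne
    rw [L3_inf (by rw [mul_one]; exact Nat.coprime_two_left.mpr hodd), one_mul] at h1
    have h2 := build h1 16 3 (by norm_num) q16
    have h3 : 3 * (2 * (a ^ 2 * b)) = 6 * (a ^ 2 * b) := by ring
    rwa [h3] at h2
  · obtain ⟨m, hm, rfl⟩ := hd
    exact build (glue3 hs hm.1.ne' (RL_two3 hm.2.1) (oddP hs hm)) 12 4 (by norm_num) q12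
  · obtain ⟨m, hm, hd⟩ := hd
    have hR : RL GR (L3 3 (s : ℤ)) m :=
      glue3 hs hm.1.ne' ((RL_two3 hm.2.1).mono fun g hg => Or.inl hg) (oddC hs hm)
    rcases hd with rfl | rfl
    · exact build hR 6 8 (by norm_num) q6
    · exact build hR (3 ^ 1) 16 (by norm_num) (sub_of 3 1 Nat.prime_three (by norm_num) q6)
  · obtain ⟨m, h1, h2, hd⟩ := hd
    have hm : m ≠ 0 := by
      rintro rfl
      have := zero_dvd_iff.mp h2
      exact mul_ne_zero (by norm_num) (pow_ne_zero 3 hs) this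
    have h1' : 2 ^ 1 * s ∣ m := by rwa [pow_one]
    have h2' : m ∣ 2 ^ 2 * s ^ 3 := h2
    have hR : RL G8 (L3 3 (s : ℤ)) m := by
      refine glue3 hs hm ?_ ?_
      · obtain ⟨so, hso, hco⟩ := exists_factor Nat.prime_two hs
        obtain ⟨mo, hmo, hcm⟩ := exists_factor Nat.prime_two hm
        have e1 := (dvd_data hs hm hso hmo hco h1').1
        have e2 := (dvd_data' hs hm hso hmo hcm h2').1
        exact RL_b3_all (by omega) (by omega)
      · intro so mo _ _ hso hmo hco hcm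
        exact RL_odd8 hco (dvd_data hs hm hso hmo hco h1').2
          (dvd_data' hs hm hso hmo hcm h2').2
    rcases hd with rfl | rfl | rfl | rfl
    · exact build hR 8 6 (by norm_num) q8
    · exact build hR (2 ^ 2) 12 (by norm_num) (sub_of 2 2 Nat.prime_two (by norm_num) q8)
    · exact build hR (2 ^ 1) 24 (by norm_num) (sub_of 2 1 Nat.prime_two (by norm_num) q8)
    · exact build hR (2 ^ 0) 48 (by norm_num) (sub_of 2 0 Nat.prime_two (by norm_num) q8)

end Pool.Agent.Tor
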