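import Mathlib
import Pool.Agent.Tor.Low4

/-!
# The degrees for the cubic toroids of rank four
-/

set_option autoImplicit false

namespace Pool.Agent.Tor

theorem index_ne_zero_of_core {M L : AddSubgroup (Z 3)} (h : HasCore (V := W 3) M L)
    (hL : L.index ≠ 0) : M.index ≠ 0 := by
  intro h0
  have := AddSubgroup.index_dvd_of_le (core_le h)
  rw [h0] at this
  exact hL (zero_dvd_iff.mp this)

theorem real_pos {L : AddSubgroup (Z 3)} {d : ℕ} (hL : L.index ≠ 0) (h : Real L d) : 0 < d := by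
  obtain ⟨M, Q, h1, _, rfl⟩ := h
  have h2 := index_ne_zero_of_core h1 hL
  have h3 : Q.index ≠ 0 := by
    intro h0
    have := index_dvd_48 Q
    rw [h0] at this
    norm_num at this
  exact Nat.pos_of_ne_zero (mul_ne_zero h2 h3)

theorem main1 {s : ℕ} (hs : 3 ≤ s) : Degrees (ToroidGroup 3 1 s) = D1 s := by
  have hs0 : s ≠ 0 := by omega
  ext d
  rw [degrees_toroid (faithful1 (n := 2) (by exact_mod_cast hs)), lattice31]
  constructor
  · rintro ⟨hd, M, Q, h1, h2, rfl⟩
    exact upper1 hs0 (left_ne_zero_of_mul hd.ne') h1 h2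
  · intro hd
    have hR := lower1 hs0 hd
    exact ⟨real_pos (by rw [index_L1]; exact pow_ne_zero 3 hs0) hR, hR⟩

theorem main2 {s : ℕ} (hs : 2 ≤ s) : Degrees (ToroidGroup 3 2 s) = D2 s := by
  have hs0 : s ≠ 0 := by omega
  ext d
  rw [degrees_toroid (faithful2 (n := 1) (by exact_mod_cast hs)), lattice32]
  constructor
  · rintro ⟨hd, M, Q, h1, h2, rfl⟩
    exact upper2 hs0 (left_ne_zero_of_mul hd.ne') h1 h2
  · intro hd
    have hR := lower2 hs0 hd
    exact ⟨real_pos (by
      rw [index_L2 s hs0]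
      exact mul_ne_zero two_ne_zero (pow_ne_zero 3 hs0)) hR, hR⟩

theorem main3 {s : ℕ} (hs : 2 ≤ s) : Degrees (ToroidGroup 3 3 s) = D3 s := by
  have hs0 : s ≠ 0 := by omega
  ext d
  rw [degrees_toroid (faithful3 (n := 1) (by exact_mod_cast hs)), lattice33]
  constructor
  · rintro ⟨hd, M, Q, h1, h2, rfl⟩
    exact upper3 hs0 (left_ne_zero_of_mul hd.ne') h1 h2
  · intro hd
    have hR := lower3 hs0 hd
    exact ⟨real_pos (by
      rw [index_L3 s hs0]
      exact mul_ne_zero (by norm_num) (pow_ne_zero 3 hs0)) hR, hR⟩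

end Pool.Agent.Tor
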