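import Mathlib
import Pool.Agent.Tor.Main
import Pool.Agent.Tor.Red2

/-!
# The exceptional toroid `{4,3,4}_(2,0,0)`
-/

set_option autoImplicit false

namespace Pool.Agent.Tor

/-- Pairs of integers, one for every coordinate. -/
abbrev T6 : Type := Fin 3 → ℤ × ℤ

instance actT6 : DistribMulAction (Equiv.Perm (Fin 3)) T6 where
  smul σ x := fun i => x (σ⁻¹ i)
  one_smul _ := rfl
  mul_smul _ _ _ := rfl
  smul_zero _ := rfl
  smul_add _ _ _ := rfl

theorem smul6 (σ : Equiv.Perm (Fin 3)) (x : T6) (i : Fin 3) : (σ • x) i = x (σ⁻¹ i) := rfl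

/-- The signs given by the second entries. -/
def sgn6 (x : T6) : Fin 3 → ℤˣ := fun i => (-1 : ℤˣ) ^ (x i).2

/-- The translation part given by the first entries. -/
def tra6 (x : T6) : Z 3 := fun i => (x i).1

theorem sgn6_add (x y : T6) : sgn6 (x + y) = sgn6 x * sgn6 y := by
  funext i
  show (-1 : ℤˣ) ^ ((x i).2 + (y i).2) = (-1 : ℤˣ) ^ (x i).2 * (-1 : ℤˣ) ^ (y i).2
  rw [zpow_add]

theorem sgn6_one_iff (x : T6) : sgn6 x = 1 ↔ ∀ i, (2 : ℤ) ∣ (x i).2 := by
  constructor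
  · intro h i
    have h1 : (-1 : ℤˣ) ^ (x i).2 = 1 := congrFun h i
    rcases Int.even_or_odd (x i).2 with h2 | h2
    · exact even_iff_two_dvd.mp h2
    · rw [Odd.neg_one_zpow h2] at h1
      exact absurd h1 (by decide)
  · intro h
    funext i
    exact Even.neg_one_zpow (even_iff_two_dvd.mpr (h i))

/-- The isometry given by an element of `T6`. -/
def iso6 (x : T6) : cubicGroup 3 := tr 3 (Multiplicative.ofAdd (tra6 x)) * lin 3 (sg (sgn6 x))

/-- The group of the toroid. -/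
abbrev G6 : Type := cubicGroup 3 ⧸ translations 3 1 2

theorem mem_trans2 (v : Z 3) : tr 3 (Multiplicative.ofAdd v) ∈ translations 3 1 2 ↔
    ∀ i, (2 : ℤ) ∣ v i := by
  rw [mem_translations]
  constructor
  · rintro ⟨u, hu, he⟩
    have h1 := tr_inj 3 he
    rw [Multiplicative.ofAdd.injective.eq_iff] at h1
    rw [← h1]
    rw [lattice31] at hu
    exact hu
  · intro h
    exact ⟨v, by rw [lattice31]; exact h, rfl⟩

/-- The homomorphism onto the kernel of the action on coordinates. -/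
def τ6 : Multiplicative T6 →* G6 where
  toFun x := QuotientGroup.mk (iso6 x.toAdd)
  map_one' := by
    have : iso6 (Multiplicative.toAdd (1 : Multiplicative T6)) = 1 := by
      have h1 : tra6 (Multiplicative.toAdd (1 : Multiplicative T6)) = 0 := rfl
      have h2 : sgn6 (Multiplicative.toAdd (1 : Multiplicative T6)) = 1 := by
        rw [sgn6_one_iff]
        intro i
        exact ⟨0, rfl⟩
      unfold iso6
      rw [h1, h2, sg_one, map_one, ofAdd_zero, map_one, mul_one]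
    rw [this]
    rfl
  map_mul' x y := by
    rw [← QuotientGroup.mk_mul, QuotientGroup.eq]
    obtain ⟨x, rfl⟩ : ∃ z : T6, Multiplicative.ofAdd z = x := ⟨x.toAdd, rfl⟩
    obtain ⟨y, rfl⟩ : ∃ z : T6, Multiplicative.ofAdd z = y := ⟨y.toAdd, rfl⟩
    have h1 : (iso6 (x + y))⁻¹ * (iso6 x * iso6 y) =
        (lin 3 (sg (sgn6 (x + y))))⁻¹ * tr 3 (Multiplicative.ofAdd
          (sg (sgn6 x) • tra6 y - tra6 y)) * lin 3 (sg (sgn6 (x + y))) := by
      have e1 : iso6 x * iso6 y = tr 3 (Multiplicative.ofAdd (tra6 x)) *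
          (lin 3 (sg (sgn6 x)) * tr 3 (Multiplicative.ofAdd (tra6 y)) *
            (lin 3 (sg (sgn6 x)))⁻¹) * (lin 3 (sg (sgn6 x)) * lin 3 (sg (sgn6 y))) := by
        unfold iso6
        group
      rw [e1, conj_tr, ← map_mul (lin 3), ← sg_mul, ← sgn6_add]
      unfold iso6
      have e2 : tra6 (x + y) = tra6 x + tra6 y := rfl
      have e3 : sg (sgn6 x) • tra6 y = tra6 y + (sg (sgn6 x) • tra6 y - tra6 y) := by abel
      rw [e2]
      conv_lhs => rw [e3]
      rw [ofAdd_add (tra6 x), map_mul, ofAdd_add (tra6 y), map_mul]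
      have e4 : ∀ a b : Multiplicative (Z 3), tr 3 a * tr 3 b = tr 3 b * tr 3 a := fun a b => by
        rw [← map_mul, mul_comm, map_mul]
      group
    rw [toAdd_mul, toAdd_ofAdd, toAdd_ofAdd, h1]
    have h2 : tr 3 (Multiplicative.ofAdd (sg (sgn6 x) • tra6 y - tra6 y)) ∈
        translations 3 1 2 := by
      rw [mem_trans2]
      intro i
      rw [Pi.sub_apply, sg_smul]
      exact two_dvd_sub_unit _ _
    have h3 := (translations_normal 3 1 2).conj_mem _ h2 (lin 3 (sg (sgn6 (x + y))))⁻¹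
    rw [inv_inv] at h3
    exact h3

theorem τ6_apply (x : T6) : τ6 (Multiplicative.ofAdd x) = QuotientGroup.mk (iso6 x) := rfl

/-- The section of the permutations. -/
def ℓ6 : Equiv.Perm (Fin 3) →* G6 :=
  (QuotientGroup.mk' (translations 3 1 2)).comp ((lin 3).comp SemidirectProduct.inr)

theorem ℓ6_apply (σ : Equiv.Perm (Fin 3)) : ℓ6 σ = QuotientGroup.mk (lin 3 (pm σ)) := rfl

/-- The action on the coordinates. -/
noncomputable def π6 : G6 →* Equiv.Perm (Fin 3) :=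
  QuotientGroup.lift (translations 3 1 2) (SemidirectProduct.rightHom.comp (pr 3)) (by
    intro g hg
    obtain ⟨v, _, rfl⟩ := (mem_translations g).mp hg
    have h1 : tr 3 (Multiplicative.ofAdd v) ∈ (pr 3).ker := by
      rw [ker_pr]
      exact ⟨_, rfl⟩
    rw [MonoidHom.mem_ker, MonoidHom.comp_apply, MonoidHom.mem_ker.mp h1, map_one])

theorem π6_mk (f : cubicGroup 3) : π6 (QuotientGroup.mk f) = (pr 3 f).right := rfl

theorem pr_iso6 (x : T6) : pr 3 (iso6 x) = sg (sgn6 x) := by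
  have h1 : tr 3 (Multiplicative.ofAdd (tra6 x)) ∈ (pr 3).ker := by
    rw [ker_pr]
    exact ⟨_, rfl⟩
  unfold iso6
  rw [map_mul, MonoidHom.mem_ker.mp h1, one_mul, pr_lin]

theorem eq_tr_lin (f : cubicGroup 3) : f = tr 3 (Multiplicative.ofAdd (f.1 0)) *
    lin 3 (pr 3 f) := by
  ext1
  ext1 x
  show f.1 x = pr 3 f • x + f.1 0
  exact pr_spec f x

theorem exists_T6 (v : Z 3) (ε : Fin 3 → ℤˣ) : ∃ x : T6, tra6 x = v ∧ sgn6 x = ε := by
  have h1 : ∀ i, ∃ n : ℤ, (-1 : ℤˣ) ^ n = ε i := by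
    intro i
    rcases Int.units_eq_one_or (ε i) with h | h
    · exact ⟨0, by rw [h, zpow_zero]⟩
    · exact ⟨1, by rw [h, zpow_one]⟩
  choose n hn using h1
  exact ⟨fun i => (v i, n i), rfl, funext hn⟩

theorem ker_π6 : π6.ker = τ6.range := by
  ext g
  obtain ⟨f, rfl⟩ := QuotientGroup.mk_surjective g
  rw [MonoidHom.mem_ker, π6_mk]
  constructor
  · intro h
    obtain ⟨x, hx1, hx2⟩ := exists_T6 (f.1 0) (pr 3 f).left
    refine ⟨Multiplicative.ofAdd x, ?_⟩
    rw [τ6_apply]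
    congr 1
    unfold iso6
    rw [hx1, hx2]
    conv_rhs => rw [eq_tr_lin f]
    congr 2
    ext1
    · rfl
    · exact h.symm
  · rintro ⟨x, hx⟩
    rw [← π6_mk, ← hx]
    show π6 (τ6 (Multiplicative.ofAdd x.toAdd)) = 1
    rw [τ6_apply, π6_mk, pr_iso6]
    rfl

theorem conj6 (σ : Equiv.Perm (Fin 3)) (x : T6) :
    ℓ6 σ * τ6 (Multiplicative.ofAdd x) * (ℓ6 σ)⁻¹ = τ6 (Multiplicative.ofAdd (σ • x)) := by
  rw [ℓ6_apply, τ6_apply, τ6_apply, ← QuotientGroup.mk_mul, ← QuotientGroup.mk_inv,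
    ← QuotientGroup.mk_mul]
  congr 1
  unfold iso6
  have h1 : lin 3 (pm σ) * (tr 3 (Multiplicative.ofAdd (tra6 x)) * lin 3 (sg (sgn6 x))) *
      (lin 3 (pm σ))⁻¹ = (lin 3 (pm σ) * tr 3 (Multiplicative.ofAdd (tra6 x)) *
        (lin 3 (pm σ))⁻¹) * lin 3 (pm σ * sg (sgn6 x) * (pm σ)⁻¹) := by
    rw [map_mul, map_mul, map_inv]
    group
  rw [h1, conj_tr]
  congr 2
  · congr 1
    funext i
    rw [pm_smul]
    rfl
  · rw [mul_inv_eq_iff_eq_mul]
    ext1
    · funext i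
      show (1 : Fin 3 → ℤˣ) i * sgn6 x (σ⁻¹ i) = sgn6 (σ • x) i *
        (1 : Fin 3 → ℤˣ) ((1 : Equiv.Perm (Fin 3))⁻¹ i)
      simp only [Pi.one_apply, one_mul, mul_one]
      rfl
    · rfl

/-- The even elements. -/
def E6 : AddSubgroup T6 where
  carrier := {x | ∀ i, (2 : ℤ) ∣ (x i).1 ∧ (2 : ℤ) ∣ (x i).2}
  add_mem' ha hb i := ⟨dvd_add (ha i).1 (hb i).1, dvd_add (ha i).2 (hb i).2⟩
  zero_mem' _ := ⟨dvd_zero _, dvd_zero _⟩
  neg_mem' ha i := ⟨(dvd_neg).mpr (ha i).1, (dvd_neg).mpr (ha i).2⟩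

theorem mem_E6 {x : T6} : x ∈ E6 ↔ ∀ i, (2 : ℤ) ∣ (x i).1 ∧ (2 : ℤ) ∣ (x i).2 := Iff.rfl

theorem τ6_mem (x : T6) : τ6 (Multiplicative.ofAdd x) ∈ (⊥ : Subgroup G6) ↔ x ∈ E6 := by
  rw [Subgroup.mem_bot, τ6_apply, QuotientGroup.eq_one_iff, mem_E6]
  constructor
  · intro h
    obtain ⟨v, hv, he⟩ := (mem_translations _).mp h
    have h1 : pr 3 (iso6 x) = 1 := by
      have h2 : iso6 x ∈ (pr 3).ker := by
        rw [ker_pr, ← he]
        exact ⟨_, rfl⟩
      exact h2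
    rw [pr_iso6, ← sg_one] at h1
    have h2 : sgn6 x = 1 := SemidirectProduct.inl_injective h1
    have h3 := (sgn6_one_iff x).mp h2
    unfold iso6 at he
    rw [h2, sg_one, map_one, mul_one] at he
    have h4 := tr_inj 3 he
    rw [Multiplicative.ofAdd.injective.eq_iff] at h4
    rw [lattice31] at hv
    intro i
    refine ⟨?_, h3 i⟩
    have h5 : (x i).1 = v i := by rw [h4]; rfl
    rw [h5]
    exact hv i
  · intro h
    have h2 : sgn6 x = 1 := (sgn6_one_iff x).mpr fun i => (h i).2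
    unfold iso6
    rw [h2, sg_one, map_one, mul_one, mem_trans2]
    exact fun i => (h i).1

theorem faithful6 (σ : Equiv.Perm (Fin 3)) (h : ∀ x : T6, x - σ • x ∈ E6) : σ = 1 := by
  ext1 i
  by_contra hne
  have h1 := (h (Pi.single i (1, 0)) i).1
  rw [Pi.sub_apply, smul6, Pi.single_eq_same] at h1
  have h2 : σ⁻¹ i ≠ i := by
    intro h3
    apply hne
    have := congrArg σ h3
    rw [Equiv.Perm.coe_one, id]
    rw [show σ (σ⁻¹ i) = i from Equiv.apply_symm_apply σ i] at this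
    exact this.symm
  rw [Pi.single_eq_of_ne h2, sub_zero] at h1
  norm_num at h1

theorem degrees6 (d : ℕ) : d ∈ Degrees (ToroidGroup 3 1 2) ↔ 0 < d ∧
    ∃ (M : AddSubgroup T6) (Q : Subgroup (Equiv.Perm (Fin 3))),
      HasCore (V := Equiv.Perm (Fin 3)) M E6 ∧ Stable Q M ∧ M.index * Q.index = d := by
  have h1 := core_abstract τ6 ℓ6 π6 (fun σ => by rw [ℓ6_apply, π6_mk, pr_lin]; rfl) ker_π6 conj6 E6
    (⊥ : Subgroup G6) bot_le τ6_mem faithful6 d
  rw [← h1]
  exact mem_degrees_iff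

end Pool.Agent.Tor
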