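import Mathlib
import Pool.Agent.Tor.STwo

/-!
# The degrees for `{4,3,4}_(2,0,0)`
-/

set_option autoImplicit false

namespace Pool.Agent.Tor

theorem index_comap_diag' {A : Type} [AddCommGroup A] {n : ℕ} (F : A →+ Z n) (a : Fin n → ℕ)
    (h : ∀ y : Z n, ∃ x, ∀ i, (a i : ℤ) ∣ F x i - y i) :
    ((diag a).comap F).index = ∏ i, a i := by
  rw [AddSubgroup.index_comap, ← index_diag, ← AddSubgroup.relIndex_sup_right]
  have : F.range ⊔ diag a = ⊤ := by
    rw [eq_top_iff]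
    intro y _
    obtain ⟨x, hx⟩ := h y
    have h1 : y = F x + (y - F x) := by abel
    rw [h1]
    refine AddSubgroup.add_mem_sup ⟨x, rfl⟩ ?_
    intro i
    have h2 : (y - F x) i = - (F x i - y i) := by
      rw [Pi.sub_apply]
      ring
    rw [h2]
    exact (dvd_neg).mpr (hx i)
  rw [this, AddSubgroup.relIndex_top_right]

/-- The coordinates used for the lattices stable under a transposition. -/
def F6 : T6 →+ Z 6 where
  toFun x := ![(x 2).1, (x 2).2, (x 0).1 + (x 1).1, (x 0).2 + (x 1).2, (x 0).1, (x 0).2]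
  map_zero' := by
    funext i
    fin_cases i <;> simp
  map_add' x y := by
    funext i
    fin_cases i <;> simp [add_add_add_comm]

theorem mem_F6 {a : Fin 6 → ℕ} {x : T6} : x ∈ (diag a).comap F6 ↔
    (a 0 : ℤ) ∣ (x 2).1 ∧ (a 1 : ℤ) ∣ (x 2).2 ∧ (a 2 : ℤ) ∣ (x 0).1 + (x 1).1 ∧
      (a 3 : ℤ) ∣ (x 0).2 + (x 1).2 ∧ (a 4 : ℤ) ∣ (x 0).1 ∧ (a 5 : ℤ) ∣ (x 0).2 := by
  rw [AddSubgroup.mem_comap, mem_diag]
  constructor
  · intro h
    exact ⟨h 0, h 1, h 2, h 3, h 4, h 5⟩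
  · rintro ⟨h0, h1, h2, h3, h4, h5⟩ i
    fin_cases i
    · exact h0
    · exact h1
    · exact h2
    · exact h3
    · exact h4
    · exact h5

theorem index_F6 (a : Fin 6 → ℕ) : ((diag a).comap F6).index = ∏ i, a i := by
  apply index_comap_diag'
  intro y
  refine ⟨fun i => if i = 0 then (y 4, y 5) else if i = 1 then (y 2 - y 4, y 3 - y 5) else
    (y 0, y 1), fun i => ?_⟩
  refine ⟨0, ?_⟩
  fin_cases i <;> simp [F6]

theorem E6_smul (σ : Equiv.Perm (Fin 3)) (x : T6) (hx : x ∈ E6) : σ • x ∈ E6 := fun _ => hx _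

theorem stab_of6 {M : AddSubgroup T6} {σ : Equiv.Perm (Fin 3)} (h : ∀ x ∈ M, σ • x ∈ M)
    (n : ℤ) : ∀ x ∈ M, (σ ^ n) • x ∈ M := by
  have hnat : ∀ n : ℕ, ∀ x ∈ M, (σ ^ n) • x ∈ M := by
    intro n
    induction n with
    | zero =>
      intro x hx
      rw [pow_zero, one_smul]
      exact hx
    | succ n ih =>
      intro x hx
      rw [pow_succ, mul_smul]
      exact ih _ (h x hx)
  obtain ⟨m, hm⟩ : ∃ m : ℕ, σ ^ n = σ ^ m := by
    have h1 : σ ^ n ∈ Subgroup.zpowers σ := ⟨n, rfl⟩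
    rw [← mem_powers_iff_mem_zpowers] at h1
    obtain ⟨m, hm⟩ := h1
    exact ⟨m, hm.symm⟩
  rw [hm]
  exact hnat m

/-- The lattices with the last coordinate even. -/
theorem real6_swap (a : Fin 6 → ℕ) (h0 : a 0 = 2) (h1 : a 1 = 2) (hd : ∀ i, a i ∣ 2)
    (h24 : a 4 ∣ a 2) (h35 : a 5 ∣ a 3) :
    HasCore (V := Equiv.Perm (Fin 3)) ((diag a).comap F6) E6 ∧
      ∀ x ∈ (diag a).comap F6, Equiv.swap (0 : Fin 3) 1 • x ∈ (diag a).comap F6 := by
  have hd' : ∀ i, (a i : ℤ) ∣ 2 := fun i => by exact_mod_cast hd i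
  constructor
  · intro x
    constructor
    · intro h i
      have h2 := mem_F6.mp (h (Equiv.swap i 2))
      rw [h0, h1, smul6, Equiv.swap_inv, Equiv.swap_apply_right] at h2
      exact ⟨h2.1, h2.2.1⟩
    · intro h σ
      have h2 := E6_smul σ x h
      rw [mem_F6]
      exact ⟨(hd' _).trans (h2 2).1, (hd' _).trans (h2 2).2,
        (hd' _).trans (dvd_add (h2 0).1 (h2 1).1), (hd' _).trans (dvd_add (h2 0).2 (h2 1).2),
        (hd' _).trans (h2 0).1, (hd' _).trans (h2 0).2⟩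
  · intro x hx
    rw [mem_F6] at hx ⊢
    obtain ⟨k0, k1, k2, k3, k4, k5⟩ := hx
    have e0 : (Equiv.swap (0 : Fin 3) 1 • x) 0 = x 1 := by
      rw [smul6]
      congr 1
    have e1 : (Equiv.swap (0 : Fin 3) 1 • x) 1 = x 0 := by
      rw [smul6]
      congr 1
    have e2 : (Equiv.swap (0 : Fin 3) 1 • x) 2 = x 2 := by
      rw [smul6]
      congr 1
    rw [e0, e1, e2]
    have h24' : (a 4 : ℤ) ∣ a 2 := by exact_mod_cast h24
    have h35' : (a 5 : ℤ) ∣ a 3 := by exact_mod_cast h35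
    refine ⟨k0, k1, by rw [add_comm]; exact k2, by rw [add_comm]; exact k3, ?_, ?_⟩
    · have : (x 1).1 = ((x 0).1 + (x 1).1) - (x 0).1 := by ring
      rw [this]
      exact dvd_sub (h24'.trans k2) k4
    · have : (x 1).2 = ((x 0).2 + (x 1).2) - (x 0).2 := by ring
      rw [this]
      exact dvd_sub (h35'.trans k3) k5

/-- The realised degrees. -/
def Real6 (d : ℕ) : Prop := ∃ (M : AddSubgroup T6) (Q : Subgroup (Equiv.Perm (Fin 3))),
      HasCore (V := Equiv.Perm (Fin 3)) M E6 ∧ Stable Q M ∧ M.index * Q.index = d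

theorem card_perm3 : Nat.card (Equiv.Perm (Fin 3)) = 6 := by
  rw [Nat.card_eq_fintype_card, Fintype.card_perm]
  rfl

theorem index_swap01 : (Subgroup.zpowers (Equiv.swap (0 : Fin 3) 1)).index = 3 := by
  have h2 := Subgroup.card_mul_index (Subgroup.zpowers (Equiv.swap (0 : Fin 3) 1))
  rw [card_zpowers_swap (by decide), card_perm3] at h2
  omega

theorem real6_three (a : Fin 6 → ℕ) (h0 : a 0 = 2) (h1 : a 1 = 2) (hd : ∀ i, a i ∣ 2)
    (h24 : a 4 ∣ a 2) (h35 : a 5 ∣ a 3) : Real6 ((∏ i, a i) * 3) := by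
  obtain ⟨hc, hs⟩ := real6_swap a h0 h1 hd h24 h35
  refine ⟨_, Subgroup.zpowers (Equiv.swap (0 : Fin 3) 1), hc, ?_, ?_⟩
  · rintro q ⟨n, rfl⟩ x hx
    exact stab_of6 hs n x hx
  · rw [index_F6, index_swap01]

theorem real6_six (a : Fin 6 → ℕ) (h0 : a 0 = 2) (h1 : a 1 = 2) (hd : ∀ i, a i ∣ 2)
    (h24 : a 4 ∣ a 2) (h35 : a 5 ∣ a 3) : Real6 ((∏ i, a i) * 6) := by
  obtain ⟨hc, _⟩ := real6_swap a h0 h1 hd h24 h35
  refine ⟨_, ⊥, hc, ?_, ?_⟩
  · intro q hq x hx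
    rw [Subgroup.mem_bot.mp hq, one_smul]
    exact hx
  · rw [index_F6, Subgroup.index_bot, card_perm3]

theorem core_E6 : HasCore (V := Equiv.Perm (Fin 3)) E6 E6 := fun x =>
  ⟨fun h => by
    have := h 1
    rwa [one_smul] at this, fun h σ => E6_smul σ x h⟩

theorem index_E6 : E6.index = 64 := by
  have h : E6 = (diag (fun _ : Fin 6 => 2)).comap F6 := by
    ext x
    rw [mem_E6, mem_F6, forall3]
    push_cast
    constructor
    · rintro ⟨⟨a, b⟩, ⟨c, d⟩, e, f⟩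
      exact ⟨e, f, dvd_add a c, dvd_add b d, a, b⟩
    · rintro ⟨a, b, c, d, e, f⟩
      refine ⟨⟨e, f⟩, ⟨?_, ?_⟩, a, b⟩
      · have : (x 1).1 = ((x 0).1 + (x 1).1) - (x 0).1 := by ring
        rw [this]
        exact dvd_sub c e
      · have : (x 1).2 = ((x 0).2 + (x 1).2) - (x 0).2 := by ring
        rw [this]
        exact dvd_sub d f
  rw [h, index_F6]
  simp

theorem index_rot : (Subgroup.zpowers rot).index = 2 := by
  have h2 := Subgroup.card_mul_index (Subgroup.zpowers rot)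
  rw [card_zpowers_rot, card_perm3] at h2
  omega

/-- The coordinates used for the lattice stable under the rotation. -/
def F6' : T6 →+ Z 6 where
  toFun x := ![(x 0).1 + (x 1).1 + (x 2).1, (x 0).2 - (x 2).1, (x 1).2 - (x 0).1,
    (x 2).2 - (x 1).1, (x 0).1, (x 1).1]
  map_zero' := by
    funext i
    fin_cases i <;> simp
  map_add' x y := by
    funext i
    fin_cases i
    · show ((x 0).1 + (y 0).1) + ((x 1).1 + (y 1).1) + ((x 2).1 + (y 2).1) =
        ((x 0).1 + (x 1).1 + (x 2).1) + ((y 0).1 + (y 1).1 + (y 2).1)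
      ring
    · show ((x 0).2 + (y 0).2) - ((x 2).1 + (y 2).1) = ((x 0).2 - (x 2).1) + ((y 0).2 - (y 2).1)
      ring
    · show ((x 1).2 + (y 1).2) - ((x 0).1 + (y 0).1) = ((x 1).2 - (x 0).1) + ((y 1).2 - (y 0).1)
      ring
    · show ((x 2).2 + (y 2).2) - ((x 1).1 + (y 1).1) = ((x 2).2 - (x 1).1) + ((y 2).2 - (y 1).1)
      ring
    · rfl
    · rfl

theorem mem_F6' {x : T6} : x ∈ (diag ![2, 2, 2, 2, 1, 1]).comap F6' ↔
    (2 : ℤ) ∣ (x 0).1 + (x 1).1 + (x 2).1 ∧ (2 : ℤ) ∣ (x 0).2 - (x 2).1 ∧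
      (2 : ℤ) ∣ (x 1).2 - (x 0).1 ∧ (2 : ℤ) ∣ (x 2).2 - (x 1).1 := by
  rw [AddSubgroup.mem_comap, mem_diag]
  constructor
  · intro h
    exact ⟨h 0, h 1, h 2, h 3⟩
  · rintro ⟨h0, h1, h2, h3⟩ i
    fin_cases i
    · exact h0
    · exact h1
    · exact h2
    · exact h3
    · exact one_dvd _
    · exact one_dvd _

theorem index_F6' : ((diag ![2, 2, 2, 2, 1, 1]).comap F6').index = 16 := by
  rw [index_comap_diag']
  · rfl
  · intro y
    refine ⟨fun i => if i = 0 then (y 4, y 1 + (y 0 - y 4 - y 5)) else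
      if i = 1 then (y 5, y 2 + y 4) else (y 0 - y 4 - y 5, y 3 + y 5), fun i => ⟨0, ?_⟩⟩
    fin_cases i
    · show y 4 + y 5 + (y 0 - y 4 - y 5) - y 0 = _
      ring
    · show y 1 + (y 0 - y 4 - y 5) - (y 0 - y 4 - y 5) - y 1 = _
      ring
    · show y 2 + y 4 - y 4 - y 2 = _
      ring
    · show y 3 + y 5 - y 5 - y 3 = _
      ring
    · show y 4 - y 4 = _
      ring
    · show y 5 - y 5 = _
      ring

theorem rot6 (x : T6) : (rot • x) 0 = x 2 ∧ (rot • x) 1 = x 0 ∧ (rot • x) 2 = x 1 := by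
  have e0 : (rot⁻¹ : Equiv.Perm (Fin 3)) 0 = 2 := by decide
  have e1 : (rot⁻¹ : Equiv.Perm (Fin 3)) 1 = 0 := by decide
  have e2 : (rot⁻¹ : Equiv.Perm (Fin 3)) 2 = 1 := by decide
  rw [smul6, smul6, smul6, e0, e1, e2]
  exact ⟨rfl, rfl, rfl⟩

theorem swap6 (x : T6) : (Equiv.swap (0 : Fin 3) 1 • x) 0 = x 1 ∧
    (Equiv.swap (0 : Fin 3) 1 • x) 1 = x 0 ∧ (Equiv.swap (0 : Fin 3) 1 • x) 2 = x 2 := by
  have e0 : ((Equiv.swap 0 1)⁻¹ : Equiv.Perm (Fin 3)) 0 = 1 := by decide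
  have e1 : ((Equiv.swap 0 1)⁻¹ : Equiv.Perm (Fin 3)) 1 = 0 := by decide
  have e2 : ((Equiv.swap 0 1)⁻¹ : Equiv.Perm (Fin 3)) 2 = 2 := by decide
  rw [smul6, smul6, smul6, e0, e1, e2]
  exact ⟨rfl, rfl, rfl⟩

theorem real6_32 : Real6 32 := by
  refine ⟨(diag ![2, 2, 2, 2, 1, 1]).comap F6', Subgroup.zpowers rot, fun x => ⟨fun h => ?_,
    fun h σ => ?_⟩, ?_, ?_⟩
  · have h1 := mem_F6'.mp (h 1)
    rw [one_smul] at h1
    have h2 := mem_F6'.mp (h (Equiv.swap 0 1))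
    rw [(swap6 x).1, (swap6 x).2.1, (swap6 x).2.2] at h2
    obtain ⟨a1, a2, a3, a4⟩ := h1
    obtain ⟨b1, b2, b3, b4⟩ := h2
    rw [mem_E6, forall3]
    omega
  · have h1 := E6_smul σ x h
    rw [mem_F6']
    have c0 := h1 0
    have c1 := h1 1
    have c2 := h1 2
    omega
  · rintro q ⟨n, rfl⟩ x hx
    refine stab_of6 (fun x hx => ?_) n x hx
    rw [mem_F6'] at hx ⊢
    rw [(rot6 x).1, (rot6 x).2.1, (rot6 x).2.2]
    omega
  · rw [index_F6', index_rot]

theorem lower6 {d : ℕ} (hd : d ∈ ({12, 24, 32, 48, 64, 96, 128, 192, 384} : Set ℕ)) :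
    Real6 d := by
  have key : ∀ a : Fin 6 → ℕ, a 0 = 2 → a 1 = 2 → (∀ i, a i ∣ 2) → a 4 ∣ a 2 → a 5 ∣ a 3 →
    Real6 ((∏ i, a i) * 3) ∧ Real6 ((∏ i, a i) * 6) := fun a h0 h1 h2 h3 h4 =>
      ⟨real6_three a h0 h1 h2 h3 h4, real6_six a h0 h1 h2 h3 h4⟩
  have k2 := key ![2, 2, 1, 1, 1, 1] rfl rfl (by decide) (by decide) (by decide)
  have k3 := key ![2, 2, 2, 1, 1, 1] rfl rfl (by decide) (by decide) (by decide)
  have k4 := key ![2, 2, 2, 2, 1, 1] rfl rfl (by decide) (by decide) (by decide)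
  have k5 := key ![2, 2, 2, 2, 2, 1] rfl rfl (by decide) (by decide) (by decide)
  have k6 := key ![2, 2, 2, 2, 2, 2] rfl rfl (by decide) (by decide) (by decide)
  have e2 : ∏ i, (![2, 2, 1, 1, 1, 1] : Fin 6 → ℕ) i = 4 := by decide
  have e3 : ∏ i, (![2, 2, 2, 1, 1, 1] : Fin 6 → ℕ) i = 8 := by decide
  have e4 : ∏ i, (![2, 2, 2, 2, 1, 1] : Fin 6 → ℕ) i = 16 := by decide
  have e5 : ∏ i, (![2, 2, 2, 2, 2, 1] : Fin 6 → ℕ) i = 32 := by decide
  have e6 : ∏ i, (![2, 2, 2, 2, 2, 2] : Fin 6 → ℕ) i = 64 := by decide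
  rw [e2] at k2
  rw [e3] at k3
  rw [e4] at k4
  rw [e5] at k5
  rw [e6] at k6
  simp only [Set.mem_insert_iff, Set.mem_singleton_iff] at hd
  rcases hd with rfl | rfl | rfl | rfl | rfl | rfl | rfl | rfl | rfl
  · exact k2.1
  · exact k2.2
  · exact real6_32
  · exact k3.2
  · refine ⟨E6, ⊤, core_E6, fun q _ x hx => E6_smul q x hx, ?_⟩
    rw [index_E6, Subgroup.index_top]
  · exact k4.2
  · refine ⟨E6, Subgroup.zpowers rot, core_E6, fun q _ x hx => E6_smul q x hx, ?_⟩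
    rw [index_E6, index_rot]
  · exact k5.2
  · exact k6.2

/-! ### Upper bound -/

/-- A pair of nested rotation-stable groups with relative index two cannot occur. -/
theorem no_two {K M : AddSubgroup T6} (h2 : K.relIndex M = 2)
    (hr : ∀ x ∈ M, rot • x ∈ M) (hrK : ∀ x, rot • x ∈ K → x ∈ K)
    (hs : ∀ x ∈ M, x + rot • x + rot • rot • x ∈ K) : False := by
  obtain ⟨⟨x, hx⟩, hxK⟩ : ∃ x : M, x ∉ K.addSubgroupOf M := by
    by_contra hc
    push Not at hc
    have h3 : K.addSubgroupOf M = ⊤ := by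
      rw [eq_top_iff]
      exact fun x _ => hc x
    have h4 : (K.addSubgroupOf M).index = 2 := h2
    rw [h3, AddSubgroup.index_top] at h4
    omega
  have hx' : x ∉ K := hxK
  have hrx : rot • x ∉ K := fun h => hx' (hrK x h)
  have h3 := AddSubgroup.add_mem_iff_of_index_two (H := K.addSubgroupOf M) h2
    (a := ⟨x, hx⟩) (b := ⟨rot • x, hr x hx⟩)
  have h4 : x + rot • x ∈ K := h3.mpr ⟨fun h => absurd h hx', fun h => absurd h hrx⟩
  have h5 := sub_mem (hs x hx) h4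
  rw [add_sub_cancel_left] at h5
  exact hx' (hrK x (hrK _ h5))

/-- The constant vectors. -/
def const6 : ℤ × ℤ →+ T6 where
  toFun v := fun _ => v
  map_zero' := rfl
  map_add' _ _ := rfl

theorem const_mem6 {M : AddSubgroup T6} (hc : HasCore (V := Equiv.Perm (Fin 3)) M E6)
    {v : ℤ × ℤ} (h : const6 v ∈ M) : (2 : ℤ) ∣ v.1 ∧ (2 : ℤ) ∣ v.2 := by
  have h1 : const6 v ∈ E6 := by
    rw [← hc]
    intro σ
    exact h
  exact h1 0

theorem four_dvd {M : AddSubgroup T6} (hc : HasCore (V := Equiv.Perm (Fin 3)) M E6) :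
    4 ∣ M.index := by
  have h1 : M.relIndex const6.range ∣ M.index := AddSubgroup.relIndex_dvd_index_of_normal M _
  rw [← AddSubgroup.index_comap] at h1
  have h2 : M.comap const6 = (diag (fun _ : Fin 2 => 2)).comap
      (⟨⟨fun v => ![v.1, v.2], by funext i; fin_cases i <;> rfl⟩, fun x y => by
        funext i; fin_cases i <;> rfl⟩ : ℤ × ℤ →+ Z 2) := by
    ext v
    rw [AddSubgroup.mem_comap, AddSubgroup.mem_comap, mem_diag, Fin.forall_fin_two]
    constructor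
    · intro h
      exact const_mem6 hc h
    · rintro ⟨h3, h4⟩
      have h5 : const6 v ∈ E6 := fun _ => ⟨h3, h4⟩
      have := (hc _).mpr h5 1
      rwa [one_smul] at this
  rw [h2, index_comap_diag'] at h1
  · have h3 : ∏ _i : Fin 2, 2 = 4 := rfl
    rw [h3] at h1
    exact h1
  · intro y
    refine ⟨(y 0, y 1), fun i => ⟨0, ?_⟩⟩
    fin_cases i
    · show y 0 - y 0 = _
      ring
    · show y 1 - y 1 = _
      ring

/-- The vectors with even coordinate sums. -/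
def S6 : AddSubgroup T6 where
  carrier := {x | (2 : ℤ) ∣ (x 0).1 + (x 1).1 + (x 2).1 ∧ (2 : ℤ) ∣ (x 0).2 + (x 1).2 + (x 2).2}
  add_mem' {a b} ha hb := by
    obtain ⟨h1, h2⟩ := ha
    obtain ⟨h3, h4⟩ := hb
    refine ⟨?_, ?_⟩
    · show (2 : ℤ) ∣ ((a 0).1 + (b 0).1) + ((a 1).1 + (b 1).1) + ((a 2).1 + (b 2).1)
      omega
    · show (2 : ℤ) ∣ ((a 0).2 + (b 0).2) + ((a 1).2 + (b 1).2) + ((a 2).2 + (b 2).2)
      omega
  zero_mem' := ⟨⟨0, rfl⟩, ⟨0, rfl⟩⟩
  neg_mem' {a} ha := by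
    obtain ⟨h1, h2⟩ := ha
    refine ⟨?_, ?_⟩
    · show (2 : ℤ) ∣ (-(a 0).1) + (-(a 1).1) + (-(a 2).1)
      omega
    · show (2 : ℤ) ∣ (-(a 0).2) + (-(a 1).2) + (-(a 2).2)
      omega

theorem mem_S6 {x : T6} : x ∈ S6 ↔ (2 : ℤ) ∣ (x 0).1 + (x 1).1 + (x 2).1 ∧
    (2 : ℤ) ∣ (x 0).2 + (x 1).2 + (x 2).2 := Iff.rfl

theorem sum_rot6 (x : T6) : x + rot • x + rot • rot • x =
    const6 ((x 0).1 + (x 1).1 + (x 2).1, (x 0).2 + (x 1).2 + (x 2).2) := by
  funext i
  fin_cases i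
  · show x 0 + (rot • x) 0 + (rot • rot • x) 0 = _
    rw [(rot6 x).1, (rot6 _).1, (rot6 x).2.2]
    refine Prod.ext ?_ ?_
    · show (x 0).1 + (x 2).1 + (x 1).1 = (x 0).1 + (x 1).1 + (x 2).1
      ring
    · show (x 0).2 + (x 2).2 + (x 1).2 = (x 0).2 + (x 1).2 + (x 2).2
      ring
  · show x 1 + (rot • x) 1 + (rot • rot • x) 1 = _
    rw [(rot6 x).2.1, (rot6 _).2.1, (rot6 x).1]
    refine Prod.ext ?_ ?_
    · show (x 1).1 + (x 0).1 + (x 2).1 = (x 0).1 + (x 1).1 + (x 2).1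
      ring
    · show (x 1).2 + (x 0).2 + (x 2).2 = (x 0).2 + (x 1).2 + (x 2).2
      ring
  · show x 2 + (rot • x) 2 + (rot • rot • x) 2 = _
    rw [(rot6 x).2.2, (rot6 _).2.2, (rot6 x).2.1]
    refine Prod.ext ?_ ?_
    · show (x 2).1 + (x 1).1 + (x 0).1 = (x 0).1 + (x 1).1 + (x 2).1
      ring
    · show (x 2).2 + (x 1).2 + (x 0).2 = (x 0).2 + (x 1).2 + (x 2).2
      ring

theorem index_S6 : S6.index = 4 := by
  have h : S6 = (diag (fun _ : Fin 2 => 2)).comap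
      (⟨⟨fun x => ![(x 0).1 + (x 1).1 + (x 2).1, (x 0).2 + (x 1).2 + (x 2).2], by
        funext i; fin_cases i <;> rfl⟩, fun x y => by
        funext i
        fin_cases i
        · show ((x 0).1 + (y 0).1) + ((x 1).1 + (y 1).1) + ((x 2).1 + (y 2).1) =
            ((x 0).1 + (x 1).1 + (x 2).1) + ((y 0).1 + (y 1).1 + (y 2).1)
          ring
        · show ((x 0).2 + (y 0).2) + ((x 1).2 + (y 1).2) + ((x 2).2 + (y 2).2) =
            ((x 0).2 + (x 1).2 + (x 2).2) + ((y 0).2 + (y 1).2 + (y 2).2)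
          ring⟩ : T6 →+ Z 2) := by
    ext x
    rw [AddSubgroup.mem_comap, mem_diag, Fin.forall_fin_two]
    exact Iff.rfl
  rw [h, index_comap_diag']
  · rfl
  · intro y
    refine ⟨fun i => if i = 0 then (y 0, y 1) else (0, 0), fun i => ⟨0, ?_⟩⟩
    fin_cases i
    · show y 0 + 0 + 0 - y 0 = _
      ring
    · show y 1 + 0 + 0 - y 1 = _
      ring

theorem upper6_two {M : AddSubgroup T6} (hc : HasCore (V := Equiv.Perm (Fin 3)) M E6)
    (hr : ∀ x, rot • x ∈ M ↔ x ∈ M) : M.index = 16 ∨ M.index = 64 := by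
  have hle : E6 ≤ M := fun x hx => by
    have := (hc x).mpr hx 1
    rwa [one_smul] at this
  have hMS : M ≤ S6 := by
    intro x hx
    have h1 := add_mem (add_mem hx ((hr _).mpr hx)) ((hr _).mpr ((hr _).mpr hx))
    rw [sum_rot6] at h1
    exact const_mem6 hc h1
  have h1 := AddSubgroup.relIndex_mul_index hMS
  rw [index_S6] at h1
  have h2 := AddSubgroup.relIndex_mul_index hle
  rw [index_E6] at h2
  have hrS : ∀ x ∈ S6, rot • x ∈ S6 := by
    intro x hx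
    rw [mem_S6] at hx ⊢
    rw [(rot6 x).1, (rot6 x).2.1, (rot6 x).2.2]
    omega
  have hsM : ∀ x ∈ S6, x + rot • x + rot • rot • x ∈ E6 := by
    intro x hx
    rw [sum_rot6]
    exact fun _ => hx
  have hne1 : M.relIndex S6 ≠ 2 := fun h => no_two h hrS (fun x hx => (hr x).mp hx)
    fun x hx => hle (hsM x hx)
  have hrE : ∀ x, rot • x ∈ E6 → x ∈ E6 := by
    intro x hx
    have := E6_smul rot⁻¹ _ hx
    rwa [inv_smul_smul] at this
  have hne2 : E6.relIndex M ≠ 2 := fun h => no_two h (fun x hx => (hr x).mpr hx) hrE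
    fun x hx => hsM x (hMS hx)
  have hne0 : M.relIndex S6 ≠ 1 := by
    intro h
    have h3 : S6 ≤ M := AddSubgroup.relIndex_eq_one.mp h
    have h4 : (fun i => if i = 0 then (1, 0) else if i = 1 then (1, 0) else (0, 0) : T6) ∈ E6 := by
      rw [← hc]
      intro σ
      apply h3
      have h5 : (fun i => if i = 0 then (1, 0) else if i = 1 then (1, 0) else (0, 0) : T6) ∈
        S6 := ⟨⟨1, rfl⟩, ⟨0, rfl⟩⟩
      rw [mem_S6] at h5 ⊢
      have h6 : ∀ g : Fin 3 → ℤ, ∀ σ : Equiv.Perm (Fin 3), g (σ⁻¹ 0) + g (σ⁻¹ 1) + g (σ⁻¹ 2) =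
          g 0 + g 1 + g 2 := by
        intro g σ
        rw [← Fin.sum_univ_three (fun i => g (σ⁻¹ i)), ← Fin.sum_univ_three g]
        exact Equiv.sum_comp (σ⁻¹ : Equiv.Perm (Fin 3)) g
      rw [smul6, smul6, smul6]
      constructor
      · have := h6 (fun i => ((fun i => if i = 0 then (1, 0) else if i = 1 then (1, 0) else
          (0, 0) : T6) i).1) σ
        rw [this]
        exact h5.1
      · have := h6 (fun i => ((fun i => if i = 0 then (1, 0) else if i = 1 then (1, 0) else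
          (0, 0) : T6) i).2) σ
        rw [this]
        exact h5.2
    have := (h4 0).1
    norm_num at this
  obtain ⟨m, hm⟩ : ∃ m, m = M.relIndex S6 := ⟨_, rfl⟩
  obtain ⟨n, hn⟩ : ∃ n, n = E6.relIndex M := ⟨_, rfl⟩
  rw [← hm] at h1 hne1 hne0
  rw [← hn, ← h1] at h2
  rw [← hn] at hne2
  rw [← h1]
  have h3 : n * m = 16 := by
    have : n * (m * 4) = (n * m) * 4 := by ring
    omega
  have h4 : m ∣ 16 := ⟨n, by rw [← h3, mul_comm]⟩
  have h5 : m ∈ Nat.divisors 16 := Nat.mem_divisors.mpr ⟨h4, by norm_num⟩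
  have h6 : Nat.divisors 16 = {1, 2, 4, 8, 16} := by decide +kernel
  rw [h6] at h5
  simp only [Finset.mem_insert, Finset.mem_singleton] at h5
  rcases h5 with h | h | h | h | h
  · exact absurd h hne0
  · exact absurd h hne1
  · left; rw [h]
  · exfalso
    rw [h] at h3
    omega
  · right; rw [h]

theorem upper6 {M : AddSubgroup T6} {Q : Subgroup (Equiv.Perm (Fin 3))}
    (hc : HasCore (V := Equiv.Perm (Fin 3)) M E6) (hst : Stable Q M) :
    M.index * Q.index ∈ ({12, 24, 32, 48, 64, 96, 128, 192, 384} : Set ℕ) := by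
  have hle : E6 ≤ M := fun x hx => by
    have := (hc x).mpr hx 1
    rwa [one_smul] at this
  have h1 : M.index ∣ 64 := by
    rw [← index_E6]
    exact AddSubgroup.index_dvd_of_le hle
  have h2 := four_dvd hc
  have h3 : Q.index ∣ 6 := by
    rw [← card_perm3]
    exact Subgroup.index_dvd_card Q
  have h4 : Q.index ∈ Nat.divisors 6 := Nat.mem_divisors.mpr ⟨h3, by norm_num⟩
  have h5 : Nat.divisors 6 = {1, 2, 3, 6} := by decide +kernel
  rw [h5] at h4
  simp only [Finset.mem_insert, Finset.mem_singleton] at h4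
  have h6 : M.index ∈ Nat.divisors 64 := Nat.mem_divisors.mpr ⟨h1, by norm_num⟩
  have h7 : Nat.divisors 64 = {1, 2, 4, 8, 16, 32, 64} := by decide +kernel
  rw [h7] at h6
  simp only [Finset.mem_insert, Finset.mem_singleton] at h6
  simp only [Set.mem_insert_iff, Set.mem_singleton_iff]
  rcases h4 with h | h | h | h
  · rw [Subgroup.index_eq_one] at h
    have h8 : M = E6 := by
      apply le_antisymm _ hle
      intro x hx
      rw [← hc]
      intro σ
      exact hst σ (by rw [h]; exact Subgroup.mem_top _) x hx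
    rw [h8, index_E6, h, Subgroup.index_top]
    norm_num
  · have hrQ : rot ∈ Q := by
      have h9 : rot = rot⁻¹ ^ 2 := by decide
      rw [h9]
      exact Subgroup.sq_mem_of_index_two h _
    have h10 := upper6_two hc (fun x => (stable_iff.mp hst hrQ) x)
    rw [h]
    rcases h10 with h10 | h10 <;> rw [h10] <;> norm_num
  · rw [h]
    rcases h6 with h6 | h6 | h6 | h6 | h6 | h6 | h6 <;> rw [h6] at h2 ⊢ <;> omega
  · rw [h]
    rcases h6 with h6 | h6 | h6 | h6 | h6 | h6 | h6 <;> rw [h6] at h2 ⊢ <;> omega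

theorem main_two : Degrees (ToroidGroup 3 1 2) =
    {12, 24, 32, 48, 64, 96, 128, 192, 384} := by
  ext d
  rw [degrees6]
  constructor
  · rintro ⟨_, M, Q, h1, h2, rfl⟩
    exact upper6 h1 h2
  · intro hd
    refine ⟨?_, lower6 hd⟩
    simp only [Set.mem_insert_iff, Set.mem_singleton_iff] at hd
    omega

end Pool.Agent.Tor
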